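import Mathlib

set_option autoImplicit false
open MeasureTheory Filter Topology
open scoped InnerProductSpace ENNReal

namespace Pool.Agent.Helper139

section Proj

variable {X : Type} [MeasurableSpace X] {μ : Measure X}

/-- Measurable sets, bundled. -/
abbrev MS (X : Type) [MeasurableSpace X] : Type := {E : Set X // MeasurableSet E}

/-- The function `f` multiplied by the indicator function of `E`. -/
noncomputable def ind (E : MS X) (f : Lp ℂ 2 μ) : Lp ℂ 2 μ :=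
  MemLp.toLp ((E : Set X).indicator f) ((Lp.memLp f).indicator E.2)

lemma ind_norm_le (E : MS X) (f : Lp ℂ 2 μ) : ‖ind E f‖ ≤ ‖f‖ := by
  unfold ind
  rw [Lp.norm_toLp, Lp.norm_def]
  exact ENNReal.toReal_mono (Lp.eLpNorm_ne_top f) (eLpNorm_indicator_le _)

lemma ind_coe (E : MS X) (f : Lp ℂ 2 μ) : (ind E f : X → ℂ) =ᵐ[μ] (E : Set X).indicator f :=
  MemLp.coeFn_toLp _

lemma ind_add (E : MS X) (f g : Lp ℂ 2 μ) : ind E (f + g) = ind E f + ind E g := by
  apply Lp.ext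
  filter_upwards [Lp.coeFn_add f g, ind_coe E (f + g), ind_coe E f, ind_coe E g,
    Lp.coeFn_add (ind E f) (ind E g)] with x h1 h2 h3 h4 h5
  rw [h5, Pi.add_apply, h2, h3, h4]
  by_cases h : x ∈ (E : Set X)
  · rw [Set.indicator_of_mem h, Set.indicator_of_mem h, Set.indicator_of_mem h, h1, Pi.add_apply]
  · rw [Set.indicator_of_notMem h, Set.indicator_of_notMem h, Set.indicator_of_notMem h, add_zero]

lemma ind_smul (E : MS X) (c : ℂ) (f : Lp ℂ 2 μ) : ind E (c • f) = c • ind E f := by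
  apply Lp.ext
  filter_upwards [Lp.coeFn_smul c f, ind_coe E (c • f), ind_coe E f,
    Lp.coeFn_smul c (ind E f)] with x h1 h2 h3 h5
  rw [h5, Pi.smul_apply, h2, h3]
  by_cases h : x ∈ (E : Set X)
  · rw [Set.indicator_of_mem h, Set.indicator_of_mem h, h1, Pi.smul_apply]
  · rw [Set.indicator_of_notMem h, Set.indicator_of_notMem h, smul_zero]

/-- Multiplication by the indicator function of `E` on complex `L²`. -/
noncomputable def Q (E : MS X) : Lp ℂ 2 μ →L[ℂ] Lp ℂ 2 μ :=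
  LinearMap.mkContinuous
    { toFun := ind E
      map_add' := ind_add E
      map_smul' := ind_smul E } 1 (fun f => by
      rw [one_mul]
      exact ind_norm_le E f)

lemma Q_coe (E : MS X) (f : Lp ℂ 2 μ) : (Q E f : X → ℂ) =ᵐ[μ] (E : Set X).indicator f :=
  ind_coe E f

lemma Q_norm_le (E : MS X) (f : Lp ℂ 2 μ) : ‖Q E f‖ ≤ ‖f‖ := ind_norm_le E f

lemma Q_Q (E F : MS X) (f : Lp ℂ 2 μ) : Q E (Q F f) = Q (E ⊓ F) f := by
  apply Lp.ext
  filter_upwards [Q_coe E (Q F f), Q_coe F f, Q_coe (E ⊓ F) f] with x h1 h2 h3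
  rw [h1, h3]
  by_cases hE : x ∈ (E : Set X) <;> by_cases hF : x ∈ (F : Set X) <;> simp [hE, hF, h2]

lemma Q_comm (E F : MS X) (f : Lp ℂ 2 μ) : Q E (Q F f) = Q F (Q E f) := by
  rw [Q_Q, Q_Q, inf_comm]

lemma Q_eq_zero_iff (E : MS X) (f : Lp ℂ 2 μ) :
    Q E f = 0 ↔ ∀ᵐ x ∂μ, x ∈ (E : Set X) → f x = 0 := by
  rw [Lp.ext_iff]
  constructor
  · intro h
    filter_upwards [h, Q_coe E f, Lp.coeFn_zero ℂ 2 μ] with x h1 h2 h3 hx
    rw [h2, h3] at h1
    simpa [hx] using h1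
  · intro h
    filter_upwards [h, Q_coe E f, Lp.coeFn_zero ℂ 2 μ] with x h1 h2 h3
    rw [h2, h3]
    by_cases hx : x ∈ (E : Set X)
    · simp [hx, h1 hx]
    · simp [hx]

lemma Q_add_compl (E : MS X) (f : Lp ℂ 2 μ) : Q E f + Q Eᶜ f = f := by
  apply Lp.ext
  filter_upwards [Q_coe E f, Q_coe Eᶜ f, Lp.coeFn_add (Q E f) (Q Eᶜ f)] with x h1 h2 h3
  rw [h3, Pi.add_apply, h1, h2]
  by_cases hE : x ∈ (E : Set X) <;> simp [hE]

lemma Q_top (f : Lp ℂ 2 μ) : Q (⊤ : MS X) f = f := by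
  apply Lp.ext
  filter_upwards [Q_coe ⊤ f] with x h1
  rw [h1]; simp

lemma Q_bot (f : Lp ℂ 2 μ) : Q (⊥ : MS X) f = 0 := by
  rw [Q_eq_zero_iff]; simp

lemma Q_symm (E : MS X) (f g : Lp ℂ 2 μ) : ⟪Q E f, g⟫_ℂ = ⟪f, Q E g⟫_ℂ := by
  rw [L2.inner_def, L2.inner_def]
  apply integral_congr_ae
  filter_upwards [Q_coe E f, Q_coe E g] with x h1 h2
  rw [h1, h2]
  by_cases hE : x ∈ (E : Set X) <;> simp [hE]

lemma Q_union_eq_zero (E F : MS X) (f : Lp ℂ 2 μ) :
    Q (E ⊔ F) f = 0 ↔ Q E f = 0 ∧ Q F f = 0 := by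
  simp only [Q_eq_zero_iff]
  constructor
  · intro h
    constructor
    · filter_upwards [h] with x hx hE
      exact hx (Or.inl hE)
    · filter_upwards [h] with x hx hE
      exact hx (Or.inr hE)
  · rintro ⟨h1, h2⟩
    filter_upwards [h1, h2] with x hx1 hx2 hE
    rcases hE with hE | hE
    · exact hx1 hE
    · exact hx2 hE

lemma Q_congr (E F : MS X) (h : (E : Set X) =ᵐ[μ] (F : Set X)) (f : Lp ℂ 2 μ) :
    Q E f = Q F f := by
  apply Lp.ext
  filter_upwards [Q_coe E f, Q_coe F f, h] with x h1 h2 h3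
  rw [h1, h2]
  have h4 : x ∈ (E : Set X) ↔ x ∈ (F : Set X) := by
    have : (E : Set X) x = (F : Set X) x := h3
    exact Iff.of_eq this
  by_cases hE : x ∈ (E : Set X)
  · rw [Set.indicator_of_mem hE, Set.indicator_of_mem (h4.1 hE)]
  · rw [Set.indicator_of_notMem hE, Set.indicator_of_notMem (fun h => hE (h4.2 h))]

lemma Q_null (E : MS X) (h : μ (E : Set X) = 0) (f : Lp ℂ 2 μ) : Q E f = 0 := by
  rw [Q_eq_zero_iff]
  have : ∀ᵐ x ∂μ, x ∉ (E : Set X) := measure_eq_zero_iff_ae_notMem.1 h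
  filter_upwards [this] with x hx hE
  exact absurd hE hx

end Proj

end Pool.Agent.Helper139
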