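import Mathlib
import Pool.Agent.Helper139.Proj

set_option autoImplicit false
open MeasureTheory Filter Topology AddCircle
open scoped InnerProductSpace ENNReal ComplexConjugate

namespace Pool.Agent.Helper139

noncomputable section

instance factOne : Fact ((0 : ℝ) < 1) := ⟨one_pos⟩

/-- The circle. -/
abbrev C1 : Type := AddCircle (1 : ℝ)

/-- Normalised Haar measure on the circle. -/
abbrev mC : Measure C1 := haarAddCircle

/-- `L²` of the circle. -/
abbrev L : Type := Lp ℂ 2 mC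

/-- `ℓ²(ℤ)`. -/
abbrev l2Z : Type := lp (fun _ : ℤ => ℂ) 2

lemma two_pos' : 0 < (2 : ENNReal).toReal := by norm_num

section diag

lemma diag_summ (w : ℤ → ℝ) (C : ℝ) (h : ∀ n, |w n| ≤ C) (x : l2Z) :
    (Summable fun n => ‖(w n : ℂ) * x n‖ ^ (2 : ENNReal).toReal) ∧
    ∑' n, ‖(w n : ℂ) * x n‖ ^ (2 : ENNReal).toReal ≤ (C * ‖x‖) ^ (2 : ENNReal).toReal := by
  have hC : 0 ≤ C := (abs_nonneg _).trans (h 0)
  have key2 : ∀ (n : ℤ), ‖(w n : ℂ) * x n‖ ^ (2 : ENNReal).toReal ≤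
      C ^ (2 : ENNReal).toReal * ‖x n‖ ^ (2 : ENNReal).toReal := fun n => by
    rw [← Real.mul_rpow hC (norm_nonneg _)]
    refine Real.rpow_le_rpow (norm_nonneg _) ?_ two_pos'.le
    rw [norm_mul, Complex.norm_real, Real.norm_eq_abs]
    exact mul_le_mul_of_nonneg_right (h n) (norm_nonneg _)
  have hs : Summable fun n => ‖x n‖ ^ (2 : ENNReal).toReal := (lp.memℓp x).summable two_pos'
  have summ : Summable fun n => ‖(w n : ℂ) * x n‖ ^ (2 : ENNReal).toReal :=
    Summable.of_nonneg_of_le (fun n => Real.rpow_nonneg (norm_nonneg _) _) key2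
      (hs.mul_left _)
  refine ⟨summ, ?_⟩
  rw [Real.mul_rpow hC (norm_nonneg _), lp.norm_rpow_eq_tsum two_pos' x, ← tsum_mul_left]
  exact summ.tsum_le_tsum key2 (hs.mul_left _)

/-- Diagonal multiplication by a bounded real weight on `ℓ²(ℤ)`. -/
def diag (w : ℤ → ℝ) (C : ℝ) (h : ∀ n, |w n| ≤ C) : l2Z →L[ℂ] l2Z :=
  LinearMap.mkContinuous
    { toFun := fun x => ⟨fun n => (w n : ℂ) * x n, memℓp_gen (diag_summ w C h x).1⟩
      map_add' := fun x y => by
        ext n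
        exact mul_add (w n : ℂ) (x n) (y n)
      map_smul' := fun c x => by
        ext n
        exact mul_left_comm (w n : ℂ) c (x n) } C (fun x => by
      apply lp.norm_le_of_tsum_le two_pos'
        (mul_nonneg ((abs_nonneg _).trans (h 0)) (norm_nonneg _))
      exact (diag_summ w C h x).2)

lemma diag_apply (w : ℤ → ℝ) (C : ℝ) (h : ∀ n, |w n| ≤ C) (x : l2Z) (n : ℤ) :
    (diag w C h x) n = (w n : ℂ) * x n := rfl

lemma diag_norm_le (w : ℤ → ℝ) (C : ℝ) (h : ∀ n, |w n| ≤ C) (x : l2Z) :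
    ‖diag w C h x‖ ≤ C * ‖x‖ := by
  apply lp.norm_le_of_tsum_le two_pos'
        (mul_nonneg ((abs_nonneg _).trans (h 0)) (norm_nonneg _))
  exact (diag_summ w C h x).2

/-- Fourier multiplier with bounded real weight on `L²` of the circle. -/
def FM (w : ℤ → ℝ) (C : ℝ) (h : ∀ n, |w n| ≤ C) : L →L[ℂ] L :=
  (fourierBasis (T := (1 : ℝ))).repr.symm.toContinuousLinearEquiv.toContinuousLinearMap ∘L
    diag w C h ∘L
    (fourierBasis (T := (1 : ℝ))).repr.toContinuousLinearEquiv.toContinuousLinearMap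

/-- Fourier coefficients -/
abbrev fc (f : L) (n : ℤ) : ℂ := fourierBasis.repr f n

lemma fc_FM (w : ℤ → ℝ) (C : ℝ) (h : ∀ n, |w n| ≤ C) (f : L) (n : ℤ) :
    fc (FM w C h f) n = (w n : ℂ) * fc f n := by
  have : FM w C h f = fourierBasis.repr.symm (diag w C h (fourierBasis.repr f)) := rfl
  rw [fc, this, LinearIsometryEquiv.apply_symm_apply, diag_apply]

lemma FM_norm_le (w : ℤ → ℝ) (C : ℝ) (h : ∀ n, |w n| ≤ C) (f : L) :
    ‖FM w C h f‖ ≤ C * ‖f‖ := by
  have : FM w C h f = fourierBasis.repr.symm (diag w C h (fourierBasis.repr f)) := rfl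
  rw [this, LinearIsometryEquiv.norm_map]
  have := diag_norm_le w C h (fourierBasis.repr f)
  rwa [LinearIsometryEquiv.norm_map] at this

lemma fc_ext {f g : L} (h : ∀ n, fc f n = fc g n) : f = g := by
  apply fourierBasis.repr.injective
  ext n
  exact h n

lemma fc_eq_inner (f : L) (n : ℤ) : fc f n = ⟪fourierLp (T := (1 : ℝ)) 2 n, f⟫_ℂ := by
  rw [fc, HilbertBasis.repr_apply_apply, coe_fourierBasis]

lemma inner_eq_tsum (f g : L) : ⟪f, g⟫_ℂ = ∑' n, conj (fc f n) * fc g n := by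
  rw [← LinearIsometryEquiv.inner_map_map fourierBasis.repr f g, lp.inner_eq_tsum]
  congr 1
  ext n
  rw [RCLike.inner_apply']

lemma FM_symm (w : ℤ → ℝ) (C : ℝ) (h : ∀ n, |w n| ≤ C) (f g : L) :
    ⟪FM w C h f, g⟫_ℂ = ⟪f, FM w C h g⟫_ℂ := by
  rw [inner_eq_tsum, inner_eq_tsum]
  congr 1
  ext n
  rw [fc_FM, fc_FM, map_mul, Complex.conj_ofReal]
  ring

end diag

section riesz

/-- The exponentials. -/
abbrev e (n : ℤ) : L := fourierLp (T := (1 : ℝ)) 2 n

lemma orth_e : Orthonormal ℂ e := orthonormal_fourier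

lemma inner_Q_e (E : MS C1) (m n : ℤ) :
    ⟪e m, Q E (e n)⟫_ℂ = ⟪e (m - n), Q E (e 0)⟫_ℂ := by
  rw [L2.inner_def, L2.inner_def]
  apply integral_congr_ae
  filter_upwards [Q_coe E (e n), Q_coe E (e 0), coeFn_fourierLp (T := (1 : ℝ)) 2 m,
    coeFn_fourierLp (T := (1 : ℝ)) 2 n, coeFn_fourierLp (T := (1 : ℝ)) 2 0,
    coeFn_fourierLp (T := (1 : ℝ)) 2 (m - n)] with x h1 h2 h3 h4 h5 h6
  rw [h1, h2, h3, h6]
  by_cases hE : x ∈ (E : Set C1)
  · rw [Set.indicator_of_mem hE, Set.indicator_of_mem hE, h4, h5]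
    rw [RCLike.inner_apply', RCLike.inner_apply', ← fourier_neg, ← fourier_neg, ← fourier_add,
      ← fourier_add]
    congr 2
    ring
  · rw [Set.indicator_of_notMem hE, Set.indicator_of_notMem hE, inner_zero_right,
      inner_zero_right]

lemma pow_diff_inj_aux {a b c d : ℕ} (hab : b < a) (hcd : d < c)
    (h : (2 : ℤ) ^ a - 2 ^ b = 2 ^ c - 2 ^ d) : a = c ∧ b = d := by
  have key : ∀ {a b c d : ℕ}, b < a → d < c → (2 : ℤ) ^ a - 2 ^ b = 2 ^ c - 2 ^ d → ¬ a < c := by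
    intro a b c d hab hcd h hac
    have h1 : (2 : ℤ) ^ (a + 1) ≤ 2 ^ c := pow_le_pow_right₀ (by norm_num) hac
    have h2 : (2 : ℤ) ^ (d + 1) ≤ 2 ^ c := pow_le_pow_right₀ (by norm_num) hcd
    have h3 : (0 : ℤ) < 2 ^ b := by positivity
    rw [pow_succ] at h1 h2
    linarith
  have h1 := key hab hcd h
  have h2 := key hcd hab h.symm
  have hac : a = c := by omega
  subst hac
  refine ⟨rfl, ?_⟩
  have : (2 : ℤ) ^ b = 2 ^ d := by linarith
  exact Int.pow_right_injective (by norm_num) this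

lemma pow_diff_inj {a b c d : ℕ} (hab : a ≠ b) (hcd : c ≠ d)
    (h : (2 : ℤ) ^ a - 2 ^ b = 2 ^ c - 2 ^ d) : a = c ∧ b = d := by
  rcases lt_or_gt_of_ne hab with h1 | h1 <;> rcases lt_or_gt_of_ne hcd with h2 | h2
  · have := pow_diff_inj_aux h1 h2 (by linarith)
    exact ⟨this.2, this.1⟩
  · exfalso
    have h3 : (2 : ℤ) ^ a < 2 ^ b := pow_lt_pow_right₀ (by norm_num) h1
    have h4 : (2 : ℤ) ^ d < 2 ^ c := pow_lt_pow_right₀ (by norm_num) h2
    linarith
  · exfalso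
    have h3 : (2 : ℤ) ^ b < 2 ^ a := pow_lt_pow_right₀ (by norm_num) h1
    have h4 : (2 : ℤ) ^ c < 2 ^ d := pow_lt_pow_right₀ (by norm_num) h2
    linarith
  · exact pow_diff_inj_aux h1 h2 h

lemma pow_diff_large {N a b : ℕ} (ha : N ≤ a) (hb : N ≤ b) (hab : a ≠ b) :
    (2 : ℤ) ^ N ≤ |(2 : ℤ) ^ a - 2 ^ b| := by
  wlog h : b < a generalizing a b
  · rw [abs_sub_comm]
    exact this hb ha hab.symm (by omega)
  have h1 : (2 : ℤ) ^ (b + 1) ≤ 2 ^ a := pow_le_pow_right₀ (by norm_num) h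
  have h2 : (2 : ℤ) ^ N ≤ 2 ^ b := pow_le_pow_right₀ (by norm_num) hb
  rw [pow_succ] at h1
  have h3 : (0 : ℤ) < 2 ^ b := by positivity
  rw [abs_of_nonneg (by linarith)]
  linarith

/-- Restriction of a tail of the lacunary system to a set of positive measure. -/
lemma riesz_fin (E : MS C1) (hE : mC (E : Set C1) ≠ 0) :
    ∃ N : ℕ, ∀ (s : Finset ℤ) (c : ℤ → ℂ), (∀ n ∈ s, ∃ k ≥ N, n = 2 ^ k) →
      (mC.real (E : Set C1) / 2) * ‖∑ n ∈ s, c n • e n‖ ^ 2 ≤ ‖Q E (∑ n ∈ s, c n • e n)‖ ^ 2 := by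
  set v : ℝ := mC.real (E : Set C1) with hv
  have hvpos : 0 < v := by
    rw [hv, measureReal_def]
    exact ENNReal.toReal_pos hE (measure_ne_top _ _)
  set θ : ℤ → ℂ := fun n => ⟪e n, Q E (e 0)⟫_ℂ with hθ
  have hθ0 : θ 0 = v := by
    have : Q E (e 0) = indicatorConstLp 2 E.2 (measure_ne_top _ _) (1 : ℂ) := by
      apply Lp.ext
      filter_upwards [Q_coe E (e 0), coeFn_fourierLp (T := (1 : ℝ)) 2 0,
        indicatorConstLp_coeFn (p := 2) (hs := E.2) (hμs := measure_ne_top mC _) (c := (1 : ℂ))]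
        with x h1 h2 h3
      rw [h1, h3]
      by_cases hx : x ∈ (E : Set C1)
      · rw [Set.indicator_of_mem hx, Set.indicator_of_mem hx, h2, fourier_zero]
      · rw [Set.indicator_of_notMem hx, Set.indicator_of_notMem hx]
    rw [hθ]
    simp only
    rw [← inner_conj_symm, this, L2.inner_indicatorConstLp_one]
    have h2 : ∫ x in (E : Set C1), e 0 x ∂mC = ∫ x in (E : Set C1), (1 : ℂ) ∂mC := by
      apply integral_congr_ae
      filter_upwards [ae_restrict_of_ae (coeFn_fourierLp (T := (1 : ℝ)) 2 0)] with x h2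
      rw [h2, fourier_zero]
    rw [h2, integral_const]
    simp [hv, measureReal_def]
  have hsum : Summable fun n => ‖θ n‖ ^ 2 := by
    have := orth_e.inner_products_summable (Q E (e 0))
    exact this
  obtain ⟨F, hF⟩ := summable_iff_vanishing_norm.1 hsum ((v / 2) ^ 2) (by positivity)
  obtain ⟨N, hN⟩ : ∃ N : ℕ, ∀ m ∈ F, |m| < (2 : ℤ) ^ N := by
    have : ∀ m : ℤ, |m| < (2 : ℤ) ^ m.natAbs := by
      intro m
      have := Nat.lt_two_pow_self (n := m.natAbs)
      rw [Int.abs_eq_natAbs]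
      exact_mod_cast this
    refine ⟨F.sup Int.natAbs, fun m hm => (this m).trans_le ?_⟩
    exact pow_le_pow_right₀ (by norm_num) (Finset.le_sup (f := Int.natAbs) hm)
  refine ⟨N, fun s c hs => ?_⟩
  set A : ℝ := ∑ n ∈ s, ‖c n‖ ^ 2 with hA
  have hA0 : 0 ≤ A := Finset.sum_nonneg fun _ _ => by positivity
  have hnorm : ‖∑ n ∈ s, c n • e n‖ ^ 2 = A := by
    rw [← RCLike.ofReal_inj (K := ℂ), RCLike.ofReal_pow]
    rw [← inner_self_eq_norm_sq_to_K (𝕜 := ℂ), orth_e.inner_sum]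
    rw [hA, RCLike.ofReal_sum]
    apply Finset.sum_congr rfl
    intro n _
    rw [RCLike.ofReal_pow, ← RCLike.conj_mul]
  have hQ : ‖Q E (∑ n ∈ s, c n • e n)‖ ^ 2 =
      RCLike.re (∑ x ∈ s ×ˢ s, conj (c x.1) * c x.2 * θ (x.1 - x.2)) := by
    rw [@norm_sq_eq_re_inner ℂ, Q_symm, Q_Q, inf_idem, map_sum, sum_inner]
    congr 1
    rw [Finset.sum_product]
    apply Finset.sum_congr rfl
    intro m _
    rw [inner_sum]
    apply Finset.sum_congr rfl
    intro n _
    rw [map_smul, inner_smul_left, inner_smul_right, inner_Q_e]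
    ring
  have hsplit : ∑ x ∈ s ×ˢ s, conj (c x.1) * c x.2 * θ (x.1 - x.2) =
      (v * A : ℝ) + ∑ x ∈ s.offDiag, conj (c x.1) * c x.2 * θ (x.1 - x.2) := by
    rw [← Finset.diag_union_offDiag, Finset.sum_union (Finset.disjoint_diag_offDiag s)]
    congr 1
    rw [Finset.sum_diag]
    rw [hA, Finset.mul_sum, Complex.ofReal_sum]
    apply Finset.sum_congr rfl
    intro n _
    rw [sub_self, hθ0, Complex.ofReal_mul, Complex.ofReal_pow, ← Complex.conj_mul']
    ring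
  have hoff : ‖∑ x ∈ s.offDiag, conj (c x.1) * c x.2 * θ (x.1 - x.2)‖ ≤ A * (v / 2) := by
    calc ‖∑ x ∈ s.offDiag, conj (c x.1) * c x.2 * θ (x.1 - x.2)‖
        ≤ ∑ x ∈ s.offDiag, (‖c x.1‖ * ‖c x.2‖) * ‖θ (x.1 - x.2)‖ := by
          refine (norm_sum_le _ _).trans (le_of_eq ?_)
          apply Finset.sum_congr rfl
          intro x _
          rw [norm_mul, norm_mul, RCLike.norm_conj]
      _ ≤ √(∑ x ∈ s.offDiag, (‖c x.1‖ * ‖c x.2‖) ^ 2) * √(∑ x ∈ s.offDiag, ‖θ (x.1 - x.2)‖ ^ 2) :=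
          Real.sum_mul_le_sqrt_mul_sqrt _ _ _
      _ ≤ √(A ^ 2) * √((v / 2) ^ 2) := by
          apply mul_le_mul _ _ (Real.sqrt_nonneg _) (Real.sqrt_nonneg _)
          · apply Real.sqrt_le_sqrt
            calc ∑ x ∈ s.offDiag, (‖c x.1‖ * ‖c x.2‖) ^ 2
                ≤ ∑ x ∈ s ×ˢ s, (‖c x.1‖ * ‖c x.2‖) ^ 2 := by
                  apply Finset.sum_le_sum_of_subset_of_nonneg
                  · rw [← Finset.diag_union_offDiag]
                    exact Finset.subset_union_right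
                  · intros; positivity
              _ = A ^ 2 := by
                  rw [hA, sq, Finset.sum_mul_sum, Finset.sum_product]
                  apply Finset.sum_congr rfl
                  intro m _
                  apply Finset.sum_congr rfl
                  intro n _
                  ring
          · apply Real.sqrt_le_sqrt
            have hinj : Set.InjOn (fun x : ℤ × ℤ => x.1 - x.2) (s.offDiag : Set (ℤ × ℤ)) := by
              rintro ⟨m, n⟩ hmn ⟨m', n'⟩ hmn' h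
              rw [Finset.mem_coe, Finset.mem_offDiag] at hmn hmn'
              obtain ⟨hm, hn, hne⟩ := hmn
              obtain ⟨hm', hn', hne'⟩ := hmn'
              obtain ⟨a, _, rfl⟩ := hs _ hm
              obtain ⟨b, _, rfl⟩ := hs _ hn
              obtain ⟨a', _, rfl⟩ := hs _ hm'
              obtain ⟨b', _, rfl⟩ := hs _ hn'
              obtain ⟨h1, h2⟩ := pow_diff_inj (fun h => hne (by rw [h])) (fun h => hne' (by rw [h])) h
              rw [h1, h2]
            rw [← Finset.sum_image (f := fun n => ‖θ n‖ ^ 2) hinj]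
            have hdisj : Disjoint (s.offDiag.image fun x : ℤ × ℤ => x.1 - x.2) F := by
              rw [Finset.disjoint_left]
              intro d hd hdF
              rw [Finset.mem_image] at hd
              obtain ⟨⟨m, n⟩, hmn, rfl⟩ := hd
              rw [Finset.mem_offDiag] at hmn
              obtain ⟨hm, hn, hne⟩ := hmn
              obtain ⟨a, ha, rfl⟩ := hs _ hm
              obtain ⟨b, hb, rfl⟩ := hs _ hn
              have h1 := pow_diff_large ha hb (fun h => hne (by rw [h]))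
              have h2 := hN _ hdF
              exact absurd h1 (not_le.2 h2)
            exact (le_abs_self _).trans (hF _ hdisj).le
      _ = A * (v / 2) := by
          rw [Real.sqrt_sq hA0, Real.sqrt_sq (by positivity)]
  rw [hnorm, hQ, hsplit, map_add]
  have h1 : |RCLike.re (∑ x ∈ s.offDiag, conj (c x.1) * c x.2 * θ (x.1 - x.2))| ≤ A * (v / 2) :=
    (RCLike.abs_re_le_norm _).trans hoff
  have h2 := (abs_le.1 h1).1
  have h3 : RCLike.re ((v * A : ℝ) : ℂ) = v * A := Complex.ofReal_re _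
  rw [h3]
  linarith

lemma riesz (E : MS C1) (hE : mC (E : Set C1) ≠ 0) :
    ∃ N : ℕ, ∀ p : L, (∀ n, fc p n ≠ 0 → ∃ k ≥ N, n = 2 ^ k) →
      (mC.real (E : Set C1) / 2) * ‖p‖ ^ 2 ≤ ‖Q E p‖ ^ 2 := by
  classical
  obtain ⟨N, hN⟩ := riesz_fin E hE
  refine ⟨N, fun p hp => ?_⟩
  have hs : HasSum (fun n => fc p n • e n) p := by
    have := HilbertBasis.hasSum_repr (fourierBasis (T := (1 : ℝ))) p
    rwa [coe_fourierBasis] at this
  have ht : Tendsto (fun s : Finset ℤ => ∑ n ∈ s, fc p n • e n) atTop (𝓝 p) := hs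
  have h1 : Tendsto (fun s : Finset ℤ => (mC.real (E : Set C1) / 2) *
      ‖∑ n ∈ s, fc p n • e n‖ ^ 2) atTop (𝓝 ((mC.real (E : Set C1) / 2) * ‖p‖ ^ 2)) :=
    (ht.norm.pow 2).const_mul _
  have h2 : Tendsto (fun s : Finset ℤ => ‖Q E (∑ n ∈ s, fc p n • e n)‖ ^ 2) atTop
      (𝓝 (‖Q E p‖ ^ 2)) :=
    ((((Q E : L →L[ℂ] L).continuous.tendsto p).comp ht).norm).pow 2
  refine le_of_tendsto_of_tendsto' h1 h2 (fun s => ?_)
  have h3 : ∑ n ∈ s, fc p n • e n = ∑ n ∈ s.filter (fun n => fc p n ≠ 0), fc p n • e n := by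
    rw [Finset.sum_filter]
    apply Finset.sum_congr rfl
    intro n _
    split_ifs with h
    · rfl
    · rw [not_not] at h
      rw [h, zero_smul]
  rw [h3]
  apply hN
  intro n hn
  rw [Finset.mem_filter] at hn
  exact hp n hn.2

end riesz

section T

open Classical in
/-- The weight: `2 ^ (-k)` at `2 ^ k`, and `1` elsewhere. -/
def wt (m : ℤ) : ℝ := if ∃ k : ℕ, m = 2 ^ k then (m : ℝ)⁻¹ else 1

lemma wt_pow (k : ℕ) : wt (2 ^ k) = ((2 : ℝ) ^ k)⁻¹ := by
  rw [wt, if_pos ⟨k, rfl⟩]; push_cast; rfl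

lemma wt_pos (m : ℤ) : 0 < wt m := by
  rw [wt]
  split_ifs with h
  · obtain ⟨k, rfl⟩ := h
    push_cast; positivity
  · exact one_pos

lemma wt_le (m : ℤ) : |wt m| ≤ 1 := by
  rw [abs_of_pos (wt_pos m), wt]
  split_ifs with h
  · obtain ⟨k, rfl⟩ := h
    push_cast
    apply inv_le_one_of_one_le₀
    exact one_le_pow₀ (by norm_num)
  · exact le_rfl

/-- The Fourier multiplier with weight `wt`. -/
def T : L →L[ℂ] L := FM wt 1 wt_le

lemma fc_T (f : L) (n : ℤ) : fc (T f) n = (wt n : ℂ) * fc f n := fc_FM _ _ _ _ _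

lemma T_inj {f g : L} (h : T f = T g) : f = g := by
  apply fc_ext
  intro n
  have h1 : fc (T f) n = fc (T g) n := by rw [h]
  rw [fc_T, fc_T] at h1
  exact mul_left_cancel₀ (Complex.ofReal_ne_zero.2 (wt_pos n).ne') h1

lemma T_symm (f g : L) : ⟪T f, g⟫_ℂ = ⟪f, T g⟫_ℂ := FM_symm _ _ _ _ _

open Classical in
lemma T_lower (E : MS C1) (hE : mC (E : Set C1) ≠ 0) :
    ∃ C : ℝ, 0 < C ∧ ∀ a : L, Q E a = 0 → ‖a‖ ≤ C * ‖T a‖ := by
  obtain ⟨N, hN⟩ := riesz E hE
  set v : ℝ := mC.real (E : Set C1) with hv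
  have hvpos : 0 < v := by
    rw [hv, measureReal_def]
    exact ENNReal.toReal_pos hE (measure_ne_top _ _)
  set u : ℤ → ℝ := fun m => if ∃ k : ℕ, N ≤ k ∧ m = 2 ^ k then 0 else (wt m)⁻¹ with hu
  have hu' : ∀ m, |u m| ≤ 2 ^ N := by
    intro m
    rw [hu]
    simp only
    split_ifs with h
    · rw [abs_zero]; positivity
    · rw [abs_of_pos (inv_pos.2 (wt_pos m)), wt]
      split_ifs with h2
      · obtain ⟨k, rfl⟩ := h2
        rw [inv_inv]
        push_cast
        apply pow_le_pow_right₀ (by norm_num)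
        by_contra h3
        exact h ⟨k, by omega, rfl⟩
      · rw [inv_one]
        exact one_le_pow₀ (by norm_num)
  refine ⟨(1 + √(2 / v)) * 2 ^ N, by positivity, fun a ha => ?_⟩
  set r : L := FM u (2 ^ N) hu' (T a) with hr
  have hr1 : ‖r‖ ≤ 2 ^ N * ‖T a‖ := FM_norm_le _ _ _ _
  have hp : ∀ n, fc (a - r) n ≠ 0 → ∃ k ≥ N, n = 2 ^ k := by
    intro n hn
    by_contra h
    apply hn
    have h2 : fc (a - r) n = fc a n - fc r n := by
      rw [fc, map_sub]; rfl
    rw [h2, hr, fc_FM, fc_T, hu]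
    simp only
    rw [if_neg (fun ⟨k, hk, hk2⟩ => h ⟨k, hk, hk2⟩), ← mul_assoc, ← Complex.ofReal_mul,
      inv_mul_cancel₀ (wt_pos n).ne', Complex.ofReal_one, one_mul, sub_self]
  have h1 := hN (a - r) hp
  have h2 : ‖Q E (a - r)‖ ≤ ‖r‖ := by
    rw [map_sub, ha, zero_sub, norm_neg]
    exact Q_norm_le E r
  have h3 : ‖a - r‖ ≤ √(2 / v) * ‖r‖ := by
    rw [← Real.sqrt_sq (norm_nonneg r), ← Real.sqrt_mul (by positivity)]
    apply Real.le_sqrt_of_sq_le
    have h4 : v / 2 * ‖a - r‖ ^ 2 ≤ ‖r‖ ^ 2 :=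
      h1.trans (pow_le_pow_left₀ (norm_nonneg _) h2 2)
    calc ‖a - r‖ ^ 2 = 2 / v * (v / 2 * ‖a - r‖ ^ 2) := by field_simp
      _ ≤ 2 / v * ‖r‖ ^ 2 := mul_le_mul_of_nonneg_left h4 (by positivity)
  calc ‖a‖ = ‖r + (a - r)‖ := by rw [add_sub_cancel]
    _ ≤ ‖r‖ + ‖a - r‖ := norm_add_le _ _
    _ ≤ (1 + √(2 / v)) * ‖r‖ := by linarith
    _ ≤ (1 + √(2 / v)) * (2 ^ N * ‖T a‖) := mul_le_mul_of_nonneg_left hr1 (by positivity)
    _ = (1 + √(2 / v)) * 2 ^ N * ‖T a‖ := by ring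

end T

end

end Pool.Agent.Helper139
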