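import Mathlib
import Pool.Agent.Helper139.Four

set_option autoImplicit false
open MeasureTheory Filter Topology AddCircle
open scoped InnerProductSpace ENNReal ComplexConjugate

namespace Pool.Agent.Helper139

noncomputable section

/-- The ambient Hilbert space. -/
abbrev HH : Type := WithLp 2 (L × L)

/-- Block diagonal operators. -/
def pm (A B : L →L[ℂ] L) : HH →L[ℂ] HH :=
  (WithLp.prodContinuousLinearEquiv 2 ℂ L L).symm.toContinuousLinearMap ∘L
    (A.prodMap B) ∘L (WithLp.prodContinuousLinearEquiv 2 ℂ L L).toContinuousLinearMap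

lemma pm_apply (A B : L →L[ℂ] L) (x : HH) :
    pm A B x = WithLp.toLp 2 (A x.fst, B x.snd) := rfl

lemma pm_fst (A B : L →L[ℂ] L) (x : HH) : (pm A B x).fst = A x.fst := rfl
lemma pm_snd (A B : L →L[ℂ] L) (x : HH) : (pm A B x).snd = B x.snd := rfl

lemma hh_ext {x y : HH} (h1 : x.fst = y.fst) (h2 : x.snd = y.snd) : x = y := by
  apply WithLp.ofLp_injective
  exact Prod.ext h1 h2

/-- The operator `T ⊕ 1`. -/
def D : HH →L[ℂ] HH := pm T (ContinuousLinearMap.id ℂ L)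

/-- Doubled indicator multiplication. -/
def QQ (E : MS C1) : HH →L[ℂ] HH := pm (Q E) (Q E)

lemma QQ_eq_zero (E : MS C1) (x : HH) : QQ E x = 0 ↔ Q E x.fst = 0 ∧ Q E x.snd = 0 := by
  constructor
  · intro h
    have h1 : (QQ E x).fst = 0 := by rw [h]; rfl
    have h2 : (QQ E x).snd = 0 := by rw [h]; rfl
    exact ⟨h1, h2⟩
  · rintro ⟨h1, h2⟩
    exact hh_ext h1 h2

lemma QQ_QQ (E F : MS C1) (x : HH) : QQ E (QQ F x) = QQ (E ⊓ F) x :=
  hh_ext (Q_Q E F x.fst) (Q_Q E F x.snd)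

lemma QQ_add_compl (E : MS C1) (x : HH) : QQ E x + QQ Eᶜ x = x :=
  hh_ext (Q_add_compl E x.fst) (Q_add_compl E x.snd)

lemma QQ_symm (E : MS C1) (x y : HH) : ⟪QQ E x, y⟫_ℂ = ⟪x, QQ E y⟫_ℂ := by
  rw [WithLp.prod_inner_apply, WithLp.prod_inner_apply]
  exact congrArg₂ (· + ·) (Q_symm E x.fst y.fst) (Q_symm E x.snd y.snd)

lemma QQ_union (E F : MS C1) (x : HH) : QQ (E ⊔ F) x = 0 ↔ QQ E x = 0 ∧ QQ F x = 0 := by
  simp only [QQ_eq_zero, Q_union_eq_zero]
  tauto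

lemma QQ_congr {E F : MS C1} (h : (E : Set C1) =ᵐ[mC] (F : Set C1)) (x : HH) :
    QQ E x = QQ F x :=
  hh_ext (Q_congr E F h x.fst) (Q_congr E F h x.snd)

lemma QQ_null (E : MS C1) (h : mC (E : Set C1) = 0) (x : HH) : QQ E x = 0 :=
  hh_ext (Q_null E h x.fst) (Q_null E h x.snd)

lemma QQ_mono {E F : MS C1} (h : E ≤ F) {x : HH} (hx : QQ F x = 0) : QQ E x = 0 := by
  have : QQ E x = QQ E (QQ F x) := by rw [QQ_QQ, inf_eq_left.2 h]
  rw [this, hx, map_zero]

lemma D_inj {x y : HH} (h : D x = D y) : x = y := by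
  have h1 : (D x).fst = (D y).fst := by rw [h]
  have h2 : (D x).snd = (D y).snd := by rw [h]
  exact hh_ext (T_inj h1) h2

lemma D_symm (x y : HH) : ⟪D x, y⟫_ℂ = ⟪x, D y⟫_ℂ := by
  rw [WithLp.prod_inner_apply, WithLp.prod_inner_apply]
  exact congrArg₂ (· + ·) (T_symm x.fst y.fst) rfl

lemma D_lower (E : MS C1) (hE : mC (E : Set C1) ≠ 0) :
    ∃ C : ℝ, 0 < C ∧ ∀ a : HH, QQ E a = 0 → ‖a‖ ≤ C * ‖D a‖ := by
  obtain ⟨C, hC, h⟩ := T_lower E hE
  refine ⟨C + 1, by positivity, fun a ha => ?_⟩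
  have h1 := h a.fst ((QQ_eq_zero E a).1 ha).1
  have h2 : ‖a‖ ^ 2 = ‖a.fst‖ ^ 2 + ‖a.snd‖ ^ 2 := WithLp.prod_norm_sq_eq_of_L2 a
  have h3 : ‖D a‖ ^ 2 = ‖T a.fst‖ ^ 2 + ‖a.snd‖ ^ 2 := WithLp.prod_norm_sq_eq_of_L2 (D a)
  apply le_of_sq_le_sq _ (by positivity)
  rw [mul_pow, h2, h3]
  have h4 : ‖a.fst‖ ^ 2 ≤ (C * ‖T a.fst‖) ^ 2 := pow_le_pow_left₀ (norm_nonneg _) h1 2
  have h5 : C ^ 2 ≤ (C + 1) ^ 2 := pow_le_pow_left₀ hC.le (by linarith) 2
  have h6 : 1 ≤ (C + 1) ^ 2 := one_le_pow₀ (by linarith)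
  rw [mul_pow] at h4
  nlinarith [sq_nonneg ‖T a.fst‖, sq_nonneg ‖a.snd‖]

/-- The subspace attached to the measurable set `E`. -/
def N (E : MS C1) : Submodule ℂ HH := (QQ Eᶜ ∘L D).ker

lemma mem_N {E : MS C1} {x : HH} : x ∈ N E ↔ QQ Eᶜ (D x) = 0 := Iff.rfl

lemma N_closed (E : MS C1) : IsClosed (N E : Set HH) :=
  ContinuousLinearMap.isClosed_ker _

lemma N_orth {E : MS C1} (hE : mC (E : Set C1) ≠ 0) (x : HH) :
    x ∈ (N E)ᗮ ↔ ∃ a, QQ E a = 0 ∧ D a = x := by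
  constructor
  · intro hx
    let K : Submodule ℂ HH := (QQ E).ker
    let W : Submodule ℂ HH := K.map (D : HH →ₗ[ℂ] HH)
    have hKc : IsClosed (K : Set HH) := ContinuousLinearMap.isClosed_ker _
    have hWc : IsClosed (W : Set HH) := by
      obtain ⟨C, hC, h⟩ := D_lower E hE
      have hb : ∀ a : K, ‖a‖ ≤ (⟨C, hC.le⟩ : NNReal) * ‖(D ∘L K.subtypeL) a‖ :=
        fun a => h a a.2
      have ha := (D ∘L K.subtypeL).antilipschitz_of_bound hb
      have : CompleteSpace K := hKc.completeSpace_coe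
      have h1 := ha.isClosed_range (D ∘L K.subtypeL).uniformContinuous
      have h2 : (W : Set HH) = Set.range (D ∘L K.subtypeL) := by
        apply Set.ext
        intro y
        constructor
        · rintro ⟨a, ha, rfl⟩
          exact ⟨⟨a, ha⟩, rfl⟩
        · rintro ⟨a, rfl⟩
          exact ⟨a, a.2, rfl⟩
      rw [h2]
      exact h1
    have hle : Wᗮ ≤ N E := by
      intro u hu
      rw [mem_N]
      have h1 : QQ Eᶜ (D u) ∈ K := by
        change QQ E (QQ Eᶜ (D u)) = 0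
        rw [QQ_QQ, inf_compl_eq_bot]
        exact QQ_null _ (by simp) _
      have h2 := (Submodule.mem_orthogonal W u).1 hu (D (QQ Eᶜ (D u))) ⟨_, h1, rfl⟩
      rw [D_symm] at h2
      have h3 : ⟪QQ Eᶜ (D u), QQ Eᶜ (D u)⟫_ℂ = 0 := by
        rw [← QQ_symm, QQ_QQ, inf_idem]; exact h2
      exact inner_self_eq_zero.1 h3
    have h3 : x ∈ Wᗮᗮ := Submodule.orthogonal_le hle hx
    rw [Submodule.orthogonal_orthogonal_eq_closure, hWc.submodule_topologicalClosure_eq] at h3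
    obtain ⟨a, ha, hax⟩ := h3
    exact ⟨a, ha, hax⟩
  · rintro ⟨a, ha, rfl⟩
    rw [Submodule.mem_orthogonal]
    intro u hu
    have h1 : a = QQ Eᶜ a := by
      conv_lhs => rw [← QQ_add_compl E a, ha, zero_add]
    rw [← D_symm, h1, ← QQ_symm, mem_N.1 hu, inner_zero_left]

lemma N_null {E : MS C1} (hE : mC (E : Set C1) = 0) : N E = ⊥ := by
  rw [eq_bot_iff]
  intro x hx
  rw [mem_N] at hx
  have h1 := QQ_add_compl E (D x)
  rw [hx, QQ_null E hE, add_zero] at h1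
  have h2 : D 0 = D x := by rw [map_zero, h1]
  exact (D_inj h2).symm

lemma N_congr {E F : MS C1} (h : (E : Set C1) =ᵐ[mC] (F : Set C1)) : N E = N F := by
  ext x
  rw [mem_N, mem_N, QQ_congr (E := Eᶜ) (F := Fᶜ)]
  simpa using h.compl

lemma N_top : N ⊤ = ⊤ := by
  rw [eq_top_iff]
  intro x _
  rw [mem_N]
  exact QQ_null _ (by simp) _

lemma N_bot : N ⊥ = ⊥ := N_null (by simp)

lemma N_inf (E F : MS C1) : N E ⊓ N F = N (E ⊓ F) := by
  ext x
  rw [Submodule.mem_inf, mem_N, mem_N, mem_N, compl_inf, QQ_union]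

lemma N_mono {E F : MS C1} (h : E ≤ F) : N E ≤ N F := by
  intro x hx
  exact QQ_mono (compl_le_compl h) (mem_N.1 hx)

lemma N_sup (E F : MS C1) : (N E ⊔ N F).topologicalClosure = N (E ⊔ F) := by
  apply le_antisymm
  · apply Submodule.topologicalClosure_minimal _ _ (N_closed _)
    exact sup_le (N_mono le_sup_left) (N_mono le_sup_right)
  · by_cases hE : mC (E : Set C1) = 0
    · have h1 : N (E ⊔ F) = N F := by
        apply N_congr
        have : ((E ⊔ F : MS C1) : Set C1) = (E : Set C1) ∪ F := rfl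
        rw [this]
        exact union_ae_eq_right_of_ae_eq_empty (ae_eq_empty.2 hE)
      rw [h1]
      exact le_sup_right.trans (Submodule.le_topologicalClosure _)
    by_cases hF : mC (F : Set C1) = 0
    · have h1 : N (E ⊔ F) = N E := by
        apply N_congr
        have : ((E ⊔ F : MS C1) : Set C1) = (E : Set C1) ∪ F := rfl
        rw [this]
        exact union_ae_eq_left_of_ae_eq_empty (ae_eq_empty.2 hF)
      rw [h1]
      exact le_sup_left.trans (Submodule.le_topologicalClosure _)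
    have hEF : mC ((E ⊔ F : MS C1) : Set C1) ≠ 0 := by
      intro h
      apply hE
      exact measure_mono_null (le_sup_left : (E : Set C1) ≤ (E : Set C1) ∪ F) h
    rw [← Submodule.orthogonal_orthogonal_eq_closure, ← Submodule.inf_orthogonal]
    have : N (E ⊔ F) = (N (E ⊔ F))ᗮᗮ := by
      rw [Submodule.orthogonal_orthogonal_eq_closure,
        (N_closed (E ⊔ F)).submodule_topologicalClosure_eq]
    rw [this]
    apply Submodule.orthogonal_le
    rintro x ⟨h1, h2⟩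
    obtain ⟨a, ha, rfl⟩ := (N_orth hE x).1 h1
    obtain ⟨b, hb, hab⟩ := (N_orth hF _).1 h2
    obtain rfl := D_inj hab
    exact (N_orth hEF _).2 ⟨b, (QQ_union _ _ _).2 ⟨ha, hb⟩, rfl⟩

end

end Pool.Agent.Helper139
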