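import Mathlib

namespace Pool.Agent.Helper139.Pr

variable {X : Type*} [NormedAddCommGroup X] [NormedSpace ℂ X]

/-- The rank one operator sending `y` to `f y • x`. -/
noncomputable abbrev rk (x : X) (f : X →L[ℂ] ℂ) : X →L[ℂ] X := f.smulRight x

/-- The Lie product. -/
noncomputable abbrev cm (T S : X →L[ℂ] X) : X →L[ℂ] X := T * S - S * T

lemma exists_dual {n : ℕ} (v : Fin n → X) (hv : LinearIndependent ℂ v) (c : Fin n → ℂ) :
    ∃ f : X →L[ℂ] ℂ, ∀ i, f (v i) = c i := by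
  classical
  have hinj : Function.Injective (Fintype.linearCombination ℂ v : (Fin n → ℂ) →ₗ[ℂ] X) :=
    linearIndependent_iff_injective_fintypeLinearCombination.mp hv
  have hs := (SeparatingDual.dualMap_surjective_iff (R := ℂ) (V := X)
    (f := (Fintype.linearCombination ℂ v : (Fin n → ℂ) →ₗ[ℂ] X))).2 hinj
  obtain ⟨f, hf⟩ := hs (Fintype.linearCombination ℂ c : (Fin n → ℂ) →ₗ[ℂ] ℂ)
  refine ⟨f, fun i => ?_⟩
  have := congrArg (fun g : (Fin n → ℂ) →ₗ[ℂ] ℂ => g (Pi.single i 1)) hf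
  simpa [Fintype.linearCombination_apply_single] using this

lemma exists_dual2 {a b : X} (h : LinearIndependent ℂ ![a, b]) (c d : ℂ) :
    ∃ f : X →L[ℂ] ℂ, f a = c ∧ f b = d := by
  obtain ⟨f, hf⟩ := exists_dual _ h ![c, d]
  exact ⟨f, by simpa using hf 0, by simpa using hf 1⟩

lemma exists_dual3 {a b e : X} (h : LinearIndependent ℂ ![a, b, e]) (c d k : ℂ) :
    ∃ f : X →L[ℂ] ℂ, f a = c ∧ f b = d ∧ f e = k := by
  obtain ⟨f, hf⟩ := exists_dual _ h ![c, d, k]
  exact ⟨f, by simpa using hf 0, by simpa using hf 1, by simpa using hf 2⟩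

lemma exists_dual4 {a b e u : X} (h : LinearIndependent ℂ ![a, b, e, u]) (c d k l : ℂ) :
    ∃ f : X →L[ℂ] ℂ, f a = c ∧ f b = d ∧ f e = k ∧ f u = l := by
  obtain ⟨f, hf⟩ := exists_dual _ h ![c, d, k, l]
  exact ⟨f, by simpa using hf 0, by simpa using hf 1, by simpa using hf 2, by simpa using hf 3⟩

/-- Linear independence of two vectors, in terms of scalars. -/
lemma li2 {a b : X} : LinearIndependent ℂ ![a, b] ↔
    ∀ s t : ℂ, s • a + t • b = 0 → s = 0 ∧ t = 0 := by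
  rw [LinearIndependent.pair_iff]

lemma li3 {a b c : X} : LinearIndependent ℂ ![a, b, c] ↔
    ∀ s t u : ℂ, s • a + t • b + u • c = 0 → s = 0 ∧ t = 0 ∧ u = 0 := by
  rw [Fintype.linearIndependent_iff]
  constructor
  · intro h s t u hs
    have := h ![s, t, u] (by simpa [Fin.sum_univ_three] using hs)
    exact ⟨by simpa using this 0, by simpa using this 1, by simpa using this 2⟩
  · intro h g hg
    have := h (g 0) (g 1) (g 2) (by simpa [Fin.sum_univ_three] using hg)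
    intro i
    fin_cases i
    · exact this.1
    · exact this.2.1
    · exact this.2.2

lemma li4 {a b c d : X} : LinearIndependent ℂ ![a, b, c, d] ↔
    ∀ s t u v : ℂ, s • a + t • b + u • c + v • d = 0 → s = 0 ∧ t = 0 ∧ u = 0 ∧ v = 0 := by
  rw [Fintype.linearIndependent_iff]
  constructor
  · intro h s t u v hs
    have := h ![s, t, u, v] (by simpa [Fin.sum_univ_four] using hs)
    exact ⟨by simpa using this 0, by simpa using this 1, by simpa using this 2,
      by simpa using this 3⟩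
  · intro h g hg
    have := h (g 0) (g 1) (g 2) (g 3) (by simpa [Fin.sum_univ_four] using hg)
    intro i
    fin_cases i
    · exact this.1
    · exact this.2.1
    · exact this.2.2.1
    · exact this.2.2.2

/-! ### Spectrum of the commutator with a rank one operator -/

/-- The quadratic form `f(Sx)^2 - f(x) f(S^2 x)`. -/
noncomputable def qf (x : X) (f : X →L[ℂ] ℂ) (S : X →L[ℂ] X) : ℂ :=
  f (S x) ^ 2 - f x * f (S (S x))

lemma eig_mem {T : X →L[ℂ] X} {l : ℂ} {v : X} (hv : v ≠ 0) (h : T v = l • v) :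
    l ∈ spectrum ℂ T := by
  rw [spectrum.mem_iff]
  intro hu
  obtain ⟨u, hu⟩ := hu
  have h1 : (u : X →L[ℂ] X) v = 0 := by
    rw [hu]
    simp [Algebra.algebraMap_eq_smul_one, h]
  have h2 : ((↑u⁻¹ : X →L[ℂ] X) * (u : X →L[ℂ] X)) v = 0 := by
    change (↑u⁻¹ : X →L[ℂ] X) ((u : X →L[ℂ] X) v) = 0
    rw [h1, map_zero]
  rw [Units.inv_mul] at h2
  exact hv (by simpa using h2)

lemma mem_spec_rk {x : X} {f : X →L[ℂ] ℂ} {S : X →L[ℂ] X} {l : ℂ} (hl : l ≠ 0) :
    l ∈ spectrum ℂ (cm (rk x f) S) ↔ l ^ 2 = qf x f S := by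
  have hC : ∀ y, cm (rk x f) S y = f (S y) • x - f y • S x := by
    intro y
    simp [cm, rk]
  constructor
  · intro h
    by_contra hne
    have hC3 : ∀ y, cm (rk x f) S (cm (rk x f) S (cm (rk x f) S y)) =
        (qf x f S) • cm (rk x f) S y := by
      intro y
      simp only [hC, map_sub, map_smul, smul_eq_mul, qf]
      module
    apply h
    have hk : -(l * (l ^ 2 - qf x f S)) ≠ 0 := by
      refine neg_ne_zero.2 (mul_ne_zero hl (sub_ne_zero.2 hne))
    set C := cm (rk x f) S with hCdef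
    have e1 : (algebraMap ℂ (X →L[ℂ] X) l - C) * (C * C + l • C + (l ^ 2 - qf x f S) • 1)
        = (l * (l ^ 2 - qf x f S)) • 1 := by
      ext y
      have := hC3 y
      simp [Algebra.algebraMap_eq_smul_one, this]
      module
    have e2 : (C * C + l • C + (l ^ 2 - qf x f S) • 1) * (algebraMap ℂ (X →L[ℂ] X) l - C)
        = (l * (l ^ 2 - qf x f S)) • 1 := by
      ext y
      have := hC3 y
      simp [Algebra.algebraMap_eq_smul_one, this]
      module
    have hk' : l * (l ^ 2 - qf x f S) ≠ 0 := fun h0 => hk (by rw [h0, neg_zero])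
    refine ⟨⟨algebraMap ℂ (X →L[ℂ] X) l - C,
      (l * (l ^ 2 - qf x f S))⁻¹ • (C * C + l • C + (l ^ 2 - qf x f S) • 1), ?_, ?_⟩, rfl⟩
    · rw [mul_smul_comm, e1, smul_smul, inv_mul_cancel₀ hk', one_smul]
    · rw [smul_mul_assoc, e2, smul_smul, inv_mul_cancel₀ hk', one_smul]
  · intro h
    unfold qf at h
    by_cases hfx : f x = 0
    · have h2 : (l - f (S x)) * (l + f (S x)) = 0 := by
        rw [hfx] at h
        linear_combination h
      rcases mul_eq_zero.1 h2 with h3 | h3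
      · have h3' : l = f (S x) := sub_eq_zero.1 h3
        have hx : x ≠ 0 := by
          rintro rfl
          apply hl
          rw [h3']
          simp
        apply eig_mem hx
        rw [hC, hfx, h3']
        simp
      · have h3' : f (S x) = -l := by linear_combination h3
        have hne : (-(f (S (S x)))) • x + (2 * f (S x)) • S x ≠ 0 := by
          intro h0
          have := congrArg f h0
          simp [hfx, h3'] at this
          exact hl this
        apply eig_mem hne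
        rw [hC]
        simp only [map_add, map_smul, smul_eq_mul, hfx, h3']
        module
    · have hne : (-(f (S x) + l)) • x + (f x) • S x ≠ 0 := by
        intro h0
        have := congrArg f h0
        simp only [map_add, map_smul, smul_eq_mul, map_zero] at this
        have h5 : l * f x = 0 := by linear_combination -this
        rcases mul_eq_zero.1 h5 with h6 | h6
        · exact hl h6
        · exact hfx h6
      apply eig_mem hne
      rw [hC]
      simp only [map_add, map_smul, smul_eq_mul]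
      have h4 : f x * f (S (S x)) = f (S x) ^ 2 - l ^ 2 := by linear_combination h
      have e : (-(f (S x) + l) * f (S x) + f x * f (S (S x))) = l * (-(f (S x) + l)) := by
        rw [h4]; ring
      have e' : (-(f (S x) + l) * f x + f x * f (S x)) = - l * f x := by ring
      rw [e, e']
      module

/-! ### Functions that are polynomial along lines -/

section PL
variable {V : Type*} [AddCommGroup V] [Module ℂ V]

/-- `p` restricts to a polynomial on every affine line. -/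
def PL (p : V → ℂ) : Prop :=
  ∀ a b : V, ∃ P : Polynomial ℂ, ∀ t : ℂ, p (a + t • b) = P.eval t

lemma PL.const (c : ℂ) : PL (fun _ : V => c) := fun _ _ => ⟨Polynomial.C c, fun t => by simp⟩

lemma PL.add {p q : V → ℂ} (hp : PL p) (hq : PL q) : PL (fun v => p v + q v) := by
  intro a b
  obtain ⟨P, hP⟩ := hp a b
  obtain ⟨Q, hQ⟩ := hq a b
  exact ⟨P + Q, fun t => by simp [hP, hQ]⟩

lemma PL.mul {p q : V → ℂ} (hp : PL p) (hq : PL q) : PL (fun v => p v * q v) := by
  intro a b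
  obtain ⟨P, hP⟩ := hp a b
  obtain ⟨Q, hQ⟩ := hq a b
  exact ⟨P * Q, fun t => by simp [hP, hQ]⟩

lemma PL.neg {p : V → ℂ} (hp : PL p) : PL (fun v => - p v) := by
  intro a b
  obtain ⟨P, hP⟩ := hp a b
  exact ⟨-P, fun t => by simp [hP]⟩

lemma PL.sub {p q : V → ℂ} (hp : PL p) (hq : PL q) : PL (fun v => p v - q v) := by
  simpa [sub_eq_add_neg] using hp.add hq.neg

lemma PL.pow {p : V → ℂ} (hp : PL p) (n : ℕ) : PL (fun v => p v ^ n) := by
  intro a b
  obtain ⟨P, hP⟩ := hp a b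
  exact ⟨P ^ n, fun t => by simp [hP]⟩

lemma PL.lin {F : Type*} [FunLike F V ℂ] [LinearMapClass F ℂ V ℂ] (p : F) :
    PL (fun v => p v) := by
  intro a b
  exact ⟨Polynomial.C (p a) + Polynomial.X * Polynomial.C (p b), fun t => by
    simp [map_add, map_smul]
    ring⟩

lemma PL.exists_ne {p q : V → ℂ} (hp : PL p) (hq : PL q) (h1 : ∃ a, p a ≠ 0)
    (h2 : ∃ a, q a ≠ 0) : ∃ a, p a * q a ≠ 0 := by
  obtain ⟨a, ha⟩ := h1
  obtain ⟨b, hb⟩ := h2
  obtain ⟨P, hP⟩ := hp a (b - a)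
  obtain ⟨Q, hQ⟩ := hq a (b - a)
  have hP0 : P ≠ 0 := by
    rintro rfl
    apply ha
    simpa using hP 0
  have hQ0 : Q ≠ 0 := by
    rintro rfl
    apply hb
    simpa using hQ 1
  have hPQ : P * Q ≠ 0 := mul_ne_zero hP0 hQ0
  obtain ⟨t, ht⟩ : ∃ t : ℂ, (P * Q).eval t ≠ 0 := by
    by_contra hcon
    push Not at hcon
    exact hPQ (Polynomial.funext (by simpa using hcon))
  refine ⟨a + t • (b - a), ?_⟩
  rw [hP, hQ]
  simpa using ht

end PL

/-- bilinear evaluation `(x, f, h) ↦ f (D x)` etc. are polynomial along lines. -/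
lemma PL_eval1 (D : X →L[ℂ] X) :
    PL (fun v : X × (X →L[ℂ] ℂ) × (X →L[ℂ] ℂ) => v.2.1 (D v.1)) := by
  intro a b
  refine ⟨Polynomial.C (a.2.1 (D a.1)) + Polynomial.X * Polynomial.C (a.2.1 (D b.1) + b.2.1 (D a.1))
    + Polynomial.X ^ 2 * Polynomial.C (b.2.1 (D b.1)), fun t => ?_⟩
  simp
  ring

lemma PL_eval2 (D : X →L[ℂ] X) :
    PL (fun v : X × (X →L[ℂ] ℂ) × (X →L[ℂ] ℂ) => v.2.2 (D v.1)) := by
  intro a b
  refine ⟨Polynomial.C (a.2.2 (D a.1)) + Polynomial.X * Polynomial.C (a.2.2 (D b.1) + b.2.2 (D a.1))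
    + Polynomial.X ^ 2 * Polynomial.C (b.2.2 (D b.1)), fun t => ?_⟩
  simp
  ring

/-- The value on `D` of the nilpotent functional built from `(x, f, h)`. -/
noncomputable def pD (D : X →L[ℂ] X) (v : X × (X →L[ℂ] ℂ) × (X →L[ℂ] ℂ)) : ℂ :=
  v.2.2 v.1 * v.2.1 (D v.1) - v.2.1 v.1 * v.2.2 (D v.1)

lemma PL_pD (D : X →L[ℂ] X) : PL (pD D) := by
  have h1 := PL_eval1 (X := X) (ContinuousLinearMap.id ℂ X)
  have h2 := PL_eval2 (X := X) (ContinuousLinearMap.id ℂ X)
  exact (h2.mul (PL_eval1 D)).sub (h1.mul (PL_eval2 D))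

/-- `D` is a scalar operator. -/
def IsSc (D : X →L[ℂ] X) : Prop := ∃ c : ℂ, D = c • (1 : X →L[ℂ] X)

/-- If every vector is an eigenvector then the operator is scalar. -/
lemma isSc_of_dep {D : X →L[ℂ] X} (h : ∀ v, ¬ LinearIndependent ℂ ![v, D v]) : IsSc D := by
  obtain ⟨a, ha⟩ := LinearMap.exists_eq_smul_id_of_forall_notLinearIndependent
    (f := (D : X →ₗ[ℂ] X)) h
  refine ⟨a, ?_⟩
  ext x
  have := congrArg (fun g : X →ₗ[ℂ] X => g x) ha
  simpa using this

lemma exists_pD_ne {D : X →L[ℂ] X} (h : ¬ IsSc D) : ∃ v, pD D v ≠ 0 := by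
  by_contra hcon
  push Not at hcon
  apply h
  apply isSc_of_dep
  intro v hv
  obtain ⟨f, hf1, hf2⟩ := exists_dual2 hv 0 1
  obtain ⟨k, hk1, hk2⟩ := exists_dual2 hv 1 0
  have := hcon (v, f, k)
  simp [pD, hf1, hf2, hk1, hk2] at this

lemma pair_of_pD {D : X →L[ℂ] X} (v : X × (X →L[ℂ] ℂ) × (X →L[ℂ] ℂ)) :
    ∃ (x : X) (f : X →L[ℂ] ℂ), x = v.1 ∧ f = v.2.2 v.1 • v.2.1 - v.2.1 v.1 • v.2.2 ∧ f x = 0 ∧
      f (D x) = pD D v := by
  refine ⟨v.1, v.2.2 v.1 • v.2.1 - v.2.1 v.1 • v.2.2, rfl, rfl, ?_, ?_⟩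
  · simp; ring
  · simp [pD]

/-- A nonscalar operator is detected by a nilpotent pair. -/
lemma IL1 {D : X →L[ℂ] X} (h : ¬ IsSc D) : ∃ (x : X) (f : X →L[ℂ] ℂ), f x = 0 ∧ f (D x) ≠ 0 := by
  obtain ⟨v, hv⟩ := exists_pD_ne h
  refine ⟨v.1, v.2.2 v.1 • v.2.1 - v.2.1 v.1 • v.2.2, ?_, ?_⟩
  · simp; ring
  · simpa [pD] using hv

lemma IL2 {D E : X →L[ℂ] X} (h : ¬ IsSc D) (h' : ¬ IsSc E) :
    ∃ (x : X) (f : X →L[ℂ] ℂ), f x = 0 ∧ f (D x) ≠ 0 ∧ f (E x) ≠ 0 := by
  obtain ⟨v, hv⟩ := (PL_pD D).exists_ne (PL_pD E) (exists_pD_ne h) (exists_pD_ne h')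
  refine ⟨v.1, v.2.2 v.1 • v.2.1 - v.2.1 v.1 • v.2.2, ?_, ?_, ?_⟩
  · simp; ring
  · simpa [pD] using left_ne_zero_of_mul hv
  · simpa [pD] using right_ne_zero_of_mul hv

lemma IL3 {D E F : X →L[ℂ] X} (h : ¬ IsSc D) (h' : ¬ IsSc E) (h'' : ¬ IsSc F) :
    ∃ (x : X) (f : X →L[ℂ] ℂ), f x = 0 ∧ f (D x) ≠ 0 ∧ f (E x) ≠ 0 ∧ f (F x) ≠ 0 := by
  obtain ⟨v, hv⟩ := ((PL_pD D).mul (PL_pD E)).exists_ne (PL_pD F)
    ((PL_pD D).exists_ne (PL_pD E) (exists_pD_ne h) (exists_pD_ne h')) (exists_pD_ne h'')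
  refine ⟨v.1, v.2.2 v.1 • v.2.1 - v.2.1 v.1 • v.2.2, ?_, ?_, ?_, ?_⟩
  · simp; ring
  · simpa [pD] using left_ne_zero_of_mul (left_ne_zero_of_mul hv)
  · simpa [pD] using right_ne_zero_of_mul (left_ne_zero_of_mul hv)
  · simpa [pD] using right_ne_zero_of_mul hv

lemma IL4 {D E F G : X →L[ℂ] X} (h : ∀ (x : X) (f : X →L[ℂ] ℂ), f x = 0 →
    f (D x) * f (E x) * (f (F x) * f (G x)) = 0) : IsSc D ∨ IsSc E ∨ IsSc F ∨ IsSc G := by
  by_contra hcon
  push Not at hcon
  obtain ⟨h1, h2, h3, h4⟩ := hcon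
  obtain ⟨v, hv⟩ := ((PL_pD D).mul (PL_pD E)).exists_ne ((PL_pD F).mul (PL_pD G))
    ((PL_pD D).exists_ne (PL_pD E) (exists_pD_ne h1) (exists_pD_ne h2))
    ((PL_pD F).exists_ne (PL_pD G) (exists_pD_ne h3) (exists_pD_ne h4))
  apply hv
  have := h v.1 (v.2.2 v.1 • v.2.1 - v.2.1 v.1 • v.2.2) (by simp; ring)
  simpa [pD] using this

end Pool.Agent.Helper139.Pr
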