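import Pool.Agent.Helper139.Pr9

open Filter Topology

namespace Pool.Agent.Helper139.Pr

variable {X : Type*} [NormedAddCommGroup X] [NormedSpace ℂ X]
variable {Y : Type*} [NormedAddCommGroup Y] [NormedSpace ℂ Y]

/-- The Banach space adjoint `f ↦ f ∘ T`. -/
noncomputable def adj (T : X →L[ℂ] X) : (X →L[ℂ] ℂ) →L[ℂ] (X →L[ℂ] ℂ) :=
  (ContinuousLinearMap.compL ℂ X X ℂ).flip T

lemma adj_apply (T : X →L[ℂ] X) (f : X →L[ℂ] ℂ) : adj T f = f.comp T := rfl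

lemma adj_apply2 (T : X →L[ℂ] X) (f : X →L[ℂ] ℂ) (x : X) : adj T f x = f (T x) := rfl

lemma adj_mul (T S : X →L[ℂ] X) : adj (T * S) = adj S * adj T := by
  ext f x; simp [adj_apply2]

lemma adj_sub (T S : X →L[ℂ] X) : adj (T - S) = adj T - adj S := by
  ext f x; simp [adj_apply2]

lemma adj_smul (c : ℂ) (T : X →L[ℂ] X) : adj (c • T) = c • adj T := by
  ext f x; simp [adj_apply2]

lemma adj_one : adj (1 : X →L[ℂ] X) = 1 := by
  ext f x; simp [adj_apply2]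

lemma cm_adj (T S : X →L[ℂ] X) : cm (adj T) (adj S) = -adj (cm T S) := by
  rw [cm, cm, adj_sub, adj_mul, adj_mul]; abel

lemma exists_ann_closed {p : Submodule ℂ X} (hp : IsClosed (p : Set X)) {v : X} (hv : v ∉ p) :
    ∃ f : X →L[ℂ] ℂ, (∀ x ∈ p, f x = 0) ∧ f v ≠ 0 := by
  have : IsClosed (p : Set X) := hp
  have hne : (p.mkQ v) ≠ 0 := by
    simpa using hv
  obtain ⟨g, hg⟩ := SeparatingDual.exists_ne_zero (R := ℂ) (V := X ⧸ p) hne
  refine ⟨g.comp p.mkQL, fun x hx => ?_, ?_⟩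
  · have h0 : p.mkQL x = 0 := by
      change p.mkQ x = 0
      simpa using hx
    simp [h0]
  · exact hg

variable [CompleteSpace X]

lemma isUnit_adj (D : X →L[ℂ] X) : IsUnit (adj D) ↔ IsUnit D := by
  constructor
  · rintro ⟨u, hu⟩
    rw [ContinuousLinearMap.isUnit_iff_bijective,
      ContinuousLinearMap.bijective_iff_dense_range_and_antilipschitz]
    constructor
    · rw [eq_top_iff]
      intro v _
      by_contra hv
      obtain ⟨f, hf, hfv⟩ := exists_ann_closed (Submodule.isClosed_topologicalClosure _) hv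
      have h0 : adj D f = 0 := by
        ext x
        rw [adj_apply2]
        exact hf _ (Submodule.le_topologicalClosure _ ⟨x, rfl⟩)
      rw [← hu] at h0
      have h1 : ((↑u⁻¹ : (X →L[ℂ] ℂ) →L[ℂ] (X →L[ℂ] ℂ)) * (u : (X →L[ℂ] ℂ) →L[ℂ] (X →L[ℂ] ℂ))) f
          = 0 := by
        change (↑u⁻¹ : (X →L[ℂ] ℂ) →L[ℂ] (X →L[ℂ] ℂ))
          ((u : (X →L[ℂ] ℂ) →L[ℂ] (X →L[ℂ] ℂ)) f) = 0
        rw [h0, map_zero]
      rw [Units.inv_mul] at h1
      apply hfv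
      have h2 : f = 0 := by simpa using h1
      rw [h2]; simp
    · set J : (X →L[ℂ] ℂ) →L[ℂ] (X →L[ℂ] ℂ) := ↑u⁻¹ with hJ
      refine ⟨‖J‖₊, ?_⟩
      apply ContinuousLinearMap.antilipschitz_of_bound
      intro x
      obtain ⟨g, hg1, hg2⟩ := exists_dual_vector'' ℂ x
      have h1 : adj D (J g) = g := by
        rw [← hu]
        change ((u : (X →L[ℂ] ℂ) →L[ℂ] (X →L[ℂ] ℂ)) * J) g = g
        rw [hJ, Units.mul_inv]; rfl
      have h2 : J g (D x) = g x := by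
        rw [← adj_apply2, h1]
      calc ‖x‖ = ‖g x‖ := by rw [hg2]; simp
        _ = ‖J g (D x)‖ := by rw [h2]
        _ ≤ ‖J g‖ * ‖D x‖ := (J g).le_opNorm _
        _ ≤ (‖J‖ * ‖g‖) * ‖D x‖ := by
            apply mul_le_mul_of_nonneg_right (J.le_opNorm g) (norm_nonneg _)
        _ ≤ (‖J‖ * 1) * ‖D x‖ := by
            gcongr
        _ = ‖J‖₊ * ‖D x‖ := by simp
  · rintro ⟨u, rfl⟩
    refine ⟨⟨adj (u : X →L[ℂ] X), adj (↑u⁻¹ : X →L[ℂ] X), ?_, ?_⟩, rfl⟩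
    · rw [← adj_mul, Units.inv_mul, adj_one]
    · rw [← adj_mul, Units.mul_inv, adj_one]

lemma spec_adj (C : X →L[ℂ] X) : spectrum ℂ (adj C) = spectrum ℂ C := by
  ext z
  rw [spectrum.mem_iff, spectrum.mem_iff, ← isUnit_adj (algebraMap ℂ (X →L[ℂ] X) z - C), adj_sub,
    Algebra.algebraMap_eq_smul_one, Algebra.algebraMap_eq_smul_one, adj_smul, adj_one]

omit [CompleteSpace X] in
lemma spec_conj (A : X ≃L[ℂ] Y) (C : X →L[ℂ] X) :
    spectrum ℂ (A.conjContinuousAlgEquiv C) = spectrum ℂ C :=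
  AlgEquiv.spectrum_eq (A.conjContinuousAlgEquiv : (X →L[ℂ] X) ≃ₐ[ℂ] (Y →L[ℂ] Y)) C

end Pool.Agent.Helper139.Pr
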