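import Pool.Agent.Helper139.Pr10

open Filter Topology

namespace Pool.Agent.Helper139.Pr

variable {X : Type*} [NormedAddCommGroup X] [NormedSpace ℂ X]
variable {Y : Type*} [NormedAddCommGroup Y] [NormedSpace ℂ Y]

/-- The spectra of all commutators with `T` are symmetric about the origin. -/
def Sym (T : X →L[ℂ] X) : Prop :=
  ∀ S : X →L[ℂ] X, ∀ z ∈ spectrum ℂ (T * S - S * T), -z ∈ spectrum ℂ (T * S - S * T)

/-- Standard maps of the first kind. -/
def Std1 (φ : (X →L[ℂ] X) → (Y →L[ℂ] Y)) : Prop :=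
  ∃ (A : X ≃L[ℂ] Y) (c : ℂ) (ε η : (X →L[ℂ] X) → ℂ), (c = 1 ∨ c = -1) ∧
    (∀ T, ε T = 1 ∨ ε T = -1) ∧ (∀ T, ¬ Sym T → ε T = 1) ∧
    ∀ T, φ T = (c * ε T) • ((A : X →L[ℂ] Y) ∘L T ∘L (A.symm : Y →L[ℂ] X)) +
      η T • (1 : Y →L[ℂ] Y)

/-- Standard maps of the second kind. -/
def Std2 (φ : (X →L[ℂ] X) → (Y →L[ℂ] Y)) : Prop :=
  ∃ (A : (X →L[ℂ] ℂ) ≃L[ℂ] Y) (c : ℂ) (ε η : (X →L[ℂ] X) → ℂ), (c = Complex.I ∨ c = -Complex.I) ∧
    (∀ T, ε T = 1 ∨ ε T = -1) ∧ (∀ T, ¬ Sym T → ε T = 1) ∧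
    ∀ T, φ T = (c * ε T) • ((A : (X →L[ℂ] ℂ) →L[ℂ] Y) ∘L adj T ∘L (A.symm : Y →L[ℂ] (X →L[ℂ] ℂ))) +
      η T • (1 : Y →L[ℂ] Y)

/-- The spectral condition. -/
def Star (φ : (X →L[ℂ] X) → (Y →L[ℂ] Y)) : Prop :=
  ∀ T S, spectrum ℂ (φ T * φ S - φ S * φ T) = spectrum ℂ (T * S - S * T)

lemma cm_smul_add (a b c d : ℂ) (P Q : Y →L[ℂ] Y) :
    cm (a • P + c • 1) (b • Q + d • 1) = (a * b) • cm P Q := by
  ext y
  simp [cm]
  module

lemma cm_conj (A : X ≃L[ℂ] Y) (T S : X →L[ℂ] X) :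
    cm ((A : X →L[ℂ] Y) ∘L T ∘L (A.symm : Y →L[ℂ] X)) ((A : X →L[ℂ] Y) ∘L S ∘L (A.symm : Y →L[ℂ] X)) =
      A.conjContinuousAlgEquiv (cm T S) := by
  ext y; simp [cm]

lemma spec_conj_smul (A : X ≃L[ℂ] Y) (a : ℂ) (C : X →L[ℂ] X) :
    spectrum ℂ (a • A.conjContinuousAlgEquiv C) = spectrum ℂ (a • C) := by
  have : a • A.conjContinuousAlgEquiv C = A.conjContinuousAlgEquiv (a • C) := by
    ext y; simp
  rw [this, spec_conj]

lemma spec_eq_of_sign {C : X →L[ℂ] X} {s : ℂ} (hs : s = 1 ∨ s = -1)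
    (h : s = -1 → ∀ z ∈ spectrum ℂ C, -z ∈ spectrum ℂ C) : spectrum ℂ (s • C) = spectrum ℂ C := by
  rcases hs with rfl | rfl
  · rw [one_smul]
  · have h' := h rfl
    ext z
    have h1 := spec_smul (C := C) (c := -1) (z := -z) (by norm_num)
    rw [neg_one_mul, neg_neg] at h1
    rw [h1]
    constructor
    · intro hz
      have := h' _ hz
      rwa [neg_neg] at this
    · exact h' z

lemma sign_mul {a b : ℂ} (ha : a = 1 ∨ a = -1) (hb : b = 1 ∨ b = -1) :
    a * b = 1 ∨ a * b = -1 := by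
  rcases ha with rfl | rfl <;> rcases hb with rfl | rfl <;> norm_num

lemma sym_of_prod {ε : (X →L[ℂ] X) → ℂ} (hε' : ∀ T, ¬ Sym T → ε T = 1) {T S : X →L[ℂ] X}
    (h : ε T * ε S = -1) : ∀ z ∈ spectrum ℂ (cm T S), -z ∈ spectrum ℂ (cm T S) := by
  by_cases hT : Sym T
  · exact hT S
  · by_cases hS : Sym S
    · intro z hz
      have h1 := hS T (-z) (by
        have h2 := (spec_smul (C := cm T S) (c := -1) (z := z) (by norm_num)).2 hz
        have e : (-1 : ℂ) • cm T S = S * T - T * S := by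
          rw [cm]; module
        rw [e] at h2
        simpa using h2)
      have h2 := (spec_smul (C := S * T - T * S) (c := -1) (z := - -z) (by norm_num)).2 h1
      have e : (-1 : ℂ) • (S * T - T * S) = cm T S := by
        rw [cm]; module
      rw [e] at h2
      simpa using h2
    · exfalso
      rw [hε' T hT, hε' S hS] at h
      norm_num at h

lemma star_of_std1 {φ : (X →L[ℂ] X) → (Y →L[ℂ] Y)} (h : Std1 φ) : Star φ := by
  obtain ⟨A, c, ε, η, hc, hε, hε', hφ⟩ := h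
  intro T S
  change spectrum ℂ (cm (φ T) (φ S)) = spectrum ℂ (cm T S)
  rw [hφ T, hφ S, cm_smul_add, cm_conj, spec_conj_smul]
  have hc2 : c * c = 1 := sq_one_of hc
  have e : c * ε T * (c * ε S) = ε T * ε S := by
    linear_combination (ε T * ε S) * hc2
  rw [e]
  exact spec_eq_of_sign (sign_mul (hε T) (hε S)) (fun h => sym_of_prod hε' h)

lemma cm_adj2 (T S : X →L[ℂ] X) : cm (adj T) (adj S) = adj ((-1 : ℂ) • cm T S) := by
  rw [cm_adj]
  ext f x
  simp [adj_apply2]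

lemma star_of_std2 [CompleteSpace X] {φ : (X →L[ℂ] X) → (Y →L[ℂ] Y)} (h : Std2 φ) : Star φ := by
  obtain ⟨A, c, ε, η, hc, hε, hε', hφ⟩ := h
  intro T S
  change spectrum ℂ (cm (φ T) (φ S)) = spectrum ℂ (cm T S)
  rw [hφ T, hφ S, cm_smul_add, cm_conj, spec_conj_smul, cm_adj2, ← adj_smul, smul_smul, spec_adj]
  have hc2 : c * c = -1 := by
    rcases hc with rfl | rfl
    · exact Complex.I_mul_I
    · rw [neg_mul_neg]; exact Complex.I_mul_I
  have e : c * ε T * (c * ε S) * (-1) = ε T * ε S := by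
    linear_combination -(ε T * ε S) * hc2
  rw [e]
  exact spec_eq_of_sign (sign_mul (hε T) (hε S)) (fun h => sym_of_prod hε' h)

lemma sym_of_not {T : X →L[ℂ] X} (h : ¬ Sym T) :
    ∃ S, ∃ α ∈ spectrum ℂ (cm T S), -α ∉ spectrum ℂ (cm T S) := by
  unfold Sym at h
  push Not at h
  exact h

/-- Main theorem in dimension at least three. -/
theorem std_of_star [CompleteSpace X] [CompleteSpace Y] (hd : D3 X)
    {φ : (X →L[ℂ] X) → (Y →L[ℂ] Y)} (hs : Function.Surjective φ) (hst : Star φ) :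
    Std1 φ ∨ Std2 φ := by
  obtain ⟨ε, hε, hL⟩ := LData_of hd φ hs hst
  obtain ⟨f0, hf0⟩ : ∃ f0 : X →L[ℂ] ℂ, f0 ≠ 0 := by
    obtain ⟨h, hh, -, -⟩ := hd.ann2 0 0
    exact ⟨h, hh⟩
  have hφε : ∀ T, φ T = ε T • (ε T • φ T) := by
    intro T
    rw [smul_smul, sq_one_of (hε T), one_smul]
  rcases hL.dich hf0 with ⟨k0, hk0, hN⟩ | ⟨v0, hv0, hN⟩
  · left
    obtain ⟨A, κ, hA⟩ := hL.typeI hf0 hk0 hN
    choose μ hμ using hA
    have hform : ∀ T, φ T = (ε T * κ) • ((A : X →L[ℂ] Y) ∘L T ∘L (A.symm : Y →L[ℂ] X)) +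
        (ε T * μ T) • (1 : Y →L[ℂ] Y) := by
      intro T
      rw [hφε T]
      ext y
      have := hμ T (A.symm y)
      rw [A.apply_symm_apply] at this
      rw [smul_apply, this]
      simp
      module
    have hσ : ∀ T S, spectrum ℂ (cm T S) = spectrum ℂ ((ε T * ε S * (κ * κ)) • cm T S) := by
      intro T S
      have h1 : spectrum ℂ (cm (φ T) (φ S)) = spectrum ℂ (cm T S) := hst T S
      rw [← h1]
      nth_rewrite 1 [hform T, hform S]
      rw [cm_smul_add, cm_conj, spec_conj_smul]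
      congr 2
      ring
    obtain ⟨hω, e, he, hconst⟩ := sign_const hd hε hσ
    have hee := sq_one_of he
    refine ⟨A, κ * e, fun T => e * ε T, fun T => ε T * μ T, ?_, fun T => sign_mul he (hε T), ?_, ?_⟩
    · have h1 : (κ * e - 1) * (κ * e + 1) = 0 := by linear_combination (κ * κ) * hee + hω
      rcases mul_eq_zero.1 h1 with h2 | h2
      · left; linear_combination h2
      · right; linear_combination h2
    · intro T hT
      simp only []
      rw [hconst T (sym_of_not hT)]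
      exact hee
    · intro T
      rw [hform T]
      congr 2
      linear_combination (-(κ * ε T)) * hee
  · right
    obtain ⟨B, κ, hB⟩ := hL.typeII hf0 hv0 hN
    choose μ hμ using hB
    have hform : ∀ T, φ T = (ε T * κ) • ((B.symm : (X →L[ℂ] ℂ) →L[ℂ] Y) ∘L adj T ∘L
        (B.symm.symm : Y →L[ℂ] (X →L[ℂ] ℂ))) + (ε T * μ T) • (1 : Y →L[ℂ] Y) := by
      intro T
      rw [hφε T]
      ext y
      apply B.injective
      ext u
      have := hμ T y u
      rw [smul_apply, map_smul, smul_apply, this]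
      simp [adj_apply2]
      ring
    have hσ : ∀ T S, spectrum ℂ (cm T S) = spectrum ℂ ((ε T * ε S * (-(κ * κ))) • cm T S) := by
      intro T S
      have h1 : spectrum ℂ (cm (φ T) (φ S)) = spectrum ℂ (cm T S) := hst T S
      rw [← h1]
      nth_rewrite 1 [hform T, hform S]
      rw [cm_smul_add, cm_conj, spec_conj_smul, cm_adj2, ← adj_smul, smul_smul, spec_adj]
      congr 2
      ring
    obtain ⟨hω, e, he, hconst⟩ := sign_const hd hε hσ
    have hee := sq_one_of he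
    refine ⟨B.symm, κ * e, fun T => e * ε T, fun T => ε T * μ T, ?_, fun T => sign_mul he (hε T),
      ?_, ?_⟩
    · have h1 : (κ * e - Complex.I) * (κ * e + Complex.I) = 0 := by
        linear_combination (κ * κ) * hee - hω - Complex.I_mul_I
      rcases mul_eq_zero.1 h1 with h2 | h2
      · left; linear_combination h2
      · right; linear_combination h2
    · intro T hT
      simp only []
      rw [hconst T (sym_of_not hT)]
      exact hee
    · intro T
      rw [hform T]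
      congr 2
      linear_combination (-(κ * ε T)) * hee

end Pool.Agent.Helper139.Pr
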