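import Pool.Agent.Helper139.Pr11

open Filter Topology

namespace Pool.Agent.Helper139.Pr

variable {X : Type*} [NormedAddCommGroup X] [NormedSpace ℂ X]
variable {Y : Type*} [NormedAddCommGroup Y] [NormedSpace ℂ Y]

/-- A basis of length two together with its coordinate functionals. -/
structure B2 (a b : X) (f g : X →L[ℂ] ℂ) : Prop where
  fa : f a = 1
  fb : f b = 0
  ga : g a = 0
  gb : g b = 1
  ex : ∀ x, x = f x • a + g x • b

lemma exists_B2 (hd : ¬ D3 X) {a b : X} (hab : LinearIndependent ℂ ![a, b]) :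
    ∃ f g : X →L[ℂ] ℂ, B2 a b f g := by
  obtain ⟨f, fa, fb⟩ := exists_dual2 hab 1 0
  obtain ⟨g, ga, gb⟩ := exists_dual2 hab 0 1
  refine ⟨f, g, fa, fb, ga, gb, fun x => ?_⟩
  obtain ⟨s, t, rfl⟩ := mem_span_of_not_li3 hab (z := x) (fun h3 => hd ⟨a, b, x, h3⟩)
  simp [fa, fb, ga, gb]

lemma B2.appl {a b : X} {f g : X →L[ℂ] ℂ} (h : B2 a b f g) (T : X →L[ℂ] X) (x : X) :
    T x = f x • T a + g x • T b := by
  conv_lhs => rw [h.ex x]
  simp

lemma B2.fcomp {a b : X} {f g : X →L[ℂ] ℂ} (h : B2 a b f g) (k : X →L[ℂ] ℂ) (T : X →L[ℂ] X)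
    (x : X) : k (T x) = f x * k (T a) + g x * k (T b) := by
  rw [h.appl T x]; simp

lemma B2.ext {a b : X} {f g : X →L[ℂ] ℂ} (h : B2 a b f g) {x y : X} (h1 : f x = f y)
    (h2 : g x = g y) : x = y := by
  rw [h.ex x, h.ex y, h1, h2]

/-- The invariant `q` of a trace zero operator in dimension two. -/
noncomputable def q2 (a b : X) (f g : X →L[ℂ] ℂ) (C : X →L[ℂ] X) : ℂ :=
  f (C a) ^ 2 + f (C b) * g (C a)

lemma spec2 {a b : X} {f g : X →L[ℂ] ℂ} (h : B2 a b f g) {C : X →L[ℂ] X}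
    (htr : f (C a) + g (C b) = 0) {l : ℂ} (hl : l ≠ 0) :
    l ∈ spectrum ℂ C ↔ l ^ 2 = q2 a b f g C := by
  have htr' : g (C b) = -f (C a) := by linear_combination htr
  have hCC : ∀ x, C (C x) = q2 a b f g C • x := by
    intro x
    apply h.ext
    · rw [h.fcomp f C (C x), h.fcomp f C x, h.fcomp g C x, htr', map_smul, smul_eq_mul, q2]
      ring
    · rw [h.fcomp g C (C x), h.fcomp f C x, h.fcomp g C x, htr', map_smul, smul_eq_mul, q2]
      ring
  constructor
  · intro hmem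
    by_contra hne
    apply hmem
    have hk : l ^ 2 - q2 a b f g C ≠ 0 := sub_ne_zero.2 hne
    have e1 : (algebraMap ℂ (X →L[ℂ] X) l - C) * (l • 1 + C) = (l ^ 2 - q2 a b f g C) • 1 := by
      ext x
      simp [Algebra.algebraMap_eq_smul_one, hCC]
      module
    have e2 : (l • 1 + C) * (algebraMap ℂ (X →L[ℂ] X) l - C) = (l ^ 2 - q2 a b f g C) • 1 := by
      ext x
      simp [Algebra.algebraMap_eq_smul_one, hCC]
      module
    refine ⟨⟨algebraMap ℂ (X →L[ℂ] X) l - C,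
      (l ^ 2 - q2 a b f g C)⁻¹ • (l • 1 + C), ?_, ?_⟩, rfl⟩
    · rw [mul_smul_comm, e1, smul_smul, inv_mul_cancel₀ hk, one_smul]
    · rw [smul_mul_assoc, e2, smul_smul, inv_mul_cancel₀ hk, one_smul]
  · intro hq hu
    obtain ⟨u, hu⟩ := hu
    have e1 : (u : X →L[ℂ] X) * (l • 1 + C) = 0 := by
      rw [hu]
      ext x
      simp [Algebra.algebraMap_eq_smul_one, hCC, ← hq]
      module
    have e2 : l • (1 : X →L[ℂ] X) + C = 0 := by
      calc l • (1 : X →L[ℂ] X) + C = (↑u⁻¹ : X →L[ℂ] X) * ((u : X →L[ℂ] X) * (l • 1 + C)) := by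
            rw [← mul_assoc, Units.inv_mul, one_mul]
        _ = 0 := by rw [e1, mul_zero]
    have e3 : ∀ x, C x = -(l • x) := by
      intro x
      have := congrArg (fun D : X →L[ℂ] X => D x) e2
      simp only [add_apply, smul_apply, one_apply_eq_self, zero_apply] at this
      rw [eq_neg_iff_add_eq_zero, add_comm]; exact this
    rw [e3, e3] at htr
    simp only [map_neg, map_smul, h.fa, h.gb, smul_eq_mul] at htr
    apply hl
    linear_combination -htr / 2

/-- The commutator invariant in coordinates. -/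
noncomputable def qq (a b : X) (f g : X →L[ℂ] ℂ) (T S : X →L[ℂ] X) : ℂ :=
  (f (T b) * g (S a) - f (S b) * g (T a)) ^ 2 +
    ((f (T a) - g (T b)) * f (S b) - (f (S a) - g (S b)) * f (T b)) *
    (g (T a) * (f (S a) - g (S b)) - g (S a) * (f (T a) - g (T b)))

lemma spec_cm2 {a b : X} {f g : X →L[ℂ] ℂ} (h : B2 a b f g) (T S : X →L[ℂ] X) {l : ℂ} (hl : l ≠ 0) :
    l ∈ spectrum ℂ (cm T S) ↔ l ^ 2 = qq a b f g T S := by
  have hc : ∀ x, cm T S x = T (S x) - S (T x) := fun x => rfl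
  have e1 : f (cm T S a) = f (T b) * g (S a) - f (S b) * g (T a) := by
    rw [hc, map_sub, h.fcomp f T (S a), h.fcomp f S (T a)]; ring
  have e2 : g (cm T S a) = g (T a) * (f (S a) - g (S b)) - g (S a) * (f (T a) - g (T b)) := by
    rw [hc, map_sub, h.fcomp g T (S a), h.fcomp g S (T a)]; ring
  have e3 : f (cm T S b) = (f (T a) - g (T b)) * f (S b) - (f (S a) - g (S b)) * f (T b) := by
    rw [hc, map_sub, h.fcomp f T (S b), h.fcomp f S (T b)]; ring
  have e4 : g (cm T S b) = -(f (T b) * g (S a) - f (S b) * g (T a)) := by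
    rw [hc, map_sub, h.fcomp g T (S b), h.fcomp g S (T b)]; ring
  rw [spec2 h (by rw [e1, e4]; ring) hl, q2, e1, e2, e3, qq]

lemma B2.sym {a b : X} {f g : X →L[ℂ] ℂ} (h : B2 a b f g) (T : X →L[ℂ] X) : Sym T := by
  intro S z hz
  by_cases hz0 : z = 0
  · subst hz0; simpa using hz
  · have h1 := (spec_cm2 h T S hz0).1 hz
    exact (spec_cm2 h T S (neg_ne_zero.2 hz0)).2 (by rw [neg_sq]; exact h1)

end Pool.Agent.Helper139.Pr
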