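import Pool.Agent.Helper139.Pr12

open Filter Topology

namespace Pool.Agent.Helper139.Pr

variable {X : Type*} [NormedAddCommGroup X] [NormedSpace ℂ X]
variable {Y : Type*} [NormedAddCommGroup Y] [NormedSpace ℂ Y]
variable {R : (X →L[ℂ] X) → (Y →L[ℂ] Y) → Prop}

lemma SpRel.notD3Y (h : SpRel R) (hd : ¬ D3 X) : ¬ D3 Y := fun h3 => hd (h.flip.D3Y h3)

lemma SpRel.corr_exists2' (h : SpRel R) (hd : ¬ D3 X) (y : Y) (g : Y →L[ℂ] ℂ) :
    ∃ x f, Corr R x f y g := by
  obtain ⟨T, hT⟩ := h.sur (rk y g)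
  obtain ⟨c, x, f, hT'⟩ := SR_of_not_D3 hd T
  exact ⟨x, f, h.corr_of hT hT' (c' := 0) (by simp)⟩

lemma qf_two (x : X) (f : X →L[ℂ] ℂ) (S T : X →L[ℂ] X) :
    qf x f (S + (2 : ℂ) • T) = -(qf x f S) + 2 * qf x f (S + T) + 2 * qf x f T := by
  rw [qf_line]; ring

lemma qf_mone (x : X) (f : X →L[ℂ] ℂ) (S T : X →L[ℂ] X) :
    qf x f (S + (-1 : ℂ) • T) = 2 * (qf x f S) - qf x f (S + T) + 2 * qf x f T := by
  rw [qf_line]; ring

/-- The combination of rank one forms representing the square of a functional. -/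
noncomputable def sqF (y z : Y) (k g : Y →L[ℂ] ℂ) (A B C : ℂ) (D : Y →L[ℂ] Y) : ℂ :=
  A ^ 2 * ((qf (y + z) (g - k) D + qf (y - z) (g + k) D) / 2
        - qf y g D - qf z k D - 2 * qf y k D)
      + B ^ 2 * qf z k D + C ^ 2 * qf y g D
      + 2 * A * B * ((qf (y + (2 : ℂ) • z) (g - (2 : ℂ) • k) D + 3 * qf y g D
        - 12 * qf z k D - qf (y - z) (g + k) D - 3 * qf (y + z) (g - k) D) / 12)
      + 2 * A * C * ((qf (y + (2 : ℂ) • z) (g - (2 : ℂ) • k) D + 3 * qf y g D
        - 12 * qf z k D + 2 * qf (y - z) (g + k) D - 6 * qf (y + z) (g - k) D) / 12)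
      - 2 * B * C * qf y k D

/-- Squares of functionals killing the identity in dimension two. -/
lemma sq_formula {y z : Y} {k g : Y →L[ℂ] ℂ} (h : B2 y z k g) (Λ : (Y →L[ℂ] Y) →L[ℂ] ℂ)
    (hΛ : Λ 1 = 0) (D : Y →L[ℂ] Y) :
    Λ D ^ 2 = sqF y z k g (Λ (rk y k)) (Λ (rk y g)) (Λ (rk z k)) D := by
  have h1 : (1 : Y →L[ℂ] Y) = rk y k + rk z g := by
    ext x
    simp only [one_apply_eq_self, add_apply, ContinuousLinearMap.smulRight_apply]
    exact h.ex x
  have hD : D = k (D y) • rk y k + k (D z) • rk y g + g (D y) • rk z k + g (D z) • rk z g := by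
    ext x
    simp only [add_apply, smul_apply, ContinuousLinearMap.smulRight_apply]
    apply h.ext
    · simp only [map_add, map_smul, smul_eq_mul, h.fa, h.fb, mul_one, mul_zero, add_zero]
      rw [h.fcomp k D x]; ring
    · simp only [map_add, map_smul, smul_eq_mul, h.ga, h.gb, mul_one, mul_zero, zero_add]
      rw [h.fcomp g D x]; ring
  have h2 : Λ (rk z g) = -Λ (rk y k) := by
    rw [h1, map_add] at hΛ
    linear_combination hΛ
  have hL : Λ D = (k (D y) - g (D z)) * Λ (rk y k) + k (D z) * Λ (rk y g) +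
      g (D y) * Λ (rk z k) := by
    conv_lhs => rw [hD]
    simp only [map_add, map_smul, smul_eq_mul, h2]
    ring
  have e1 : g y = 0 := h.ga
  have e2 : k y = 1 := h.fa
  have e3 : k z = 0 := h.fb
  have e4 : g z = 1 := h.gb
  have f1 := h.fcomp k D (D y)
  have f2 := h.fcomp k D (D z)
  have f3 := h.fcomp g D (D y)
  have f4 := h.fcomp g D (D z)
  rw [hL, sqF]
  simp only [qf, map_add, map_sub, map_smul, add_apply, sub_apply, smul_apply, smul_eq_mul,
    e1, e2, e3, e4, f1, f2, f3, f4]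
  ring

/-- Nilpotents correspond, dimension two. -/
lemma SpRel.NLtwo (h : SpRel R) (hd : ¬ D3 X) (hX : ∃ a b : X, LinearIndependent ℂ ![a, b])
    {x f y g} (hc : Corr R x f y g) (hy : y ≠ 0)
    (hg0 : g ≠ 0) (hg : g y = 0) : f x = 0 := by
  by_contra hfx
  have hdY := h.notD3Y hd
  obtain ⟨z', hz'⟩ := exists_ne_of_fun_ne hg0
  obtain ⟨z, hz⟩ : ∃ z, g z = 1 := ⟨(g z')⁻¹ • z', by simp [hz']⟩
  have hyz : LinearIndependent ℂ ![y, z] := by
    rw [li2]
    intro s t hst
    have h1 := congrArg g hst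
    simp [hg, hz] at h1
    subst h1
    exact ⟨by simpa [hy] using hst, rfl⟩
  obtain ⟨k, g', hB'⟩ := exists_B2 hdY hyz
  have hgg : g' = g := by
    ext v
    rw [hB'.ex v]
    simp [hB'.ga, hB'.gb, hg, hz]
  subst hgg
  obtain ⟨S1, hS1⟩ := h.sur (rk z k)
  have q1 : qf x f S1 = 1 := by
    rw [hc _ _ hS1]; simp [qf, hB'.fa, hB'.ga, hB'.gb]
  have q1' : qf x f S1 ≠ 0 := by rw [q1]; exact one_ne_zero
  obtain ⟨c, a, b, hS1e⟩ := SR_of_not_D3 hd S1
  have hab : a ≠ 0 ∧ b ≠ 0 := by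
    have : ¬ (a = 0 ∨ b = 0) := by
      intro hor
      apply q1'
      have : S1 = c • 1 := by
        rw [hS1e]
        rcases hor with rfl | rfl <;> ext v <;> simp
      rw [this]; simp [qf]; ring
    push Not at this
    exact this
  -- a witness for noncommuting
  have hwit : ∃ S, qf a b S ≠ 0 := by
    obtain ⟨z0', hz0'⟩ := exists_ne_of_fun_ne hab.2
    obtain ⟨w, hw⟩ : ∃ w, LinearIndependent ℂ ![a, w] := by
      obtain ⟨p, q, hpq⟩ := hX
      by_contra hcon
      push Not at hcon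
      obtain ⟨s, hs⟩ := mem_span_of_not_li2 hab.1 (hcon p)
      obtain ⟨t, ht⟩ := mem_span_of_not_li2 hab.1 (hcon q)
      have := li2.1 hpq t (-s) (by rw [hs, ht]; module)
      have hs0 : s = 0 := neg_eq_zero.1 this.2
      have := li2.1 hpq 1 0 (by rw [hs, hs0]; simp)
      simp at this
    obtain ⟨v, hv1, hv2⟩ : ∃ v, b v = 1 ∧ LinearIndependent ℂ ![a, v] := by
      set z0 := (b z0')⁻¹ • z0' with hz0
      have hbz0 : b z0 = 1 := by simp [hz0, hz0']
      by_cases hz : LinearIndependent ℂ ![a, z0]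
      · exact ⟨z0, hbz0, hz⟩
      · obtain ⟨r, hr⟩ := mem_span_of_not_li2 hab.1 hz
        refine ⟨z0 + w - b w • z0, by simp [hbz0], ?_⟩
        rw [li2]
        intro s t hst
        rw [hr] at hst
        have := li2.1 hw (s + t * r - t * b w * r) t (by rw [← hst]; module)
        obtain ⟨h1, rfl⟩ := this
        exact ⟨by simpa using h1, rfl⟩
    obtain ⟨l, la, lv⟩ := exists_dual2 hv2 1 0
    refine ⟨rk v l, ?_⟩
    simp [qf, la, lv, hv1]
  have hPB : PL (fun T : X →L[ℂ] X => qB x f S1 T ^ 2 - 4 * qf x f S1 * qf x f T) := by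
    have h1 := (qB_PL x f S1).pow 2
    have h2 := (PL.const (V := X →L[ℂ] X) (4 * qf x f S1)).mul (qf_PL x f)
    exact h1.sub h2
  obtain ⟨S3, hS3⟩ := (qf_PL a b).exists_ne hPB hwit (qB_wit hfx S1 q1')
  have k1 := left_ne_zero_of_mul hS3
  have k2 := right_ne_zero_of_mul hS3
  obtain ⟨E3, hE3⟩ := h.tot S3
  by_cases hli : LinearIndependent ℂ ![(1 : Y →L[ℂ] Y), rk z k, E3]
  · apply k2
    obtain ⟨E1, hE1⟩ := h.tot (S1 + S3)
    obtain ⟨E2, hE2⟩ := h.tot (S1 + (2 : ℂ) • S3)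
    obtain ⟨Em, hEm⟩ := h.tot (S1 + (-1 : ℂ) • S3)
    have hr2 : ∀ (y' : Y) (g'' : Y →L[ℂ] ℂ), qf y' g'' E2 =
        -(qf y' g'' (rk z k)) + 2 * qf y' g'' E1 + 2 * qf y' g'' E3 := by
      intro y' g''
      obtain ⟨x', f', hc'⟩ := h.corr_exists2' hd y' g''
      rw [← hc' _ _ hE2, ← hc' _ _ hE1, ← hc' _ _ hE3, ← hc' _ _ hS1, qf_two]
    have hrm : ∀ (y' : Y) (g'' : Y →L[ℂ] ℂ), qf y' g'' Em =
        2 * (qf y' g'' (rk z k)) - qf y' g'' E1 + 2 * qf y' g'' E3 := by
      intro y' g''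
      obtain ⟨x', f', hc'⟩ := h.corr_exists2' hd y' g''
      rw [← hc' _ _ hEm, ← hc' _ _ hE1, ← hc' _ _ hE3, ← hc' _ _ hS1, qf_mone]
    have hmain := NL1 (Y := Y →L[ℂ] Y) (y := 1) (z0 := rk z k) (e := E3) (z1 := E1) (z2 := E2)
      (zm := Em) hli
      (by
        intro Λ hΛ
        have s2 := sq_formula hB' Λ hΛ E2
        have s0 := sq_formula hB' Λ hΛ (rk z k)
        have s1 := sq_formula hB' Λ hΛ E1
        have s3 := sq_formula hB' Λ hΛ E3
        have key : ∀ A B C, sqF y z k g' A B C E2 = -(sqF y z k g' A B C (rk z k)) +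
            2 * sqF y z k g' A B C E1 + 2 * sqF y z k g' A B C E3 := by
          intro A B C
          simp only [sqF, hr2]
          ring
        have key' := key (Λ (rk y k)) (Λ (rk y g')) (Λ (rk z k))
        linear_combination s2 + s0 - 2 * s1 - 2 * s3 + key')
      (by
        intro Λ hΛ
        have s2 := sq_formula hB' Λ hΛ Em
        have s0 := sq_formula hB' Λ hΛ (rk z k)
        have s1 := sq_formula hB' Λ hΛ E1
        have s3 := sq_formula hB' Λ hΛ E3
        have key : ∀ A B C, sqF y z k g' A B C Em = 2 * (sqF y z k g' A B C (rk z k)) -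
            sqF y z k g' A B C E1 + 2 * sqF y z k g' A B C E3 := by
          intro A B C
          simp only [sqF, hrm]
          ring
        have key' := key (Λ (rk y k)) (Λ (rk y g')) (Λ (rk z k))
        linear_combination s2 - 2 * s0 + s1 - 2 * s3 + key')
      (g'.comp (ContinuousLinearMap.apply ℂ Y y)) (by simp [hB'.ga])
    simp only [ContinuousLinearMap.comp_apply, ContinuousLinearMap.apply_apply] at hmain
    have r1 : qf x f (S1 + S3) = g' (E1 y) ^ 2 := by rw [hc _ _ hE1]; simp [qf, hB'.ga]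
    have r2 : qf x f S3 = g' (E3 y) ^ 2 := by rw [hc _ _ hE3]; simp [qf, hB'.ga]
    have r3 : qf x f S1 = g' ((rk z k) y) ^ 2 := by rw [hc _ _ hS1]; simp [qf, hB'.ga]
    rw [qB, r1, r2, r3]
    linear_combination hmain
  · -- dependent: the commutator of the images vanishes
    have hns : LinearIndependent ℂ ![(1 : Y →L[ℂ] Y), rk z k] := by
      rw [li2]
      intro s t hst
      have e1 := congrArg (fun D : Y →L[ℂ] Y => g' (D y)) hst
      simp [hB'.ga, hB'.fa, hB'.gb] at e1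
      subst e1
      have e2 := congrArg (fun D : Y →L[ℂ] Y => k (D y)) hst
      simp [hB'.fa] at e2
      exact ⟨e2, rfl⟩
    obtain ⟨s, t, hst⟩ := mem_span_of_not_li3 hns hli
    obtain ⟨l, hl⟩ := IsAlgClosed.exists_pow_nat_eq (qf a b S3) (n := 2) two_pos
    have hl0 : l ≠ 0 := by
      rintro rfl
      apply k1
      rw [← hl]; simp
    have h1 : l ∈ spectrum ℂ (cm S1 S3) := by
      rw [hS1e, cm_add_smul, mem_spec_rk hl0]; exact hl
    rw [h.sp _ _ _ _ hS1 hE3] at h1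
    have h2 : cm (rk z k) E3 = 0 := by
      rw [hst]; ext v; simp [cm]; module
    rw [h2] at h1
    have : Nontrivial Y := ⟨y, 0, hy⟩
    rw [spectrum.zero_eq] at h1
    exact hl0 h1

end Pool.Agent.Helper139.Pr
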