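import Pool.Agent.Helper139.Pr13

open Filter Topology

namespace Pool.Agent.Helper139.Pr

variable {X : Type*} [NormedAddCommGroup X] [NormedSpace ℂ X]
variable {Y : Type*} [NormedAddCommGroup Y] [NormedSpace ℂ Y]
variable {R : (X →L[ℂ] X) → (Y →L[ℂ] Y) → Prop}

lemma notMem_spec_zero {z : ℂ} (hz : z ≠ 0) : z ∉ spectrum ℂ (0 : X →L[ℂ] X) := by
  rw [spectrum.mem_iff, sub_zero, not_not]
  exact (Units.mk0 z hz).isUnit.map (algebraMap ℂ (X →L[ℂ] X))

lemma cm_sc {T S : X →L[ℂ] X} (hT : IsSc T) : cm T S = 0 := by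
  obtain ⟨c, rfl⟩ := hT
  ext x; simp [cm]

/-- A pair of operators whose commutator has spectral value one. -/
lemma exists_one_mem {a b : X} (hab : LinearIndependent ℂ ![a, b]) :
    ∃ T S : X →L[ℂ] X, (1 : ℂ) ∈ spectrum ℂ (cm T S) := by
  obtain ⟨f, fa, fb⟩ := exists_dual2 hab 1 0
  obtain ⟨g, ga, gb⟩ := exists_dual2 hab 0 1
  refine ⟨rk a g, rk b f, ?_⟩
  rw [mem_spec_rk one_ne_zero]
  simp [qf, fa, ga, gb]

lemma SpRel.pairY (h : SpRel R) (hX : ∃ a b : X, LinearIndependent ℂ ![a, b]) :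
    ∃ a b : Y, LinearIndependent ℂ ![a, b] := by
  by_contra hcon
  push Not at hcon
  obtain ⟨a, b, hab⟩ := hX
  obtain ⟨T, S, hTS⟩ := exists_one_mem hab
  obtain ⟨T', hT'⟩ := h.tot T
  obtain ⟨S', hS'⟩ := h.tot S
  rw [h.sp _ _ _ _ hT' hS', cm_sc (isSc_of_dep (fun v => hcon v _))] at hTS
  exact notMem_spec_zero one_ne_zero hTS

lemma SpRel.NC_two' (h : SpRel R) (hd : ¬ D3 X) (hX : ∃ a b : X, LinearIndependent ℂ ![a, b])
    (y : Y) (g : Y →L[ℂ] ℂ) (hg : g y = 0) : ∃ x f, NC R x f y g := by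
  by_cases hy : y = 0
  · exact ⟨0, 0, by simp, hg, fun S S' _ => by simp [hy]⟩
  by_cases hg0 : g = 0
  · exact ⟨0, 0, by simp, hg, fun S S' _ => by simp [hg0]⟩
  obtain ⟨x, f, hc⟩ := h.corr_exists2' hd y g
  have hf := h.NLtwo hd hX hc hy hg0 hg
  refine ⟨x, f, hf, hg, fun S S' hS => ?_⟩
  have := hc S S' hS
  simpa [qf, hf, hg] using this

lemma SpRel.NC_two (h : SpRel R) (hd : ¬ D3 X) (hX : ∃ a b : X, LinearIndependent ℂ ![a, b])
    (x : X) (f : X →L[ℂ] ℂ) (hf : f x = 0) : ∃ y g, NC R x f y g := by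
  obtain ⟨y, g, hn⟩ := h.flip.NC_two' (h.notD3Y hd) (h.pairY hX) x f hf
  exact ⟨y, g, hn.flip⟩

lemma isSc_of_entries {y z : Y} {k g : Y →L[ℂ] ℂ} (h : B2 y z k g) {D : Y →L[ℂ] Y}
    (h1 : k (D z) = 0) (h2 : g (D y) = 0) (h3 : k (D y) = g (D z)) : IsSc D := by
  refine ⟨k (D y), ?_⟩
  ext v
  apply h.ext
  · rw [h.fcomp k D v, h1]
    simp [mul_comm]
  · rw [h.fcomp g D v, h2, ← h3]
    simp [mul_comm]

lemma qq_smul {y z : Y} {k g : Y →L[ℂ] ℂ} (T S : Y →L[ℂ] Y) (a b : ℂ) :
    qq y z k g (a • T) (b • S) = (a * a) * (b * b) * qq y z k g T S := by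
  simp only [qq, smul_apply, map_smul, smul_eq_mul]
  ring

/-- The linear part of the classification in dimension two. -/
lemma two_form (hd : ¬ D3 X) (hX : ∃ a b : X, LinearIndependent ℂ ![a, b])
    {φ : (X →L[ℂ] X) → (Y →L[ℂ] Y)} (hs : Function.Surjective φ) (hst : Star φ) :
    ∃ (ε : (X →L[ℂ] X) → ℂ) (A : X ≃L[ℂ] Y) (κ : ℂ), (∀ S, ε S = 1 ∨ ε S = -1) ∧ κ ^ 4 = 1 ∧
      ∀ S, ∃ μ : ℂ, φ S = (ε S * κ) • ((A : X →L[ℂ] Y) ∘L S ∘L (A.symm : Y →L[ℂ] X)) +
        μ • (1 : Y →L[ℂ] Y) := by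
  have h := spRel_graph φ hs hst
  have hdY := h.notD3Y hd
  have hY := h.pairY hX
  obtain ⟨e0, e1, he⟩ := hX
  obtain ⟨f0, f1, hB⟩ := exists_B2 hd he
  have hns : ∃ S : X →L[ℂ] X, ¬ IsSc S := by
    refine ⟨rk e0 f1, ?_⟩
    intro hsc
    have := sc_ann hsc (y := e1) (g := f0) hB.fb
    simp [hB.gb, hB.fa] at this
  obtain ⟨ε, hε, hfwd, hbwd⟩ := norm_gen φ hs hst (h.NC_two hd ⟨e0, e1, he⟩)
    (h.NC_two' hd ⟨e0, e1, he⟩) hns
  obtain ⟨y, g, hgy, hg⟩ := hfwd e0 f1 hB.ga
  obtain ⟨z, k, hkz, hk⟩ := hfwd e1 f0 hB.fb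
  set L : (X →L[ℂ] X) → (Y →L[ℂ] Y) := fun S => ε S • φ S with hL
  have hg' : ∀ S, g (L S y) = f1 (S e0) := hg
  have hk' : ∀ S, k (L S z) = f0 (S e1) := hk
  have gF : g (L (rk e1 f0) y) = 1 := by rw [hg']; simp [hB.fa, hB.gb]
  have gE : g (L (rk e0 f1) y) = 0 := by rw [hg']; simp [hB.ga]
  have kE : k (L (rk e0 f1) z) = 1 := by rw [hk']; simp [hB.fa, hB.gb]
  have kF : k (L (rk e1 f0) z) = 0 := by rw [hk']; simp [hB.fb]
  have hy : y ≠ 0 := by rintro rfl; simp at gF
  have hz : z ≠ 0 := by rintro rfl; simp at kE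
  have hg0 : g ≠ 0 := by rintro rfl; simp at gF
  have hk0 : k ≠ 0 := by rintro rfl; simp at kE
  have hyz : LinearIndependent ℂ ![y, z] := by
    by_contra hcon
    obtain ⟨c, hc⟩ := mem_span_of_not_li2 hy hcon
    have hc0 : c ≠ 0 := by
      rintro rfl; rw [zero_smul] at hc; exact hz hc
    have hky : k y = 0 := by
      rw [hc, map_smul, smul_eq_mul] at hkz
      exact (mul_eq_zero.1 hkz).resolve_left hc0
    have hgk : ¬ LinearIndependent ℂ ![g, k] := by
      intro hli
      obtain ⟨w, hw1, hw2⟩ := dualvec hli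
      have hyw : LinearIndependent ℂ ![y, w] := by
        rw [li2]
        intro s t hst
        have h1 := congrArg g hst
        simp [hgy, hw1] at h1
        subst h1
        exact ⟨by simpa [hy] using hst, rfl⟩
      apply hk0
      ext v
      obtain ⟨s, t, rfl⟩ := mem_span_of_not_li3 hyw (z := v) (fun h3 => hdY ⟨y, w, v, h3⟩)
      simp [hky, hw2]
    obtain ⟨d, hd'⟩ := mem_span_of_not_li2 hg0 hgk
    rw [hd', hc] at kE
    simp [gE] at kE
  obtain ⟨k', g', hB'⟩ := exists_B2 hdY hyz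
  -- proportionality
  have hgg : ∀ v, g v = g z * g' v := by
    intro v
    conv_lhs => rw [hB'.ex v]
    simp [hgy]; ring
  have hkk : ∀ v, k v = k y * k' v := by
    intro v
    conv_lhs => rw [hB'.ex v]
    simp [hkz]; ring
  obtain ⟨r, hr⟩ : ∃ r, r = g z := ⟨_, rfl⟩
  obtain ⟨p, hp⟩ : ∃ p, p = k y := ⟨_, rfl⟩
  rw [← hr] at hgg
  rw [← hp] at hkk
  have hr0 : r ≠ 0 := by
    rintro rfl
    rw [hgg] at gF; simp at gF
  have hp0 : p ≠ 0 := by
    rintro rfl
    rw [hkk] at kE; simp at kE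
  have hγ : ∀ S, g' (L S y) = f1 (S e0) / r := by
    intro S
    rw [eq_div_iff hr0, ← hg' S, hgg]; ring
  have hβ : ∀ S, k' (L S z) = f0 (S e1) / p := by
    intro S
    rw [eq_div_iff hp0, ← hk' S, hkk]; ring
  -- the diagonal part
  have hadd : ∀ S T, k' (L (S + T) y) - g' (L (S + T) z) =
      (k' (L S y) - g' (L S z)) + (k' (L T y) - g' (L T z)) := by
    intro S T
    obtain ⟨c, hc⟩ := L_add (L := L) hbwd S T
    have e1 : L (S + T) = L S + L T + c • (1 : Y →L[ℂ] Y) := by rw [← hc]; abel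
    rw [e1]
    simp [hB'.fa, hB'.gb]
    ring
  have hsmul : ∀ (c : ℂ) S, k' (L (c • S) y) - g' (L (c • S) z) =
      c * (k' (L S y) - g' (L S z)) := by
    intro c S
    obtain ⟨d, hd'⟩ := L_smul (L := L) hbwd c S
    have e1 : L (c • S) = c • L S + d • (1 : Y →L[ℂ] Y) := by rw [← hd']; abel
    rw [e1]
    simp [hB'.fa, hB'.gb]
    ring
  have hone : k' (L 1 y) - g' (L 1 z) = 0 := by
    have h1 : IsSc (L 1) := by
      apply sc_of_ann
      intro y' g'' hg''
      obtain ⟨x', f', hf', hSf⟩ := hbwd y' g'' hg''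
      have := hSf 1
      rw [hL]
      simp only []
      rw [this]
      simpa using hf'
    obtain ⟨c, hc⟩ := h1
    rw [hc]; simp [hB'.fa, hB'.gb]
  -- preservation of the invariant
  have hq : ∀ T S, qq y z k' g' (L T) (L S) = qq e0 e1 f0 f1 T S := by
    intro T S
    have e1 : qq y z k' g' (φ T) (φ S) = qq e0 e1 f0 f1 T S := by
      apply eq_of_sq
      intro l hl
      rw [← spec_cm2 hB' _ _ hl, ← spec_cm2 hB _ _ hl]
      have := hst T S
      rw [show cm (φ T) (φ S) = φ T * φ S - φ S * φ T from rfl, this]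
    rw [← e1]
    simp only [hL]
    rw [qq_smul, sq_one_of (hε T), sq_one_of (hε S)]
    ring
  obtain ⟨b, hb⟩ : ∃ b, b = k' (L (rk e0 f1) y) - g' (L (rk e0 f1) z) := ⟨_, rfl⟩
  obtain ⟨c, hc⟩ : ∃ c, c = k' (L (rk e1 f0) y) - g' (L (rk e1 f0) z) := ⟨_, rfl⟩
  obtain ⟨a, ha⟩ : ∃ a, a = k' (L (rk e0 f0 - rk e1 f1) y) - g' (L (rk e0 f0 - rk e1 f1) z) :=
    ⟨_, rfl⟩
  have v1 := hB.fa
  have v2 := hB.fb
  have v3 := hB.ga
  have v4 := hB.gb
  have hqE_F : 1 / (p * r) * (1 / (p * r)) + b * c / (p * r) = 1 := by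
    have := hq (rk e0 f1) (rk e1 f0)
    simp only [qq, hγ, hβ, ← hb, ← hc] at this
    simp only [ContinuousLinearMap.smulRight_apply, map_smul, smul_eq_mul, v1, v2, v3, v4] at this
    rw [← sub_eq_zero] at this ⊢
    field_simp at this ⊢
    linear_combination this
  have hqE_HF : 1 / (p * r) * (1 / (p * r)) + b * (a + c) / (p * r) = 1 := by
    have := hq (rk e0 f1) ((rk e0 f0 - rk e1 f1) + rk e1 f0)
    simp only [qq, hγ, hβ, hadd, ← ha, ← hb, ← hc] at this
    simp only [add_apply, sub_apply, map_add, map_sub,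
      ContinuousLinearMap.smulRight_apply, map_smul, smul_eq_mul, v1, v2, v3, v4] at this
    rw [← sub_eq_zero] at this ⊢
    field_simp at this ⊢
    linear_combination this
  have hqF_HE : 1 / (p * r) * (1 / (p * r)) + c * (a + b) / (p * r) = 1 := by
    have := hq (rk e1 f0) ((rk e0 f0 - rk e1 f1) + rk e0 f1)
    simp only [qq, hγ, hβ, hadd, ← ha, ← hb, ← hc] at this
    simp only [add_apply, sub_apply, map_add, map_sub,
      ContinuousLinearMap.smulRight_apply, map_smul, smul_eq_mul, v1, v2, v3, v4] at this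
    rw [← sub_eq_zero] at this ⊢
    field_simp at this ⊢
    linear_combination this
  have hqH : a * a = 4 * (p * r) := by
    have := hq (rk e0 f0 - rk e1 f1) (rk e0 f1 + rk e1 f0)
    simp only [qq, hγ, hβ, hadd, ← ha, ← hb, ← hc] at this
    simp only [add_apply, sub_apply, map_add, map_sub,
      ContinuousLinearMap.smulRight_apply, map_smul, smul_eq_mul, v1, v2, v3, v4] at this
    norm_num at this
    field_simp at this
    linear_combination this
  have hpr0 : p * r ≠ 0 := mul_ne_zero hp0 hr0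
  have ha0 : a ≠ 0 := by
    rintro rfl
    apply hpr0
    linear_combination -hqH / 4
  have hb0 : b = 0 := by
    have : a * b = 0 := by
      have e : b * (a + c) / (p * r) = b * c / (p * r) := by
        linear_combination hqE_HF - hqE_F
      rw [div_left_inj' hpr0] at e
      linear_combination e
    exact (mul_eq_zero.1 this).resolve_left ha0
  have hc0 : c = 0 := by
    have : a * c = 0 := by
      have e : c * (a + b) / (p * r) = b * c / (p * r) := by
        linear_combination hqF_HE - hqE_F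
      rw [div_left_inj' hpr0] at e
      linear_combination e
    exact (mul_eq_zero.1 this).resolve_left ha0
  have hpr : (p * r) * (p * r) = 1 := by
    rw [hb0] at hqE_F
    field_simp at hqE_F
    linear_combination -hqE_F
  obtain ⟨κ, hκ⟩ : ∃ κ, κ = a / 2 := ⟨_, rfl⟩
  have hκ2 : κ * κ = p * r := by rw [hκ]; linear_combination hqH / 4
  have hκ0 : κ ≠ 0 := by
    rintro rfl
    apply hpr0; rw [← hκ2]; ring
  have hdiag : ∀ S : X →L[ℂ] X, k' (L S y) - g' (L S z) = κ * (f0 (S e0) - f1 (S e1)) := by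
    intro S
    have hS : S = (((f0 (S e0) - f1 (S e1)) / 2) • (rk e0 f0 - rk e1 f1) + f0 (S e1) • rk e0 f1 +
        f1 (S e0) • rk e1 f0) + ((f0 (S e0) + f1 (S e1)) / 2) • (1 : X →L[ℂ] X) := by
      ext x
      apply hB.ext
      · simp only [add_apply, sub_apply, smul_apply, one_apply_eq_self,
          ContinuousLinearMap.smulRight_apply, map_add, map_sub, map_smul, smul_eq_mul, v1, v2]
        rw [hB.fcomp f0 S x]
        ring
      · simp only [add_apply, sub_apply, smul_apply, one_apply_eq_self,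
          ContinuousLinearMap.smulRight_apply, map_add, map_sub, map_smul, smul_eq_mul, v3, v4]
        rw [hB.fcomp f1 S x]
        ring
    have e1 : k' (L S y) - g' (L S z) = ((f0 (S e0) - f1 (S e1)) / 2) * a + f0 (S e1) * b +
        f1 (S e0) * c + ((f0 (S e0) + f1 (S e1)) / 2) * 0 := by
      rw [ha, hb, hc, ← hone, ← hsmul, ← hsmul, ← hsmul, ← hsmul, ← hadd, ← hadd, ← hadd, ← hS]
    rw [e1, hb0, hc0, hκ]
    ring
  -- the isomorphism
  have hs0 : κ * p ≠ 0 := mul_ne_zero hκ0 hp0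
  let A1 : X →L[ℂ] Y := f0.smulRight ((κ * p)⁻¹ • y) + f1.smulRight z
  let A2 : Y →L[ℂ] X := k'.smulRight ((κ * p) • e0) + g'.smulRight e1
  have hA12 : Function.LeftInverse A2 A1 := by
    intro x
    simp only [A1, A2, add_apply, ContinuousLinearMap.smulRight_apply, map_add, map_smul,
      smul_eq_mul, hB'.fa, hB'.fb, hB'.ga, hB'.gb]
    apply hB.ext
    · simp only [map_add, map_smul, smul_eq_mul, v1, v2]
      field_simp
      ring
    · simp only [map_add, map_smul, smul_eq_mul, v3, v4]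
      ring
  have hA21 : Function.RightInverse A2 A1 := by
    intro x
    simp only [A1, A2, add_apply, ContinuousLinearMap.smulRight_apply, map_add, map_smul,
      smul_eq_mul, v1, v2, v3, v4]
    apply hB'.ext
    · simp only [map_add, map_smul, smul_eq_mul, hB'.fa, hB'.fb]
      field_simp
      ring
    · simp only [map_add, map_smul, smul_eq_mul, hB'.ga, hB'.gb]
      ring
  let A : X ≃L[ℂ] Y := ContinuousLinearEquiv.equivOfInverse A1 A2 hA12 hA21
  have hA : ∀ x, A x = f0 x • (κ * p)⁻¹ • y + f1 x • z := fun x => rfl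
  have hAs : ∀ v, A.symm v = k' v • (κ * p) • e0 + g' v • e1 := fun v => rfl
  refine ⟨ε, A, κ, hε, ?_, fun S => ?_⟩
  · linear_combination (κ * κ + p * r) * hκ2 + hpr
  · have hsc : IsSc (L S - κ • ((A : X →L[ℂ] Y) ∘L S ∘L (A.symm : Y →L[ℂ] X))) := by
      apply isSc_of_entries hB'
      · simp only [sub_apply, smul_apply, map_sub, map_smul, hβ, smul_eq_mul,
          ContinuousLinearMap.comp_apply, ContinuousLinearEquiv.coe_coe, hAs, hA,
          hB'.fa, hB'.fb, hB'.ga, hB'.gb, map_add, zero_smul, one_smul, zero_add]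
        field_simp
        ring
      · simp only [sub_apply, smul_apply, map_sub, map_smul, hγ, smul_eq_mul,
          ContinuousLinearMap.comp_apply, ContinuousLinearEquiv.coe_coe, hAs, hA,
          hB'.fa, hB'.fb, hB'.ga, hB'.gb, map_add, zero_smul, one_smul, add_zero]
        rw [← sub_eq_zero]
        field_simp
        linear_combination (-(f1 (S e0)) * (r * p)) * hκ2 - (f1 (S e0)) * hpr
      · have := hdiag S
        have w1 : k' (A (S (A.symm y))) = f0 (S e0) := by
          rw [hAs, hB'.fa, hB'.ga, one_smul, zero_smul, add_zero, map_smul, hA]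
          simp only [map_add, map_smul, smul_eq_mul, hB'.fa, hB'.fb]
          field_simp
          ring
        have w2 : g' (A (S (A.symm z))) = f1 (S e1) := by
          rw [hAs, hB'.fb, hB'.gb, one_smul, zero_smul, zero_add, hA]
          simp only [map_add, map_smul, smul_eq_mul, hB'.ga, hB'.gb]
          ring
        simp only [sub_apply, smul_apply, map_sub, map_smul, smul_eq_mul,
          ContinuousLinearMap.comp_apply, ContinuousLinearEquiv.coe_coe, w1, w2]
        linear_combination this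
    obtain ⟨μ, hμ⟩ := hsc
    refine ⟨ε S * μ, ?_⟩
    have e1 : φ S = ε S • L S := by
      simp only [hL]
      rw [smul_smul, sq_one_of (hε S), one_smul]
    have e2 : L S = κ • ((A : X →L[ℂ] Y) ∘L S ∘L (A.symm : Y →L[ℂ] X)) + μ • 1 := by
      rw [← hμ]; abel
    rw [e1, e2]
    module

end Pool.Agent.Helper139.Pr
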