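import Pool.Agent.Helper139.Pr14

open Filter Topology

namespace Pool.Agent.Helper139.Pr

variable {X : Type*} [NormedAddCommGroup X] [NormedSpace ℂ X]
variable {Y : Type*} [NormedAddCommGroup Y] [NormedSpace ℂ Y]

/-! ### Dimension two -/

lemma std_two (hd : ¬ D3 X) (hX : ∃ a b : X, LinearIndependent ℂ ![a, b])
    {φ : (X →L[ℂ] X) → (Y →L[ℂ] Y)} (hs : Function.Surjective φ) (hst : Star φ) :
    Std1 φ ∨ Std2 φ := by
  obtain ⟨ε, A, κ, hε, hκ, hφ⟩ := two_form hd hX hs hst
  choose μ hμ using hφ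
  obtain ⟨e0, e1, he⟩ := hX
  obtain ⟨f0, f1, hB⟩ := exists_B2 hd he
  have h1 : (κ * κ - 1) * (κ * κ + 1) = 0 := by linear_combination hκ
  rcases mul_eq_zero.1 h1 with h2 | h2
  · left
    have h3 : (κ - 1) * (κ + 1) = 0 := by linear_combination h2
    refine ⟨A, κ, ε, μ, ?_, hε, fun T hT => absurd (hB.sym T) hT, fun T => ?_⟩
    · rcases mul_eq_zero.1 h3 with h4 | h4
      · left; linear_combination h4
      · right; linear_combination h4
    · rw [hμ T, mul_comm (ε T) κ]
  · right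
    have h3 : (κ - Complex.I) * (κ + Complex.I) = 0 := by
      linear_combination h2 - Complex.I_mul_I
    let J1 : X →L[ℂ] (X →L[ℂ] ℂ) := f0.smulRight f1 - f1.smulRight f0
    let J2 : (X →L[ℂ] ℂ) →L[ℂ] X :=
      (ContinuousLinearMap.apply ℂ ℂ e1).smulRight e0 -
        (ContinuousLinearMap.apply ℂ ℂ e0).smulRight e1
    have hJ1 : ∀ x v, J1 x v = f0 x * f1 v - f1 x * f0 v := fun x v => rfl
    have hJ2 : ∀ ξ, J2 ξ = ξ e1 • e0 - ξ e0 • e1 := fun ξ => rfl
    have hJ12 : Function.LeftInverse J2 J1 := by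
      intro x
      rw [hJ2, hJ1, hJ1, hB.fa, hB.fb, hB.ga, hB.gb]
      conv_rhs => rw [hB.ex x]
      module
    have hJ21 : Function.RightInverse J2 J1 := by
      intro ξ
      ext v
      rw [hJ1, hJ2]
      simp only [map_sub, map_smul, smul_eq_mul, hB.fa, hB.fb, hB.ga, hB.gb]
      have : ξ v = f0 v * ξ e0 + f1 v * ξ e1 := by
        conv_lhs => rw [hB.ex v]
        simp
      rw [this]; ring
    let J : X ≃L[ℂ] (X →L[ℂ] ℂ) := ContinuousLinearEquiv.equivOfInverse J1 J2 hJ12 hJ21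
    have hJ : ∀ x v, J x v = f0 x * f1 v - f1 x * f0 v := fun x v => rfl
    have hkey : ∀ (T : X →L[ℂ] X) (x : X), adj T (J x) = J ((f0 (T e0) + f1 (T e1)) • x - T x) := by
      intro T x
      ext v
      rw [adj_apply2, hJ, hJ]
      simp only [map_sub, map_smul, smul_eq_mul]
      rw [hB.fcomp f1 T v, hB.fcomp f0 T v, hB.fcomp f0 T x, hB.fcomp f1 T x]
      ring
    refine ⟨J.symm.trans A, -κ, ε, fun T => μ T + (ε T * κ) * (f0 (T e0) + f1 (T e1)), ?_, hε,
      fun T hT => absurd (hB.sym T) hT, fun T => ?_⟩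
    · rcases mul_eq_zero.1 h3 with h4 | h4
      · right; linear_combination -h4
      · left; linear_combination -h4
    · rw [hμ T]
      ext y
      simp only [add_apply, smul_apply, ContinuousLinearMap.comp_apply,
        ContinuousLinearEquiv.coe_coe, ContinuousLinearEquiv.symm_trans_apply,
        ContinuousLinearEquiv.symm_symm, ContinuousLinearEquiv.trans_apply, one_apply_eq_self]
      rw [hkey T (A.symm y), J.symm_apply_apply, map_sub, map_smul, A.apply_symm_apply]
      module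

/-! ### Dimension at most one -/

lemma std_one (hX : ¬ ∃ a b : X, LinearIndependent ℂ ![a, b])
    {φ : (X →L[ℂ] X) → (Y →L[ℂ] Y)} (hs : Function.Surjective φ) (hst : Star φ) :
    Std1 φ := by
  have h := spRel_graph φ hs hst
  have hY : ¬ ∃ a b : Y, LinearIndependent ℂ ![a, b] := fun h2 => hX (h.flip.pairY h2)
  have hscY : ∀ D : Y →L[ℂ] Y, IsSc D := fun D => isSc_of_dep (fun v hv => hY ⟨_, _, hv⟩)
  have hscX : ∀ D : X →L[ℂ] X, IsSc D := fun D => isSc_of_dep (fun v hv => hX ⟨_, _, hv⟩)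
  obtain ⟨A⟩ : Nonempty (X ≃L[ℂ] Y) := by
    by_cases hx : ∃ x : X, x ≠ 0
    · obtain ⟨x, hx⟩ := hx
      have hy : ∃ y : Y, y ≠ 0 := by
        by_contra hcon
        push Not at hcon
        have h0 : (0 : ℂ) ∈ spectrum ℂ (cm (0 : X →L[ℂ] X) 0) := by
          have : cm (0 : X →L[ℂ] X) 0 = 0 := by simp [cm]
          rw [this]
          have : Nontrivial X := ⟨x, 0, hx⟩
          rw [spectrum.zero_eq]; rfl
        rw [← show spectrum ℂ (cm (φ 0) (φ 0)) = spectrum ℂ (cm (0 : X →L[ℂ] X) 0) from hst 0 0] at h0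
        rw [spectrum.mem_iff] at h0
        apply h0
        have : algebraMap ℂ (Y →L[ℂ] Y) 0 - cm (φ 0) (φ 0) = 1 := by
          ext v; rw [hcon v]; simp
        rw [this]
        exact isUnit_one
      obtain ⟨y, hy⟩ := hy
      obtain ⟨f, hf⟩ := SeparatingDual.exists_eq_one (R := ℂ) hx
      obtain ⟨g, hg⟩ := SeparatingDual.exists_eq_one (R := ℂ) hy
      have h1 : ∀ v : X, v = f v • x := by
        intro v
        obtain ⟨s, hs⟩ := mem_span_of_not_li2 hx (fun hli => hX ⟨x, v, hli⟩)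
        rw [hs]; simp [hf]
      have h2 : ∀ v : Y, v = g v • y := by
        intro v
        obtain ⟨s, hs⟩ := mem_span_of_not_li2 hy (fun hli => hY ⟨y, v, hli⟩)
        rw [hs]; simp [hg]
      refine ⟨ContinuousLinearEquiv.equivOfInverse (f.smulRight y) (g.smulRight x) ?_ ?_⟩
      · intro v
        simp only [ContinuousLinearMap.smulRight_apply, map_smul, hg, one_smul]
        exact (h1 v).symm
      · intro v
        simp only [ContinuousLinearMap.smulRight_apply, map_smul, hf, one_smul]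
        exact (h2 v).symm
    · push Not at hx
      have hy : ∀ y : Y, y = 0 := by
        intro y
        obtain ⟨T, hT⟩ := hs 0
        obtain ⟨S, hS⟩ := hs 1
        have hTS : T = S := by ext v; rw [hx v]; simp
        have h01 : (0 : Y →L[ℂ] Y) = 1 := by rw [← hT, ← hS, hTS]
        have := congrArg (fun D : Y →L[ℂ] Y => D y) h01
        simpa using this.symm
      exact ⟨ContinuousLinearEquiv.equivOfInverse 0 0 (fun v => by rw [hx v]; simp)
        (fun v => by rw [hy v]; simp)⟩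
  have hη : ∀ T, ∃ η : ℂ, φ T - ((A : X →L[ℂ] Y) ∘L T ∘L (A.symm : Y →L[ℂ] X)) = η • 1 :=
    fun T => hscY _
  choose η hη using hη
  refine ⟨A, 1, fun _ => 1, η, Or.inl rfl, fun _ => Or.inl rfl, fun _ _ => rfl, fun T => ?_⟩
  rw [← hη T]
  module

/-- Main theorem in all dimensions. -/
theorem std_of_star_all [CompleteSpace X] [CompleteSpace Y]
    {φ : (X →L[ℂ] X) → (Y →L[ℂ] Y)} (hs : Function.Surjective φ) (hst : Star φ) :
    Std1 φ ∨ Std2 φ := by
  by_cases hd : D3 X
  · exact std_of_star hd hs hst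
  · by_cases hX : ∃ a b : X, LinearIndependent ℂ ![a, b]
    · exact std_two hd hX hs hst
    · exact Or.inl (std_one hX hs hst)

/-! ### Quadratic operators -/

lemma quad_of_SR {T : X →L[ℂ] X} (h : IsSR T) : ∃ a b : ℂ, T * T = a • T + b • 1 := by
  obtain ⟨c, x, f, rfl⟩ := h
  refine ⟨2 * c + f x, -(c * c) - c * f x, ?_⟩
  ext v
  simp
  module

lemma no_tri_of_sym {T : X →L[ℂ] X} (h : Sym T) (x : X) :
    ¬ LinearIndependent ℂ ![x, T x, T (T x)] := by
  intro hli
  obtain ⟨g1, h10, h11, h12⟩ := exists_dual3 hli 0 1 0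
  obtain ⟨g2, h20, h21, h22⟩ := exists_dual3 hli 0 0 1
  obtain ⟨p1, -, p3⟩ := partner hli ⟨rfl, rfl⟩ h10 h11 h12 h20 h21 h22 rfl
  have := p3 _ (h _ _ p1)
  norm_num at this

lemma tri_shift {T : X →L[ℂ] X} {c : ℂ} {x : X}
    (h : LinearIndependent ℂ ![x, (T - c • 1) x, (T - c • 1) ((T - c • 1) x)]) :
    LinearIndependent ℂ ![x, T x, T (T x)] := by
  rw [li3] at h ⊢
  intro s t u hst
  have := h (s + t * c + u * c ^ 2) (t + 2 * u * c) u (by
    rw [← hst]
    simp
    module)
  obtain ⟨h1, h2, h3⟩ := this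
  subst h3
  have ht : t = 0 := by simpa using h2
  subst ht
  exact ⟨by simpa using h1, rfl, rfl⟩

/-- Kaplansky's lemma in degree two. -/
lemma quad_of_no_tri {T : X →L[ℂ] X} (h : ∀ x, ¬ LinearIndependent ℂ ![x, T x, T (T x)]) :
    ∃ a b : ℂ, T * T = a • T + b • 1 := by
  by_cases hd : D3 X
  swap
  · exact quad_of_SR (SR_of_not_D3 hd T)
  by_cases hq : ∃ x y : X, LinearIndependent ℂ ![x, T x, y, T y]
  swap
  · push Not at hq
    exact quad_of_SR (SR_struct hd (fun c x hli => h x (tri_shift hli)) hq)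
  obtain ⟨x0, y0, hxy⟩ := hq
  have hx0 : LinearIndependent ℂ ![x0, T x0] := by
    rw [li2]
    intro s t hst
    have := li4.1 hxy s t 0 0 (by rw [← hst]; module)
    exact ⟨this.1, this.2.1⟩
  obtain ⟨b, a, hab⟩ := mem_span_of_not_li3 hx0 (h x0)
  -- generic vectors
  have hgen : ∀ w, LinearIndependent ℂ ![x0, T x0, w, T w] → T (T w) = b • w + a • T w := by
    intro w hw
    have hw2 : LinearIndependent ℂ ![w, T w] := by
      rw [li2]
      intro s t hst
      have := li4.1 hw 0 0 s t (by rw [← hst]; module)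
      exact ⟨this.2.2.1, this.2.2.2⟩
    have hw3 : LinearIndependent ℂ ![x0 + w, T (x0 + w)] := by
      rw [li2]
      intro s t hst
      have := li4.1 hw s t s t (by rw [← hst, map_add]; module)
      exact ⟨this.1, this.2.1⟩
    obtain ⟨b', a', h1⟩ := mem_span_of_not_li3 hw2 (h w)
    obtain ⟨b'', a'', h2⟩ := mem_span_of_not_li3 hw3 (h (x0 + w))
    rw [map_add, map_add, hab, h1] at h2
    have := li4.1 hw (b - b'') (a - a'') (b' - b'') (a' - a'') (by
      rw [← sub_eq_zero] at h2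
      rw [← h2]; module)
    obtain ⟨i1, i2, i3, i4⟩ := this
    rw [h1]
    have e1 : b' = b := by linear_combination i3 - i1
    have e2 : a' = a := by linear_combination i4 - i2
    rw [e1, e2]
  obtain ⟨l1, l10, l11, l12, l13⟩ := exists_dual4 hxy 0 0 1 0
  obtain ⟨l2, l20, l21, l22, l23⟩ := exists_dual4 hxy 0 0 0 1
  have hPL : PL (fun w : X => l1 w * l2 (T w) - l2 w * l1 (T w)) :=
    ((PL.lin l1).mul (PL.lin (l2.comp T))).sub ((PL.lin l2).mul (PL.lin (l1.comp T)))
  have hdet : ∀ w, l1 w * l2 (T w) - l2 w * l1 (T w) ≠ 0 →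
      LinearIndependent ℂ ![x0, T x0, w, T w] := by
    intro w hw
    rw [li4]
    intro s t u v hst
    have e1 := congrArg l1 hst
    have e2 := congrArg l2 hst
    simp only [map_add, map_smul, smul_eq_mul, map_zero, l10, l11, l20, l21, mul_zero,
      zero_add] at e1 e2
    have hu : u * (l1 w * l2 (T w) - l2 w * l1 (T w)) = 0 := by
      linear_combination l2 (T w) * e1 - l1 (T w) * e2
    have hv : v * (l1 w * l2 (T w) - l2 w * l1 (T w)) = 0 := by
      linear_combination l1 w * e2 - l2 w * e1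
    have hu0 := (mul_eq_zero.1 hu).resolve_right hw
    have hv0 := (mul_eq_zero.1 hv).resolve_right hw
    subst hu0 hv0
    have := li2.1 hx0 s t (by simpa using hst)
    exact ⟨this.1, this.2, rfl, rfl⟩
  refine ⟨a, b, ?_⟩
  ext z
  obtain ⟨P, hP⟩ := hPL y0 z
  have hP0 : P ≠ 0 := by
    rintro rfl
    have := hP 0
    simp [l12, l13, l22, l23] at this
  obtain ⟨t, ht⟩ : ∃ t : ℂ, (P * Polynomial.X).eval t ≠ 0 := by
    by_contra hcon
    push Not at hcon
    exact mul_ne_zero hP0 Polynomial.X_ne_zero (Polynomial.funext (by simpa using hcon))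
  rw [Polynomial.eval_mul, Polynomial.eval_X] at ht
  have ht0 := right_ne_zero_of_mul ht
  have hP1 := left_ne_zero_of_mul ht
  rw [← hP] at hP1
  have g1 := hgen _ (hdet _ hP1)
  have g0 := hgen _ hxy
  simp only [map_add, map_smul] at g1
  rw [g0] at g1
  have e1 : t • (T (T z) - (b • z + a • T z)) = 0 := by
    rw [← sub_eq_zero] at g1
    rw [← g1]; module
  have e2 := (smul_eq_zero.1 e1).resolve_left ht0
  have e3 : T (T z) = b • z + a • T z := sub_eq_zero.1 e2
  simp [e3]
  abel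

lemma quad_of_sym {T : X →L[ℂ] X} (h : Sym T) : ∃ a b : ℂ, T * T = a • T + b • 1 :=
  quad_of_no_tri (no_tri_of_sym h)

/-- Quadratic operators with two different roots are symmetric. -/
lemma sym_of_quad {T : X →L[ℂ] X} {a b : ℂ} (hab : a ≠ b)
    (h : (T - a • 1) * (T - b • 1) = 0) : Sym T := by
  intro S z hz hu
  apply hz
  set U : X →L[ℂ] X := T - ((a + b) / 2) • 1 with hU
  have hd : ((a - b) / 2) ^ 2 ≠ 0 := by
    apply pow_ne_zero
    rw [div_ne_zero_iff]
    exact ⟨sub_ne_zero.2 hab, two_ne_zero⟩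
  have hUU : U * U = (((a - b) / 2) ^ 2) • 1 := by
    have e : U * U = (T - a • 1) * (T - b • 1) + (((a - b) / 2) ^ 2) • 1 := by
      ext x
      simp [hU]
      module
    rw [e, h, zero_add]
  have hUC : U * (T * S - S * T) = -((T * S - S * T) * U) := by
    have hc : T * S - S * T = U * S - S * U := by
      ext x; simp [hU]
    rw [hc]
    have h1 : U * U * S = S * (U * U) := by
      rw [hUU]; ext x; simp
    calc U * (U * S - S * U) = U * U * S - U * S * U := by noncomm_ring
      _ = S * (U * U) - U * S * U := by rw [h1]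
      _ = -((U * S - S * U) * U) := by noncomm_ring
  set C := T * S - S * T with hC
  have hUunit : IsUnit U := by
    refine ⟨⟨U, (((a - b) / 2) ^ 2)⁻¹ • U, ?_, ?_⟩, rfl⟩
    · rw [mul_smul_comm, hUU, smul_smul, inv_mul_cancel₀ hd, one_smul]
    · rw [smul_mul_assoc, hUU, smul_smul, inv_mul_cancel₀ hd, one_smul]
  have hrel : U * (algebraMap ℂ (X →L[ℂ] X) z - C) = -((algebraMap ℂ (X →L[ℂ] X) (-z) - C) * U) := by
    have h2 : U * algebraMap ℂ (X →L[ℂ] X) z = algebraMap ℂ (X →L[ℂ] X) z * U :=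
      (Algebra.commutes z U).symm
    rw [mul_sub, hUC, h2, map_neg]
    noncomm_ring
  have h3 : IsUnit (U * (algebraMap ℂ (X →L[ℂ] X) z - C)) := by
    rw [hrel]
    exact (hu.mul hUunit).neg
  obtain ⟨u, hu'⟩ := hUunit
  rw [← hu'] at h3
  exact (Units.isUnit_units_mul u _).1 h3

end Pool.Agent.Helper139.Pr
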