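import Pool.Agent.Helper139.Pr1

namespace Pool.Agent.Helper139.Pr

variable {X : Type*} [NormedAddCommGroup X] [NormedSpace ℂ X]

/-- Any two nonzero spectral values of a commutator with `T` have the same square. -/
def P1 (T : X →L[ℂ] X) : Prop :=
  ∀ S : X →L[ℂ] X, ∀ a ∈ spectrum ℂ (cm T S), ∀ b ∈ spectrum ℂ (cm T S),
    a ≠ 0 → b ≠ 0 → a ^ 2 = b ^ 2

/-- Scalar plus rank at most one. -/
def IsSR (T : X →L[ℂ] X) : Prop :=
  ∃ (c : ℂ) (x : X) (f : X →L[ℂ] ℂ), T = c • (1 : X →L[ℂ] X) + rk x f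

/-- Dimension at least three. -/
def D3 (X : Type*) [NormedAddCommGroup X] [NormedSpace ℂ X] : Prop :=
  ∃ x y z : X, LinearIndependent ℂ ![x, y, z]

lemma cm_sub_smul (T S : X →L[ℂ] X) (c : ℂ) : cm (T - c • 1) S = cm T S := by
  ext x
  simp [cm]

lemma cm_add_smul (T S : X →L[ℂ] X) (c : ℂ) : cm (c • (1 : X →L[ℂ] X) + T) S = cm T S := by
  ext x
  simp [cm]

lemma P1_of_SR {T : X →L[ℂ] X} (h : IsSR T) : P1 T := by
  obtain ⟨c, x, f, rfl⟩ := h
  intro S a ha b hb ha0 hb0
  rw [cm_add_smul] at ha hb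
  rw [(mem_spec_rk ha0).1 ha, (mem_spec_rk hb0).1 hb]

lemma mem_span_of_not_li3 {a b z : X} (h : LinearIndependent ℂ ![a, b])
    (h' : ¬ LinearIndependent ℂ ![a, b, z]) : ∃ s t : ℂ, z = s • a + t • b := by
  by_contra hcon
  push Not at hcon
  apply h'
  rw [li3]
  intro s t u hu
  have hu0 : u = 0 := by
    by_contra hne
    apply hcon (-(u⁻¹ * s)) (-(u⁻¹ * t))
    have h2 : u • z = -(s • a) - t • b := by
      rw [← sub_eq_zero, ← hu]; abel
    calc z = u⁻¹ • (u • z) := by rw [smul_smul, inv_mul_cancel₀ hne, one_smul]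
      _ = _ := by rw [h2]; module
  subst hu0
  have := li2.1 h s t (by simpa using hu)
  exact ⟨this.1, this.2, rfl⟩

lemma mem_span_of_not_li2 {a z : X} (h : a ≠ 0)
    (h' : ¬ LinearIndependent ℂ ![a, z]) : ∃ s : ℂ, z = s • a := by
  by_contra hcon
  push Not at hcon
  apply h'
  rw [li2]
  intro s u hu
  have hu0 : u = 0 := by
    by_contra hne
    apply hcon (-(u⁻¹ * s))
    have h2 : u • z = -(s • a) := by
      rw [← sub_eq_zero, ← hu]; abel
    calc z = u⁻¹ • (u • z) := by rw [smul_smul, inv_mul_cancel₀ hne, one_smul]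
      _ = _ := by rw [h2]; module
  subst hu0
  refine ⟨?_, rfl⟩
  have h3 : s • a = 0 := by simpa using hu
  exact (smul_eq_zero.1 h3).resolve_right h

lemma fin_of_span2 {a b : X} (h : ∀ z : X, ∃ s t : ℂ, z = s • a + t • b) :
    Module.Finite ℂ X ∧ Module.finrank ℂ X ≤ 2 := by
  have hs : Function.Surjective (Fintype.linearCombination ℂ ![a, b] : (Fin 2 → ℂ) →ₗ[ℂ] X) := by
    intro z
    obtain ⟨s, t, rfl⟩ := h z
    exact ⟨![s, t], by simp [Fintype.linearCombination_apply, Fin.sum_univ_two]⟩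
  refine ⟨Module.Finite.of_surjective _ hs, ?_⟩
  have := LinearMap.finrank_le_finrank_of_surjective hs
  simpa using this

lemma D3.exists_notin (h : D3 X) (a b : X) : ∃ z : X, z ∉ Submodule.span ℂ ({a, b} : Set X) := by
  by_contra hcon
  push Not at hcon
  obtain ⟨x, y, z, hli⟩ := h
  obtain ⟨hfin, hle⟩ := fin_of_span2 (a := a) (b := b) (by
    intro w
    obtain ⟨s, t, hst⟩ := Submodule.mem_span_pair.1 (hcon w)
    exact ⟨s, t, hst.symm⟩)
  have := hli.fintype_card_le_finrank
  simp at this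
  omega

lemma D3.exists_li3 (h : D3 X) {a b : X} (hab : LinearIndependent ℂ ![a, b]) :
    ∃ z, LinearIndependent ℂ ![a, b, z] := by
  obtain ⟨z, hz⟩ := h.exists_notin a b
  refine ⟨z, ?_⟩
  by_contra hcon
  obtain ⟨s, t, hst⟩ := mem_span_of_not_li3 hab hcon
  exact hz (hst ▸ Submodule.mem_span_pair.2 ⟨s, t, rfl⟩)

lemma D3.exists_li2 (h : D3 X) {a : X} (ha : a ≠ 0) :
    ∃ z, LinearIndependent ℂ ![a, z] := by
  obtain ⟨z, hz⟩ := h.exists_notin a a
  refine ⟨z, ?_⟩
  by_contra hcon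
  obtain ⟨s, hst⟩ := mem_span_of_not_li2 ha hcon
  exact hz (hst ▸ Submodule.mem_span_pair.2 ⟨s, 0, by simp⟩)

lemma li3_of {a b c : X} (h : LinearIndependent ℂ ![a, b]) (hc : ∀ s t : ℂ, c ≠ s • a + t • b) :
    LinearIndependent ℂ ![a, b, c] := by
  by_contra hcon
  obtain ⟨s, t, hst⟩ := mem_span_of_not_li3 h hcon
  exact hc s t hst

lemma caseA {T : X →L[ℂ] X} {x : X} (h : LinearIndependent ℂ ![x, T x, T (T x)]) : ¬ P1 T := by
  intro hP
  obtain ⟨g1, h10, h11, h12⟩ := exists_dual3 h 0 1 0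
  obtain ⟨g2, h20, h21, h22⟩ := exists_dual3 h 0 0 1
  have hx : x ≠ 0 := by
    intro h0
    have := (li3.1 h) 1 0 0 (by simp [h0])
    simp at this
  have hTx : T x ≠ 0 := by
    intro h0
    have := (li3.1 h) 0 1 0 (by simp [h0])
    simp at this
  set S : X →L[ℂ] X := -(rk x g1) - (3 : ℂ) • rk (T x) g2 with hS
  have e1 : cm T S x = (1 : ℂ) • x := by
    simp [cm, hS, h10, h20, h11, h21]
  have e2 : cm T S (T x) = (2 : ℂ) • (T x) := by
    simp [cm, hS, h11, h21, h12, h22]
    module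
  have := hP S 1 (eig_mem hx e1) 2 (eig_mem hTx e2) one_ne_zero two_ne_zero
  norm_num at this

lemma caseB {T : X →L[ℂ] X} {x y : X} (h : LinearIndependent ℂ ![x, T x, y, T y]) : ¬ P1 T := by
  intro hP
  obtain ⟨g1, h10, h11, h12, h13⟩ := exists_dual4 h 0 1 0 0
  obtain ⟨g2, h20, h21, h22, h23⟩ := exists_dual4 h 0 0 0 1
  have hx : x ≠ 0 := by
    intro h0
    have := (li4.1 h) 1 0 0 0 (by simp [h0])
    simp at this
  have hy : y ≠ 0 := by
    intro h0
    have := (li4.1 h) 0 0 1 0 (by simp [h0])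
    simp at this
  set S : X →L[ℂ] X := -(rk x g1) - (2 : ℂ) • rk y g2 with hS
  have e1 : cm T S x = (1 : ℂ) • x := by
    simp [cm, hS, h10, h20, h11, h21]
  have e2 : cm T S y = (2 : ℂ) • y := by
    simp [cm, hS, h12, h22, h13, h23]
  have := hP S 1 (eig_mem hx e1) 2 (eig_mem hy e2) one_ne_zero two_ne_zero
  norm_num at this

lemma SR_struct (hd : D3 X) {T : X →L[ℂ] X}
    (hA : ∀ (c : ℂ) (x : X), ¬ LinearIndependent ℂ ![x, (T - c • 1) x, (T - c • 1) ((T - c • 1) x)])
    (hB : ∀ x y : X, ¬ LinearIndependent ℂ ![x, T x, y, T y]) : IsSR T := by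
  have hA0 : ∀ x : X, ¬ LinearIndependent ℂ ![x, T x, T (T x)] := by
    intro x
    have := hA 0 x
    simpa using this
  by_cases hsc : IsSc T
  · obtain ⟨c, rfl⟩ := hsc
    exact ⟨c, 0, 0, by ext; simp⟩
  obtain ⟨x, hx⟩ : ∃ x, LinearIndependent ℂ ![x, T x] := by
    by_contra hcon
    push Not at hcon
    exact hsc (isSc_of_dep hcon)
  set W : Submodule ℂ X := Submodule.span ℂ ({x, T x} : Set X) with hW
  have hTTx : T (T x) ∈ W := by
    by_contra hcon
    apply hA0 x
    apply li3_of hx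
    intro s t hst
    exact hcon (hst ▸ Submodule.mem_span_pair.2 ⟨s, t, rfl⟩)
  have hWT : W ≤ W.comap (T : X →ₗ[ℂ] X) := by
    rw [hW, Submodule.span_le]
    rintro v (rfl | rfl)
    · exact Submodule.subset_span (by simp)
    · exact hTTx
  obtain ⟨a, ha⟩ := LinearMap.exists_eq_smul_id_of_forall_notLinearIndependent
    (f := W.mapQ W (T : X →ₗ[ℂ] X) hWT) (by
      intro v hv
      obtain ⟨y, rfl⟩ := W.mkQ_surjective v
      apply hB x y
      rw [li4]
      intro s t u v h0
      have hq := congrArg W.mkQ h0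
      simp only [map_add, map_smul, map_zero] at hq
      have hx0 : W.mkQ x = 0 := by
        simpa using (Submodule.subset_span (by simp) : x ∈ W)
      have hTx0 : W.mkQ (T x) = 0 := by
        simpa using (Submodule.subset_span (by simp) : T x ∈ W)
      rw [hx0, hTx0] at hq
      have huv := (LinearIndependent.pair_iff.1 hv) u v (by
        simpa using hq)
      obtain ⟨rfl, rfl⟩ := huv
      have := li2.1 hx s t (by simpa using h0)
      exact ⟨this.1, this.2, rfl, rfl⟩)
  have hmem : ∀ y, T y - a • y ∈ W := by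
    intro y
    have := congrArg (fun g : (X ⧸ W) →ₗ[ℂ] (X ⧸ W) => g (W.mkQ y)) ha
    simp only [Submodule.mkQ_apply, Submodule.mapQ_apply, LinearMap.smul_apply,
      Module.End.one_apply] at this
    rw [← Submodule.Quotient.mk_smul, Submodule.Quotient.eq] at this
    exact this
  set N : X →L[ℂ] X := T - a • 1 with hN
  have hNy : ∀ y, N y = T y - a • y := by intro y; simp [hN]
  have hxN : LinearIndependent ℂ ![x, N x] := by
    rw [li2]
    intro s t hst
    rw [hNy] at hst
    have := li2.1 hx (s - t * a) t (by rw [← hst]; module)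
    obtain ⟨h1, rfl⟩ := this
    exact ⟨by simpa using h1, rfl⟩
  obtain ⟨h1, h1x, h1N⟩ := exists_dual2 hxN 1 0
  obtain ⟨h2, h2x, h2N⟩ := exists_dual2 hxN 0 1
  have hco : ∀ y, N y = h1 (N y) • x + h2 (N y) • N x := by
    intro y
    obtain ⟨s, t, hst⟩ := Submodule.mem_span_pair.1 (hmem y)
    have e : N y = (s + t * a) • x + t • N x := by
      rw [hNy y, ← hst, hNy x]; module
    have e1 : h1 (N y) = s + t * a := by rw [e]; simp [h1x, h1N]
    have e2 : h2 (N y) = t := by rw [e]; simp [h2x, h2N]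
    rw [e1, e2]; exact e
  by_cases hz : ∀ y, h1 (N y) = 0
  · refine ⟨a, N x, h2.comp N, ?_⟩
    ext y
    have := hco y
    rw [hz y, zero_smul, zero_add] at this
    have e : T y = a • y + N y := by rw [hNy]; abel
    rw [e, this]
    simp
  · exfalso
    push Not at hz
    obtain ⟨y, hy⟩ := hz
    obtain ⟨z, hzW⟩ := hd.exists_li3 hxN
    obtain ⟨k, kx, kN, kz⟩ := exists_dual3 hzW 0 0 1
    have hex := (PL.lin (V := X) k).exists_ne
      (q := fun v => h1 (N v) * h2 (N (N v)) - h2 (N v) * h1 (N (N v)))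
      (((PL.lin (h1.comp N)).mul (PL.lin (h2.comp (N.comp N)))).sub
        ((PL.lin (h2.comp N)).mul (PL.lin (h1.comp (N.comp N)))))
      ⟨z, by rw [kz]; exact one_ne_zero⟩
      ⟨(h1 (N y))⁻¹ • (y - h2 (N y) • x), by
        have e : N ((h1 (N y))⁻¹ • (y - h2 (N y) • x)) = x := by
          rw [map_smul, map_sub, map_smul]
          nth_rewrite 2 [hco y]
          rw [add_sub_cancel_right, smul_smul, inv_mul_cancel₀ hy, one_smul]
        rw [e, h1x, h2N, h2x]
        simp⟩
    obtain ⟨v, hv⟩ := hex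
    have hkv := left_ne_zero_of_mul hv
    have hdet := right_ne_zero_of_mul hv
    have hkN : ∀ y, k (N y) = 0 := by
      intro y
      rw [hco y]; simp [kx, kN]
    have hAN := hA a v
    rw [← hN] at hAN
    apply hAN
    rw [li3]
    intro s t u h0
    have hs : s = 0 := by
      have := congrArg k h0
      simp [hkN] at this
      exact this.resolve_right hkv
    subst hs
    have e1 := congrArg h1 h0
    have e2 := congrArg h2 h0
    simp only [zero_smul, zero_add, map_add, map_smul, smul_eq_mul, map_zero] at e1 e2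
    have ht : t * (h1 (N v) * h2 (N (N v)) - h2 (N v) * h1 (N (N v))) = 0 := by
      linear_combination h2 (N (N v)) * e1 - h1 (N (N v)) * e2
    have hu : u * (h1 (N v) * h2 (N (N v)) - h2 (N v) * h1 (N (N v))) = 0 := by
      linear_combination h1 (N v) * e2 - h2 (N v) * e1
    exact ⟨rfl, (mul_eq_zero.1 ht).resolve_right hdet, (mul_eq_zero.1 hu).resolve_right hdet⟩

lemma SR_of_P1 (hd : D3 X) {T : X →L[ℂ] X} (hP : P1 T) : IsSR T := by
  apply SR_struct hd
  · intro c x hli
    apply caseA hli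
    intro S
    rw [cm_sub_smul]
    exact hP S
  · intro x y hli
    exact caseB hli hP

lemma SR_of_not_D3 (hd : ¬ D3 X) (T : X →L[ℂ] X) : IsSR T := by
  by_cases h2 : ∃ a b : X, LinearIndependent ℂ ![a, b]
  · obtain ⟨a, b, hab⟩ := h2
    have hspan : ∀ {a b : X}, LinearIndependent ℂ ![a, b] → ∀ z : X, ∃ s t : ℂ,
        z = s • a + t • b := by
      intro a b hab z
      apply mem_span_of_not_li3 hab
      intro h3
      exact hd ⟨a, b, z, h3⟩
    have hfin : Module.Finite ℂ X := (fin_of_span2 (hspan hab)).1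
    have ha : a ≠ 0 := by
      rintro rfl
      have := li2.1 hab 1 0 (by simp)
      simp at this
    have : Nontrivial X := ⟨a, 0, ha⟩
    obtain ⟨μ, hμ⟩ := Module.End.exists_eigenvalue (T : X →ₗ[ℂ] X)
    obtain ⟨e, he⟩ := hμ.exists_hasEigenvector
    have hTe : T e = μ • e := by simpa using he.apply_eq_smul
    have he0 : e ≠ 0 := he.2
    obtain ⟨w, hw⟩ : ∃ w, LinearIndependent ℂ ![e, w] := by
      by_contra hcon
      push Not at hcon
      obtain ⟨s, hs⟩ := mem_span_of_not_li2 he0 (hcon a)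
      obtain ⟨t, ht⟩ := mem_span_of_not_li2 he0 (hcon b)
      have := li2.1 hab t (-s) (by rw [hs, ht]; module)
      apply ha
      rw [hs, neg_eq_zero.1 this.2, zero_smul]
    obtain ⟨g, ge, gw⟩ := exists_dual2 hw 0 1
    refine ⟨μ, T w - μ • w, g, ?_⟩
    ext z
    obtain ⟨s, t, rfl⟩ := hspan hw z
    simp [ge, gw, hTe]
    module
  · push Not at h2
    obtain ⟨c, rfl⟩ := isSc_of_dep (D := T) (fun v => h2 v _)
    exact ⟨c, 0, 0, by ext; simp⟩

end Pool.Agent.Helper139.Pr
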