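import Pool.Agent.Helper139.Pr2

namespace Pool.Agent.Helper139.Pr

variable {X : Type*} [NormedAddCommGroup X] [NormedSpace ℂ X]
variable {Y : Type*} [NormedAddCommGroup Y] [NormedSpace ℂ Y]

/-- A total and surjective relation preserving the spectra of commutators. -/
structure SpRel (R : (X →L[ℂ] X) → (Y →L[ℂ] Y) → Prop) : Prop where
  tot : ∀ T, ∃ T', R T T'
  sur : ∀ T', ∃ T, R T T'
  sp : ∀ T T' S S', R T T' → R S S' → spectrum ℂ (cm T S) = spectrum ℂ (cm T' S')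

variable {R : (X →L[ℂ] X) → (Y →L[ℂ] Y) → Prop}

lemma SpRel.flip (h : SpRel R) : SpRel (fun T' T => R T T') :=
  ⟨h.sur, h.tot, fun T T' S S' h1 h2 => (h.sp T' T S' S h1 h2).symm⟩

lemma SpRel.P1_fwd (h : SpRel R) {T T'} (hR : R T T') (hP : P1 T) : P1 T' := by
  intro S' a ha b hb
  obtain ⟨S, hS⟩ := h.sur S'
  rw [← h.sp T T' S S' hR hS] at ha hb
  exact hP S a ha b hb

lemma exists_op2 {a b : X} (h : LinearIndependent ℂ ![a, b]) (c d : X) :
    ∃ T : X →L[ℂ] X, T a = c ∧ T b = d := by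
  obtain ⟨f, fa, fb⟩ := exists_dual2 h 1 0
  obtain ⟨g, ga, gb⟩ := exists_dual2 h 0 1
  exact ⟨rk c f + rk d g, by simp [fa, ga], by simp [fb, gb]⟩

lemma exists_op3 {a b e : X} (h : LinearIndependent ℂ ![a, b, e]) (c d k : X) :
    ∃ T : X →L[ℂ] X, T a = c ∧ T b = d ∧ T e = k := by
  obtain ⟨f, fa, fb, fe⟩ := exists_dual3 h 1 0 0
  obtain ⟨g, ga, gb, ge⟩ := exists_dual3 h 0 1 0
  obtain ⟨l, la, lb, le⟩ := exists_dual3 h 0 0 1
  exact ⟨rk c f + rk d g + rk k l, by simp [fa, ga, la], by simp [fb, gb, lb],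
    by simp [fe, ge, le]⟩

lemma SpRel.D3Y (h : SpRel R) (hd : D3 X) : D3 Y := by
  by_contra hcon
  obtain ⟨x, y, z, hli⟩ := hd
  obtain ⟨T, Tx, Ty, -⟩ := exists_op3 hli y z 0
  obtain ⟨T', hT'⟩ := h.tot T
  have h1 : P1 T' := P1_of_SR (SR_of_not_D3 hcon T')
  have h2 : P1 T := h.flip.P1_fwd hT' h1
  exact caseA (T := T) (x := x) (by rw [Tx, Ty]; exact hli) h2

lemma SpRel.SR_fwd (h : SpRel R) (hd : D3 X) {T T'} (hR : R T T') (hP : IsSR T) : IsSR T' :=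
  SR_of_P1 (h.D3Y hd) (h.P1_fwd hR (P1_of_SR hP))

/-- The quadratic forms of `(x, f)` and `(y, g)` correspond. -/
def Corr (R : (X →L[ℂ] X) → (Y →L[ℂ] Y) → Prop) (x : X) (f : X →L[ℂ] ℂ) (y : Y)
    (g : Y →L[ℂ] ℂ) : Prop :=
  ∀ S S', R S S' → qf x f S = qf y g S'

lemma eq_of_sq {a b : ℂ} (h : ∀ l : ℂ, l ≠ 0 → (l ^ 2 = a ↔ l ^ 2 = b)) : a = b := by
  by_cases ha : a = 0
  · by_cases hb : b = 0
    · rw [ha, hb]
    · obtain ⟨l, hl⟩ := IsAlgClosed.exists_pow_nat_eq b (n := 2) two_pos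
      have hl0 : l ≠ 0 := by
        rintro rfl; apply hb; rw [← hl]; simp
      rw [← hl, ((h l hl0).2 hl)]
  · obtain ⟨l, hl⟩ := IsAlgClosed.exists_pow_nat_eq a (n := 2) two_pos
    have hl0 : l ≠ 0 := by
      rintro rfl; apply ha; rw [← hl]; simp
    rw [← hl, ((h l hl0).1 hl)]

lemma SpRel.corr_of (h : SpRel R) {T T'} (hR : R T T') {c : ℂ} {x : X} {f : X →L[ℂ] ℂ}
    {c' : ℂ} {y : Y} {g : Y →L[ℂ] ℂ}
    (hT : T = c • (1 : X →L[ℂ] X) + rk x f) (hT' : T' = c' • (1 : Y →L[ℂ] Y) + rk y g) :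
    Corr R x f y g := by
  intro S S' hS
  have := h.sp T T' S S' hR hS
  rw [hT, hT', cm_add_smul, cm_add_smul] at this
  apply eq_of_sq
  intro l hl
  rw [← mem_spec_rk hl, ← mem_spec_rk hl, this]

lemma SpRel.corr_exists (h : SpRel R) (hd : D3 X) (x : X) (f : X →L[ℂ] ℂ) :
    ∃ y g, Corr R x f y g := by
  obtain ⟨T', hT'⟩ := h.tot (rk x f)
  obtain ⟨c', y, g, hT⟩ := h.SR_fwd hd hT' ⟨0, x, f, by simp⟩
  exact ⟨y, g, h.corr_of hT' (c := 0) (by simp) hT⟩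

lemma Corr.flip {x f y g} (h : Corr R x f y g) : Corr (fun T' T => R T T') y g x f :=
  fun S S' hS => (h S' S hS).symm

lemma SpRel.corr_exists' (h : SpRel R) (hd : D3 X) (y : Y) (g : Y →L[ℂ] ℂ) :
    ∃ x f, Corr R x f y g := by
  obtain ⟨x, f, hc⟩ := h.flip.corr_exists (h.D3Y hd) y g
  exact ⟨x, f, hc.flip⟩

/-- The linear algebra behind the detection of nilpotents. -/
lemma NL1 {y z0 e z1 z2 zm : Y} (hli : LinearIndependent ℂ ![y, z0, e])
    (h2 : ∀ g : Y →L[ℂ] ℂ, g y = 0 → g z2 ^ 2 = -(g z0 ^ 2) + 2 * g z1 ^ 2 + 2 * g e ^ 2)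
    (hm : ∀ g : Y →L[ℂ] ℂ, g y = 0 → g zm ^ 2 = 2 * g z0 ^ 2 - g z1 ^ 2 + 2 * g e ^ 2)
    (g : Y →L[ℂ] ℂ) (hg : g y = 0) :
    (g z1 ^ 2 - g z0 ^ 2 - g e ^ 2) ^ 2 = 4 * g z0 ^ 2 * g e ^ 2 := by
  obtain ⟨u, uy, uz, ue⟩ := exists_dual3 hli 0 1 0
  obtain ⟨v, vy, vz, ve⟩ := exists_dual3 hli 0 0 1
  have key2 : ∀ s t : ℂ, (g z2 + s * u z2 + t * v z2) ^ 2 = -((g z0 + s) ^ 2)
      + 2 * (g z1 + s * u z1 + t * v z1) ^ 2 + 2 * (g e + t) ^ 2 := by
    intro s t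
    have := h2 (g + s • u + t • v) (by simp [hg, uy, vy])
    simpa [uz, ue, vz, ve] using this
  have keym : ∀ s t : ℂ, (g zm + s * u zm + t * v zm) ^ 2 = 2 * ((g z0 + s) ^ 2)
      - (g z1 + s * u z1 + t * v z1) ^ 2 + 2 * (g e + t) ^ 2 := by
    intro s t
    have := hm (g + s • u + t • v) (by simp [hg, uy, vy])
    simpa [uz, ue, vz, ve] using this
  have a00 := key2 0 0
  have a10 := key2 1 0
  have a20 := key2 (-1) 0
  have a01 := key2 0 1
  have a02 := key2 0 (-1)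
  have a11 := key2 1 1
  have b00 := keym 0 0
  have b10 := keym 1 0
  have b20 := keym (-1) 0
  have b01 := keym 0 1
  have b02 := keym 0 (-1)
  have b11 := keym 1 1
  -- coefficients at t = 2
  have c_ss : u z2 ^ 2 = -1 + 2 * u z1 ^ 2 := by linear_combination (a10 + a20) / 2 - a00
  have c_tt : v z2 ^ 2 = 2 + 2 * v z1 ^ 2 := by linear_combination (a01 + a02) / 2 - a00
  have c_s : g z2 * u z2 = - g z0 + 2 * (g z1 * u z1) := by linear_combination (a10 - a20) / 4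
  have c_st : u z2 * v z2 = 2 * (u z1 * v z1) := by
    linear_combination (a11 - a10 - a01 + a00) / 2
  have d_ss : u zm ^ 2 = 2 - u z1 ^ 2 := by linear_combination (b10 + b20) / 2 - b00
  have d_tt : v zm ^ 2 = 2 - v z1 ^ 2 := by linear_combination (b01 + b02) / 2 - b00
  have d_st : u zm * v zm = - (u z1 * v z1) := by
    linear_combination (b11 - b10 - b01 + b00) / 2
  have p1 : 2 * u z1 ^ 2 - v z1 ^ 2 = 1 := by
    have e1 : (u z2 * v z2) ^ 2 = (2 * (u z1 * v z1)) ^ 2 := by rw [c_st]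
    rw [mul_pow, c_ss, c_tt] at e1
    linear_combination e1 / 2
  have p2 : u z1 ^ 2 + v z1 ^ 2 = 2 := by
    have e1 : (u zm * v zm) ^ 2 = (- (u z1 * v z1)) ^ 2 := by rw [d_st]
    rw [mul_pow, d_ss, d_tt] at e1
    linear_combination -e1 / 2
  have p3 : u z1 ^ 2 = 1 := by linear_combination (p1 + p2) / 3
  have p4 : u z2 ^ 2 = 1 := by rw [c_ss, p3]; norm_num
  have e1 : (g z2 * u z2) ^ 2 = (- g z0 + 2 * (g z1 * u z1)) ^ 2 := by rw [c_s]
  have e2 : g z2 ^ 2 = -(g z0 ^ 2) + 2 * g z1 ^ 2 + 2 * g e ^ 2 := h2 g hg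
  rw [mul_pow, p4, mul_one, e2] at e1
  -- e1 : -(a^2) + 2 c^2 + 2 b^2 = (-a + 2 c p)^2
  have e3 : g e ^ 2 = (g z1 - u z1 * g z0) ^ 2 := by
    linear_combination e1 / 2 + (2 * g z1 ^ 2 - g z0 ^ 2) * p3
  have e4 : (g z1 ^ 2 - g z0 ^ 2 - g e ^ 2) = 2 * u z1 * g z0 * (g z1 - u z1 * g z0) := by
    rw [e3]; linear_combination (g z0 ^ 2) * p3
  rw [e4, e3]
  linear_combination (4 * g z0 ^ 2 * (g z1 - u z1 * g z0) ^ 2) * p3

/-- Polar form of `qf`, doubled. -/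
noncomputable def qB (x : X) (f : X →L[ℂ] ℂ) (S T : X →L[ℂ] X) : ℂ :=
  qf x f (S + T) - qf x f S - qf x f T

lemma qf_line (x : X) (f : X →L[ℂ] ℂ) (S T : X →L[ℂ] X) (t : ℂ) :
    qf x f (S + t • T) = (1 - t) * qf x f S + t * qf x f (S + T) + (t ^ 2 - t) * qf x f T := by
  simp only [qf, add_apply, smul_apply, map_add,
    map_smul, smul_eq_mul]
  ring

lemma qf_PL (x : X) (f : X →L[ℂ] ℂ) : PL (fun S : X →L[ℂ] X => qf x f S) := by
  intro S T
  refine ⟨Polynomial.C (qf x f S) + Polynomial.X * Polynomial.C (qf x f (S + T) - qf x f S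
    - qf x f T) + Polynomial.X ^ 2 * Polynomial.C (qf x f T), fun t => ?_⟩
  simp only []
  rw [qf_line]
  simp
  ring

lemma PL_shift {V : Type*} [AddCommGroup V] [Module ℂ V] {p : V → ℂ} (hp : PL p) (c : V) :
    PL (fun v => p (c + v)) := by
  intro a b
  obtain ⟨P, hP⟩ := hp (c + a) b
  exact ⟨P, fun t => by rw [← hP, add_assoc]⟩

lemma qB_PL (x : X) (f : X →L[ℂ] ℂ) (S : X →L[ℂ] X) :
    PL (fun T : X →L[ℂ] X => qB x f S T) :=
  ((PL_shift (qf_PL x f) S).sub (PL.const _)).sub (qf_PL x f)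

lemma qB_wit {x : X} {f : X →L[ℂ] ℂ} (hf : f x ≠ 0) (S : X →L[ℂ] X) (hS : qf x f S ≠ 0) :
    ∃ T, qB x f S T ^ 2 - 4 * qf x f S * qf x f T ≠ 0 := by
  refine ⟨rk (f x • S x - f (S x) • x) f, ?_⟩
  have h1 : qf x f (rk (f x • S x - f (S x) • x) f) = 0 := by
    simp [qf]
    ring
  have h2 : qB x f S (rk (f x • S x - f (S x) • x) f) = f x ^ 2 * qf x f S := by
    unfold qB
    rw [h1]
    simp only [qf, add_apply, ContinuousLinearMap.smulRight_apply, map_add,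
      map_smul, smul_eq_mul, map_sub]
    ring
  rw [h1, h2]
  simpa [hf] using hS

/-- Nilpotent rank ones come from nilpotent rank ones. -/
lemma SpRel.NL (h : SpRel R) (hd : D3 X) {x f y g} (hc : Corr R x f y g) (hy : y ≠ 0)
    (hg0 : g ≠ 0) (hg : g y = 0) : f x = 0 := by
  by_contra hfx
  have hdY := h.D3Y hd
  obtain ⟨z1, hz1⟩ : ∃ z, g z ≠ 0 := by
    by_contra hcon
    push Not at hcon
    exact hg0 (ContinuousLinearMap.ext hcon)
  have hyz1 : LinearIndependent ℂ ![y, z1] := by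
    rw [li2]
    intro s t hst
    have h1 := congrArg g hst
    simp [hg] at h1
    have ht : t = 0 := h1.resolve_right hz1
    subst ht
    exact ⟨by simpa [hy] using hst, rfl⟩
  obtain ⟨w, hw⟩ := hdY.exists_li3 hyz1
  obtain ⟨z2, hz2, hli12⟩ : ∃ z2, g z2 ≠ 0 ∧ LinearIndependent ℂ ![y, z1, z2] := by
    by_cases hgw : g w = 0
    · refine ⟨w + z1, by simpa [hgw] using hz1, ?_⟩
      rw [li3]
      intro s t u hst
      have := li3.1 hw s (t + u) u (by rw [← hst]; module)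
      obtain ⟨h1, h2, h3⟩ := this
      subst h3
      exact ⟨h1, by simpa using h2, rfl⟩
    · exact ⟨w, hgw, hw⟩
  obtain ⟨k, hk⟩ := SeparatingDual.exists_eq_one (R := ℂ) hy
  obtain ⟨S1, hS1⟩ := h.sur (rk z1 k)
  obtain ⟨S2, hS2⟩ := h.sur (rk z2 k)
  have q1 : qf x f S1 = g z1 ^ 2 := by
    rw [hc _ _ hS1]; simp [qf, hg, hk]
  have q2 : qf x f S2 = g z2 ^ 2 := by
    rw [hc _ _ hS2]; simp [qf, hg, hk]
  have q1' : qf x f S1 ≠ 0 := by rw [q1]; exact pow_ne_zero 2 hz1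
  have q2' : qf x f S2 ≠ 0 := by rw [q2]; exact pow_ne_zero 2 hz2
  have hPB : ∀ S, PL (fun T : X →L[ℂ] X => qB x f S T ^ 2 - 4 * qf x f S * qf x f T) := by
    intro S
    have h1 := (qB_PL x f S).pow 2
    have h2 := (PL.const (V := X →L[ℂ] X) (4 * qf x f S)).mul (qf_PL x f)
    exact h1.sub h2
  obtain ⟨S3, hS3⟩ := (qf_PL x f).exists_ne ((hPB S1).mul (hPB S2)) ⟨S1, q1'⟩
    ((hPB S1).exists_ne (hPB S2) (qB_wit hfx S1 q1') (qB_wit hfx S2 q2'))
  have k1 := left_ne_zero_of_mul hS3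
  have k2 := left_ne_zero_of_mul (right_ne_zero_of_mul hS3)
  have k3 := right_ne_zero_of_mul (right_ne_zero_of_mul hS3)
  obtain ⟨D3', hD3⟩ := h.tot S3
  -- main claim
  have main : ∀ (S : X →L[ℂ] X) (z : Y), R S (rk z k) →
      qB x f S S3 ^ 2 - 4 * qf x f S * qf x f S3 ≠ 0 →
      ¬ LinearIndependent ℂ ![y, z, D3' y] := by
    intro S z hS hne hli
    apply hne
    obtain ⟨E1, hE1⟩ := h.tot (S + S3)
    obtain ⟨E2, hE2⟩ := h.tot (S + (2 : ℂ) • S3)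
    obtain ⟨Em, hEm⟩ := h.tot (S + (-1 : ℂ) • S3)
    have hz : (rk z k) y = z := by simp [hk]
    have hsq : ∀ g' : Y →L[ℂ] ℂ, g' y = 0 → ∃ x' f', (∀ A B, R A B →
        qf x' f' A = g' (B y) ^ 2) := by
      intro g' hg'
      obtain ⟨x', f', hc'⟩ := h.corr_exists' hd y g'
      refine ⟨x', f', fun A B hAB => ?_⟩
      rw [hc' A B hAB]
      simp [qf, hg']
    have := NL1 (y := y) (z0 := z) (e := D3' y) (z1 := E1 y) (z2 := E2 y) (zm := Em y) hli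
      (by
        intro g' hg'
        obtain ⟨x', f', hc'⟩ := hsq g' hg'
        rw [← hc' _ _ hE2, ← hc' _ _ hE1, ← hc' _ _ hD3]
        have hz' := hc' _ _ hS
        rw [hz] at hz'
        rw [← hz', qf_line]
        ring)
      (by
        intro g' hg'
        obtain ⟨x', f', hc'⟩ := hsq g' hg'
        rw [← hc' _ _ hEm, ← hc' _ _ hE1, ← hc' _ _ hD3]
        have hz' := hc' _ _ hS
        rw [hz] at hz'
        rw [← hz', qf_line]
        ring) g hg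
    have r1 : qf x f (S + S3) = g (E1 y) ^ 2 := by rw [hc _ _ hE1]; simp [qf, hg]
    have r2 : qf x f S3 = g (D3' y) ^ 2 := by rw [hc _ _ hD3]; simp [qf, hg]
    have r3 : qf x f S = g z ^ 2 := by rw [hc _ _ hS]; simp [qf, hg, hk]
    rw [qB, r1, r2, r3]
    linear_combination this
  have m1 := main S1 z1 hS1 k2
  have m2 := main S2 z2 hS2 k3
  obtain ⟨s, t, hst⟩ := mem_span_of_not_li3 hyz1 m1
  have hyz2 : LinearIndependent ℂ ![y, z2] := by
    rw [li2]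
    intro s t hst
    have := li3.1 hli12 s 0 t (by rw [← hst]; module)
    exact ⟨this.1, this.2.2⟩
  obtain ⟨s', t', hst'⟩ := mem_span_of_not_li3 hyz2 m2
  have := li3.1 hli12 (s - s') t (-t') (by
    have : s • y + t • z1 = s' • y + t' • z2 := by rw [← hst, ← hst']
    rw [← sub_eq_zero] at this
    rw [← this]; module)
  obtain ⟨-, ht, -⟩ := this
  subst ht
  apply k1
  rw [hc _ _ hD3, qf, hg, hst]
  simp [hg]

end Pool.Agent.Helper139.Pr
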