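import Pool.Agent.Helper139.Pr3

namespace Pool.Agent.Helper139.Pr

variable {X : Type*} [NormedAddCommGroup X] [NormedSpace ℂ X]
variable {Y : Type*} [NormedAddCommGroup Y] [NormedSpace ℂ Y]
variable {R : (X →L[ℂ] X) → (Y →L[ℂ] Y) → Prop}

/-- Correspondence of nilpotent pairs up to sign. -/
def NC (R : (X →L[ℂ] X) → (Y →L[ℂ] Y) → Prop) (x : X) (f : X →L[ℂ] ℂ) (y : Y)
    (g : Y →L[ℂ] ℂ) : Prop :=
  f x = 0 ∧ g y = 0 ∧ ∀ S S', R S S' → f (S x) ^ 2 = g (S' y) ^ 2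

lemma SpRel.NC_exists' (h : SpRel R) (hd : D3 X) (y : Y) (g : Y →L[ℂ] ℂ) (hg : g y = 0) :
    ∃ x f, NC R x f y g := by
  by_cases hy : y = 0
  · exact ⟨0, 0, by simp, hg, fun S S' _ => by simp [hy]⟩
  by_cases hg0 : g = 0
  · exact ⟨0, 0, by simp, hg, fun S S' _ => by simp [hg0]⟩
  obtain ⟨x, f, hc⟩ := h.corr_exists' hd y g
  have hf := h.NL hd hc hy hg0 hg
  refine ⟨x, f, hf, hg, fun S S' hS => ?_⟩
  have := hc S S' hS
  simpa [qf, hf, hg] using this

lemma NC.flip {x f y g} (h : NC R x f y g) : NC (fun T' T => R T T') y g x f :=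
  ⟨h.2.1, h.1, fun S S' hS => (h.2.2 S' S hS).symm⟩

lemma SpRel.NC_exists (h : SpRel R) (hd : D3 X) (x : X) (f : X →L[ℂ] ℂ) (hf : f x = 0) :
    ∃ y g, NC R x f y g := by
  obtain ⟨y, g, hc⟩ := h.flip.NC_exists' (h.D3Y hd) x f hf
  exact ⟨y, g, hc.flip⟩

lemma sc_ann {D : Y →L[ℂ] Y} (h : IsSc D) {y : Y} {g : Y →L[ℂ] ℂ} (hg : g y = 0) :
    g (D y) = 0 := by
  obtain ⟨c, rfl⟩ := h
  simp [hg]

lemma SpRel.sgn (h : SpRel R)
    (hNC : ∀ (y : Y) (g : Y →L[ℂ] ℂ), g y = 0 → ∃ x f, NC R x f y g)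
    {S1 S2 D1 D2} (h1 : R S1 D1) (h2 : R S2 D2) :
    ∃ s : ℂ, (s = 1 ∨ s = -1) ∧ ∀ x f y g, NC R x f y g →
      g (D1 y) * g (D2 y) = s * (f (S1 x) * f (S2 x)) := by
  obtain ⟨D, hD⟩ := h.tot (S1 + S2)
  have hkey := IL4 (D := D - D1 - D2) (E := D - D1 + D2) (F := D + D1 - D2) (G := D + D1 + D2) (by
    intro y g hg
    obtain ⟨x, f, -, -, hc⟩ := hNC y g hg
    have e := hc _ _ hD
    have e1 := hc _ _ h1
    have e2 := hc _ _ h2
    simp only [add_apply, map_add] at e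
    simp only [add_apply, sub_apply, map_add, map_sub]
    have e3 : (g (D y) - g (D1 y) - g (D2 y)) * (g (D y) - g (D1 y) + g (D2 y)) *
        ((g (D y) + g (D1 y) - g (D2 y)) * (g (D y) + g (D1 y) + g (D2 y))) =
        (g (D y) ^ 2 + g (D1 y) ^ 2 - g (D2 y) ^ 2) ^ 2 - 4 * (g (D y) ^ 2 * g (D1 y) ^ 2) := by
      ring
    rw [e3, ← e, ← e1, ← e2]
    ring)
  have two_ne : (2 : ℂ) ≠ 0 := two_ne_zero
  rcases hkey with hk | hk | hk | hk
  · refine ⟨1, Or.inl rfl, ?_⟩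
    rintro x f y g ⟨-, hg, hc⟩
    have e := hc _ _ hD
    have e1 := hc _ _ h1
    have e2 := hc _ _ h2
    have e3 := sc_ann hk hg
    simp only [add_apply, sub_apply, map_add, map_sub] at e e3
    have e4 : g (D y) = g (D1 y) + g (D2 y) := by linear_combination e3
    rw [e4] at e
    linear_combination (e1 + e2 - e) / 2
  · refine ⟨-1, Or.inr rfl, ?_⟩
    rintro x f y g ⟨-, hg, hc⟩
    have e := hc _ _ hD
    have e1 := hc _ _ h1
    have e2 := hc _ _ h2
    have e3 := sc_ann hk hg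
    simp only [add_apply, sub_apply, map_add, map_sub] at e e3
    have e4 : g (D y) = g (D1 y) - g (D2 y) := by linear_combination e3
    rw [e4] at e
    linear_combination -(e1 + e2 - e) / 2
  · refine ⟨-1, Or.inr rfl, ?_⟩
    rintro x f y g ⟨-, hg, hc⟩
    have e := hc _ _ hD
    have e1 := hc _ _ h1
    have e2 := hc _ _ h2
    have e3 := sc_ann hk hg
    simp only [add_apply, sub_apply, map_add, map_sub] at e e3
    have e4 : g (D y) = -g (D1 y) + g (D2 y) := by linear_combination e3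
    rw [e4] at e
    linear_combination -(e1 + e2 - e) / 2
  · refine ⟨1, Or.inl rfl, ?_⟩
    rintro x f y g ⟨-, hg, hc⟩
    have e := hc _ _ hD
    have e1 := hc _ _ h1
    have e2 := hc _ _ h2
    have e3 := sc_ann hk hg
    simp only [add_apply, map_add] at e e3
    have e4 : g (D y) = -g (D1 y) - g (D2 y) := by linear_combination e3
    rw [e4] at e
    linear_combination (e1 + e2 - e) / 2

lemma sq_one_of {s : ℂ} (h : s = 1 ∨ s = -1) : s * s = 1 := by
  rcases h with rfl | rfl <;> norm_num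

lemma exists_nonsc (hd : D3 X) : ∃ S : X →L[ℂ] X, ¬ IsSc S := by
  obtain ⟨x, y, z, hli⟩ := hd
  obtain ⟨T, Tx, Ty, -⟩ := exists_op3 hli y z 0
  refine ⟨T, ?_⟩
  rintro ⟨c, rfl⟩
  have := li3.1 hli c (-1) 0 (by rw [← Tx]; simp)
  simp at this

lemma spRel_graph (φ : (X →L[ℂ] X) → (Y →L[ℂ] Y)) (hs : Function.Surjective φ)
    (hsp : ∀ T S, spectrum ℂ (cm (φ T) (φ S)) = spectrum ℂ (cm T S)) :
    SpRel (fun T T' => T' = φ T) := by
  refine ⟨fun T => ⟨φ T, rfl⟩, fun T' => ?_, ?_⟩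
  · obtain ⟨T, rfl⟩ := hs T'
    exact ⟨T, rfl⟩
  · rintro T T' S S' rfl rfl
    exact (hsp T S).symm

/-- The normalised map. -/
theorem norm_gen (φ : (X →L[ℂ] X) → (Y →L[ℂ] Y)) (hs : Function.Surjective φ)
    (hsp : ∀ T S, spectrum ℂ (cm (φ T) (φ S)) = spectrum ℂ (cm T S))
    (hNC : ∀ (x : X) (f : X →L[ℂ] ℂ), f x = 0 → ∃ y g, NC (fun T T' => T' = φ T) x f y g)
    (hNC' : ∀ (y : Y) (g : Y →L[ℂ] ℂ), g y = 0 → ∃ x f, NC (fun T T' => T' = φ T) x f y g)
    (hns : ∃ S : X →L[ℂ] X, ¬ IsSc S) :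
    ∃ ε : (X →L[ℂ] X) → ℂ, (∀ S, ε S = 1 ∨ ε S = -1) ∧
      (∀ (x : X) (f : X →L[ℂ] ℂ), f x = 0 → ∃ (y : Y) (g : Y →L[ℂ] ℂ), g y = 0 ∧
        ∀ S, g ((ε S • φ S) y) = f (S x)) ∧
      (∀ (y : Y) (g : Y →L[ℂ] ℂ), g y = 0 → ∃ (x : X) (f : X →L[ℂ] ℂ), f x = 0 ∧
        ∀ S, g ((ε S • φ S) y) = f (S x)) := by
  set R : (X →L[ℂ] X) → (Y →L[ℂ] Y) → Prop := fun T T' => T' = φ T with hR
  have h : SpRel R := spRel_graph φ hs hsp
  obtain ⟨S0, hS0⟩ := hns
  have hch : ∀ S, ∃ s : ℂ, (s = 1 ∨ s = -1) ∧ ∀ x f y g, NC R x f y g →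
      g (φ S0 y) * g (φ S y) = s * (f (S0 x) * f (S x)) := fun S => h.sgn hNC' rfl rfl
  choose ε hε hε' using hch
  have key : ∀ x f y g, NC R x f y g →
      ∃ δ : ℂ, (δ = 1 ∨ δ = -1) ∧ ∀ S, g ((ε S • φ S) y) = δ * f (S x) := by
    intro x f y g hn
    obtain ⟨hf, hg, hc⟩ := hn
    have hc' : ∀ S, f (S x) ^ 2 = g (φ S y) ^ 2 := fun S => hc S _ rfl
    by_cases h0 : f (S0 x) = 0
    · by_cases hx : ∃ S1 : X →L[ℂ] X, f (S1 x) ≠ 0
      · obtain ⟨S1, hS1⟩ := hx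
        have hS1n : ¬ IsSc S1 := fun hcon => hS1 (sc_ann hcon hf)
        have h1 : (g (φ S1 y) - f (S1 x)) * (g (φ S1 y) + f (S1 x)) = 0 := by
          linear_combination -(hc' S1)
        obtain ⟨δ, hδ, hδ'⟩ : ∃ δ : ℂ, (δ = 1 ∨ δ = -1) ∧ g (φ S1 y) = δ * f (S1 x) := by
          rcases mul_eq_zero.1 h1 with h2 | h2
          · exact ⟨1, Or.inl rfl, by linear_combination h2⟩
          · exact ⟨-1, Or.inr rfl, by linear_combination h2⟩
        refine ⟨ε S1 * δ, ?_, ?_⟩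
        · rcases hε S1 with h3 | h3 <;> rcases hδ with h4 | h4 <;> simp [h3, h4]
        · intro S
          by_cases hSc : IsSc S
          · have hz : f (S x) = 0 := sc_ann hSc hf
            have hz' := hc' S
            rw [hz] at hz'
            have hz'' : g (φ S y) = 0 := by
              have : g (φ S y) ^ 2 = 0 := by rw [← hz']; norm_num
              exact pow_eq_zero_iff two_ne_zero |>.1 this
            simp [hz, hz'']
          · obtain ⟨s, hs1, hs2⟩ := h.sgn hNC' (S1 := S1) (S2 := S) (D1 := φ S1) (D2 := φ S) rfl rfl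
            obtain ⟨x', f', hf', k0, k1, k2⟩ := IL3 hS0 hS1n hSc
            obtain ⟨y', g', hn'⟩ := hNC x' f' hf'
            have a0 : f' (S0 x') ^ 2 = g' (φ S0 y') ^ 2 := hn'.2.2 S0 _ rfl
            have a1 := hε' S1 _ _ _ _ hn'
            have a2 := hε' S _ _ _ _ hn'
            have a3 := hs2 _ _ _ _ hn'
            have hs3 : s = ε S1 * ε S := by
              have : (s - ε S1 * ε S) * (f' (S0 x') ^ 2 * f' (S1 x') * f' (S x')) = 0 := by
                have e1 : (g' (φ S0 y') * g' (φ S1 y')) * (g' (φ S0 y') * g' (φ S y')) =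
                  (ε S1 * (f' (S0 x') * f' (S1 x'))) * (ε S * (f' (S0 x') * f' (S x'))) := by
                  rw [a1, a2]
                linear_combination e1 + (g' (φ S1 y') * g' (φ S y')) * a0 - (f' (S0 x') ^ 2) * a3
              have hne : f' (S0 x') ^ 2 * f' (S1 x') * f' (S x') ≠ 0 :=
                mul_ne_zero (mul_ne_zero (pow_ne_zero 2 k0) k1) k2
              exact sub_eq_zero.1 ((mul_eq_zero.1 this).resolve_right hne)
            have a4 := hs2 x f y g ⟨hf, hg, hc⟩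
            rw [hδ', hs3] at a4
            have hd1 := sq_one_of hδ
            have hd2 := sq_one_of (hε S1)
            have hd3 := sq_one_of (hε S)
            have e5 : δ * g (φ S y) = ε S1 * ε S * f (S x) := by
              apply mul_left_cancel₀ hS1
              linear_combination a4
            simp only [smul_apply, map_smul, smul_eq_mul]
            linear_combination (ε S * δ) * e5 - (ε S * g (φ S y)) * hd1 + (δ * ε S1 * f (S x)) * hd3
      · push Not at hx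
        refine ⟨1, Or.inl rfl, fun S => ?_⟩
        have hz := hx S
        have hz' := hc' S
        rw [hz] at hz'
        have hz'' : g (φ S y) = 0 := by
          have : g (φ S y) ^ 2 = 0 := by rw [← hz']; norm_num
          exact pow_eq_zero_iff two_ne_zero |>.1 this
        simp [hz, hz'']
    · have h1 : (g (φ S0 y) - f (S0 x)) * (g (φ S0 y) + f (S0 x)) = 0 := by
        linear_combination -(hc' S0)
      obtain ⟨δ, hδ, hδ'⟩ : ∃ δ : ℂ, (δ = 1 ∨ δ = -1) ∧ g (φ S0 y) = δ * f (S0 x) := by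
        rcases mul_eq_zero.1 h1 with h2 | h2
        · exact ⟨1, Or.inl rfl, by linear_combination h2⟩
        · exact ⟨-1, Or.inr rfl, by linear_combination h2⟩
      refine ⟨δ, hδ, fun S => ?_⟩
      have a := hε' S x f y g ⟨hf, hg, hc⟩
      rw [hδ'] at a
      have e5 : δ * g (φ S y) = ε S * f (S x) := by
        apply mul_left_cancel₀ h0
        linear_combination a
      have hd1 := sq_one_of hδ
      have hd3 := sq_one_of (hε S)
      simp only [smul_apply, map_smul, smul_eq_mul]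
      linear_combination (ε S * δ) * e5 - (ε S * g (φ S y)) * hd1 + (δ * f (S x)) * hd3
  refine ⟨ε, hε, ?_, ?_⟩
  · intro x f hf
    obtain ⟨y, g, hn⟩ := hNC x f hf
    obtain ⟨δ, hδ, hk⟩ := key x f y g hn
    refine ⟨δ • y, g, by simp [hn.2.1], fun S => ?_⟩
    have := hk S
    rw [map_smul, map_smul, this, smul_eq_mul, ← mul_assoc, sq_one_of hδ, one_mul]
  · intro y g hg
    obtain ⟨x, f, hn⟩ := hNC' y g hg
    obtain ⟨δ, hδ, hk⟩ := key x f y g hn
    refine ⟨δ • x, f, by simp [hn.1], fun S => ?_⟩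
    rw [hk S]
    simp

theorem norm_exists (hd : D3 X) (φ : (X →L[ℂ] X) → (Y →L[ℂ] Y)) (hs : Function.Surjective φ)
    (hsp : ∀ T S, spectrum ℂ (cm (φ T) (φ S)) = spectrum ℂ (cm T S)) :
    ∃ ε : (X →L[ℂ] X) → ℂ, (∀ S, ε S = 1 ∨ ε S = -1) ∧
      (∀ (x : X) (f : X →L[ℂ] ℂ), f x = 0 → ∃ (y : Y) (g : Y →L[ℂ] ℂ), g y = 0 ∧
        ∀ S, g ((ε S • φ S) y) = f (S x)) ∧
      (∀ (y : Y) (g : Y →L[ℂ] ℂ), g y = 0 → ∃ (x : X) (f : X →L[ℂ] ℂ), f x = 0 ∧
        ∀ S, g ((ε S • φ S) y) = f (S x)) :=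
  norm_gen φ hs hsp (fun x f hf => (spRel_graph φ hs hsp).NC_exists hd x f hf)
    (fun y g hg => (spRel_graph φ hs hsp).NC_exists' hd y g hg) (exists_nonsc hd)

end Pool.Agent.Helper139.Pr
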