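import Pool.Agent.Helper139.Pr4

namespace Pool.Agent.Helper139.Pr

variable {X : Type*} [NormedAddCommGroup X] [NormedSpace ℂ X]
variable {Y : Type*} [NormedAddCommGroup Y] [NormedSpace ℂ Y]

lemma IsSc.add {D E : X →L[ℂ] X} (h : IsSc D) (h' : IsSc E) : IsSc (D + E) := by
  obtain ⟨c, rfl⟩ := h
  obtain ⟨d, rfl⟩ := h'
  exact ⟨c + d, by rw [add_smul]⟩

lemma IsSc.smul {D : X →L[ℂ] X} (h : IsSc D) (a : ℂ) : IsSc (a • D) := by
  obtain ⟨c, rfl⟩ := h
  exact ⟨a * c, by rw [smul_smul]⟩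

lemma IsSc.neg {D : X →L[ℂ] X} (h : IsSc D) : IsSc (-D) := by
  simpa using h.smul (-1)

lemma IsSc.sub {D E : X →L[ℂ] X} (h : IsSc D) (h' : IsSc E) : IsSc (D - E) := by
  simpa [sub_eq_add_neg] using h.add h'.neg

lemma isSc_zero : IsSc (0 : X →L[ℂ] X) := ⟨0, by simp⟩

lemma isSc_smul_one (c : ℂ) : IsSc (c • (1 : X →L[ℂ] X)) := ⟨c, rfl⟩

lemma sc_of_ann {D : X →L[ℂ] X} (h : ∀ (x : X) (f : X →L[ℂ] ℂ), f x = 0 → f (D x) = 0) :
    IsSc D := by
  by_contra hcon
  obtain ⟨x, f, h1, h2⟩ := IL1 hcon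
  exact h2 (h x f h1)

lemma IsSR.add_sc {T D : X →L[ℂ] X} (h : IsSR T) (h' : IsSc D) : IsSR (T + D) := by
  obtain ⟨c, x, f, rfl⟩ := h
  obtain ⟨d, rfl⟩ := h'
  exact ⟨c + d, x, f, by module⟩

lemma IsSR.of_sub {T T' : X →L[ℂ] X} (h : IsSR T) (h' : IsSc (T' - T)) : IsSR T' := by
  simpa using h.add_sc h'

lemma isSR_rk (x : X) (f : X →L[ℂ] ℂ) : IsSR (rk x f) := ⟨0, x, f, by simp⟩

lemma common_ker (hd : D3 X) (k k' : X →L[ℂ] ℂ) : ∃ z : X, z ≠ 0 ∧ k z = 0 ∧ k' z = 0 := by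
  obtain ⟨a, b, c, hli⟩ := hd
  let F : (Fin 3 → ℂ) →ₗ[ℂ] X := Fintype.linearCombination ℂ ![a, b, c]
  let G : (Fin 3 → ℂ) →ₗ[ℂ] (Fin 2 → ℂ) :=
    LinearMap.pi ![(k : X →ₗ[ℂ] ℂ) ∘ₗ F, (k' : X →ₗ[ℂ] ℂ) ∘ₗ F]
  have hker : LinearMap.ker G ≠ ⊥ := G.ker_ne_bot_of_finrank_lt (by simp)
  obtain ⟨v, hv, hv0⟩ := (Submodule.ne_bot_iff _).1 hker
  have hG : G v = 0 := hv
  refine ⟨F v, ?_, ?_, ?_⟩
  · intro h0
    apply hv0
    have hinj : Function.Injective F := linearIndependent_iff_injective_fintypeLinearCombination.mp hli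
    exact hinj (by rw [h0, map_zero])
  · exact congrFun hG 0
  · exact congrFun hG 1

lemma sc_zero_of_ker {D : X →L[ℂ] X} (h : IsSc D) {z : X} (hz : z ≠ 0) (hD : D z = 0) : D = 0 := by
  obtain ⟨c, rfl⟩ := h
  have : c = 0 := by
    have h1 : c • z = 0 := by simpa using hD
    exact (smul_eq_zero.1 h1).resolve_right hz
  simp [this]

lemma rk_sc (hd : D3 X) {x : X} {f : X →L[ℂ] ℂ} (h : IsSc (rk x f)) : rk x f = 0 := by
  obtain ⟨z, hz, h1, -⟩ := common_ker hd f f
  exact sc_zero_of_ker h hz (by simp [h1])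

lemma rk_sub_sc (hd : D3 X) {x x' : X} {f f' : X →L[ℂ] ℂ} (h : IsSc (rk x f - rk x' f')) :
    rk x f = rk x' f' := by
  obtain ⟨z, hz, h1, h2⟩ := common_ker hd f f'
  exact sub_eq_zero.1 (sc_zero_of_ker h hz (by simp [h1, h2]))

lemma rk_eq_zero {x : X} {f : X →L[ℂ] ℂ} (h : rk x f = 0) : x = 0 ∨ f = 0 := by
  by_cases hf : f = 0
  · exact Or.inr hf
  · left
    obtain ⟨y, hy⟩ : ∃ y, f y ≠ 0 := by
      by_contra hcon
      push Not at hcon
      exact hf (ContinuousLinearMap.ext hcon)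
    have := congrArg (fun D : X →L[ℂ] X => D y) h
    simp at this
    exact this.resolve_left hy

lemma dualvec {k k' : X →L[ℂ] ℂ} (h : LinearIndependent ℂ ![k, k']) : ∃ y, k y = 1 ∧ k' y = 0 := by
  by_contra hcon
  push Not at hcon
  have h0 : ∀ y, k' y = 0 → k y = 0 := by
    intro y hy
    by_contra hne
    exact hcon ((k y)⁻¹ • y) (by simp [hne]) (by simp [hy])
  have hk' : k' ≠ 0 := by
    rintro rfl
    have := li2.1 h 0 1 (by simp)
    simp at this
  obtain ⟨w, hw⟩ : ∃ w, k' w ≠ 0 := by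
    by_contra hcon
    push Not at hcon
    exact hk' (ContinuousLinearMap.ext hcon)
  have := li2.1 h (k' w) (-(k w)) (by
    ext y
    have h1 := h0 (k' w • y - k' y • w) (by simp [mul_comm])
    simp at h1 ⊢
    linear_combination h1)
  exact hw this.1

lemma li2_swap {a b : X} (h : LinearIndependent ℂ ![a, b]) : LinearIndependent ℂ ![b, a] :=
  LinearIndependent.pair_symm_iff.1 h

/-- Core computation of Lemma C. -/
lemma LC_core (hd : D3 X) {v v' : X} {k k' : X →L[ℂ] ℂ} (hv : LinearIndependent ℂ ![v, v'])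
    (hk : LinearIndependent ℂ ![k, k']) {t : ℂ} (ht : t ≠ 0)
    (h : IsSR (rk v k + t • rk v' k')) : ∃ c : ℂ, c ≠ 0 ∧ k v = c ∧ t * k' v' = c := by
  obtain ⟨c, a, b, hE⟩ := h
  obtain ⟨y1, h11, h12⟩ := dualvec hk
  obtain ⟨y2, h22, h21⟩ := dualvec (li2_swap hk)
  obtain ⟨z, hz, hz1, hz2⟩ := common_ker hd k k'
  have ez : 0 = c • z + b z • a := by
    have := congrArg (fun D : X →L[ℂ] X => D z) hE
    simpa [hz1, hz2] using this
  have e1 : v = c • y1 + b y1 • a := by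
    have := congrArg (fun D : X →L[ℂ] X => D y1) hE
    simpa [h11, h12] using this
  have e2 : t • v' = c • y2 + b y2 • a := by
    have := congrArg (fun D : X →L[ℂ] X => D y2) hE
    simpa [h22, h21] using this
  have hc : c ≠ 0 := by
    rintro rfl
    have e1' : v = b y1 • a := by simpa using e1
    have e2' : t • v' = b y2 • a := by simpa using e2
    have := li2.1 hv (b y2) (-(b y1) * t) (by
      calc (b y2) • v + (-(b y1) * t) • v' = (b y2) • v - (b y1) • (t • v') := by module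
        _ = 0 := by rw [e2']; nth_rewrite 1 [e1']; module)
    have hb1 : b y1 = 0 := by
      have := this.2
      simpa [ht] using this
    rw [hb1, zero_smul] at e1'
    have := li2.1 hv 1 0 (by simp [e1'])
    simp at this
  have hbz : b z ≠ 0 := by
    intro h0
    rw [h0, zero_smul, add_zero] at ez
    rcases smul_eq_zero.1 ez.symm with h1 | h1
    · exact hc h1
    · exact hz h1
  have ha : a = -(c / b z) • z := by
    have h1 : b z • a = -(c • z) := by
      rw [eq_neg_iff_add_eq_zero, add_comm]; exact ez.symm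
    calc a = (b z)⁻¹ • (b z • a) := by rw [smul_smul, inv_mul_cancel₀ hbz, one_smul]
      _ = _ := by rw [h1]; rw [div_eq_inv_mul]; module
  have k1 : k v = c := by
    rw [e1, ha]; simp [h11, hz1]
  have k2 : t * k' v' = c := by
    have := congrArg k' e2
    simp only [map_smul, smul_eq_mul, map_add] at this
    rw [this, ha]; simp [h22, hz2]
  exact ⟨c, hc, k1, k2⟩

lemma LC (hd : D3 X) {v v' : X} {k k' : X →L[ℂ] ℂ}
    (h : ∀ t : ℂ, IsSR (rk v k + t • rk v' k')) :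
    ¬ LinearIndependent ℂ ![v, v'] ∨ ¬ LinearIndependent ℂ ![k, k'] := by
  by_contra hcon
  push Not at hcon
  obtain ⟨c, hc, h1, h2⟩ := LC_core hd hcon.1 hcon.2 one_ne_zero (h 1)
  obtain ⟨d, hd', h3, h4⟩ := LC_core hd hcon.1 hcon.2 two_ne_zero (h 2)
  apply hc
  have : d = c := by rw [← h1, ← h3]
  linear_combination -2 * h2 + h4 + this

/-- The normalised map, with its properties. -/
structure LData (L : (X →L[ℂ] X) → (Y →L[ℂ] Y)) : Prop where
  d3 : D3 X
  d3' : D3 Y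
  fwd : ∀ (x : X) (f : X →L[ℂ] ℂ), f x = 0 → ∃ (y : Y) (g : Y →L[ℂ] ℂ), g y = 0 ∧
        ∀ S, g (L S y) = f (S x)
  bwd : ∀ (y : Y) (g : Y →L[ℂ] ℂ), g y = 0 → ∃ (x : X) (f : X →L[ℂ] ℂ), f x = 0 ∧
        ∀ S, g (L S y) = f (S x)
  sur : ∀ T', ∃ T, IsSc (T' - L T)
  sr : ∀ T, IsSR T ↔ IsSR (L T)

variable {L : (X →L[ℂ] X) → (Y →L[ℂ] Y)}

lemma L_add (bwd : ∀ (y : Y) (g : Y →L[ℂ] ℂ), g y = 0 → ∃ (x : X) (f : X →L[ℂ] ℂ), f x = 0 ∧
        ∀ S, g (L S y) = f (S x)) (S T : X →L[ℂ] X) : IsSc (L (S + T) - (L S + L T)) := by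
  apply sc_of_ann
  intro y g hg
  obtain ⟨x, f, -, h⟩ := bwd y g hg
  simp [h]

lemma L_smul (bwd : ∀ (y : Y) (g : Y →L[ℂ] ℂ), g y = 0 → ∃ (x : X) (f : X →L[ℂ] ℂ), f x = 0 ∧
        ∀ S, g (L S y) = f (S x)) (c : ℂ) (S : X →L[ℂ] X) : IsSc (L (c • S) - c • L S) := by
  apply sc_of_ann
  intro y g hg
  obtain ⟨x, f, -, h⟩ := bwd y g hg
  simp [h]

lemma LData.sc_iff (h : LData L) (T : X →L[ℂ] X) : IsSc (L T) ↔ IsSc T := by
  constructor
  · intro hL
    apply sc_of_ann
    intro x f hf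
    obtain ⟨y, g, hg, hc⟩ := h.fwd x f hf
    rw [← hc]
    exact sc_ann hL hg
  · intro hT
    apply sc_of_ann
    intro y g hg
    obtain ⟨x, f, hf, hc⟩ := h.bwd y g hg
    rw [hc]
    exact sc_ann hT hf

lemma LData.lin (h : LData L) (S T : X →L[ℂ] X) (c : ℂ) : IsSc (L (S + c • T) - (L S + c • L T)) := by
  apply sc_of_ann
  intro y g hg
  obtain ⟨x, f, -, h⟩ := h.bwd y g hg
  simp [h]

/-- The basic data of `φ` normalised. -/
theorem LData_of (hd : D3 X) (φ : (X →L[ℂ] X) → (Y →L[ℂ] Y)) (hs : Function.Surjective φ)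
    (hsp : ∀ T S, spectrum ℂ (cm (φ T) (φ S)) = spectrum ℂ (cm T S)) :
    ∃ ε : (X →L[ℂ] X) → ℂ, (∀ S, ε S = 1 ∨ ε S = -1) ∧ LData (fun S => ε S • φ S) := by
  obtain ⟨ε, hε, hf, hb⟩ := norm_exists hd φ hs hsp
  have h : SpRel (fun T T' => T' = φ T) := by
    refine ⟨fun T => ⟨φ T, rfl⟩, fun T' => ?_, ?_⟩
    · obtain ⟨T, rfl⟩ := hs T'
      exact ⟨T, rfl⟩
    · rintro T T' S S' rfl rfl
      exact (hsp T S).symm
  have hsm : ∀ (T : Y →L[ℂ] Y) (c : ℂ), IsSR T → IsSR (c • T) := by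
    rintro T c ⟨d, x, f, rfl⟩
    exact ⟨c * d, c • x, f, by ext; simp; module⟩
  refine ⟨ε, hε, ⟨hd, h.D3Y hd, hf, hb, ?_, ?_⟩⟩
  · intro T'
    obtain ⟨T, rfl⟩ := hs T'
    rcases hε T with h1 | h1
    · exact ⟨T, by simp [h1, isSc_zero]⟩
    · refine ⟨(-1 : ℂ) • T, ?_⟩
      have := (L_smul (L := fun S => ε S • φ S) hb (-1) T).neg
      simp only [h1] at this
      convert this using 1
      module
  · intro T
    constructor
    · intro hT
      exact hsm _ _ (h.SR_fwd hd rfl hT)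
    · intro hT
      have h1 : IsSR (φ T) := by
        have := hsm _ (ε T) hT
        rwa [smul_smul, sq_one_of (hε T), one_smul] at this
      exact h.flip.SR_fwd (h.D3Y hd) (T := φ T) (T' := T) rfl h1

/-- The map attached to the family of rank one operators with fixed functional. -/
lemma LData.AJ (h : LData L) {f0 : X →L[ℂ] ℂ} (hf0 : f0 ≠ 0) {Z : Type*} [AddCommGroup Z]
    [Module ℂ Z] (J : Z →ₗ[ℂ] (Y →L[ℂ] Y)) (hJ1 : ∀ z, ∃ v k, J z = rk v k)
    (hJ2 : ∀ z, J z = 0 → z = 0) (hN : ∀ u, ∃ z, IsSc (L (rk u f0) - J z)) :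
    ∃ A : X ≃ₗ[ℂ] Z, ∀ u, IsSc (L (rk u f0) - J (A u)) := by
  have hJ3 : ∀ z, IsSc (J z) → z = 0 := by
    intro z hz
    apply hJ2
    obtain ⟨v, k, hvk⟩ := hJ1 z
    rw [hvk] at hz ⊢
    exact rk_sc h.d3' hz
  choose A hA using hN
  have hJeq : ∀ z z', IsSc (J z - J z') → z = z' := by
    intro z z' hz
    rw [← map_sub] at hz
    exact sub_eq_zero.1 (hJ3 _ hz)
  have hadd : ∀ u v, A (u + v) = A u + A v := by
    intro u v
    apply hJeq
    have h1 := L_add h.bwd (rk u f0) (rk v f0)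
    have h2 : rk (u + v) f0 = rk u f0 + rk v f0 := by ext; simp
    rw [← h2] at h1
    have := (((h1.sub (hA (u + v))).add (hA u)).add (hA v))
    convert this using 1
    rw [map_add]; abel
  have hsmul : ∀ (c : ℂ) u, A (c • u) = c • A u := by
    intro c u
    apply hJeq
    have h1 := L_smul h.bwd c (rk u f0)
    have h2 : rk (c • u) f0 = c • rk u f0 := by
      ext y; simp only [smul_apply, ContinuousLinearMap.smulRight_apply]; module
    rw [← h2] at h1
    have := (h1.sub (hA (c • u))).add ((hA u).smul c)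
    convert this using 1
    rw [map_smul, smul_sub]; abel
  let A' : X →ₗ[ℂ] Z := { toFun := A, map_add' := hadd, map_smul' := hsmul }
  have hinj : Function.Injective A' := by
    rw [injective_iff_map_eq_zero]
    intro u hu
    have hu' : A u = 0 := hu
    have h1 := hA u
    rw [hu', map_zero, sub_zero] at h1
    have h2 := rk_sc h.d3 ((h.sc_iff _).1 h1)
    exact (rk_eq_zero h2).resolve_right hf0
  have hsur : Function.Surjective A' := by
    intro z
    obtain ⟨T, hT⟩ := h.sur (J z)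
    have hSR : ∀ z, IsSR (J z) := by
      intro z
      obtain ⟨v, k, hvk⟩ := hJ1 z
      rw [hvk]; exact isSR_rk v k
    have hTs : IsSR T := by
      rw [h.sr]
      have := (hSR z).of_sub (T' := L T) (by
        have := hT.neg; rwa [neg_sub] at this)
      exact this
    obtain ⟨ν, a, b, hTab⟩ := hTs
    have hall : ∀ (u : X) (t : ℂ), IsSR (rk a b + t • rk u f0) := by
      intro u t
      have h1 : IsSR (T + t • rk u f0) := by
        rw [h.sr]
        refine (hSR (z + t • A u)).of_sub ?_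
        have h2 := h.lin T (rk u f0) t
        have h3 := ((h2.sub hT).add ((hA u).smul t))
        convert h3 using 1
        rw [map_add, map_smul, smul_sub]; abel
      have h2 : rk a b + t • rk u f0 = (T + t • rk u f0) + (-ν) • (1 : X →L[ℂ] X) := by
        rw [hTab]; module
      rw [h2]
      exact h1.add_sc (isSc_smul_one _)
    by_cases ha : a = 0
    · refine ⟨0, ?_⟩
      rw [map_zero]
      symm
      apply hJ3
      have h1 : IsSc T := by
        rw [hTab, ha]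
        exact ⟨ν, by ext; simp⟩
      have h2 := (h.sc_iff T).2 h1
      simpa using hT.add h2
    · obtain ⟨u, hu⟩ := h.d3.exists_li2 ha
      have h1 : ¬ LinearIndependent ℂ ![b, f0] := by
        rcases LC h.d3 (hall u) with h2 | h2
        · exact absurd hu h2
        · exact h2
      have h2 : ¬ LinearIndependent ℂ ![f0, b] := fun hcon => h1 (li2_swap hcon)
      obtain ⟨s, hs⟩ := mem_span_of_not_li2 hf0 h2
      refine ⟨s • a, ?_⟩
      symm
      apply hJeq
      have e1 : T = ν • (1 : X →L[ℂ] X) + rk (s • a) f0 := by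
        rw [hTab, hs]; ext y
        simp only [add_apply, smul_apply, ContinuousLinearMap.smulRight_apply, smul_eq_mul]
        module
      have h3 : IsSc (L T - L (rk (s • a) f0)) := by
        have h4 := h.lin (rk (s • a) f0) (1 : X →L[ℂ] X) ν
        have h5 : rk (s • a) f0 + ν • (1 : X →L[ℂ] X) = T := by rw [e1, add_comm]
        rw [h5] at h4
        have h6 : IsSc (L (1 : X →L[ℂ] X)) := (h.sc_iff _).2 ⟨1, by simp⟩
        have := h4.add (h6.smul ν)
        convert this using 1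
        abel
      have := (hT.add h3).add (hA (s • a))
      convert this using 1
      have : A' (s • a) = A (s • a) := rfl
      rw [this]; abel
  exact ⟨LinearEquiv.ofBijective A' ⟨hinj, hsur⟩, fun u => hA u⟩

end Pool.Agent.Helper139.Pr
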