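import Pool.Agent.Helper139.Pr5

namespace Pool.Agent.Helper139.Pr

variable {X : Type*} [NormedAddCommGroup X] [NormedSpace ℂ X]

/-- Lemma G: if all vectors off a hyperplane are eigenvectors, the map is scalar. -/
lemma lemG {E : X →ₗ[ℂ] X} {k : X →ₗ[ℂ] ℂ} {g0 : X} (hg0 : k g0 = 1)
    (h : ∀ v, k v ≠ 0 → ∃ c : ℂ, E v = c • v) : ∃ c : ℂ, ∀ v, E v = c • v := by
  obtain ⟨c0, hc0⟩ := h g0 (by rw [hg0]; exact one_ne_zero)
  have hker : ∀ v, k v = 0 → E v = c0 • v := by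
    intro v hv
    obtain ⟨c, hc⟩ := h (v + g0) (by rw [map_add, hv, hg0]; simp)
    obtain ⟨c', hc'⟩ := h (v + (2 : ℂ) • g0) (by
      rw [map_add, map_smul, hv, hg0]; simp)
    rw [map_add, hc0] at hc
    rw [map_add, map_smul, hc0] at hc'
    have e1 : E v = c • v + (c - c0) • g0 := by
      calc E v = (E v + c0 • g0) - c0 • g0 := by abel
        _ = _ := by rw [hc]; module
    have e2 : E v = c' • v + (2 * (c' - c0)) • g0 := by
      calc E v = (E v + (2 : ℂ) • c0 • g0) - (2 : ℂ) • c0 • g0 := by abel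
        _ = _ := by rw [hc']; module
    have e3 : (c - c') • v + (c - c0 - 2 * (c' - c0)) • g0 = 0 := by
      have : c • v + (c - c0) • g0 - (c' • v + (2 * (c' - c0)) • g0) = 0 := by
        rw [← e1, ← e2, sub_self]
      rw [← this]; module
    have e4 : c - c0 - 2 * (c' - c0) = 0 := by
      have := congrArg k e3
      simpa [hv, hg0] using this
    rw [e4, zero_smul, add_zero] at e3
    rcases smul_eq_zero.1 e3 with h5 | h5
    · have h6 : c = c0 := by linear_combination 2 * h5 - e4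
      rw [e1, h6]; simp
    · rw [h5]; simp
  refine ⟨c0, fun v => ?_⟩
  have h1 := hker (v - k v • g0) (by rw [map_sub, map_smul, hg0]; simp)
  rw [map_sub, map_smul, hc0] at h1
  calc E v = (E v - k v • c0 • g0) + k v • c0 • g0 := by abel
    _ = _ := by rw [h1]; module

/-- The abstract type lemma. -/
theorem typeLemma (hd : D3 X) {Z Z' : Type*} [AddCommGroup Z] [Module ℂ Z] [AddCommGroup Z']
    [Module ℂ Z'] (p : Z' →ₗ[ℂ] Z →ₗ[ℂ] ℂ)
    (H0 : ∀ z w : Z, (∀ ζ, p ζ z = 0 → p ζ w = 0) → ∃ c : ℂ, w = c • z)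
    (H0' : ∀ ζ, (∀ w, p ζ w = 0) → ζ = 0)
    (A : X ≃ₗ[ℂ] Z) (k0 : Z →ₗ[ℂ] ℂ) (hk0 : k0 ≠ 0) (f0 : X →L[ℂ] ℂ)
    (M : (X →L[ℂ] X) → (Z →ₗ[ℂ] Z))
    (H2 : ∀ (z : Z) (ζ : Z'), p ζ z = 0 → ∃ (x : X) (f : X →L[ℂ] ℂ), f x = 0 ∧
      (∀ S, p ζ (M S z) = f (S x)) ∧ ∀ u, f u * f0 x = p ζ (A u) * k0 z) :
    ∃ κ : ℂ, ∀ S : X →L[ℂ] X, ∃ μ : ℂ, ∀ u, M S (A u) = κ • A (S u) + μ • A u := by
  -- uniqueness
  have hU : ∀ (ζ : Z'), ζ ≠ 0 → ∀ x1 x2 : X,
      (∀ S : X →L[ℂ] X, p ζ (A (S x1)) = p ζ (A (S x2))) → x1 = x2 := by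
    intro ζ hζ x1 x2 hS
    obtain ⟨w, hw⟩ : ∃ w, p ζ w ≠ 0 := by
      by_contra hcon
      push Not at hcon
      exact hζ (H0' ζ hcon)
    by_contra hne
    obtain ⟨h, hh⟩ := SeparatingDual.exists_eq_one (R := ℂ) (sub_ne_zero.2 hne)
    have h1 := hS (rk (A.symm w) h)
    simp only [ContinuousLinearMap.smulRight_apply, map_smul, LinearEquiv.apply_symm_apply,
      smul_eq_mul] at h1
    have h2 : h x1 = h x2 := mul_right_cancel₀ hw h1
    rw [map_sub, h2, sub_self] at hh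
    exact zero_ne_one hh
  -- a vector for a single functional
  have hE : ∀ (z : Z), k0 z ≠ 0 → ∀ ζ, p ζ z = 0 → ζ ≠ 0 → ∃ x' : X,
      (∀ S : X →L[ℂ] X, p ζ (M S z) = p ζ (A (S x'))) ∧ p ζ (A x') = 0 := by
    intro z hz ζ hζz hζ
    obtain ⟨x, f, hf, h1, h2⟩ := H2 z ζ hζz
    obtain ⟨w, hw⟩ : ∃ w, p ζ w ≠ 0 := by
      by_contra hcon
      push Not at hcon
      exact hζ (H0' ζ hcon)
    have hf0x : f0 x ≠ 0 := by
      intro h0
      have := h2 (A.symm w)
      rw [h0, mul_zero, LinearEquiv.apply_symm_apply] at this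
      exact (mul_ne_zero hw hz) this.symm
    refine ⟨(k0 z / f0 x) • x, fun S => ?_, ?_⟩
    · rw [h1 S, map_smul, map_smul, map_smul, smul_eq_mul]
      have := h2 (S x)
      field_simp
      linear_combination this
    · rw [map_smul, map_smul, smul_eq_mul]
      have := h2 x
      rw [hf, zero_mul] at this
      have h3 : p ζ (A x) = 0 := by
        rcases mul_eq_zero.1 this.symm with h4 | h4
        · exact h4
        · exact absurd h4 hz
      rw [h3, mul_zero]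
  -- claim 1
  have h1 : ∀ u : X, k0 (A u) ≠ 0 → ∃ κ : ℂ, ∀ S : X →L[ℂ] X, ∃ c : ℂ,
      M S (A u) = κ • A (S u) + c • A u := by
    intro u hu
    have hu0 : u ≠ 0 := by
      rintro rfl
      simp at hu
    obtain ⟨ζ1, hζ1, hζ10⟩ : ∃ ζ, p ζ (A u) = 0 ∧ ζ ≠ 0 := by
      by_contra hcon
      push Not at hcon
      obtain ⟨v, hv⟩ := hd.exists_li2 hu0
      obtain ⟨c, hc⟩ := H0 (A u) (A v) (fun ζ hζ => by rw [hcon ζ hζ]; simp)
      rw [← map_smul] at hc
      have hc' : v = c • u := A.injective hc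
      have := li2.1 hv c (-1) (by rw [hc']; module)
      simp at this
    obtain ⟨x', hx', hx'0⟩ := hE (A u) hu ζ1 hζ1 hζ10
    have hall : ∀ ζ, p ζ (A u) = 0 → (∀ S : X →L[ℂ] X, p ζ (M S (A u)) = p ζ (A (S x'))) ∧
        p ζ (A x') = 0 := by
      intro ζ hζ
      by_cases hdep : ∃ c : ℂ, ζ = c • ζ1
      · obtain ⟨c, rfl⟩ := hdep
        refine ⟨fun S => ?_, ?_⟩
        · rw [map_smul, LinearMap.smul_apply, LinearMap.smul_apply, hx' S]
        · rw [map_smul, LinearMap.smul_apply, hx'0, smul_zero]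
      · have hζ0 : ζ ≠ 0 := by
          rintro rfl
          exact hdep ⟨0, by simp⟩
        have hζ3 : ζ1 + ζ ≠ 0 := by
          intro h0
          apply hdep
          exact ⟨-1, by rw [neg_one_smul]; exact (neg_eq_of_add_eq_zero_right h0).symm⟩
        obtain ⟨x2, hx2, hx20⟩ := hE (A u) hu ζ hζ hζ0
        obtain ⟨x3, hx3, -⟩ := hE (A u) hu (ζ1 + ζ) (by
          rw [map_add, LinearMap.add_apply, hζ1, hζ, add_zero]) hζ3
        have hx : x2 = x' := by
          by_contra hne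
          obtain ⟨h, hh⟩ := SeparatingDual.exists_eq_one (R := ℂ) (sub_ne_zero.2 hne)
          have hz : (h x' - h x3) • ζ1 + (h x2 - h x3) • ζ = 0 := by
            apply H0'
            intro w
            have e1 := hx' (rk (A.symm w) h)
            have e2 := hx2 (rk (A.symm w) h)
            have e3 := hx3 (rk (A.symm w) h)
            simp only [ContinuousLinearMap.smulRight_apply, map_smul,
              LinearEquiv.apply_symm_apply, smul_eq_mul, map_add, LinearMap.add_apply] at e1 e2 e3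
            simp only [map_smul, map_add, LinearMap.add_apply, LinearMap.smul_apply, smul_eq_mul]
            linear_combination e3 - e1 - e2
          have h23 : h x2 - h x3 = 0 := by
            by_contra hne2
            apply hdep
            refine ⟨-((h x2 - h x3)⁻¹ * (h x' - h x3)), ?_⟩
            have e1 : (h x2 - h x3) • ζ = -((h x' - h x3) • ζ1) := by
              rw [eq_neg_iff_add_eq_zero, add_comm]; exact hz
            calc ζ = (h x2 - h x3)⁻¹ • ((h x2 - h x3) • ζ) := by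
                  rw [smul_smul, inv_mul_cancel₀ hne2, one_smul]
              _ = _ := by rw [e1]; module
          rw [h23, zero_smul, add_zero] at hz
          have h13 : h x' - h x3 = 0 := (smul_eq_zero.1 hz).resolve_right hζ10
          rw [map_sub] at hh
          have : h x2 - h x' = 0 := by linear_combination h23 - h13
          rw [this] at hh
          exact zero_ne_one hh
        subst hx
        exact ⟨hx2, hx20⟩
    obtain ⟨κ, hκ⟩ := H0 (A u) (A x') (fun ζ hζ => (hall ζ hζ).2)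
    rw [← map_smul] at hκ
    have hκ' : x' = κ • u := A.injective hκ
    refine ⟨κ, fun S => ?_⟩
    obtain ⟨c, hc⟩ := H0 (A u) (M S (A u) - A (S x')) (fun ζ hζ => by
      rw [map_sub, (hall ζ hζ).1 S, sub_self])
    refine ⟨c, ?_⟩
    rw [← hc, hκ', map_smul, map_smul]
    abel
  -- choose a base vector
  obtain ⟨g0, hg0⟩ : ∃ g0 : X, k0 (A g0) = 1 := by
    obtain ⟨w, hw⟩ : ∃ w, k0 w ≠ 0 := by
      by_contra hcon
      push Not at hcon
      exact hk0 (LinearMap.ext hcon)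
    exact ⟨A.symm ((k0 w)⁻¹ • w), by simp [hw]⟩
  obtain ⟨κ0, hκ0⟩ := h1 g0 (by rw [hg0]; exact one_ne_zero)
  have h2 : ∀ v, k0 (A v) = 0 → ∀ S : X →L[ℂ] X, ∃ c : ℂ,
      M S (A (g0 + v)) = κ0 • A (S (g0 + v)) + c • A (g0 + v) := by
    intro v hv
    by_cases hv0 : v = 0
    · subst hv0; simpa using hκ0
    obtain ⟨κ1, hκ1⟩ := h1 (g0 + v) (by rw [map_add, map_add, hg0, hv]; simp)
    obtain ⟨κ2, hκ2⟩ := h1 (g0 - v) (by rw [map_sub, map_sub, hg0, hv]; simp)
    have hli : LinearIndependent ℂ ![g0, v] := by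
      rw [li2]
      intro s t hst
      have := congrArg (fun x => k0 (A x)) hst
      simp [hg0, hv] at this
      subst this
      exact ⟨rfl, by simpa [hv0] using hst⟩
    obtain ⟨w, hw⟩ := hd.exists_li3 hli
    have hgen : ∀ S : X →L[ℂ] X, ∃ a b : ℂ, (κ1 + κ2 - 2 * κ0) • S g0 + (κ1 - κ2) • S v
        = a • g0 + b • v := by
      intro S
      obtain ⟨c0, e0⟩ := hκ0 S
      obtain ⟨c1, e1⟩ := hκ1 S
      obtain ⟨c2, e2⟩ := hκ2 S
      refine ⟨2 * c0 - c1 - c2, c2 - c1, ?_⟩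
      apply A.injective
      have e3 : M S (A (g0 + v)) + M S (A (g0 - v)) = (2 : ℂ) • M S (A g0) := by
        rw [← map_add, ← map_add, ← map_smul, ← map_smul]
        congr 2
        module
      rw [e0, e1, e2] at e3
      simp only [map_add, map_sub, map_smul] at e3 ⊢
      rw [← sub_eq_zero] at e3 ⊢
      rw [← e3]
      module
    obtain ⟨S1, hS1g, hS1v⟩ := exists_op2 hli w 0
    obtain ⟨S2, hS2g, hS2v⟩ := exists_op2 hli 0 w
    obtain ⟨a1, b1, hab1⟩ := hgen S1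
    obtain ⟨a2, b2, hab2⟩ := hgen S2
    rw [hS1g, hS1v] at hab1
    rw [hS2g, hS2v] at hab2
    have i1 := li3.1 hw (-a1) (-b1) (κ1 + κ2 - 2 * κ0) (by
      rw [smul_zero, add_zero] at hab1
      rw [hab1]; module)
    have i2 := li3.1 hw (-a2) (-b2) (κ1 - κ2) (by
      rw [smul_zero, zero_add] at hab2
      rw [hab2]; module)
    have : κ1 = κ0 := by linear_combination (i1.2.2 + i2.2.2) / 2
    rw [← this]
    exact hκ1
  have h3 : ∀ v, k0 (A v) ≠ 0 → ∀ S : X →L[ℂ] X, ∃ c : ℂ,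
      M S (A v) = κ0 • A (S v) + c • A v := by
    intro v hv S
    obtain ⟨c, hc⟩ := h2 ((k0 (A v))⁻¹ • v - g0) (by
      simp [hg0, hv]) S
    rw [add_sub_cancel] at hc
    refine ⟨c, ?_⟩
    have := congrArg (fun z => k0 (A v) • z) hc
    simp only [map_smul, smul_add] at this
    rw [smul_smul, mul_inv_cancel₀ hv, one_smul] at this
    rw [this]
    have e1 : k0 (A v) • κ0 • (k0 (A v))⁻¹ • A (S v) = κ0 • A (S v) := by
      rw [smul_comm (k0 (A v)) κ0, smul_smul (k0 (A v)), mul_inv_cancel₀ hv, one_smul]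
    have e2 : k0 (A v) • c • (k0 (A v))⁻¹ • A v = c • A v := by
      rw [smul_comm (k0 (A v)) c, smul_smul (k0 (A v)), mul_inv_cancel₀ hv, one_smul]
    rw [e1, e2]
  refine ⟨κ0, fun S => ?_⟩
  let E : X →ₗ[ℂ] X := (A.symm : Z →ₗ[ℂ] X) ∘ₗ (M S) ∘ₗ (A : X →ₗ[ℂ] Z) - κ0 • (S : X →ₗ[ℂ] X)
  have hEv : ∀ v, E v = A.symm (M S (A v)) - κ0 • S v := fun v => rfl
  obtain ⟨μ, hμ⟩ := lemG (E := E) (k := k0 ∘ₗ (A : X →ₗ[ℂ] Z)) (g0 := g0) hg0 (by
    intro v hv
    obtain ⟨c, hc⟩ := h3 v hv S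
    refine ⟨c, ?_⟩
    rw [hEv, hc]
    simp)
  refine ⟨μ, fun u => ?_⟩
  have := hμ u
  rw [hEv] at this
  have h4 : A.symm (M S (A u)) = κ0 • S u + μ • u := by
    rw [← this]; abel
  have h5 := congrArg A h4
  rw [LinearEquiv.apply_symm_apply] at h5
  rw [h5]
  simp

end Pool.Agent.Helper139.Pr
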