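import Pool.Agent.Helper139.Pr6

open Filter Topology

namespace Pool.Agent.Helper139.Pr

variable {X : Type*} [NormedAddCommGroup X] [NormedSpace ℂ X]
variable {Y : Type*} [NormedAddCommGroup Y] [NormedSpace ℂ Y]
variable {L : (X →L[ℂ] X) → (Y →L[ℂ] Y)}

lemma exists_ne_of_fun_ne {k : X →L[ℂ] ℂ} (h : k ≠ 0) : ∃ y, k y ≠ 0 := by
  by_contra hcon
  push Not at hcon
  exact h (ContinuousLinearMap.ext hcon)

/-- The dichotomy for the family with fixed functional. -/
lemma LData.dich (h : LData L) {f0 : X →L[ℂ] ℂ} (hf0 : f0 ≠ 0) :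
    (∃ k0 : Y →L[ℂ] ℂ, k0 ≠ 0 ∧ ∀ u, ∃ w, IsSc (L (rk u f0) - rk w k0)) ∨
    (∃ v0 : Y, v0 ≠ 0 ∧ ∀ u, ∃ k, IsSc (L (rk u f0) - rk v0 k)) := by
  have hSR : ∀ u, IsSR (L (rk u f0)) := fun u => (h.sr _).1 (isSR_rk u f0)
  choose c v k hk using hSR
  have hk' : ∀ u, IsSc (L (rk u f0) - rk (v u) (k u)) := by
    intro u
    refine ⟨c u, ?_⟩
    nth_rewrite 1 [hk u]
    abel
  have hne : ∀ u, u ≠ 0 → rk (v u) (k u) ≠ 0 := by
    intro u hu h0
    have h1 := hk' u
    rw [h0, sub_zero] at h1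
    have h2 := rk_sc h.d3 ((h.sc_iff _).1 h1)
    rcases rk_eq_zero h2 with h3 | h3
    · exact hu h3
    · exact hf0 h3
  have hv0 : ∀ u, u ≠ 0 → v u ≠ 0 := by
    intro u hu h0
    apply hne u hu
    rw [h0]; ext; simp
  have hk0 : ∀ u, u ≠ 0 → k u ≠ 0 := by
    intro u hu h0
    apply hne u hu
    rw [h0]; ext; simp
  have hpair : ∀ u u', ¬ LinearIndependent ℂ ![v u, v u'] ∨ ¬ LinearIndependent ℂ ![k u, k u'] := by
    intro u u'
    apply LC h.d3'
    intro t
    have h1 := (h.sr _).1 (isSR_rk (u + t • u') f0)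
    apply h1.of_sub
    have h2 := h.lin (rk u f0) (rk u' f0) t
    have h3 : rk u f0 + t • rk u' f0 = rk (u + t • u') f0 := by
      ext y; simp only [add_apply, smul_apply, ContinuousLinearMap.smulRight_apply]; module
    rw [h3] at h2
    have h4 := (((hk' u).add ((hk' u').smul t)).add h2).neg
    convert h4 using 1
    rw [smul_sub]; abel
  obtain ⟨u0, hu0⟩ : ∃ u : X, u ≠ 0 := by
    obtain ⟨y, hy⟩ := exists_ne_of_fun_ne hf0
    exact ⟨y, by rintro rfl; simp at hy⟩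
  have hzero : IsSc (L (rk 0 f0)) := (h.sc_iff _).2 ⟨0, by ext; simp⟩
  by_cases hI : ∃ u1 u2, u1 ≠ 0 ∧ u2 ≠ 0 ∧ LinearIndependent ℂ ![v u1, v u2]
  · left
    obtain ⟨u1, u2, hu1, hu2, h12⟩ := hI
    have hk12 : ¬ LinearIndependent ℂ ![k u1, k u2] := by
      rcases hpair u1 u2 with h3 | h3
      · exact absurd h12 h3
      · exact h3
    refine ⟨k u1, hk0 u1 hu1, fun u => ?_⟩
    by_cases hu : u = 0
    · subst hu
      refine ⟨0, ?_⟩
      have e : rk (0 : Y) (k u1) = 0 := by ext; simp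
      rw [e, sub_zero]
      exact hzero
    by_cases hdep : LinearIndependent ℂ ![k u1, k u]
    · exfalso
      obtain ⟨a, ha⟩ := mem_span_of_not_li2 (hk0 u1 hu1) hk12
      have ha0 : a ≠ 0 := by
        rintro rfl
        exact hk0 u2 hu2 (ha.trans (zero_smul ℂ (k u1)))
      have hdep2 : LinearIndependent ℂ ![k u2, k u] := by
        rw [li2]
        intro s t hst
        have := li2.1 hdep (s * a) t (by rw [← hst, ha]; module)
        exact ⟨(mul_eq_zero.1 this.1).resolve_right ha0, this.2⟩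
      have h4 : ¬ LinearIndependent ℂ ![v u1, v u] := by
        rcases hpair u1 u with h5 | h5
        · exact h5
        · exact absurd hdep h5
      have h5 : ¬ LinearIndependent ℂ ![v u2, v u] := by
        rcases hpair u2 u with h5 | h5
        · exact h5
        · exact absurd hdep2 h5
      obtain ⟨s, hs⟩ := mem_span_of_not_li2 (hv0 u1 hu1) h4
      obtain ⟨t, ht⟩ := mem_span_of_not_li2 (hv0 u2 hu2) h5
      have h6 := li2.1 h12 s (-t) (by
        have : s • v u1 = t • v u2 := by rw [← hs, ← ht]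
        rw [this]; module)
      apply hv0 u hu
      rw [hs, h6.1, zero_smul]
    · obtain ⟨s, hs⟩ := mem_span_of_not_li2 (hk0 u1 hu1) hdep
      refine ⟨s • v u, ?_⟩
      convert hk' u using 2
      rw [hs]; ext y
      simp only [ContinuousLinearMap.smulRight_apply, smul_apply, smul_eq_mul]
      module
  · right
    push Not at hI
    refine ⟨v u0, hv0 u0 hu0, fun u => ?_⟩
    by_cases hu : u = 0
    · subst hu
      refine ⟨0, ?_⟩
      have e : rk (v u0) (0 : Y →L[ℂ] ℂ) = 0 := by ext; simp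
      rw [e, sub_zero]
      exact hzero
    obtain ⟨s, hs⟩ := mem_span_of_not_li2 (hv0 u0 hu0) (hI u0 u hu0 hu)
    refine ⟨s • k u, ?_⟩
    convert hk' u using 2
    rw [hs]; ext y
    simp only [ContinuousLinearMap.smulRight_apply, smul_apply, smul_eq_mul]
    module

/-- `w ↦ w ⊗ k0` as a linear map. -/
noncomputable def J1 (k0 : Y →L[ℂ] ℂ) : Y →ₗ[ℂ] (Y →L[ℂ] Y) where
  toFun w := rk w k0
  map_add' a b := by ext y; simp
  map_smul' c a := by
    ext y
    simp only [ContinuousLinearMap.smulRight_apply, smul_apply, RingHom.id_apply]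
    module

/-- `k ↦ v0 ⊗ k` as a linear map. -/
noncomputable def J2 (v0 : Y) : (Y →L[ℂ] ℂ) →ₗ[ℂ] (Y →L[ℂ] Y) where
  toFun k := rk v0 k
  map_add' a b := by
    ext y
    simp only [ContinuousLinearMap.smulRight_apply, add_apply]
    module
  map_smul' c a := by
    ext y
    simp only [ContinuousLinearMap.smulRight_apply, smul_apply, RingHom.id_apply, smul_eq_mul]
    module

lemma eq_smul_of_ann {y w : Y} (h : ∀ g : Y →L[ℂ] ℂ, g y = 0 → g w = 0) :
    ∃ c : ℂ, w = c • y := by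
  by_cases hy : y = 0
  · refine ⟨0, ?_⟩
    subst hy
    by_contra hne
    rw [zero_smul] at hne
    obtain ⟨g, hg⟩ := SeparatingDual.exists_eq_one (R := ℂ) hne
    rw [h g (map_zero g)] at hg
    exact zero_ne_one hg
  · apply mem_span_of_not_li2 hy
    intro hli
    obtain ⟨g, h1, h2⟩ := exists_dual2 hli 0 1
    rw [h g h1] at h2
    exact zero_ne_one h2

lemma eq_smul_of_ker {g w : Y →L[ℂ] ℂ} (h : ∀ y, g y = 0 → w y = 0) : ∃ c : ℂ, w = c • g := by
  by_cases hg : g = 0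
  · refine ⟨0, ?_⟩
    subst hg
    ext y
    simpa using h y rfl
  · apply mem_span_of_not_li2 hg
    intro hli
    obtain ⟨y, h1, h2⟩ := dualvec (li2_swap hli)
    rw [h y h2] at h1
    exact zero_ne_one h1

lemma LData.sc_eval {L : (X →L[ℂ] X) → (Y →L[ℂ] Y)} {T : X →L[ℂ] X} {E : Y →L[ℂ] Y}
    (h : IsSc (L T - E)) {y : Y} {g : Y →L[ℂ] ℂ} (hg : g y = 0) : g (L T y) = g (E y) := by
  have := sc_ann h hg
  simp only [sub_apply, map_sub] at this
  exact sub_eq_zero.1 this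

variable [CompleteSpace X] [CompleteSpace Y]

/-- Type I. -/
theorem LData.typeI (h : LData L) {f0 : X →L[ℂ] ℂ} (hf0 : f0 ≠ 0) {k0 : Y →L[ℂ] ℂ} (hk0 : k0 ≠ 0)
    (hN : ∀ u, ∃ w, IsSc (L (rk u f0) - rk w k0)) :
    ∃ (A : X ≃L[ℂ] Y) (κ : ℂ), ∀ S, ∃ μ : ℂ, ∀ u, L S (A u) = κ • A (S u) + μ • A u := by
  obtain ⟨A, hA⟩ := h.AJ hf0 (J1 k0) (fun z => ⟨z, k0, rfl⟩)
    (fun z hz => (rk_eq_zero hz).resolve_right hk0) hN
  have hA' : ∀ u, IsSc (L (rk u f0) - rk (A u) k0) := hA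
  have hrel : ∀ (y : Y) (g : Y →L[ℂ] ℂ), g y = 0 → ∃ (x : X) (f : X →L[ℂ] ℂ), f x = 0 ∧
      (∀ S, g (L S y) = f (S x)) ∧ ∀ u, f u * f0 x = g (A u) * k0 y := by
    intro y g hg
    obtain ⟨x, f, hf, hS⟩ := h.bwd y g hg
    refine ⟨x, f, hf, hS, fun u => ?_⟩
    have e1 := hS (rk u f0)
    rw [LData.sc_eval (hA' u) hg] at e1
    simp only [ContinuousLinearMap.smulRight_apply, map_smul, smul_eq_mul] at e1
    linear_combination -e1
  obtain ⟨κ, hκ⟩ := typeLemma h.d3 (Z := Y) (Z' := Y →L[ℂ] ℂ)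
    (p := ContinuousLinearMap.coeLM (R := ℂ) ℂ (M := Y) (N₃ := ℂ))
    (fun z w hzw => eq_smul_of_ann hzw)
    (fun ζ hζ => ContinuousLinearMap.ext hζ)
    A (k0 : Y →ₗ[ℂ] ℂ) (by
      intro h0
      apply hk0
      ext y
      exact congrArg (fun q : Y →ₗ[ℂ] ℂ => q y) h0)
    f0 (fun S => (L S : Y →ₗ[ℂ] Y)) (fun z ζ hz => hrel z ζ hz)
  have hcont : Continuous (A : X →ₗ[ℂ] Y) := by
    apply LinearMap.continuous_of_seq_closed_graph
    intro un u w hun hw
    have hann : ∀ y : Y, k0 y ≠ 0 → ∃ c : ℂ, w - A u = c • y := by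
      intro y hy
      apply eq_smul_of_ann
      intro g hg
      obtain ⟨x, f, -, -, hr⟩ := hrel y g hg
      have h1 : Tendsto (fun n => g (A (un n))) atTop (𝓝 (g w)) :=
        (g.continuous.tendsto w).comp hw
      have h2 : Tendsto (fun n => f (un n) * f0 x) atTop (𝓝 (f u * f0 x)) :=
        ((f.continuous.tendsto u).comp hun).mul_const _
      have h3 : Tendsto (fun n => g (A (un n)) * k0 y) atTop (𝓝 (g w * k0 y)) := h1.mul_const _
      have h4 : (fun n => f (un n) * f0 x) = fun n => g (A (un n)) * k0 y := by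
        funext n; exact hr (un n)
      rw [h4] at h2
      have h5 := tendsto_nhds_unique h2 h3
      rw [hr u] at h5
      have h6 : g (A u) = g w := mul_right_cancel₀ hy h5
      rw [map_sub, h6, sub_self]
    obtain ⟨y, hy⟩ := exists_ne_of_fun_ne hk0
    obtain ⟨z, hz, hz1, -⟩ := common_ker h.d3' k0 k0
    obtain ⟨c, hc⟩ := hann y hy
    obtain ⟨d, hd⟩ := hann (y + z) (by rwa [map_add, hz1, add_zero])
    have e1 : k0 (w - A u) = c * k0 y := by rw [hc]; simp
    have e2 : k0 (w - A u) = d * k0 y := by rw [hd]; simp [hz1]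
    have e3 : c = d := mul_right_cancel₀ hy (by rw [← e1, ← e2])
    subst e3
    have e4 : c • z = 0 := by
      have : c • (y + z) - c • y = 0 := by rw [← hd, ← hc, sub_self]
      rw [← this]; module
    have e5 : c = 0 := (smul_eq_zero.1 e4).resolve_right hz
    rw [e5, zero_smul] at hc
    exact sub_eq_zero.1 hc
  refine ⟨A.toContinuousLinearEquivOfContinuous hcont, κ, hκ⟩

omit [CompleteSpace X] in
/-- Type II. -/
theorem LData.typeII (h : LData L) {f0 : X →L[ℂ] ℂ} (hf0 : f0 ≠ 0) {v0 : Y} (hv0 : v0 ≠ 0)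
    (hN : ∀ u, ∃ k, IsSc (L (rk u f0) - rk v0 k)) :
    ∃ (B : Y ≃L[ℂ] (X →L[ℂ] ℂ)) (κ : ℂ), ∀ S, ∃ μ : ℂ, ∀ y u,
      B (L S y) u = κ * B y (S u) + μ * B y u := by
  obtain ⟨C, hC⟩ := h.AJ hf0 (J2 v0) (fun z => ⟨v0, z, rfl⟩)
    (fun z hz => (rk_eq_zero hz).resolve_left hv0) hN
  have hC' : ∀ u, IsSc (L (rk u f0) - rk v0 (C u)) := hC
  have hrel : ∀ (g : Y →L[ℂ] ℂ) (y : Y), g y = 0 → ∃ (x : X) (f : X →L[ℂ] ℂ), f x = 0 ∧
      (∀ S, g (L S y) = f (S x)) ∧ ∀ u, f u * f0 x = C u y * g v0 := by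
    intro g y hg
    obtain ⟨x, f, hf, hS⟩ := h.bwd y g hg
    refine ⟨x, f, hf, hS, fun u => ?_⟩
    have e1 := hS (rk u f0)
    rw [LData.sc_eval (hC' u) hg] at e1
    simp only [ContinuousLinearMap.smulRight_apply, map_smul, smul_eq_mul] at e1
    linear_combination -e1
  let p : Y →ₗ[ℂ] (Y →L[ℂ] ℂ) →ₗ[ℂ] ℂ :=
    LinearMap.flip (ContinuousLinearMap.coeLM (R := ℂ) ℂ (M := Y) (N₃ := ℂ))
  have hp : ∀ y g, p y g = g y := fun y g => rfl
  let M : (X →L[ℂ] X) → ((Y →L[ℂ] ℂ) →ₗ[ℂ] (Y →L[ℂ] ℂ)) := fun S =>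
    { toFun := fun g => g.comp (L S), map_add' := fun a b => by ext; simp,
      map_smul' := fun c a => by ext; simp }
  have hM : ∀ S g y, M S g y = g (L S y) := fun S g y => rfl
  let k0 : (Y →L[ℂ] ℂ) →ₗ[ℂ] ℂ := p v0
  obtain ⟨κ, hκ⟩ := typeLemma h.d3 (Z := Y →L[ℂ] ℂ) (Z' := Y) (p := p)
    (fun g w hgw => eq_smul_of_ker hgw)
    (fun y hy => by
      by_contra hne
      obtain ⟨g, hg⟩ := SeparatingDual.exists_eq_one (R := ℂ) hne
      have := hy g
      rw [hp, hg] at this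
      exact one_ne_zero this)
    C k0 (by
      intro h0
      obtain ⟨g, hg⟩ := SeparatingDual.exists_eq_one (R := ℂ) hv0
      have := congrArg (fun q : (Y →L[ℂ] ℂ) →ₗ[ℂ] ℂ => q g) h0
      have h1 : g v0 = 0 := this
      rw [h1] at hg
      exact zero_ne_one hg)
    f0 M (fun g y hg => hrel g y hg)
  have hκ' : ∀ S, ∃ μ : ℂ, ∀ u y, C u (L S y) = κ * C (S u) y + μ * C u y := by
    intro S
    obtain ⟨μ, hμ⟩ := hκ S
    refine ⟨μ, fun u y => ?_⟩
    have := congrArg (fun q : Y →L[ℂ] ℂ => q y) (hμ u)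
    simpa [hM] using this
  -- B y is continuous
  have hBc1 : ∀ y : Y, LinearIndependent ℂ ![v0, y] → ∃ ξ : X →L[ℂ] ℂ, ∀ u, ξ u = C u y := by
    intro y hy
    obtain ⟨g, hg1, hg2⟩ := exists_dual2 hy 1 0
    obtain ⟨x, f, -, -, hr⟩ := hrel g y hg2
    refine ⟨f0 x • f, fun u => ?_⟩
    have := hr u
    rw [hg1, mul_one] at this
    rw [← this]
    simp [mul_comm]
  have hBc : ∀ y : Y, ∃ ξ : X →L[ℂ] ℂ, ∀ u, ξ u = C u y := by
    intro y
    by_cases hy : LinearIndependent ℂ ![v0, y]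
    · exact hBc1 y hy
    · obtain ⟨s, rfl⟩ := mem_span_of_not_li2 hv0 hy
      obtain ⟨w, hw⟩ := h.d3'.exists_li2 hv0
      obtain ⟨ξ1, h1⟩ := hBc1 w hw
      obtain ⟨ξ2, h2⟩ := hBc1 (s • v0 + w) (by
        rw [li2]
        intro a b hab
        have := li2.1 hw (a + b * s) b (by rw [← hab]; module)
        obtain ⟨h3, rfl⟩ := this
        exact ⟨by simpa using h3, rfl⟩)
      refine ⟨ξ2 - ξ1, fun u => ?_⟩
      simp [h1, h2]
  choose B hB using hBc
  let B' : Y →ₗ[ℂ] (X →L[ℂ] ℂ) :=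
    { toFun := B, map_add' := fun a b => by ext u; simp [hB],
      map_smul' := fun c a => by ext u; simp [hB] }
  have hB' : ∀ y u, B' y u = C u y := hB
  have hcont : Continuous B' := by
    apply LinearMap.continuous_of_seq_closed_graph
    intro yn y ξ hyn hξ
    ext u
    have h1 : Tendsto (fun n => B' (yn n) u) atTop (𝓝 (ξ u)) := by
      have := (ContinuousLinearMap.apply ℂ ℂ u).continuous.tendsto ξ
      exact this.comp hξ
    have h2 : Tendsto (fun n => C u (yn n)) atTop (𝓝 (C u y)) :=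
      ((C u).continuous.tendsto y).comp hyn
    have h3 : (fun n => B' (yn n) u) = fun n => C u (yn n) := by
      funext n; exact hB' _ _
    rw [h3] at h1
    rw [hB']
    exact tendsto_nhds_unique h1 h2
  have hinj : Function.Injective B' := by
    rw [injective_iff_map_eq_zero]
    intro y hy
    by_contra hne
    obtain ⟨g, hg⟩ := SeparatingDual.exists_eq_one (R := ℂ) hne
    have h1 : B' y (C.symm g) = 0 := by rw [hy]; simp
    rw [hB', LinearEquiv.apply_symm_apply, hg] at h1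
    exact one_ne_zero h1
  have hrelB : ∀ S, ∃ μ : ℂ, ∀ y u, B' (L S y) u = κ * B' y (S u) + μ * B' y u := by
    intro S
    obtain ⟨μ, hμ⟩ := hκ' S
    refine ⟨μ, fun y u => ?_⟩
    rw [hB', hB', hB']
    exact hμ u y
  have hκ0 : κ ≠ 0 := by
    rintro rfl
    obtain ⟨S, hS⟩ := exists_nonsc h.d3
    apply hS
    rw [← h.sc_iff]
    obtain ⟨μ, hμ⟩ := hrelB S
    refine ⟨μ, ?_⟩
    ext y
    apply hinj
    ext u
    rw [hμ]
    simp
  have hsur : Function.Surjective B' := by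
    intro ξ
    obtain ⟨a, b, c, habc⟩ := h.d3'
    have ha : a ≠ 0 := by
      rintro rfl
      have := li3.1 habc 1 0 0 (by simp)
      simp at this
    have hBa : B' a ≠ 0 := fun h0 => ha (hinj (by rw [h0, map_zero]))
    obtain ⟨u, hu⟩ := exists_ne_of_fun_ne hBa
    obtain ⟨μ, hμ⟩ := hrelB (rk u ξ)
    refine ⟨(κ * B' a u)⁻¹ • (L (rk u ξ) a - μ • a), ?_⟩
    ext w
    rw [map_smul, map_sub, map_smul]
    simp only [smul_apply, sub_apply, smul_eq_mul]
    rw [hμ a w]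
    simp only [ContinuousLinearMap.smulRight_apply, map_smul, smul_eq_mul]
    field_simp
    ring
  refine ⟨(LinearEquiv.ofBijective B' ⟨hinj, hsur⟩).toContinuousLinearEquivOfContinuous hcont, κ,
    fun S => ?_⟩
  obtain ⟨μ, hμ⟩ := hrelB S
  exact ⟨μ, hμ⟩

end Pool.Agent.Helper139.Pr
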