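import Pool.Agent.Helper139.Pr7

open Filter Topology

namespace Pool.Agent.Helper139.Pr

variable {X : Type*} [NormedAddCommGroup X] [NormedSpace ℂ X]

/-- `T` maps `a` to `b` and `b` to `c`. -/
def Tri (T : X →L[ℂ] X) (a b c : X) : Prop := T a = b ∧ T b = c

lemma spec_smul {C : X →L[ℂ] X} {c z : ℂ} (hc : c ≠ 0) :
    c * z ∈ spectrum ℂ (c • C) ↔ z ∈ spectrum ℂ C := by
  have := spectrum.smul_mem_smul_iff (a := C) (s := z) (r := Units.mk0 c hc)
  simpa [Units.smul_def] using this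

/-- The spectrum of the standard commutator. -/
lemma partner {T : X →L[ℂ] X} {e0 e1 e2 : X} (hli : LinearIndependent ℂ ![e0, e1, e2])
    (hT : Tri T e0 e1 e2) {g1 g2 : X →L[ℂ] ℂ} (h10 : g1 e0 = 0) (h11 : g1 e1 = 1)
    (h12 : g1 e2 = 0) (h20 : g2 e0 = 0) (h21 : g2 e1 = 0) (h22 : g2 e2 = 1)
    {S : X →L[ℂ] X} (hS : S = -(rk e0 g1) - (3 : ℂ) • rk e1 g2) :
    1 ∈ spectrum ℂ (cm T S) ∧ 2 ∈ spectrum ℂ (cm T S) ∧
      ∀ z ∈ spectrum ℂ (cm T S), z = 0 ∨ z = 1 ∨ z = 2 ∨ z = -3 := by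
  obtain ⟨hT0, hT1⟩ := hT
  have he0 : e0 ≠ 0 := by
    rintro rfl
    have := li3.1 hli 1 0 0 (by simp)
    simp at this
  have he1 : e1 ≠ 0 := by
    rintro rfl
    have := li3.1 hli 0 1 0 (by simp)
    simp at this
  have hC : ∀ y, cm T S y = g1 (T y) • e0 + (3 * g2 (T y) - g1 y) • e1 - (3 * g2 y) • e2 := by
    intro y
    simp only [cm, hS, sub_apply, neg_apply, smul_apply, mul_apply_eq_comp,
      ContinuousLinearMap.smulRight_apply, map_sub, map_neg, map_smul, hT0, hT1]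
    module
  have hC0 : cm T S e0 = (1 : ℂ) • e0 := by
    rw [hC, hT0, h11, h21, h10, h20]; module
  have hC1 : cm T S e1 = (2 : ℂ) • e1 := by
    rw [hC, hT1, h12, h22, h11, h21]; module
  refine ⟨eig_mem he0 hC0, eig_mem he1 hC1, ?_⟩
  intro z hz
  have : Nontrivial X := ⟨e0, 0, he0⟩
  set C := cm T S with hCdef
  let P : Polynomial ℂ := (Polynomial.X - Polynomial.C 2) * (Polynomial.X - Polynomial.C 1) *
    (Polynomial.X + Polynomial.C 3) * Polynomial.X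
  have hP : Polynomial.aeval C P = 0 := by
    have e : Polynomial.aeval C P = (C - algebraMap ℂ _ 2) * (C - algebraMap ℂ _ 1) *
        (C + algebraMap ℂ _ 3) * C := by
      simp [P]
    rw [e]
    ext y
    have e3 : (C + algebraMap ℂ (X →L[ℂ] X) 3) (C y) = C (C y) + (3 : ℂ) • C y := by
      simp [Algebra.algebraMap_eq_smul_one]
    have e4 : ∃ α β : ℂ, C (C y) + (3 : ℂ) • C y = α • e0 + β • e1 := by
      have h2 : g2 (C y) = - (3 * g2 y) := by
        rw [hC]; simp [h20, h21, h22]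
      refine ⟨g1 (T (C y)) + 3 * g1 (T y), 3 * g2 (T (C y)) - g1 (C y) +
        3 * (3 * g2 (T y) - g1 y), ?_⟩
      have e5 : C (C y) = g1 (T (C y)) • e0 + (3 * g2 (T (C y)) - g1 (C y)) • e1
          - (3 * g2 (C y)) • e2 := hC (C y)
      rw [e5, h2]
      nth_rewrite 4 [hC y]
      module
    obtain ⟨α, β, hαβ⟩ := e4
    have e6 : (C - algebraMap ℂ (X →L[ℂ] X) 1) (α • e0 + β • e1) = β • e1 := by
      simp only [Algebra.algebraMap_eq_smul_one, sub_apply, smul_apply, one_apply_eq_self,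
        map_add, map_smul, hC0, hC1]
      module
    have e7 : (C - algebraMap ℂ (X →L[ℂ] X) 2) (β • e1) = 0 := by
      simp only [Algebra.algebraMap_eq_smul_one, sub_apply, smul_apply, one_apply_eq_self,
        map_smul, hC1]
      module
    change (C - algebraMap ℂ (X →L[ℂ] X) 2) ((C - algebraMap ℂ (X →L[ℂ] X) 1)
      ((C + algebraMap ℂ (X →L[ℂ] X) 3) (C y))) = 0
    rw [e3, hαβ, e6, e7]
  have h1 := spectrum.subset_polynomial_aeval C P ⟨z, hz, rfl⟩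
  rw [hP, spectrum.zero_eq] at h1
  have h2 : P.eval z = 0 := h1
  simp only [P, Polynomial.eval_mul, Polynomial.eval_sub, Polynomial.eval_X, Polynomial.eval_C,
    Polynomial.eval_add, mul_eq_zero] at h2
  rcases h2 with ((h2 | h2) | h2) | h2
  · right; right; left; linear_combination h2
  · right; left; linear_combination h2
  · right; right; right; linear_combination h2
  · left; exact h2

lemma scale_one {C : X →L[ℂ] X} (h1 : 1 ∈ spectrum ℂ C) (h2 : 2 ∈ spectrum ℂ C)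
    (h3 : ∀ z ∈ spectrum ℂ C, z = 0 ∨ z = 1 ∨ z = 2 ∨ z = -3) {c : ℂ}
    (h : spectrum ℂ C = spectrum ℂ (c • C)) : c = 1 := by
  have hnt : Nontrivial X := by
    by_contra hcon
    rw [not_nontrivial_iff_subsingleton] at hcon
    have h5 : C = 0 := by ext x; exact Subsingleton.elim _ _
    have h6 : IsUnit (algebraMap ℂ (X →L[ℂ] X) 1 - C) := by
      have : (algebraMap ℂ (X →L[ℂ] X) 1 - C) = 1 := by ext x; exact Subsingleton.elim _ _
      rw [this]; exact isUnit_one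
    exact h1 h6
  have hc : c ≠ 0 := by
    rintro rfl
    rw [h, zero_smul, spectrum.zero_eq] at h1
    exact one_ne_zero h1
  have k1 : c ∈ spectrum ℂ C := by
    rw [h]; simpa using (spec_smul (z := 1) hc).2 h1
  have k2 : c * 2 ∈ spectrum ℂ C := by
    rw [h]; exact (spec_smul (z := 2) hc).2 h2
  rcases h3 _ k1 with h4 | h4 | h4 | h4
  · exact absurd h4 hc
  · exact h4
  · rw [h4] at k2; have := h3 _ k2; norm_num at this
  · rw [h4] at k2; have := h3 _ k2; norm_num at this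

lemma D3.ann2 (hd : D3 X) (a b : X) : ∃ h : X →L[ℂ] ℂ, h ≠ 0 ∧ h a = 0 ∧ h b = 0 := by
  by_cases ha : a = 0
  · by_cases hb : b = 0
    · obtain ⟨x, y, z, hli⟩ := hd
      obtain ⟨h, h1, -, -⟩ := exists_dual3 hli 1 0 0
      exact ⟨h, by rintro rfl; simp at h1, by simp [ha], by simp [hb]⟩
    · obtain ⟨z, hz⟩ := hd.exists_li2 hb
      obtain ⟨h, h1, h2⟩ := exists_dual2 hz 0 1
      exact ⟨h, by rintro rfl; simp at h2, by simp [ha], h1⟩
  · by_cases hab : LinearIndependent ℂ ![a, b]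
    · obtain ⟨z, hz⟩ := hd.exists_li3 hab
      obtain ⟨h, h1, h2, h3⟩ := exists_dual3 hz 0 0 1
      exact ⟨h, by rintro rfl; simp at h3, h1, h2⟩
    · obtain ⟨s, hs⟩ := mem_span_of_not_li2 ha hab
      obtain ⟨z, hz⟩ := hd.exists_li2 ha
      obtain ⟨h, h1, h2⟩ := exists_dual2 hz 0 1
      exact ⟨h, by rintro rfl; simp at h2, h1, by rw [hs]; simp [h1]⟩

lemma li3_of_ann {a b z : X} (hab : LinearIndependent ℂ ![a, b]) {h : X →L[ℂ] ℂ} (ha : h a = 0)
    (hb : h b = 0) (hz : h z ≠ 0) : LinearIndependent ℂ ![a, b, z] := by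
  apply li3_of hab
  intro s t hst
  apply hz
  rw [hst]; simp [ha, hb]

lemma D3.avoid (hd : D3 X) {p1 q1 p2 q2 p3 q3 : X} (h1 : LinearIndependent ℂ ![p1, q1])
    (h2 : LinearIndependent ℂ ![p2, q2]) (h3 : LinearIndependent ℂ ![p3, q3]) :
    ∃ e, LinearIndependent ℂ ![p1, q1, e] ∧ LinearIndependent ℂ ![p2, q2, e] ∧
      LinearIndependent ℂ ![p3, q3, e] := by
  obtain ⟨k1, hk1, a1, b1⟩ := hd.ann2 p1 q1
  obtain ⟨k2, hk2, a2, b2⟩ := hd.ann2 p2 q2
  obtain ⟨k3, hk3, a3, b3⟩ := hd.ann2 p3 q3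
  obtain ⟨e, he⟩ := ((PL.lin (V := X) k1).mul (PL.lin k2)).exists_ne (PL.lin k3)
    ((PL.lin (V := X) k1).exists_ne (PL.lin k2) (exists_ne_of_fun_ne hk1)
      (exists_ne_of_fun_ne hk2)) (exists_ne_of_fun_ne hk3)
  exact ⟨e, li3_of_ann h1 a1 b1 (left_ne_zero_of_mul (left_ne_zero_of_mul he)),
    li3_of_ann h2 a2 b2 (right_ne_zero_of_mul (left_ne_zero_of_mul he)),
    li3_of_ann h3 a3 b3 (right_ne_zero_of_mul he)⟩

lemma li3_rot {a b c : X} (h : LinearIndependent ℂ ![a, b, c]) :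
    LinearIndependent ℂ ![c, a, b] := by
  rw [li3] at h ⊢
  intro s t u hs
  have := h t u s (by rw [← hs]; abel)
  exact ⟨this.2.2, this.1, this.2.1⟩

lemma li3_swap12 {a b c : X} (h : LinearIndependent ℂ ![a, b, c]) :
    LinearIndependent ℂ ![b, a, c] := by
  rw [li3] at h ⊢
  intro s t u hs
  have := h t s u (by rw [← hs]; abel)
  exact ⟨this.2.1, this.1, this.2.2⟩

lemma li2_of_li3 {a b c : X} (h : LinearIndependent ℂ ![a, b, c]) :
    LinearIndependent ℂ ![a, b] := by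
  rw [li2]
  rw [li3] at h
  intro s t hs
  have := h s t 0 (by rw [zero_smul, add_zero]; exact hs)
  exact ⟨this.1, this.2.1⟩

section signs
variable {ε : (X →L[ℂ] X) → ℂ} {ω : ℂ}

/-- The edge relation. -/
lemma edge (hσ : ∀ T S, spectrum ℂ (cm T S) = spectrum ℂ ((ε T * ε S * ω) • cm T S))
    {e0 e1 e2 : X} (hli : LinearIndependent ℂ ![e0, e1, e2]) :
    ∃ S : X →L[ℂ] X, ∀ T, Tri T e0 e1 e2 → (ε T * ε S * ω = 1 ∧
      (1 ∈ spectrum ℂ (cm T S) ∧ 2 ∈ spectrum ℂ (cm T S) ∧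
      ∀ z ∈ spectrum ℂ (cm T S), z = 0 ∨ z = 1 ∨ z = 2 ∨ z = -3)) := by
  obtain ⟨g1, h10, h11, h12⟩ := exists_dual3 hli 0 1 0
  obtain ⟨g2, h20, h21, h22⟩ := exists_dual3 hli 0 0 1
  refine ⟨-(rk e0 g1) - (3 : ℂ) • rk e1 g2, fun T hT => ?_⟩
  have hp := partner hli hT h10 h11 h12 h20 h21 h22 rfl
  exact ⟨scale_one hp.1 hp.2.1 hp.2.2 (hσ _ _), hp⟩

lemma omega_one (hd : D3 X) (hε : ∀ T, ε T = 1 ∨ ε T = -1)
    (hσ : ∀ T S, spectrum ℂ (cm T S) = spectrum ℂ ((ε T * ε S * ω) • cm T S)) : ω = 1 := by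
  obtain ⟨x, y, z, hli⟩ := hd
  obtain ⟨T, Tx, Ty, -⟩ := exists_op3 hli y z 0
  obtain ⟨S, hS⟩ := edge hσ hli
  obtain ⟨e1, h1, h2, h3⟩ := hS T ⟨Tx, Ty⟩
  have c1 : cm T (T + S) = cm T S := by ext; simp [cm]
  have c2 : cm (T + S) S = cm T S := by ext; simp [cm]
  have e2 : ε T * ε (T + S) * ω = 1 := by
    have := hσ T (T + S)
    rw [c1] at this
    exact scale_one h1 h2 h3 this
  have e3 : ε (T + S) * ε S * ω = 1 := by
    have := hσ (T + S) S
    rw [c2] at this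
    exact scale_one h1 h2 h3 this
  have s1 := sq_one_of (hε T)
  have s2 := sq_one_of (hε S)
  have s3 := sq_one_of (hε (T + S))
  have w2 : ω * ω = 1 := by
    calc ω * ω = (ε T * ε T) * (ε S * ε S) * (ω * ω) := by rw [s1, s2]; ring
      _ = (ε T * ε S * ω) * (ε T * ε S * ω) := by ring
      _ = 1 := by rw [e1]; ring
  have w3 : ω * ω * ω = 1 := by
    calc ω * ω * ω = (ε T * ε T) * (ε S * ε S) * (ε (T + S) * ε (T + S)) * (ω * ω * ω) := by
          rw [s1, s2, s3]; ring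
      _ = (ε T * ε S * ω) * (ε T * ε (T + S) * ω) * (ε (T + S) * ε S * ω) := by ring
      _ = 1 := by rw [e1, e2, e3]; ring
  rw [w2, one_mul] at w3
  exact w3

/-- Operators acting the same way on a triple have the same sign. -/
lemma same_tri (hσ : ∀ T S, spectrum ℂ (cm T S) = spectrum ℂ ((ε T * ε S * ω) • cm T S))
    {e0 e1 e2 : X} (hli : LinearIndependent ℂ ![e0, e1, e2]) {T T' : X →L[ℂ] X}
    (hT : Tri T e0 e1 e2) (hT' : Tri T' e0 e1 e2) : ε T = ε T' := by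
  obtain ⟨S, hS⟩ := edge hσ hli
  have h1 := (hS T hT).1
  have h2 := (hS T' hT').1
  have hne : ε S * ω ≠ 0 := by
    intro h0
    rw [mul_assoc, h0, mul_zero] at h1
    exact zero_ne_one h1
  apply mul_right_cancel₀ hne
  rw [← mul_assoc, ← mul_assoc, h1, h2]

lemma step_tri (hσ : ∀ T S, spectrum ℂ (cm T S) = spectrum ℂ ((ε T * ε S * ω) • cm T S))
    {a b c d : X} (h1 : LinearIndependent ℂ ![a, b, c]) (h2 : LinearIndependent ℂ ![b, c, d])
    {T T' : X →L[ℂ] X} (hT : Tri T a b c) (hT' : Tri T' b c d) : ε T = ε T' := by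
  obtain ⟨U, Ua, Ub, Uc⟩ := exists_op3 h1 b c d
  rw [same_tri hσ h1 hT ⟨Ua, Ub⟩, same_tri hσ h2 ⟨Ub, Uc⟩ hT']

lemma tri_const (hd : D3 X)
    (hσ : ∀ T S, spectrum ℂ (cm T S) = spectrum ℂ ((ε T * ε S * ω) • cm T S))
    {a b c a' b' c' : X} (h1 : LinearIndependent ℂ ![a, b, c])
    (h2 : LinearIndependent ℂ ![a', b', c'])
    {T T' : X →L[ℂ] X} (hT : Tri T a b c) (hT' : Tri T' a' b' c') : ε T = ε T' := by
  have hbc : LinearIndependent ℂ ![b, c] := by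
    have := li3_rot (li3_rot h1)
    exact li2_of_li3 this
  have hab' := li2_of_li3 h2
  obtain ⟨d, hd1, hd2, -⟩ := hd.avoid hbc hab' hab'
  -- pairs for `e`
  have hcd : LinearIndependent ℂ ![c, d] := li2_of_li3 (li3_rot (li3_rot hd1))
  have hda' : LinearIndependent ℂ ![d, a'] := li2_of_li3 (li3_rot hd2)
  obtain ⟨e, he1, he2, he3⟩ := hd.avoid hcd hda' hab'
  have k1 : LinearIndependent ℂ ![b, c, d] := hd1
  have k2 : LinearIndependent ℂ ![c, d, e] := he1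
  have k3 : LinearIndependent ℂ ![d, e, a'] := by
    -- from ![d, a', e]
    have := li3_rot he2
    -- ![e, d, a']
    exact li3_swap12 this
  have k4 : LinearIndependent ℂ ![e, a', b'] := li3_rot he3
  obtain ⟨T1, u1, u2, -⟩ := exists_op3 k1 c d 0
  obtain ⟨T2, v1, v2, -⟩ := exists_op3 k2 d e 0
  obtain ⟨T3, w1, w2, -⟩ := exists_op3 k3 e a' 0
  obtain ⟨T4, z1, z2, -⟩ := exists_op3 k4 a' b' 0
  rw [step_tri hσ h1 k1 hT ⟨u1, u2⟩, step_tri hσ k1 k2 ⟨u1, u2⟩ ⟨v1, v2⟩,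
    step_tri hσ k2 k3 ⟨v1, v2⟩ ⟨w1, w2⟩, step_tri hσ k3 k4 ⟨w1, w2⟩ ⟨z1, z2⟩,
    step_tri hσ k4 h2 ⟨z1, z2⟩ hT']

end signs

end Pool.Agent.Helper139.Pr
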