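import Pool.Agent.Helper139.Pr8

open Filter Topology

namespace Pool.Agent.Helper139.Pr

variable {X : Type*} [NormedAddCommGroup X] [NormedSpace ℂ X]

lemma PL_ev1 (x : X) (l : X →L[ℂ] ℂ) : PL (fun S : X →L[ℂ] X => l (S x)) := by
  intro a b
  exact ⟨Polynomial.C (l (a x)) + Polynomial.X * Polynomial.C (l (b x)), fun t => by
    simp
    ring⟩

lemma PL_ev2 (x : X) (l : X →L[ℂ] ℂ) : PL (fun S : X →L[ℂ] X => l (S (S x))) := by
  intro a b
  refine ⟨Polynomial.C (l (a (a x))) + Polynomial.X * Polynomial.C (l (a (b x)) + l (b (a x)))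
    + Polynomial.X ^ 2 * Polynomial.C (l (b (b x))), fun t => ?_⟩
  simp
  ring

/-- The determinant of `x, S x, S (S x)` against three functionals. -/
noncomputable def dt (x : X) (l0 l1 l2 : X →L[ℂ] ℂ) (S : X →L[ℂ] X) : ℂ :=
  l0 x * (l1 (S x) * l2 (S (S x)) - l2 (S x) * l1 (S (S x)))
  - l1 x * (l0 (S x) * l2 (S (S x)) - l2 (S x) * l0 (S (S x)))
  + l2 x * (l0 (S x) * l1 (S (S x)) - l1 (S x) * l0 (S (S x)))

lemma PL_dt (x : X) (l0 l1 l2 : X →L[ℂ] ℂ) : PL (fun S : X →L[ℂ] X => dt x l0 l1 l2 S) := by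
  have a : ∀ l l' : X →L[ℂ] ℂ, PL (fun S : X →L[ℂ] X => l (S x) * l' (S (S x))) :=
    fun l l' => (PL_ev1 x l).mul (PL_ev2 x l')
  exact (((PL.const (l0 x)).mul ((a l1 l2).sub (a l2 l1))).sub
    ((PL.const (l1 x)).mul ((a l0 l2).sub (a l2 l0)))).add
    ((PL.const (l2 x)).mul ((a l0 l1).sub (a l1 l0)))

lemma li_of_dt {x : X} {l0 l1 l2 : X →L[ℂ] ℂ} {S : X →L[ℂ] X} (h : dt x l0 l1 l2 S ≠ 0) :
    LinearIndependent ℂ ![x, S x, S (S x)] := by
  rw [li3]
  intro s t u hs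
  have e0 := congrArg l0 hs
  have e1 := congrArg l1 hs
  have e2 := congrArg l2 hs
  simp only [map_add, map_smul, smul_eq_mul, map_zero] at e0 e1 e2
  refine ⟨?_, ?_, ?_⟩
  · have : s * dt x l0 l1 l2 S = 0 := by
      unfold dt
      linear_combination (l1 (S x) * l2 (S (S x)) - l2 (S x) * l1 (S (S x))) * e0
        - (l0 (S x) * l2 (S (S x)) - l2 (S x) * l0 (S (S x))) * e1
        + (l0 (S x) * l1 (S (S x)) - l1 (S x) * l0 (S (S x))) * e2
    exact (mul_eq_zero.1 this).resolve_right h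
  · have : t * dt x l0 l1 l2 S = 0 := by
      unfold dt
      linear_combination -(l1 x * l2 (S (S x)) - l2 x * l1 (S (S x))) * e0
        + (l0 x * l2 (S (S x)) - l2 x * l0 (S (S x))) * e1
        - (l0 x * l1 (S (S x)) - l1 x * l0 (S (S x))) * e2
    exact (mul_eq_zero.1 this).resolve_right h
  · have : u * dt x l0 l1 l2 S = 0 := by
      unfold dt
      linear_combination (l1 x * l2 (S x) - l2 x * l1 (S x)) * e0
        - (l0 x * l2 (S x) - l2 x * l0 (S x)) * e1
        + (l0 x * l1 (S x) - l1 x * l0 (S x)) * e2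
    exact (mul_eq_zero.1 this).resolve_right h

lemma exists_dt {x : X} {S : X →L[ℂ] X} (h : LinearIndependent ℂ ![x, S x, S (S x)]) :
    ∃ l0 l1 l2 : X →L[ℂ] ℂ, dt x l0 l1 l2 S ≠ 0 := by
  obtain ⟨l0, a0, a1, a2⟩ := exists_dual3 h 1 0 0
  obtain ⟨l1, b0, b1, b2⟩ := exists_dual3 h 0 1 0
  obtain ⟨l2, c0, c1, c2⟩ := exists_dual3 h 0 0 1
  exact ⟨l0, l1, l2, by simp [dt, a0, a1, a2, b0, b1, b2, c0, c1, c2]⟩

lemma exists_small {P : Polynomial ℂ} (hP : P ≠ 0) {U : Set ℂ} (hU : IsOpen U) (h0 : (0 : ℂ) ∈ U) :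
    ∃ δ ∈ U, P.eval δ ≠ 0 := by
  have hfin : ({z | P.eval z = 0} : Set ℂ).Finite := by
    have : {z | P.eval z = 0} ⊆ (P.roots.toFinset : Set ℂ) := by
      intro z hz
      simp [hP]
      exact hz
    exact (Finset.finite_toSet _).subset this
  have hd := hfin.countable.dense_compl ℂ
  obtain ⟨z, hz1, hz2⟩ := hd.exists_mem_open hU ⟨0, h0⟩
  exact ⟨z, hz2, hz1⟩

/-! ### Finite rank perturbations -/

/-- Finite-dimensional range. -/
def FR (K : X →L[ℂ] X) : Prop := ∃ W : Submodule ℂ X, FiniteDimensional ℂ W ∧ ∀ y, K y ∈ W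

lemma FR_rk (x : X) (f : X →L[ℂ] ℂ) : FR (rk x f) :=
  ⟨Submodule.span ℂ {x}, inferInstance, fun _ => Submodule.smul_mem _ _
    (Submodule.mem_span_singleton_self x)⟩

lemma FR.add {K K' : X →L[ℂ] X} (h : FR K) (h' : FR K') : FR (K + K') := by
  obtain ⟨W, hW, h1⟩ := h
  obtain ⟨W', hW', h2⟩ := h'
  exact ⟨W ⊔ W', inferInstance, fun y => Submodule.add_mem_sup (h1 y) (h2 y)⟩

lemma FR.left {K : X →L[ℂ] X} (h : FR K) (G : X →L[ℂ] X) : FR (G * K) := by
  obtain ⟨W, hW, h1⟩ := h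
  exact ⟨W.map (G : X →ₗ[ℂ] X), inferInstance, fun y => ⟨K y, h1 y, rfl⟩⟩

lemma FR.right {K : X →L[ℂ] X} (h : FR K) (G : X →L[ℂ] X) : FR (K * G) := by
  obtain ⟨W, hW, h1⟩ := h
  exact ⟨W, hW, fun y => h1 (G y)⟩

lemma FR.smul {K : X →L[ℂ] X} (h : FR K) (c : ℂ) : FR (c • K) := by
  obtain ⟨W, hW, h1⟩ := h
  exact ⟨W, hW, fun y => W.smul_mem c (h1 y)⟩

lemma FR.sub {K K' : X →L[ℂ] X} (h : FR K) (h' : FR K') : FR (K - K') := by
  have := h.add (h'.smul (-1))
  convert this using 1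
  module

lemma FR.surj {K : X →L[ℂ] X} (h : FR K) (hinj : Function.Injective (1 - K : X →L[ℂ] X)) :
    Function.Surjective (1 - K : X →L[ℂ] X) := by
  obtain ⟨W, hW, h1⟩ := h
  have hmem : ∀ w ∈ W, (1 - K : X →L[ℂ] X) w ∈ W := by
    intro w hw
    simpa using W.sub_mem hw (h1 w)
  let Q : W →ₗ[ℂ] W := LinearMap.restrict ((1 - K : X →L[ℂ] X) : X →ₗ[ℂ] X) hmem
  have hQ : Function.Injective Q := by
    intro a b hab
    have := congrArg Subtype.val hab
    exact Subtype.ext (hinj this)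
  have hQs := LinearMap.injective_iff_surjective.1 hQ
  intro y
  obtain ⟨r, hr⟩ := hQs ⟨K y, h1 y⟩
  have hr' : (1 - K : X →L[ℂ] X) (r : X) = K y := congrArg Subtype.val hr
  refine ⟨y + r, ?_⟩
  rw [map_add, hr']
  simp

variable [CompleteSpace X]

lemma unit_of_FR {C G : X →L[ℂ] X} (hG : IsUnit G) (hK : FR (C - G)) (hinj : Function.Injective C) :
    IsUnit C := by
  obtain ⟨u, rfl⟩ := hG
  have hfac : C = (u : X →L[ℂ] X) * (1 - (-((↑u⁻¹ : X →L[ℂ] X) * (C - (u : X →L[ℂ] X))))) := by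
    rw [sub_neg_eq_add, mul_add, mul_one, ← mul_assoc, Units.mul_inv, one_mul]
    abel
  have hFR : FR (-((↑u⁻¹ : X →L[ℂ] X) * (C - (u : X →L[ℂ] X)))) := by
    have := (hK.left (↑u⁻¹ : X →L[ℂ] X)).smul (-1)
    simpa using this
  have hi : Function.Injective (1 - (-((↑u⁻¹ : X →L[ℂ] X) * (C - (u : X →L[ℂ] X)))) : X →L[ℂ] X) := by
    intro a b hab
    apply hinj
    rw [hfac]
    change (u : X →L[ℂ] X) ((1 - (-((↑u⁻¹ : X →L[ℂ] X) * (C - (u : X →L[ℂ] X)))) : X →L[ℂ] X) a) =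
      (u : X →L[ℂ] X) ((1 - (-((↑u⁻¹ : X →L[ℂ] X) * (C - (u : X →L[ℂ] X)))) : X →L[ℂ] X) b)
    rw [hab]
  have hs := hFR.surj hi
  rw [hfac]
  exact u.isUnit.mul (ContinuousLinearMap.isUnit_iff_bijective.2 ⟨hi, hs⟩)

/-- Small perturbations keep the asymmetry and create a triple. -/
lemma perturb {T S F : X →L[ℂ] X} {α : ℂ} {x : X}
    (hx : LinearIndependent ℂ ![x, (S + F) x, (S + F) ((S + F) x)])
    (h1 : ∀ δ : ℂ, α ∈ spectrum ℂ (cm T (S + δ • F))) (h2 : -α ∉ spectrum ℂ (cm T S)) :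
    ∃ S' : X →L[ℂ] X, LinearIndependent ℂ ![x, S' x, S' (S' x)] ∧
      α ∈ spectrum ℂ (cm T S') ∧ -α ∉ spectrum ℂ (cm T S') := by
  obtain ⟨l0, l1, l2, hdt⟩ := exists_dt hx
  obtain ⟨P, hP⟩ := PL_dt x l0 l1 l2 S F
  have hP0 : P ≠ 0 := by
    rintro rfl
    apply hdt
    have := hP 1
    simpa using this
  let U : Set ℂ := {δ | IsUnit (algebraMap ℂ (X →L[ℂ] X) (-α) - cm T (S + δ • F))}
  have hU : IsOpen U := by
    have hc : Continuous (fun δ : ℂ => algebraMap ℂ (X →L[ℂ] X) (-α) - cm T (S + δ • F)) := by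
      unfold cm
      fun_prop
    exact Units.isOpen.preimage hc
  have h0 : (0 : ℂ) ∈ U := by
    have : IsUnit (algebraMap ℂ (X →L[ℂ] X) (-α) - cm T S) := by
      by_contra hcon
      exact h2 hcon
    simpa [U] using this
  obtain ⟨δ, hδU, hδ⟩ := exists_small hP0 hU h0
  refine ⟨S + δ • F, li_of_dt (l0 := l0) (l1 := l1) (l2 := l2) ?_, h1 δ, fun hcon => hcon hδU⟩
  have := hP δ
  simp only [] at this
  rw [this]
  exact hδ

/-- Every operator with an asymmetric partner has one with a triple. -/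
lemma good_partner (hd : D3 X) {T S : X →L[ℂ] X} {α : ℂ} (h1 : α ∈ spectrum ℂ (cm T S))
    (h2 : -α ∉ spectrum ℂ (cm T S)) :
    ∃ (S' : X →L[ℂ] X) (x : X), LinearIndependent ℂ ![x, S' x, S' (S' x)] ∧
      α ∈ spectrum ℂ (cm T S') ∧ -α ∉ spectrum ℂ (cm T S') := by
  have hα : α ≠ 0 := by
    rintro rfl
    rw [neg_zero] at h2
    exact h2 h1
  by_cases hv : ∃ v, v ≠ 0 ∧ cm T S v = α • v
  · obtain ⟨v, hv0, hv⟩ := hv
    have hv' : T (S v) - S (T v) = α • v := hv
    obtain ⟨y, hy, hyv⟩ : ∃ y, LinearIndependent ℂ ![y, S y] ∧ (y = v ∨ y = T v) := by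
      by_cases hSv : LinearIndependent ℂ ![v, S v]
      · exact ⟨v, hSv, Or.inl rfl⟩
      · obtain ⟨c, hc⟩ := mem_span_of_not_li2 hv0 hSv
        have e1 : S (T v) = c • T v - α • v := by
          rw [← hv', hc, map_smul]; abel
        have hli : LinearIndependent ℂ ![v, T v] := by
          by_contra hcon
          obtain ⟨d, hd'⟩ := mem_span_of_not_li2 hv0 hcon
          rw [hd', map_smul, hc] at e1
          have : α • v = 0 := by
            calc α • v = c • d • v - (c • d • v - α • v) := by abel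
              _ = 0 := by rw [← e1]; module
          rcases smul_eq_zero.1 this with h | h
          · exact hα h
          · exact hv0 h
        refine ⟨T v, ?_, Or.inr rfl⟩
        rw [li2]
        intro s t hst
        rw [e1] at hst
        have := li2.1 hli (-(t * α)) (s + t * c) (by rw [← hst]; module)
        have ht : t = 0 := by
          have h3 := neg_eq_zero.1 this.1
          exact (mul_eq_zero.1 h3).resolve_right hα
        subst ht
        exact ⟨by simpa using this.2, rfl⟩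
    obtain ⟨h, hh, hhv, hhT⟩ := hd.ann2 v (T v)
    obtain ⟨k, hk, hky, hkS⟩ := hd.ann2 y (S y)
    obtain ⟨x, hx⟩ := (PL.lin (V := X) h).exists_ne (PL.lin k) (exists_ne_of_fun_ne hh)
      (exists_ne_of_fun_ne hk)
    have hhx := left_ne_zero_of_mul hx
    have hkx := right_ne_zero_of_mul hx
    have hhy : h y = 0 := by
      rcases hyv with rfl | rfl
      · exact hhv
      · exact hhT
    have hli3 : LinearIndependent ℂ ![x, y, S y] := li3_rot (li3_of_ann hy hky hkS hkx)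
    set F : X →L[ℂ] X := rk ((h x)⁻¹ • (y - S x)) h with hF
    have hFx : (S + F) x = y := by
      simp only [hF, add_apply, ContinuousLinearMap.smulRight_apply]
      rw [smul_smul, mul_inv_cancel₀ hhx, one_smul]; abel
    have hFy : (S + F) y = S y := by
      simp [hF, hhy]
    obtain ⟨S', hS', h3, h4⟩ := perturb (T := T) (S := S) (F := F) (α := α) (x := x)
      (by rw [hFx, hFy]; exact hli3) (by
        intro δ
        apply eig_mem hv0
        have e2 : cm T (S + δ • F) v = T (S v) - S (T v) := by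
          simp [cm, hF, hhv, hhT]
        rw [e2, hv']) h2
    exact ⟨S', x, hS', h3, h4⟩
  · push Not at hv
    obtain ⟨e0, e1, e2, hli⟩ := hd
    obtain ⟨g0, a0, a1, -⟩ := exists_dual3 hli 1 0 0
    obtain ⟨g1, b0, b1, -⟩ := exists_dual3 hli 0 1 0
    set F : X →L[ℂ] X := rk (e1 - S e0) g0 + rk (e2 - S e1) g1 with hF
    have hF0 : (S + F) e0 = e1 := by simp [hF, a0, b0]
    have hF1 : (S + F) e1 = e2 := by simp [hF, a1, b1]
    have hFR : FR F := (FR_rk _ _).add (FR_rk _ _)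
    obtain ⟨S', hS', h3, h4⟩ := perturb (T := T) (S := S) (F := F) (α := α) (x := e0)
      (by rw [hF0, hF1]; exact hli) (by
        intro δ hcon
        apply h1
        apply unit_of_FR hcon
        · have e : (algebraMap ℂ (X →L[ℂ] X) α - cm T S) -
              (algebraMap ℂ (X →L[ℂ] X) α - cm T (S + δ • F)) = δ • (T * F - F * T) := by
            ext y; simp [cm]; module
          rw [e]
          exact ((hFR.left T).sub (hFR.right T)).smul δ
        · rw [injective_iff_map_eq_zero]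
          intro v hv1
          by_contra hne
          apply hv v hne
          have : α • v - cm T S v = 0 := by
            simpa [Algebra.algebraMap_eq_smul_one] using hv1
          exact (sub_eq_zero.1 this).symm) h2
    exact ⟨S', e0, hS', h3, h4⟩

/-- The sign is constant off the symmetric operators. -/
theorem sign_const (hd : D3 X) {ε : (X →L[ℂ] X) → ℂ} {ω : ℂ} (hε : ∀ T, ε T = 1 ∨ ε T = -1)
    (hσ : ∀ T S, spectrum ℂ (cm T S) = spectrum ℂ ((ε T * ε S * ω) • cm T S)) :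
    ω = 1 ∧ ∃ e : ℂ, (e = 1 ∨ e = -1) ∧ ∀ T,
      (∃ S, ∃ α ∈ spectrum ℂ (cm T S), -α ∉ spectrum ℂ (cm T S)) → ε T = e := by
  have hω := omega_one hd hε hσ
  refine ⟨hω, ?_⟩
  have hd' := hd
  obtain ⟨x, y, z, hli⟩ := hd'
  obtain ⟨U, Ux, Uy, -⟩ := exists_op3 hli y z 0
  refine ⟨ε U, hε U, ?_⟩
  rintro T ⟨S, α, h1, h2⟩
  obtain ⟨S', x', hx', h3, h4⟩ := good_partner hd h1 h2
  have e1 : ε S' = ε U := tri_const hd hσ hx' hli ⟨rfl, rfl⟩ ⟨Ux, Uy⟩
  rw [← e1]
  by_contra hne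
  have hprod : ε T * ε S' * ω = -1 := by
    rw [hω, mul_one]
    rcases hε T with a | a <;> rcases hε S' with b | b
    · exact absurd (a.trans b.symm) hne
    · rw [a, b]; ring
    · rw [a, b]; ring
    · exact absurd (a.trans b.symm) hne
  have h5 := hσ T S'
  rw [hprod] at h5
  apply h4
  rw [h5]
  have := (spec_smul (C := cm T S') (c := -1) (z := α) (by norm_num)).2 h3
  simpa using this

end Pool.Agent.Helper139.Pr
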