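import Mathlib

open Filter Topology Complex Metric

namespace Pool.Agent.Helper139.SI

/-- All spectral values of `a` have modulus at most `c`. -/
def SR {A : Type*} [Ring A] [Algebra ℂ A] (a : A) (c : ℝ) : Prop :=
  ∀ z ∈ spectrum ℂ a, ‖z‖ ≤ c

theorem sr_iff {A : Type*} [Ring A] [Algebra ℂ A] (a : A) {c : ℝ} (hc : 0 ≤ c) :
    SR a c ↔ spectralRadius ℂ a ≤ ENNReal.ofReal c := by
  unfold SR spectralRadius
  rw [iSup₂_le_iff]
  refine forall₂_congr fun z _ => ?_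
  rw [ENNReal.ofReal, ENNReal.coe_le_coe, Real.le_toNNReal_iff_coe_le hc, coe_nnnorm]

theorem SR.mono {A : Type*} [Ring A] [Algebra ℂ A] {a : A} {c d : ℝ} (h : SR a c) (hcd : c ≤ d) :
    SR a d := fun z hz => (h z hz).trans hcd

section banach

variable {A : Type*} [NormedRing A] [NormedAlgebra ℂ A] [CompleteSpace A] [NormOneClass A]

theorem sr_norm (a : A) : SR a ‖a‖ := fun _ hz => spectrum.norm_le_norm_of_mem hz

theorem pow_le_of_mem {a : A} {z : ℂ} (hz : z ∈ spectrum ℂ a) (n : ℕ) : ‖z‖ ^ n ≤ ‖a ^ n‖ := by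
  have := spectrum.norm_le_norm_of_mem (spectrum.pow_mem_pow a n hz)
  rwa [norm_pow] at this

theorem isUnit_of_sr {a : A} {c : ℝ} (h : SR a c) {z : ℂ} (hz : c < ‖z‖) :
    IsUnit (algebraMap ℂ A z - a) := by
  by_contra hc
  exact absurd (h z hc) (not_le.mpr hz)

theorem exists_pow_lt {a : A} {c' c : ℝ} (h0 : 0 ≤ c') (h : SR a c') (hc : c' < c) :
    ∃ n : ℕ, 1 ≤ n ∧ ‖a ^ n‖ < c ^ n := by
  have hr : spectralRadius ℂ a < ENNReal.ofReal c :=
    lt_of_le_of_lt ((sr_iff a h0).mp h) ((ENNReal.ofReal_lt_ofReal_iff (h0.trans_lt hc)).mpr hc)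
  have ht := spectrum.pow_norm_pow_one_div_tendsto_nhds_spectralRadius a
  have he := (ht.eventually (gt_mem_nhds hr)).and (eventually_ge_atTop 1)
  obtain ⟨n, hn, hn1⟩ := he.exists
  refine ⟨n, hn1, ?_⟩
  have hcp : 0 < c := h0.trans_lt hc
  rw [ENNReal.ofReal_lt_ofReal_iff hcp] at hn
  have hn0 : (0 : ℝ) < n := by exact_mod_cast hn1
  have h2 := Real.rpow_lt_rpow (by positivity) hn hn0
  rw [← Real.rpow_mul (norm_nonneg _), one_div, inv_mul_cancel₀ hn0.ne', Real.rpow_one,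
    Real.rpow_natCast] at h2
  exact h2

/-- uniform powers on compact sets -/
theorem uniform_pow {K : Set A} (hK : IsCompact K) {c' c : ℝ} (h0 : 0 ≤ c') (hc : c' < c)
    (h : ∀ x ∈ K, SR x c') : ∃ n : ℕ, 1 ≤ n ∧ ∀ x ∈ K, ‖x ^ n‖ ≤ c ^ n := by
  have hcp : 0 < c := h0.trans_lt hc
  have key : ∀ (n m : ℕ) (x : A), 1 ≤ m → ‖x ^ n‖ ≤ c ^ n → ‖x ^ (n * m)‖ ≤ c ^ (n * m) := by
    intro n m x hm hx
    rw [pow_mul, pow_mul]
    refine (norm_pow_le' _ (by omega)).trans ?_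
    exact pow_le_pow_left₀ (norm_nonneg _) hx m
  refine hK.induction_on (p := fun S => ∃ n : ℕ, 1 ≤ n ∧ ∀ x ∈ S, ‖x ^ n‖ ≤ c ^ n) ?_ ?_ ?_ ?_
  · exact ⟨1, le_rfl, by simp⟩
  · rintro s t hst ⟨n, hn, hx⟩
    exact ⟨n, hn, fun x hxs => hx x (hst hxs)⟩
  · rintro s t ⟨n, hn, hx⟩ ⟨m, hm, hy⟩
    refine ⟨n * m, Nat.mul_pos hn hm, ?_⟩
    rintro x (hxs | hxt)
    · exact key n m x hm (hx x hxs)
    · rw [mul_comm]; exact key m n x hn (hy x hxt)
  · intro x hx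
    obtain ⟨n, hn, hlt⟩ := exists_pow_lt h0 (h x hx) hc
    have hopen : IsOpen {y : A | ‖y ^ n‖ < c ^ n} :=
      isOpen_lt (by fun_prop) continuous_const
    exact ⟨{y : A | ‖y ^ n‖ < c ^ n}, mem_nhdsWithin_of_mem_nhds (hopen.mem_nhds hlt), n, hn,
      fun y hy => le_of_lt hy⟩

/-- upper semicontinuity of the spectral radius -/
theorem usc {b : A} {c' c : ℝ} (h0 : 0 ≤ c') (h : SR b c') (hc : c' < c) :
    ∃ η > 0, ∀ w : A, ‖w - b‖ < η → SR w c := by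
  obtain ⟨n, hn, hlt⟩ := exists_pow_lt h0 h hc
  have hopen : IsOpen {y : A | ‖y ^ n‖ < c ^ n} :=
    isOpen_lt (by fun_prop) continuous_const
  obtain ⟨η, hη, hsub⟩ := Metric.isOpen_iff.mp hopen b hlt
  refine ⟨η, hη, fun w hw z hz => ?_⟩
  have h1 : ‖w ^ n‖ < c ^ n := hsub (by rwa [mem_ball, dist_eq_norm])
  have h2 := (pow_le_of_mem hz n).trans h1.le
  exact le_of_pow_le_pow_left₀ (by omega) (h0.trans hc.le) h2

/-- two circles inequality for a linear pencil -/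
theorem two_circles (a d : A) {R c1 c2 d1 d2 : ℝ} (hR : 1 < R) (hc1 : 0 ≤ c1) (hc2 : 0 ≤ c2)
    (hd1 : c1 < d1) (hd2 : c2 < d2)
    (h1 : ∀ z : ℂ, ‖z‖ = R → SR (a + z • d) c1)
    (h2 : ∀ z : ℂ, ‖z‖ = R⁻¹ → SR (a + z • d) c2) :
    ∀ z ∈ spectrum ℂ (a + d), ‖z‖ ^ 2 ≤ d1 * d2 := by
  have hR0 : 0 < R := by linarith
  have hd1p : 0 < d1 := hc1.trans_lt hd1
  have hd2p : 0 < d2 := hc2.trans_lt hd2
  have hcont : Continuous (fun z : ℂ => a + z • d) := by fun_prop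
  obtain ⟨n1, hn1, hb1⟩ := uniform_pow ((isCompact_sphere (0 : ℂ) R).image hcont) hc1 hd1 (by
    rintro x ⟨z, hz, rfl⟩
    exact h1 z (by simpa using hz))
  obtain ⟨n2, hn2, hb2⟩ := uniform_pow ((isCompact_sphere (0 : ℂ) R⁻¹).image hcont) hc2 hd2 (by
    rintro x ⟨z, hz, rfl⟩
    exact h2 z (by simpa using hz))
  have key : ∀ (c : ℝ) (n m : ℕ) (x : A), 0 < c → 1 ≤ m → ‖x ^ n‖ ≤ c ^ n →
      ‖x ^ (n * m)‖ ≤ c ^ (n * m) := by
    intro c n m x hc hm hx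
    rw [pow_mul, pow_mul]
    refine (norm_pow_le' _ (by omega)).trans ?_
    exact pow_le_pow_left₀ (norm_nonneg _) hx m
  set n := n1 * n2 with hn
  have hnp : 0 < n := Nat.mul_pos hn1 hn2
  have hB1 : ∀ z : ℂ, ‖z‖ = R → ‖(a + z • d) ^ n‖ ≤ d1 ^ n := fun z hz =>
    key d1 n1 n2 _ hd1p hn2 (hb1 _ ⟨z, by simpa using hz, rfl⟩)
  have hB2 : ∀ z : ℂ, ‖z‖ = R⁻¹ → ‖(a + z • d) ^ n‖ ≤ d2 ^ n := fun z hz => by
    rw [hn, mul_comm n1 n2]
    exact key d2 n2 n1 _ hd2p hn1 (hb2 _ ⟨z, by simpa using hz, rfl⟩)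
  set L : ℝ := Real.log R with hL
  have hexpn : ∀ z : ℂ, ‖Complex.exp ((2 * z - 1) * L)‖ = Real.exp ((2 * z.re - 1) * L) := by
    intro z
    rw [Complex.norm_exp]
    congr 1
    simp
  let F : ℂ → A := fun z => (a + Complex.exp ((2 * z - 1) * L) • d) ^ n
  have hFd : Differentiable ℂ F := by
    intro z
    apply DifferentiableAt.pow
    fun_prop
  have hFb : BddAbove ((norm ∘ F) '' Complex.HadamardThreeLines.verticalClosedStrip 0 1) := by
    refine ⟨(‖a‖ + R * ‖d‖) ^ n, ?_⟩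
    rintro _ ⟨z, hz, rfl⟩
    simp only [Function.comp, F]
    refine (norm_pow_le _ _).trans (pow_le_pow_left₀ (norm_nonneg _) ?_ n)
    refine (norm_add_le _ _).trans ?_
    rw [norm_smul, hexpn]
    have hz1 : 0 ≤ z.re ∧ z.re ≤ 1 := by simpa [Complex.HadamardThreeLines.verticalClosedStrip] using hz
    have hLp : 0 < L := Real.log_pos hR
    have : Real.exp ((2 * z.re - 1) * L) ≤ R := by
      calc Real.exp ((2 * z.re - 1) * L) ≤ Real.exp L := by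
            apply Real.exp_le_exp.mpr; nlinarith
        _ = R := Real.exp_log hR0
    gcongr
  have hmain := Complex.HadamardThreeLines.norm_le_interp_of_mem_verticalClosedStrip₀₁' F
    (z := (1 / 2 : ℂ)) (a := d2 ^ n) (b := d1 ^ n)
    (by
      simp only [Complex.HadamardThreeLines.verticalClosedStrip, Set.mem_preimage, Set.mem_Icc]
      norm_num)
    hFd.diffContOnCl hFb
    (by
      intro z hz
      have hz0 : z.re = 0 := by simpa using hz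
      apply hB2
      rw [hexpn, hz0]
      simp only [mul_zero, zero_sub, neg_mul, one_mul]
      rw [Real.exp_neg, Real.exp_log hR0])
    (by
      intro z hz
      have hz0 : z.re = 1 := by simpa using hz
      apply hB1
      rw [hexpn, hz0]
      norm_num
      exact Real.exp_log hR0)
  have hF12 : F (1 / 2) = (a + d) ^ n := by
    simp only [F]
    norm_num
  rw [hF12] at hmain
  have hre : (1 / 2 : ℂ).re = 1 / 2 := by norm_num
  rw [hre] at hmain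
  intro z hz
  have h3 := (pow_le_of_mem hz n).trans hmain
  have h4 : (‖z‖ ^ 2) ^ n ≤ (d1 * d2) ^ n := by
    have h5 : (‖z‖ ^ n) ^ 2 ≤ ((d2 ^ n) ^ (1 - 1 / 2 : ℝ) * (d1 ^ n) ^ (1 / 2 : ℝ)) ^ 2 :=
      pow_le_pow_left₀ (by positivity) h3 2
    have h6 : ((d2 ^ n) ^ (1 - 1 / 2 : ℝ) * (d1 ^ n) ^ (1 / 2 : ℝ)) ^ 2 = d2 ^ n * d1 ^ n := by
      rw [mul_pow, ← Real.rpow_natCast ((d2 ^ n) ^ (1 - 1 / 2 : ℝ)) 2,
        ← Real.rpow_natCast ((d1 ^ n) ^ (1 / 2 : ℝ)) 2, ← Real.rpow_mul (by positivity),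
        ← Real.rpow_mul (by positivity)]
      norm_num
    rw [h6] at h5
    calc (‖z‖ ^ 2) ^ n = (‖z‖ ^ n) ^ 2 := by rw [← pow_mul, ← pow_mul, mul_comm]
      _ ≤ d2 ^ n * d1 ^ n := h5
      _ = (d1 * d2) ^ n := by rw [mul_pow, mul_comm]
  exact le_of_pow_le_pow_left₀ hnp.ne' (by positivity) h4

end banach

end Pool.Agent.Helper139.SI
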