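import Pool.Agent.Helper139.SI9

open Filter Topology Complex Metric

namespace Pool.Agent.Helper139.SI

section final

variable {A B : Type*} [CStarAlgebra A] [CStarAlgebra B] [Nontrivial A] [Nontrivial B]

theorem sq_sa [PartialOrder A] [StarOrderedRing A] {T : A ≃L[ℂ] B} (hT : CSI T) {h : A}
    (hh : IsSelfAdjoint h) : T (h * h) = T h * T h := by
  obtain ⟨C, hC1, hhC, hgrid⟩ := exists_grid hh
  have hC0 : 0 ≤ C := by linarith
  set nT : ℝ := ‖(T : A →L[ℂ] B)‖ with hnT
  set nS : ℝ := ‖(T.symm : B →L[ℂ] A)‖ with hnS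
  have hT' : ∀ b : A, ‖T b‖ ≤ nT * ‖b‖ := fun b => (T : A →L[ℂ] B).le_opNorm b
  have hS' : ∀ b : B, ‖T.symm b‖ ≤ nS * ‖b‖ := fun b => (T.symm : B →L[ℂ] A).le_opNorm b
  have hnT0 : 0 ≤ nT := norm_nonneg _
  have hnS0 : 0 ≤ nS := norm_nonneg _
  have hreal : ∀ (r : ℝ) (b : A), T (r • b) = r • T b := fun r b => by
    rw [← Complex.coe_smul, map_smul, Complex.coe_smul]
  have hreal' : ∀ (r : ℝ) (b : B), T.symm (r • b) = r • T.symm b := fun r b => by
    rw [← Complex.coe_smul, map_smul, Complex.coe_smul]
  set Q : A := T.symm (T h * T h) - h * h with hQ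
  suffices hQ0 : Q = 0 by
    have h1 := sub_eq_zero.mp hQ0
    have h2 := congrArg T h1
    rw [ContinuousLinearEquiv.apply_symm_apply] at h2
    exact h2.symm
  set K : ℝ := nS * (nT * (nT * (2 * C))) + nS * ((nT * (2 * C + 1)) * nT) + 2 * C with hKdef
  have hK0 : 0 ≤ K := by positivity
  have hK : ∀ N : ℕ, 1 ≤ N → ‖Q‖ ≤ (4 * (Real.sqrt C * K)) / Real.sqrt N := by
    intro N hN
    obtain ⟨G⟩ := hgrid N hN
    have hN1 : (1 : ℝ) ≤ N := by exact_mod_cast hN
    have hN0 : (0 : ℝ) < N := by linarith
    have hsN : 0 < Real.sqrt N := Real.sqrt_pos.mpr hN0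
    have hsn : Real.sqrt G.n * (1 / N) ≤ Real.sqrt C / Real.sqrt N := by
      have h1 : Real.sqrt G.n ≤ Real.sqrt C * Real.sqrt N := by
        rw [← Real.sqrt_mul hC0]
        exact Real.sqrt_le_sqrt G.hn
      have h2 : Real.sqrt N * Real.sqrt N = N := Real.mul_self_sqrt hN0.le
      calc Real.sqrt G.n * (1 / N) ≤ (Real.sqrt C * Real.sqrt N) * (1 / N) := by gcongr
        _ = Real.sqrt C / Real.sqrt N := by
            nth_rewrite 2 [← h2]
            field_simp
    set d : ℕ → A := fun i => G.a i • (1 : A) - h with hd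
    have hdn : ∀ i, i < G.n → ‖d i‖ ≤ 2 * C := by
      intro i hi
      calc ‖d i‖ ≤ ‖G.a i • (1 : A)‖ + ‖h‖ := norm_sub_le _ _
        _ ≤ C + C := by
            refine add_le_add ?_ hhC
            rw [norm_smul, norm_one, mul_one]
            exact G.ha i hi
        _ = 2 * C := by ring
    have hQn : ∀ i, i < G.n → ‖G.Q i‖ ≤ 2 * C + 1 := by
      intro i hi
      have h1 : G.Q i = d i - G.S i := by
        rw [hd]; simp only [G.dec i]; abel
      rw [h1]
      refine (norm_sub_le _ _).trans (add_le_add (hdn i hi) ((G.Sn i).trans ?_))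
      rw [div_le_one hN0]; exact hN1
    -- `T⁻¹ (T d)² = d² + Q`
    have hsq : ∀ i, T.symm (T (d i) * T (d i)) = d i * d i + Q := by
      intro i
      have e1 : T (d i) = G.a i • (1 : B) - T h := by
        rw [hd]; simp only [map_sub, hreal, hT.one]
      have e2 : T (d i) * T (d i) = (G.a i) ^ 2 • (1 : B) - (2 * G.a i) • T h + T h * T h := by
        rw [e1]
        simp only [sub_mul, mul_sub, smul_mul_assoc, one_mul, mul_smul_comm, mul_one, smul_sub,
          smul_smul, sq, two_mul, add_smul]
        abel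
      have e3 : d i * d i = (G.a i) ^ 2 • (1 : A) - (2 * G.a i) • h + h * h := by
        simp only [hd, sub_mul, mul_sub, smul_mul_assoc, one_mul, mul_smul_comm, mul_one, smul_sub,
          smul_smul, sq, two_mul, add_smul]
        abel
      rw [e2, e3, hQ, map_add, map_sub, hreal', hreal', hT.symm.one,
        ContinuousLinearEquiv.symm_apply_apply]
      abel
    have hX : ∀ i, G.P i * Q = G.P i * T.symm (T (G.S i) * T (d i))
        + G.P i * T.symm (T (G.Q i) * T (G.S i)) - (G.P i * d i) * d i := by
      intro i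
      have hk0 : G.P i * T.symm (T (G.Q i) * T (G.Q i)) = 0 :=
        key hT (G.Qsa i) (G.Psa i) (G.PQ i)
      have e : d i = G.S i + G.Q i := G.dec i
      have e1 : T (d i) = T (G.S i) + T (G.Q i) := by rw [e, map_add]
      have e2 : T (d i) * T (d i) = T (G.S i) * T (d i) + T (G.Q i) * T (G.S i)
          + T (G.Q i) * T (G.Q i) := by
        nth_rewrite 1 [e1]
        rw [add_mul, add_assoc, ← mul_add, ← e1]
      have e3 : Q = T.symm (T (d i) * T (d i)) - d i * d i := by rw [hsq]; abel
      rw [e3, e2, map_add, map_add, mul_sub, mul_add, mul_add, hk0, add_zero, mul_assoc]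
    have hPn := G.Pn
    have hSn := G.Sn
    have hb : ∀ i, i < G.n → ‖G.P i * Q‖ ≤ 1 / N * K := by
      intro i hi
      have hd2 := hdn i hi
      have hQ2 := hQn i hi
      have t1 : ‖G.P i * T.symm (T (G.S i) * T (d i))‖
          ≤ 1 * (nS * ((nT * (1 / N)) * (nT * (2 * C)))) := by
        refine (norm_mul_le _ _).trans ?_
        gcongr
        · exact hPn i
        · refine (hS' _).trans ?_
          gcongr
          refine (norm_mul_le _ _).trans ?_
          gcongr
          · exact (hT' _).trans (by gcongr; exact hSn i)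
          · exact (hT' _).trans (by gcongr)
      have t2 : ‖G.P i * T.symm (T (G.Q i) * T (G.S i))‖
          ≤ 1 * (nS * ((nT * (2 * C + 1)) * (nT * (1 / N)))) := by
        refine (norm_mul_le _ _).trans ?_
        gcongr
        · exact hPn i
        · refine (hS' _).trans ?_
          gcongr
          refine (norm_mul_le _ _).trans ?_
          gcongr
          · exact (hT' _).trans (by gcongr)
          · exact (hT' _).trans (by gcongr; exact hSn i)
      have t3 : ‖(G.P i * d i) * d i‖ ≤ 1 / N * (2 * C) := by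
        refine (norm_mul_le _ _).trans ?_
        gcongr
        exact G.Pd i
      rw [hX]
      calc _ ≤ 1 * (nS * ((nT * (1 / N)) * (nT * (2 * C))))
            + 1 * (nS * ((nT * (2 * C + 1)) * (nT * (1 / N)))) + 1 / N * (2 * C) :=
            (norm_sub_le _ _).trans (add_le_add ((norm_add_le _ _).trans (add_le_add t1 t2)) t3)
        _ = 1 / N * K := by rw [hKdef]; ring
    have hsum : ∑ i ∈ Finset.range G.n, G.P i * Q = Q := by
      rw [← Finset.sum_mul, G.sum, one_mul]
    have horth : ‖∑ i ∈ Finset.range G.n, G.P i * Q‖ ≤ 4 * (Real.sqrt G.n * (1 / N * K)) := by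
      apply orth_sum G.n _ (by positivity)
      · intro i j hij hm
        have hPP : G.P i * G.P j = 0 := G.PP i j hij hm
        rw [star_mul, (G.Psa i).star_eq]
        calc star Q * G.P i * (G.P j * Q) = star Q * (G.P i * G.P j) * Q := by
              simp only [mul_assoc]
          _ = 0 := by rw [hPP]; simp
      · exact hb
    rw [hsum] at horth
    calc ‖Q‖ ≤ 4 * (Real.sqrt G.n * (1 / N * K)) := horth
      _ = 4 * ((Real.sqrt G.n * (1 / N)) * K) := by ring
      _ ≤ 4 * ((Real.sqrt C / Real.sqrt N) * K) := by gcongr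
      _ = _ := by ring
  exact eq_zero_of_bound hK

theorem sq_all {T : A ≃L[ℂ] B} (hT : CSI T) (y : A) : T (y * y) = T y * T y := by
  let _ := CStarAlgebra.spectralOrder A
  let _ := CStarAlgebra.spectralOrderedRing A
  have hsa : ∀ h : A, IsSelfAdjoint h → T (h * h) = T h * T h := fun h hh => sq_sa hT hh
  have hpol : ∀ h k : A, IsSelfAdjoint h → IsSelfAdjoint k →
      T (h * k + k * h) = T h * T k + T k * T h := by
    intro h k hh hk
    have e := hsa (h + k) (hh.add hk)
    have e1 := hsa h hh
    have e2 := hsa k hk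
    have e3 : (h + k) * (h + k) = h * h + k * k + (h * k + k * h) := by noncomm_ring
    rw [e3, map_add, map_add T (h * h) (k * k), e1, e2, map_add T h k] at e
    have e4 : T (h * k + k * h) = (T h + T k) * (T h + T k) - (T h * T h + T k * T k) := by
      rw [← e]; abel
    rw [e4]; noncomm_ring
  obtain ⟨h, k, hh, hk, rfl⟩ : ∃ h k : A, IsSelfAdjoint h ∧ IsSelfAdjoint k ∧ y = h + Complex.I • k :=
    ⟨realPart y, imaginaryPart y, (realPart y).2, (imaginaryPart y).2,
      (realPart_add_I_smul_imaginaryPart y).symm⟩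
  have e1 := hsa h hh
  have e2 := hsa k hk
  have e3 := hpol h k hh hk
  have e4 : (h + Complex.I • k) * (h + Complex.I • k)
      = h * h - k * k + Complex.I • (h * k + k * h) := by
    rw [add_mul, mul_add, mul_add, smul_mul_smul_comm, Complex.I_mul_I, smul_mul_assoc,
      mul_smul_comm, neg_smul, one_smul, smul_add]
    abel
  have e5 : T (h * h - k * k + Complex.I • (h * k + k * h))
      = T (h * h) - T (k * k) + Complex.I • T (h * k + k * h) := by
    rw [map_add T (h * h - k * k) (Complex.I • (h * k + k * h)), map_sub,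
      map_smul T Complex.I (h * k + k * h)]
  have e6 : T (h + Complex.I • k) = T h + Complex.I • T k := by
    rw [map_add T h (Complex.I • k), map_smul T Complex.I k]
  rw [e4, e5, e6, e1, e2, e3]
  simp only [add_mul, mul_add, smul_mul_assoc, mul_smul_comm, smul_smul, Complex.I_mul_I,
    neg_smul, one_smul, smul_add]
  abel

end final

theorem spectral_isometry {A B : Type*} [CStarAlgebra A] [CStarAlgebra B] (T : A →ₗ[ℂ] B)
    (hsurj : Function.Surjective T) (hone : T 1 = 1)
    (hsr : ∀ a : A, spectralRadius ℂ (T a) = spectralRadius ℂ a) :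
    Function.Injective T ∧ ∀ a : A, T (a * a) = T a * T a := by
  have hSI : SpecIso T := ⟨hsurj, hone, fun a c hc => by rw [sr_iff _ hc, sr_iff _ hc, hsr]⟩
  have hinj : Function.Injective T := hSI.injective
  refine ⟨hinj, ?_⟩
  rcases subsingleton_or_nontrivial B with hB | hB
  · intro a; exact Subsingleton.elim _ _
  have hA : Nontrivial A := by
    refine ⟨⟨1, 0, fun h => ?_⟩⟩
    have := congrArg T h
    rw [hone, map_zero] at this
    exact one_ne_zero this
  have hcont : Continuous T := hSI.continuous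
  let e : A ≃ₗ[ℂ] B := LinearEquiv.ofBijective T ⟨hinj, hsurj⟩
  let T' : A ≃L[ℂ] B := e.toContinuousLinearEquivOfContinuous hcont
  have hT' : ∀ a, T' a = T a := fun a => rfl
  have hCSI : CSI T' := ⟨by rw [hT', hone], fun a c hc => by rw [hT']; exact hSI.sr a c hc⟩
  intro a
  have := sq_all hCSI a
  simpa only [hT'] using this

end Pool.Agent.Helper139.SI
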