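import Pool.Agent.Helper139.SI1

open Filter Topology Complex Metric

namespace Pool.Agent.Helper139.SI

/-- unital surjective linear map preserving the spectral radius -/
structure SpecIso {A B : Type*} [CStarAlgebra A] [CStarAlgebra B] (T : A →ₗ[ℂ] B) : Prop where
  surj : Function.Surjective T
  one : T 1 = 1
  sr : ∀ (a : A) (c : ℝ), 0 ≤ c → (SR (T a) c ↔ SR a c)

section basic

variable {A : Type*} [CStarAlgebra A]

theorem norm_le_of_sr_normal {a : A} (ha : IsStarNormal a) {c : ℝ} (hc : 0 ≤ c) (h : SR a c) :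
    ‖a‖ ≤ c := by
  have h1 := (sr_iff a hc).mp h
  rw [IsStarNormal.spectralRadius_eq_nnnorm, ENNReal.ofReal, ENNReal.coe_le_coe,
    Real.le_toNNReal_iff_coe_le hc, coe_nnnorm] at h1
  exact h1

theorem norm_le_of_sr_sa {a : A} (ha : IsSelfAdjoint a) {c : ℝ} (hc : 0 ≤ c) (h : SR a c) :
    ‖a‖ ≤ c := norm_le_of_sr_normal ha.isStarNormal hc h

theorem sr_star {a : A} {c : ℝ} (h : SR a c) : SR (star a) c := by
  intro z hz
  rw [spectrum.map_star] at hz
  have := h (star z) hz
  simpa using this

theorem sr_neg {a : A} {c : ℝ} (h : SR a c) : SR (-a) c := by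
  intro z hz
  have h1 : -z ∈ spectrum ℂ a := by
    have := spectrum.neg_eq a (R := ℂ)
    have h2 : z ∈ -spectrum ℂ a := by rw [this]; exact hz
    simpa using h2
  simpa using h _ h1

/-- if both `a + star a` and `a - star a` have spectral radius zero then `a = 0` -/
theorem eq_zero_of_parts {a : A} (h1 : SR (a + star a) 0) (h2 : SR (a - star a) 0) : a = 0 := by
  have e1 : a + star a = 0 := by
    have hs : IsSelfAdjoint (a + star a) := IsSelfAdjoint.add_star_self a
    have := norm_le_of_sr_sa hs le_rfl h1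
    exact norm_le_zero_iff.mp this
  have e2 : a - star a = 0 := by
    have hn : IsStarNormal (a - star a) := by
      constructor
      have : star (a - star a) = -(a - star a) := by rw [star_sub, star_star]; abel
      rw [this]
      exact (Commute.refl _).neg_left
    have := norm_le_of_sr_normal hn le_rfl h2
    exact norm_le_zero_iff.mp this
  have h3 : (2 : ℂ) • a = 0 := by
    have : (2 : ℂ) • a = (a + star a) + (a - star a) := by rw [two_smul]; abel
    rw [this, e1, e2, add_zero]
  simpa using h3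

end basic

variable {A B : Type*} [CStarAlgebra A] [CStarAlgebra B] {T : A →ₗ[ℂ] B}

theorem SpecIso.injective (hT : SpecIso T) : Function.Injective T := by
  rw [injective_iff_map_eq_zero]
  intro x hx
  have h0 : SR x 0 := by
    rw [← hT.sr x 0 le_rfl, hx]
    intro z hz
    by_contra hc
    have hz0 : z ≠ 0 := by
      rintro rfl
      simp at hc
    apply hz
    rw [spectrum.mem_resolventSet_iff, sub_zero]
    exact (IsUnit.mk0 z hz0).map (algebraMap ℂ B)
  have h1 : SR (star x) 0 := sr_star h0
  refine eq_zero_of_parts ?_ ?_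
  · rw [← hT.sr _ 0 le_rfl, map_add, hx, zero_add, hT.sr _ 0 le_rfl]
    exact h1
  · rw [← hT.sr _ 0 le_rfl, map_sub, hx, zero_sub, ← map_neg, hT.sr _ 0 le_rfl]
    exact sr_neg h1

theorem sr_zero : SR (0 : B) 0 := by
  intro z hz
  by_contra hc
  have hz0 : z ≠ 0 := by
    rintro rfl
    simp at hc
  apply hz
  rw [spectrum.mem_resolventSet_iff, sub_zero]
  exact (IsUnit.mk0 z hz0).map (algebraMap ℂ B)

theorem SpecIso.continuous [Nontrivial A] [Nontrivial B] (hT : SpecIso T) : Continuous T := by
  apply LinearMap.continuous_of_seq_closed_graph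
  intro u x y hu hy
  -- reduce to null sequences
  set v : ℕ → A := fun n => u n - x with hv
  set w : B := y - T x with hw
  have hv0 : Tendsto v atTop (𝓝 0) := by
    have := hu.sub_const x
    simpa using this
  have hw0 : Tendsto (fun n => T (v n)) atTop (𝓝 w) := by
    have := hy.sub_const (T x)
    simpa [hv, hw, Function.comp_def] using this
  have main : ∀ b : B, SR b 0 → SR (b + w) 0 := by
    intro b hb
    obtain ⟨z0, hz0⟩ := hT.surj (b + w)
    have est : ∀ δ : ℝ, 0 < δ → ∀ z ∈ spectrum ℂ (b + w), ‖z‖ ^ 2 ≤ (‖z0‖ + 2) * (2 * δ) := by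
      intro δ hδ
      obtain ⟨η, hη, hus⟩ := usc le_rfl hb hδ
      obtain ⟨R, hR1, hR2⟩ : ∃ R : ℝ, 1 < R ∧ R⁻¹ * (‖w‖ + 1) < η / 2 := by
        refine ⟨2 * (‖w‖ + 1) / η + 2, ?_, ?_⟩
        · have : 0 < 2 * (‖w‖ + 1) / η := by positivity
          linarith
        · rw [inv_mul_lt_iff₀ (by positivity)]
          have h1 : 2 * (‖w‖ + 1) / η * (η / 2) = ‖w‖ + 1 := by field_simp
          nlinarith [norm_nonneg w]
      have hR0 : 0 < R := by linarith
      have ev1 : ∀ᶠ n in atTop, (1 + R) * ‖v n‖ < 1 := by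
        have h1 : Tendsto (fun n => (1 + R) * ‖v n‖) atTop (𝓝 ((1 + R) * ‖(0 : A)‖)) :=
          (hv0.norm).const_mul _
        rw [norm_zero, mul_zero] at h1
        exact h1.eventually (gt_mem_nhds one_pos)
      have ev2 : ∀ᶠ n in atTop, ‖T (v n) - w‖ < min 1 (η / 2) := by
        have h1 : Tendsto (fun n => ‖T (v n) - w‖) atTop (𝓝 0) := by
          have := (hw0.sub_const w).norm
          simpa using this
        exact h1.eventually (gt_mem_nhds (by positivity))
      obtain ⟨n, hn1, hn2⟩ := (ev1.and ev2).exists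
      have hlt1 := lt_of_lt_of_le hn2 (min_le_left _ _)
      have hlt2 := lt_of_lt_of_le hn2 (min_le_right _ _)
      have hTn : ‖T (v n)‖ ≤ ‖w‖ + 1 := by
        have := norm_le_norm_add_norm_sub' (T (v n)) w
        have h3 : ‖w - T (v n)‖ = ‖T (v n) - w‖ := norm_sub_rev _ _
        linarith [norm_sub_norm_le (T (v n)) w]
      have hsum : (b + w - T (v n)) + T (v n) = b + w := by abel
      have htc := two_circles (b + w - T (v n)) (T (v n)) (R := R) (c1 := ‖z0‖ + 1) (c2 := δ)
        (d1 := ‖z0‖ + 2) (d2 := 2 * δ) hR1 (by positivity) hδ.le (by linarith) (by linarith)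
        (by
          intro z hz
          have h1 : b + w - T (v n) + z • T (v n) = T (z0 - v n + z • v n) := by
            rw [map_add T (z0 - v n) (z • v n), map_sub T z0 (v n), map_smul T z (v n), hz0]
          rw [h1, hT.sr _ _ (by positivity)]
          refine (sr_norm _).mono ?_
          calc ‖z0 - v n + z • v n‖ ≤ ‖z0 - v n‖ + ‖z • v n‖ := norm_add_le _ _
            _ ≤ (‖z0‖ + ‖v n‖) + R * ‖v n‖ := by
                rw [norm_smul, hz]
                gcongr
                exact norm_sub_le _ _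
            _ = ‖z0‖ + (1 + R) * ‖v n‖ := by ring
            _ ≤ ‖z0‖ + 1 := by linarith)
        (by
          intro z hz
          apply hus
          have h1 : b + w - T (v n) + z • T (v n) - b = -(T (v n) - w) + z • T (v n) := by abel
          rw [h1]
          calc ‖-(T (v n) - w) + z • T (v n)‖ ≤ ‖-(T (v n) - w)‖ + ‖z • T (v n)‖ := norm_add_le _ _
            _ = ‖T (v n) - w‖ + R⁻¹ * ‖T (v n)‖ := by rw [norm_neg, norm_smul, hz]
            _ ≤ ‖T (v n) - w‖ + R⁻¹ * (‖w‖ + 1) := by gcongr
            _ < η := by linarith)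
      rw [hsum] at htc
      exact htc
    intro z hz
    by_contra hc
    push Not at hc
    have h1 := est (‖z‖ ^ 2 / (4 * (‖z0‖ + 2))) (by positivity) z hz
    have h2 : (‖z0‖ + 2) * (2 * (‖z‖ ^ 2 / (4 * (‖z0‖ + 2)))) = ‖z‖ ^ 2 / 2 := by
      field_simp
      ring
    rw [h2] at h1
    have : 0 < ‖z‖ ^ 2 := by positivity
    linarith
  have hw1 : SR w 0 := by
    have := main 0 sr_zero
    rwa [zero_add] at this
  have hw2 : w = 0 := by
    refine eq_zero_of_parts ?_ ?_
    · rw [add_comm]
      exact main _ (sr_star hw1)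
    · have := main _ (sr_neg (sr_star hw1))
      rwa [neg_add_eq_sub] at this
  rw [hw, sub_eq_zero] at hw2
  exact hw2

end Pool.Agent.Helper139.SI
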