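import Pool.Agent.Helper139.SI2

open Filter Topology Complex Metric

namespace Pool.Agent.Helper139.SI

section peak

variable {B : Type*} [CStarAlgebra B] [Nontrivial B]

/-- resolvent bound from a spectral radius bound for perturbations -/
theorem res_bound {F : B} {K s : ℝ} (hK : 0 ≤ K) (hs : 0 < s)
    (h : ∀ (w : B) (c : ℝ), ‖w‖ ≤ c → SR (F + w) (1 + K * c)) :
    ∃ R : B, R * (algebraMap ℂ B ((1 + s : ℝ) : ℂ) - F) = 1 ∧ ‖R‖ ≤ K / s := by
  have hn1 : ‖((1 + s : ℝ) : ℂ)‖ = 1 + s := by
    rw [Complex.norm_real, Real.norm_of_nonneg (by positivity)]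
  have h0 : SR F 1 := by
    have := h 0 0 (by simp)
    simpa using this
  have hU : IsUnit (algebraMap ℂ B ((1 + s : ℝ) : ℂ) - F) :=
    isUnit_of_sr h0 (by rw [hn1]; linarith)
  obtain ⟨V, hV⟩ := hU
  refine ⟨((V⁻¹ : Bˣ) : B), by rw [← hV]; exact V.inv_mul, ?_⟩
  set R : B := ((V⁻¹ : Bˣ) : B) with hR
  have hRne : R ≠ 0 := (Units.ne_zero V⁻¹)
  have hRpos : 0 < ‖R‖ := norm_pos_iff.mpr hRne
  have hsr : SR (R * star R) (K * ‖R‖ / s) := by
    intro μ hμ
    by_contra hc
    push Not at hc
    have hμpos : 0 < ‖μ‖ := lt_of_le_of_lt (by positivity) hc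
    have hμ0 : μ ≠ 0 := norm_pos_iff.mp hμpos
    have h1 := h (-(μ⁻¹ • star R)) (‖R‖ / ‖μ‖) (by
      rw [norm_neg, norm_smul, norm_inv, norm_star]
      apply le_of_eq; field_simp)
    have h2 : 1 + K * (‖R‖ / ‖μ‖) < ‖((1 + s : ℝ) : ℂ)‖ := by
      rw [hn1]
      have h3 : K * (‖R‖ / ‖μ‖) < s := by
        rw [← mul_div_assoc, div_lt_iff₀ hμpos]
        rw [div_lt_iff₀ hs] at hc
        linarith
      linarith
    have h1' : SR (F + μ⁻¹ • star R) (1 + K * (‖R‖ / ‖μ‖)) := by
      have := h (μ⁻¹ • star R) (‖R‖ / ‖μ‖) (by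
        rw [norm_smul, norm_inv, norm_star]
        apply le_of_eq; field_simp)
      exact this
    have hU' := isUnit_of_sr h1' h2
    apply hμ
    rw [spectrum.mem_resolventSet_iff]
    have he : algebraMap ℂ B μ - R * star R
        = (μ • R) * (algebraMap ℂ B ((1 + s : ℝ) : ℂ) - (F + μ⁻¹ • star R)) := by
      have e1 : R * (algebraMap ℂ B ((1 + s : ℝ) : ℂ) - F) = 1 := by rw [← hV]; exact V.inv_mul
      rw [← sub_sub, mul_sub, smul_mul_assoc, e1, Algebra.algebraMap_eq_smul_one,
        smul_mul_smul_comm, mul_inv_cancel₀ hμ0, one_smul]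
    rw [he]
    refine IsUnit.mul ?_ hU'
    have : μ • R = algebraMap ℂ B μ * R := by rw [Algebra.algebraMap_eq_smul_one, smul_one_mul]
    rw [this]
    exact ((IsUnit.mk0 μ hμ0).map (algebraMap ℂ B)).mul (Units.isUnit _)
  have h4 := norm_le_of_sr_sa (IsSelfAdjoint.mul_star_self R) (by positivity) hsr
  rw [CStarRing.norm_self_mul_star] at h4
  rw [le_div_iff₀ hs]
  rw [le_div_iff₀ hs] at h4
  nlinarith

variable [PartialOrder B] [StarOrderedRing B]

theorem lower_bound {V R g : B} {ρ : ℝ} (hRV : R * V = 1) (hR : ‖R‖ ≤ ρ) :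
    star g * g ≤ ρ ^ 2 • (star (V * g) * (V * g)) := by
  have h1 : star R * R ≤ algebraMap ℝ B (‖R‖ ^ 2) := CStarAlgebra.star_mul_le_algebraMap_norm_sq
  have h2 := star_left_conjugate_le_conjugate h1 (V * g)
  have e1 : star (V * g) * (star R * R) * (V * g) = star g * g := by
    have : R * (V * g) = g := by rw [← mul_assoc, hRV, one_mul]
    calc star (V * g) * (star R * R) * (V * g) = star (R * (V * g)) * (R * (V * g)) := by
          rw [star_mul R (V * g)]; simp only [mul_assoc]
      _ = star g * g := by rw [this]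
  have e2 : star (V * g) * algebraMap ℝ B (‖R‖ ^ 2) * (V * g)
      = ‖R‖ ^ 2 • (star (V * g) * (V * g)) := by
    rw [Algebra.algebraMap_eq_smul_one, mul_smul_comm, mul_one, smul_mul_assoc]
  rw [e1, e2] at h2
  refine h2.trans ?_
  apply smul_le_smul_of_nonneg_right _ (star_mul_self_nonneg _)
  gcongr

/-- The peak lemma. -/
theorem peak {x g y : B} {C δ₀ : ℝ} (hC : 0 ≤ C) (hδ₀ : 0 < δ₀) (hxg : x * g = g)
    (hF : ∀ δ : ℝ, 0 < δ → δ < δ₀ → ∃ F : B, ‖F - x - δ • y‖ ≤ C * δ ^ 2 ∧
      ∀ (w : B) (c : ℝ), ‖w‖ ≤ c → SR (F + w) (1 + (1 + C * δ) * c)) :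
    star g * (y + star y) * g ≤ 0 := by
  -- step 1
  have step1 : ∀ t : ℝ, 0 < t → star g * g ≤ (1 / t) ^ 2 • (star (t • g - y * g) * (t • g - y * g)) := by
    intro t ht
    let dl : ℕ → ℝ := fun n => δ₀ / (n + 2)
    have hdl0 : ∀ n, 0 < dl n := fun n => by positivity
    have hdl1 : ∀ n, dl n < δ₀ := fun n => by
      simp only [dl]
      rw [div_lt_iff₀ (by positivity)]
      nlinarith [(Nat.cast_nonneg n : (0 : ℝ) ≤ n)]
    have hdlt : Tendsto dl atTop (𝓝 0) := by
      have h1 : Tendsto (fun n : ℕ => (n : ℝ) + 2) atTop atTop :=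
        tendsto_atTop_add_const_right _ _ tendsto_natCast_atTop_atTop
      exact h1.const_div_atTop δ₀
    choose F hF1 hF2 using fun n => hF (dl n) (hdl0 n) (hdl1 n)
    have key : ∀ n, star g * g ≤ (((1 + C * dl n)) / t) ^ 2 •
        (star (t • g - y * g - (dl n)⁻¹ • ((F n - x - dl n • y) * g)) *
          (t • g - y * g - (dl n)⁻¹ • ((F n - x - dl n • y) * g))) := by
      intro n
      have hd := hdl0 n
      obtain ⟨R, hR1, hR2⟩ := res_bound (F := F n) (K := 1 + C * dl n) (s := t * dl n)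
        (by positivity) (by positivity) (hF2 n)
      have h1 := lower_bound (g := g) hR1 hR2
      have hVg : (algebraMap ℂ B ((1 + t * dl n : ℝ) : ℂ) - F n) * g
          = dl n • (t • g - y * g - (dl n)⁻¹ • ((F n - x - dl n • y) * g)) := by
        rw [smul_sub, smul_sub, smul_smul, smul_smul, mul_inv_cancel₀ hd.ne', one_smul,
          sub_mul, sub_mul, sub_mul, hxg, smul_mul_assoc]
        have : algebraMap ℂ B ((1 + t * dl n : ℝ) : ℂ) * g = g + (dl n * t) • g := by
          rw [Algebra.algebraMap_eq_smul_one, smul_one_mul, mul_comm t]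
          have : (((1 + dl n * t : ℝ)) : ℂ) • g = (1 + dl n * t : ℝ) • g := by
            exact Complex.coe_smul _ _
          rw [this, add_smul, one_smul]
        rw [this]
        abel
      rw [hVg, star_smul, smul_mul_smul_comm, smul_smul] at h1
      have e3 : ((1 + C * dl n) / (t * dl n)) ^ 2 * (star (dl n) * dl n) = ((1 + C * dl n) / t) ^ 2 := by
        simp only [star_trivial]
        field_simp
      rw [e3] at h1
      exact h1
    have hlim : Tendsto (fun n => (((1 + C * dl n)) / t) ^ 2 •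
        (star (t • g - y * g - (dl n)⁻¹ • ((F n - x - dl n • y) * g)) *
          (t • g - y * g - (dl n)⁻¹ • ((F n - x - dl n • y) * g)))) atTop
        (𝓝 ((1 / t) ^ 2 • (star (t • g - y * g) * (t • g - y * g)))) := by
      have hz : Tendsto (fun n => (dl n)⁻¹ • ((F n - x - dl n • y) * g)) atTop (𝓝 0) := by
        rw [tendsto_zero_iff_norm_tendsto_zero]
        have hb : ∀ n, ‖(dl n)⁻¹ • ((F n - x - dl n • y) * g)‖ ≤ C * ‖g‖ * dl n := by
          intro n
          have hd := hdl0 n
          rw [norm_smul, norm_inv, Real.norm_of_nonneg hd.le, inv_mul_le_iff₀ hd]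
          calc ‖(F n - x - dl n • y) * g‖ ≤ ‖F n - x - dl n • y‖ * ‖g‖ := norm_mul_le _ _
            _ ≤ C * dl n ^ 2 * ‖g‖ := by gcongr; exact hF1 n
            _ = dl n * (C * ‖g‖ * dl n) := by ring
        refine squeeze_zero (fun n => norm_nonneg _) hb ?_
        have := hdlt.const_mul (C * ‖g‖)
        simpa using this
      have hu : Tendsto (fun n => t • g - y * g - (dl n)⁻¹ • ((F n - x - dl n • y) * g)) atTop
          (𝓝 (t • g - y * g)) := by
        have := (tendsto_const_nhds (x := t • g - y * g)).sub hz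
        simpa using this
      have hsc : Tendsto (fun n => (((1 + C * dl n)) / t) ^ 2) atTop (𝓝 ((1 / t) ^ 2)) := by
        have h1 : Tendsto (fun n => 1 + C * dl n) atTop (𝓝 (1 + C * 0)) :=
          (hdlt.const_mul C).const_add 1
        rw [mul_zero, add_zero] at h1
        exact (h1.div_const t).pow 2
      exact hsc.smul (hu.star.mul hu)
    exact ge_of_tendsto' hlim key
  -- step 2
  have step2 : ∀ t : ℝ, 0 < t → star g * (y + star y) * g ≤ t⁻¹ • (star (y * g) * (y * g)) := by
    intro t ht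
    have h1 := smul_le_smul_of_nonneg_left (step1 t ht) (show 0 ≤ t by positivity)
    have e1 : t • (1 / t) ^ 2 • (star (t • g - y * g) * (t • g - y * g))
        = t • (star g * g) - star g * (y + star y) * g + t⁻¹ • (star (y * g) * (y * g)) := by
      rw [smul_smul]
      have e2 : t * (1 / t) ^ 2 = t⁻¹ := by field_simp
      have e4 : t⁻¹ * (t * t) = t := by field_simp
      rw [e2, star_sub, star_smul, star_trivial, sub_mul, mul_sub, mul_sub, smul_mul_assoc,
        smul_mul_assoc, mul_smul_comm, mul_smul_comm]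
      simp only [smul_sub, smul_smul, e4, inv_mul_cancel₀ ht.ne', one_mul, one_smul, star_mul,
        mul_add, add_mul, mul_assoc]
      abel
    rw [e1] at h1
    have h2 : 0 ≤ - (star g * (y + star y) * g) + t⁻¹ • (star (y * g) * (y * g)) := by
      have := sub_nonneg.mpr h1
      have e3 : t • (star g * g) - star g * (y + star y) * g + t⁻¹ • (star (y * g) * (y * g))
          - t • (star g * g) = - (star g * (y + star y) * g) + t⁻¹ • (star (y * g) * (y * g)) := by
        abel
      rwa [e3] at this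
    have h3 := add_le_add_left h2 (star g * (y + star y) * g)
    simpa using h3
  have hlim : Tendsto (fun n : ℕ => ((n : ℝ) + 1)⁻¹ • (star (y * g) * (y * g))) atTop (𝓝 0) := by
    have h1 : Tendsto (fun n : ℕ => ((n : ℝ) + 1)⁻¹) atTop (𝓝 0) := by
      have := tendsto_one_div_add_atTop_nhds_zero_nat (𝕜 := ℝ)
      simpa using this
    have := h1.smul_const (star (y * g) * (y * g))
    simpa using this
  exact ge_of_tendsto' hlim (fun n => step2 _ (by positivity))

end peak

end Pool.Agent.Helper139.SI
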