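import Pool.Agent.Helper139.SI3

open Filter Topology Complex Metric

namespace Pool.Agent.Helper139.SI

/-- a unital bicontinuous linear bijection preserving the spectral radius -/
structure CSI {A B : Type*} [CStarAlgebra A] [CStarAlgebra B] (T : A ≃L[ℂ] B) : Prop where
  one : T 1 = 1
  sr : ∀ (a : A) (c : ℝ), 0 ≤ c → (SR (T a) c ↔ SR a c)

variable {A B : Type*} [CStarAlgebra A] [CStarAlgebra B]

theorem CSI.symm {T : A ≃L[ℂ] B} (hT : CSI T) : CSI T.symm where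
  one := by rw [← hT.one]; simp
  sr := fun b c hc => by
    have := hT.sr (T.symm b) c hc
    simp only [ContinuousLinearEquiv.apply_symm_apply] at this
    exact this.symm

theorem sr_conj {u : Aˣ} {b : A} {c : ℝ} : SR ((u : A) * b * ((u⁻¹ : Aˣ) : A)) c ↔ SR b c := by
  unfold SR
  rw [spectrum.units_conjugate]

/-- the transported inner derivation -/
noncomputable def Dmap (T : A ≃L[ℂ] B) (a : A) : B →L[ℂ] B :=
  (T : A →L[ℂ] B) ∘L ((ContinuousLinearMap.mul ℂ A a) - (ContinuousLinearMap.mul ℂ A).flip a) ∘L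
    (T.symm : B →L[ℂ] A)

theorem Dmap_apply (T : A ≃L[ℂ] B) (a : A) (y : B) :
    Dmap T a y = T (a * T.symm y - T.symm y * a) := rfl

theorem Dmap_apply' (T : A ≃L[ℂ] B) (a b : A) : Dmap T a (T b) = T (a * b - b * a) := by
  rw [Dmap_apply]; simp

theorem Dmap_one {T : A ≃L[ℂ] B} (hT : CSI T) (a : A) : Dmap T a 1 = 0 := by
  rw [Dmap_apply, hT.symm.one]; simp

section nontriv

variable [Nontrivial A] [Nontrivial B]

theorem exists_unit (a : A) (l : ℂ) (hl : ‖l‖ * ‖a‖ ≤ 1 / 2) :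
    ∃ u : Aˣ, (u : A) = 1 + l • a ∧ ‖((u⁻¹ : Aˣ) : A)‖ ≤ 2 ∧
      ‖((u⁻¹ : Aˣ) : A) - 1‖ ≤ 2 * (‖l‖ * ‖a‖) := by
  have h1 : ‖-(l • a)‖ < 1 := by
    rw [norm_neg, norm_smul]; linarith
  let u : Aˣ := Units.oneSub (-(l • a)) h1
  have hu : (u : A) = 1 + l • a := by
    simp [u]
  have e1 : ((u⁻¹ : Aˣ) : A) = 1 - (l • a) * ((u⁻¹ : Aˣ) : A) := by
    have : (u : A) * ((u⁻¹ : Aˣ) : A) = 1 := u.mul_inv
    rw [hu, add_mul, one_mul] at this
    rw [eq_sub_iff_add_eq]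
    exact this
  have hb : ‖((u⁻¹ : Aˣ) : A)‖ ≤ 2 := by
    have h2 : ‖((u⁻¹ : Aˣ) : A)‖ ≤ 1 + 1 / 2 * ‖((u⁻¹ : Aˣ) : A)‖ := by
      calc ‖((u⁻¹ : Aˣ) : A)‖ = ‖1 - (l • a) * ((u⁻¹ : Aˣ) : A)‖ := by rw [← e1]
        _ ≤ ‖(1 : A)‖ + ‖(l • a) * ((u⁻¹ : Aˣ) : A)‖ := norm_sub_le _ _
        _ ≤ 1 + ‖l • a‖ * ‖((u⁻¹ : Aˣ) : A)‖ := by
            rw [norm_one]; gcongr; exact norm_mul_le _ _
        _ ≤ 1 + 1 / 2 * ‖((u⁻¹ : Aˣ) : A)‖ := by
            rw [norm_smul]; gcongr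
    linarith
  refine ⟨u, hu, hb, ?_⟩
  have e2 : ((u⁻¹ : Aˣ) : A) - 1 = -((l • a) * ((u⁻¹ : Aˣ) : A)) := by
    nth_rewrite 1 [e1]; abel
  rw [e2, norm_neg]
  calc ‖(l • a) * ((u⁻¹ : Aˣ) : A)‖ ≤ ‖l • a‖ * ‖((u⁻¹ : Aˣ) : A)‖ := norm_mul_le _ _
    _ ≤ (‖l‖ * ‖a‖) * 2 := by rw [norm_smul]; gcongr
    _ = 2 * (‖l‖ * ‖a‖) := by ring

variable [PartialOrder B] [StarOrderedRing B]

theorem Dmap_peak {T : A ≃L[ℂ] B} (hT : CSI T) (a : A) {x g : B} (hx : ‖x‖ ≤ 1) (hxg : x * g = g)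
    {ζ : ℂ} (hζ : ‖ζ‖ = 1) :
    star g * (ζ • Dmap T a x + star (ζ • Dmap T a x)) * g ≤ 0 := by
  set nT : ℝ := ‖(T : A →L[ℂ] B)‖ with hnT
  set nS : ℝ := ‖(T.symm : B →L[ℂ] A)‖ with hnS
  have hT' : ∀ b : A, ‖T b‖ ≤ nT * ‖b‖ := fun b => (T : A →L[ℂ] B).le_opNorm b
  have hS' : ∀ b : B, ‖T.symm b‖ ≤ nS * ‖b‖ := fun b => (T.symm : B →L[ℂ] A).le_opNorm b
  have hnT0 : 0 ≤ nT := norm_nonneg _
  have hnS0 : 0 ≤ nS := norm_nonneg _
  have hcomm : ∀ b : A, ‖a * b - b * a‖ ≤ 2 * ‖a‖ * ‖b‖ := by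
    intro b
    calc ‖a * b - b * a‖ ≤ ‖a * b‖ + ‖b * a‖ := norm_sub_le _ _
      _ ≤ ‖a‖ * ‖b‖ + ‖b‖ * ‖a‖ := add_le_add (norm_mul_le _ _) (norm_mul_le _ _)
      _ = 2 * ‖a‖ * ‖b‖ := by ring
  refine peak (C := 4 * nT * ‖a‖ * nS + 4 * nT * ‖a‖ ^ 2 * nS) (δ₀ := 1 / (2 * (‖a‖ + 1)))
    (by positivity) (by positivity) hxg ?_
  intro δ hδ hδ1
  have hl : ‖(δ : ℂ) * ζ‖ = δ := by
    rw [norm_mul, hζ, mul_one, Complex.norm_real, Real.norm_of_nonneg hδ.le]
  have hδa : δ * ‖a‖ ≤ 1 / 2 := by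
    rw [lt_div_iff₀ (by positivity)] at hδ1
    nlinarith [norm_nonneg a]
  obtain ⟨u, hu, hu1, hu2⟩ := exists_unit a ((δ : ℂ) * ζ) (by rw [hl]; exact hδa)
  rw [hl] at hu2
  set v : A := ((u⁻¹ : Aˣ) : A) with hv
  have huv : (u : A) * v = 1 := u.mul_inv
  have hvu : v * (u : A) = 1 := u.inv_mul
  have hconj : ∀ b : A, (u : A) * b * v = b + (((δ : ℂ) * ζ) • (a * b - b * a)) * v := by
    intro b
    have h1 : (u : A) * b = b * u + ((δ : ℂ) * ζ) • (a * b - b * a) := by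
      rw [hu, add_mul, mul_add, one_mul, mul_one, smul_mul_assoc, mul_smul_comm, smul_sub]
      abel
    rw [h1, add_mul, mul_assoc, huv, mul_one]
  have hconj' : ∀ b : A, v * b * (u : A) = b - v * (((δ : ℂ) * ζ) • (a * b - b * a)) := by
    intro b
    have h1 : b * (u : A) = u * b - ((δ : ℂ) * ζ) • (a * b - b * a) := by
      rw [hu, add_mul, mul_add, one_mul, mul_one, smul_mul_assoc, mul_smul_comm, smul_sub]
      abel
    rw [mul_assoc, h1, mul_sub, ← mul_assoc, hvu, one_mul]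
  refine ⟨T ((u : A) * T.symm x * v), ?_, ?_⟩
  · have e1 : T ((u : A) * T.symm x * v) - x - δ • (ζ • Dmap T a x)
        = T (((δ : ℂ) * ζ) • ((a * T.symm x - T.symm x * a) * (v - 1))) := by
      rw [hconj, Dmap_apply]
      have e2 : δ • (ζ • T (a * T.symm x - T.symm x * a))
          = T (((δ : ℂ) * ζ) • (a * T.symm x - T.symm x * a)) := by
        rw [map_smul, ← smul_smul]
        exact (Complex.coe_smul _ _).symm
      have e5 : ((δ : ℂ) * ζ) • ((a * T.symm x - T.symm x * a) * (v - 1))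
          = (((δ : ℂ) * ζ) • (a * T.symm x - T.symm x * a)) * v
            - ((δ : ℂ) * ζ) • (a * T.symm x - T.symm x * a) := by
        rw [mul_sub, mul_one, smul_sub, smul_mul_assoc]
      rw [e2, e5, map_add, map_sub, ContinuousLinearEquiv.apply_symm_apply]
      abel
    rw [e1]
    calc ‖T (((δ : ℂ) * ζ) • ((a * T.symm x - T.symm x * a) * (v - 1)))‖
        ≤ nT * ‖((δ : ℂ) * ζ) • ((a * T.symm x - T.symm x * a) * (v - 1))‖ := hT' _
      _ = nT * (δ * ‖(a * T.symm x - T.symm x * a) * (v - 1)‖) := by rw [norm_smul, hl]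
      _ ≤ nT * (δ * (‖a * T.symm x - T.symm x * a‖ * ‖v - 1‖)) := by
          gcongr; exact norm_mul_le _ _
      _ ≤ nT * (δ * ((2 * ‖a‖ * (nS * 1)) * (2 * (δ * ‖a‖)))) := by
          gcongr
          exact (hcomm _).trans (by gcongr; exact (hS' x).trans (by gcongr))
      _ = (4 * nT * ‖a‖ ^ 2 * nS) * δ ^ 2 := by ring
      _ ≤ (4 * nT * ‖a‖ * nS + 4 * nT * ‖a‖ ^ 2 * nS) * δ ^ 2 := by
          gcongr
          have : 0 ≤ 4 * nT * ‖a‖ * nS := by positivity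
          linarith
  · intro w c hw
    have hc : 0 ≤ c := (norm_nonneg w).trans hw
    have e1 : T ((u : A) * T.symm x * v) + w
        = T ((u : A) * (T.symm x + v * T.symm w * (u : A)) * v) := by
      have : (u : A) * (T.symm x + v * T.symm w * (u : A)) * v
          = (u : A) * T.symm x * v + T.symm w := by
        calc (u : A) * (T.symm x + v * T.symm w * (u : A)) * v
            = (u : A) * T.symm x * v + ((u : A) * v) * T.symm w * ((u : A) * v) := by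
              simp only [mul_add, add_mul, mul_assoc]
          _ = (u : A) * T.symm x * v + T.symm w := by rw [huv]; simp
      rw [this, map_add]; simp
    have hC0 : 0 ≤ (4 * nT * ‖a‖ * nS + 4 * nT * ‖a‖ ^ 2 * nS) := by positivity
    rw [e1, hT.sr _ _ (by positivity), hv, sr_conj, ← hT.sr _ _ (by positivity), map_add]
    simp only [ContinuousLinearEquiv.apply_symm_apply]
    refine (sr_norm _).mono ?_
    have e4 : ‖T (((u⁻¹ : Aˣ) : A) * T.symm w * (u : A))‖ ≤ (1 + (4 * nT * ‖a‖ * nS) * δ) * c := by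
      rw [← hv, hconj', map_sub]
      simp only [ContinuousLinearEquiv.apply_symm_apply]
      calc ‖w - T (v * (((δ : ℂ) * ζ) • (a * T.symm w - T.symm w * a)))‖
          ≤ ‖w‖ + ‖T (v * (((δ : ℂ) * ζ) • (a * T.symm w - T.symm w * a)))‖ := norm_sub_le _ _
        _ ≤ ‖w‖ + nT * (‖v‖ * (δ * (2 * ‖a‖ * (nS * ‖w‖)))) := by
            gcongr
            refine (hT' _).trans ?_
            gcongr
            refine (norm_mul_le _ _).trans ?_
            gcongr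
            rw [norm_smul, hl]
            gcongr
            exact (hcomm _).trans (by gcongr; exact hS' w)
        _ ≤ c + nT * (2 * (δ * (2 * ‖a‖ * (nS * c)))) := by gcongr
        _ = (1 + (4 * nT * ‖a‖ * nS) * δ) * c := by ring
    calc ‖x + T (((u⁻¹ : Aˣ) : A) * T.symm w * (u : A))‖
        ≤ ‖x‖ + ‖T (((u⁻¹ : Aˣ) : A) * T.symm w * (u : A))‖ := norm_add_le _ _
      _ ≤ 1 + (1 + (4 * nT * ‖a‖ * nS) * δ) * c := add_le_add hx e4
      _ ≤ 1 + (1 + (4 * nT * ‖a‖ * nS + 4 * nT * ‖a‖ ^ 2 * nS) * δ) * c := by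
          gcongr
          have : 0 ≤ 4 * nT * ‖a‖ ^ 2 * nS := by positivity
          linarith

theorem Dmap_peak_zero {T : A ≃L[ℂ] B} (hT : CSI T) (a : A) {x g : B} (hx : ‖x‖ ≤ 1)
    (hxg : x * g = g) : star g * Dmap T a x * g = 0 := by
  set G : B := star g * Dmap T a x * g with hG
  have key : ∀ ζ : ℂ, ‖ζ‖ = 1 → ζ • G + star (ζ • G) ≤ 0 := by
    intro ζ hζ
    have := Dmap_peak hT a hx hxg hζ
    have e : star g * (ζ • Dmap T a x + star (ζ • Dmap T a x)) * g = ζ • G + star (ζ • G) := by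
      rw [mul_add, add_mul, hG, star_smul, star_smul, star_mul, star_mul, star_star]
      simp only [mul_smul_comm, smul_mul_assoc, mul_assoc]
    rwa [e] at this
  have h1 := key 1 (by simp)
  have h2 := key (-1) (by simp)
  have h3 := key Complex.I (by simp)
  have h4 := key (-Complex.I) (by simp)
  have e1 : G + star G = 0 := by
    apply le_antisymm
    · simpa using h1
    · have h2' : -(G + star G) ≤ 0 := by
        simpa [neg_add, add_comm] using h2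
      exact neg_nonpos.mp h2'
  have e2 : Complex.I • G + star (Complex.I • G) = 0 := by
    apply le_antisymm h3
    have h4' : -(Complex.I • G + star (Complex.I • G)) ≤ 0 := by
      have : -Complex.I • G + star (-Complex.I • G) = -(Complex.I • G + star (Complex.I • G)) := by
        rw [neg_smul, star_neg, neg_add]
      rwa [this] at h4
    exact neg_nonpos.mp h4'
  rw [star_smul] at e2
  have e3 : G - star G = 0 := by
    have : Complex.I • (G - star G) = 0 := by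
      rw [smul_sub]
      have h5 : star Complex.I = -Complex.I := by simp
      rw [h5, neg_smul, ← sub_eq_add_neg] at e2
      exact e2
    simpa using this
  have e4 : (2 : ℂ) • G = 0 := by
    have : (2 : ℂ) • G = (G + star G) + (G - star G) := by rw [two_smul]; abel
    rw [this, e1, e3, add_zero]
  simpa using e4

/-- property (P) -/
theorem Dmap_P {T : A ≃L[ℂ] B} (hT : CSI T) (a : A) {φ g : B} (hφ : 0 ≤ φ) (hφg : φ * g = 0) :
    star g * Dmap T a φ * g = 0 := by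
  by_cases h0 : φ = 0
  · rw [h0, map_zero]; simp
  have hn : 0 < ‖φ‖ := norm_pos_iff.mpr h0
  set ψ : B := ‖φ‖⁻¹ • φ with hψ
  have hψ0 : 0 ≤ ψ := smul_nonneg (by positivity) hφ
  have hψ1 : ψ ≤ 1 := by
    rw [← CStarAlgebra.norm_le_one_iff_of_nonneg ψ hψ0, hψ, norm_smul, norm_inv, norm_norm,
      inv_mul_cancel₀ hn.ne']
  have hx : ‖1 - ψ‖ ≤ 1 := by
    rw [CStarAlgebra.norm_le_one_iff_of_nonneg (1 - ψ) (sub_nonneg.mpr hψ1)]
    exact sub_le_self _ hψ0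
  have hxg : (1 - ψ) * g = g := by
    rw [sub_mul, one_mul, hψ, smul_mul_assoc, hφg, smul_zero, sub_zero]
  have h1 := Dmap_peak_zero hT a hx hxg
  rw [map_sub, Dmap_one hT, zero_sub, hψ] at h1
  have h2 : Dmap T a (‖φ‖⁻¹ • φ) = ‖φ‖⁻¹ • Dmap T a φ := by
    have e : ∀ z : B, ‖φ‖⁻¹ • z = ((‖φ‖⁻¹ : ℝ) : ℂ) • z := fun z => (Complex.coe_smul _ _).symm
    rw [e, e, map_smul]
  rw [h2, mul_neg, neg_mul, neg_eq_zero, mul_smul_comm, smul_mul_assoc] at h1
  rcases smul_eq_zero.mp h1 with h | h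
  · exact absurd h (inv_ne_zero hn.ne')
  · exact h

end nontriv

end Pool.Agent.Helper139.SI
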