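import Pool.Agent.Helper139.SI4

open Filter Topology Complex Metric

namespace Pool.Agent.Helper139.SI

/-! ### real functions -/

noncomputable def hat (u : ℝ) : ℝ := max 0 (1 - |u|)

theorem hat_nonneg (u : ℝ) : 0 ≤ hat u := le_max_left _ _

theorem hat_le_one (u : ℝ) : hat u ≤ 1 := max_le zero_le_one (by linarith [abs_nonneg u])

theorem hat_eq_zero {u : ℝ} (h : 1 ≤ |u|) : hat u = 0 := max_eq_left (by linarith)

theorem continuous_hat : Continuous hat := by unfold hat; fun_prop

theorem hat_sum (m : ℕ) : ∀ u : ℝ, 0 ≤ u → u ≤ m → ∑ i ∈ Finset.range (m + 1), hat (u - i) = 1 := by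
  induction m with
  | zero =>
    intro u h0 h1
    have : u = 0 := by
      simp at h1
      linarith
    subst this
    simp [hat]
  | succ m ih =>
    intro u h0 h1
    push_cast at h1
    rw [Finset.sum_range_succ]
    by_cases hu : u ≤ m
    · rw [ih u h0 hu, hat_eq_zero, add_zero]
      push_cast
      rw [abs_sub_comm, abs_of_nonneg (by linarith)]
      linarith
    · push Not at hu
      rw [Finset.sum_range_succ]
      have hz : ∑ i ∈ Finset.range m, hat (u - i) = 0 := by
        apply Finset.sum_eq_zero
        intro i hi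
        rw [Finset.mem_range] at hi
        have hi' : (i : ℝ) + 1 ≤ m := by exact_mod_cast hi
        apply hat_eq_zero
        rw [abs_of_nonneg (by linarith)]
        linarith
      rw [hz]
      unfold hat
      push_cast
      rw [abs_of_nonneg (by linarith : 0 ≤ u - m), abs_of_nonpos (by linarith : u - (m + 1) ≤ 0),
        max_eq_right (by linarith), max_eq_right (by linarith)]
      ring

noncomputable def sf (w d : ℝ) : ℝ := max 0 (min d (2 * w - d)) - max 0 (min (-d) (2 * w + d))

theorem continuous_sf (w : ℝ) : Continuous (sf w) := by unfold sf; fun_prop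

theorem sf_abs_le {w : ℝ} (hw : 0 ≤ w) (d : ℝ) : |sf w d| ≤ w := by
  unfold sf
  have h1 : max 0 (min d (2 * w - d)) ≤ w := by
    apply max_le hw
    rcases le_total d w with h | h
    · exact (min_le_left _ _).trans h
    · exact (min_le_right _ _).trans (by linarith)
  have h2 : max 0 (min (-d) (2 * w + d)) ≤ w := by
    apply max_le hw
    rcases le_total (-d) w with h | h
    · exact (min_le_left _ _).trans h
    · exact (min_le_right _ _).trans (by linarith)
  have h3 : 0 ≤ max 0 (min d (2 * w - d)) := le_max_left _ _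
  have h4 : 0 ≤ max 0 (min (-d) (2 * w + d)) := le_max_left _ _
  rw [abs_le]
  constructor <;> linarith

theorem sf_zero {w d : ℝ} (h : 2 * w ≤ |d|) : sf w d = 0 := by
  unfold sf
  rcases le_total 0 d with hd | hd
  · rw [abs_of_nonneg hd] at h
    rw [max_eq_left ((min_le_right _ _).trans (by linarith)),
      max_eq_left ((min_le_left _ _).trans (by linarith))]
    simp
  · rw [abs_of_nonpos hd] at h
    rw [max_eq_left ((min_le_left _ _).trans (by linarith)),
      max_eq_left ((min_le_right _ _).trans (by linarith))]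
    simp

theorem sf_eq {w d : ℝ} (h : |d| ≤ w) : sf w d = d := by
  unfold sf
  rcases le_total 0 d with hd | hd
  · rw [abs_of_nonneg hd] at h
    rw [min_eq_left (by linarith), max_eq_right hd, max_eq_left ((min_le_left _ _).trans (by linarith))]
    ring
  · rw [abs_of_nonpos hd] at h
    rw [max_eq_left ((min_le_left _ _).trans (by linarith)), min_eq_left (by linarith),
      max_eq_right (by linarith)]
    ring

/-! ### the grid -/

section grid

variable {B : Type*} [CStarAlgebra B] [Nontrivial B] [PartialOrder B] [StarOrderedRing B]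

/-- fine partitions of unity attached to a self-adjoint element -/
structure Grid (h : B) (C : ℝ) (N : ℕ) where
  n : ℕ
  a : ℕ → ℝ
  P : ℕ → B
  S : ℕ → B
  Q : ℕ → B
  hn : (n : ℝ) ≤ C * N
  ha : ∀ i, i < n → |a i| ≤ C
  sum : ∑ i ∈ Finset.range n, P i = 1
  Pnn : ∀ i, 0 ≤ P i
  Pn : ∀ i, ‖P i‖ ≤ 1
  PQ : ∀ i, P i * Q i = 0
  Ssa : ∀ i, IsSelfAdjoint (S i)
  Qsa : ∀ i, IsSelfAdjoint (Q i)
  dec : ∀ i, a i • (1 : B) - h = S i + Q i
  Sn : ∀ i, ‖S i‖ ≤ 1 / N
  SS : ∀ i j, i ≠ j → i % 4 = j % 4 → S i * S j = 0
  PP : ∀ i j, i ≠ j → i % 4 = j % 4 → P i * P j = 0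
  Pd : ∀ i, ‖P i * (a i • (1 : B) - h)‖ ≤ 1 / N
  Psa : ∀ i, IsSelfAdjoint (P i)
  apx1 : ‖∑ i ∈ Finset.range n, a i • P i - h‖ ≤ 1 / N
  apx2 : ‖∑ i ∈ Finset.range n, (a i) ^ 2 • P i - h * h‖ ≤ C / N

theorem mod4_gap {i j : ℕ} (hij : i ≠ j) (hm : i % 4 = j % 4) : (4 : ℝ) ≤ |(i : ℝ) - j| := by
  rcases lt_or_gt_of_ne hij with h | h
  · have : i + 4 ≤ j := by omega
    have h2 : (i : ℝ) + 4 ≤ j := by exact_mod_cast this
    rw [abs_of_nonpos (by linarith)]
    linarith
  · have : j + 4 ≤ i := by omega
    have h2 : (j : ℝ) + 4 ≤ i := by exact_mod_cast this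
    rw [abs_of_nonneg (by linarith)]
    linarith

theorem exists_grid {h : B} (hh : IsSelfAdjoint h) :
    ∃ C : ℝ, 1 ≤ C ∧ ‖h‖ ≤ C ∧ ∀ N : ℕ, 1 ≤ N → Nonempty (Grid h C N) := by
  obtain ⟨L, hL⟩ := exists_nat_ge (‖h‖ + 1)
  have hL1 : (1 : ℝ) ≤ L := by linarith [norm_nonneg h]
  have hhL : ‖h‖ ≤ L := by linarith
  refine ⟨4 * L, by linarith, by linarith, fun N hN => ?_⟩
  have hN1 : (1 : ℝ) ≤ N := by exact_mod_cast hN
  have hN0 : (0 : ℝ) < N := by linarith
  have hspec : ∀ t ∈ spectrum ℝ h, |t| ≤ L := fun t ht =>
    (spectrum.norm_le_norm_of_mem ht).trans hhL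
  set w : ℝ := 1 / N with hw
  have hw0 : 0 < w := by positivity
  have hNw : (N : ℝ) * w = 1 := by rw [hw]; field_simp
  set M : ℕ := 2 * L * N with hM
  let a : ℕ → ℝ := fun i => -L + i * w
  let p : ℕ → ℝ → ℝ := fun i t => hat (N * (t - a i))
  let s : ℕ → ℝ → ℝ := fun i t => sf w (a i - t)
  let q : ℕ → ℝ → ℝ := fun i t => (a i - t) - sf w (a i - t)
  have hpc : ∀ i, Continuous (p i) := fun i => by
    have := continuous_hat
    simp only [p]; fun_prop
  have hsc : ∀ i, Continuous (s i) := fun i => by
    have := continuous_sf w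
    simp only [s]; fun_prop
  have hqc : ∀ i, Continuous (q i) := fun i => by
    have := continuous_sf w
    simp only [q]; fun_prop
  have hdist : ∀ i j, i ≠ j → i % 4 = j % 4 → 4 * w ≤ |a i - a j| := by
    intro i j hij hm
    have h1 := mod4_gap hij hm
    have h2 : a i - a j = ((i : ℝ) - j) * w := by simp only [a]; ring
    rw [h2, abs_mul, abs_of_pos hw0]
    nlinarith
  have hp_supp : ∀ i t, w ≤ |a i - t| → p i t = 0 := by
    intro i t ht
    simp only [p]
    apply hat_eq_zero
    rw [abs_mul, abs_of_pos hN0, abs_sub_comm]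
    nlinarith
  have hpd : ∀ i t, |p i t * (a i - t)| ≤ w := by
    intro i t
    rcases le_total w |a i - t| with h1 | h1
    · rw [hp_supp i t h1]; simp; exact hw0.le
    · rw [abs_mul, abs_of_nonneg (hat_nonneg _)]
      calc p i t * |a i - t| ≤ 1 * w := by
            gcongr
            exact hat_le_one _
        _ = w := one_mul w
  have hsum : ∀ t ∈ spectrum ℝ h, ∑ i ∈ Finset.range (M + 1), p i t = 1 := by
    intro t ht
    have h1 := abs_le.mp (hspec t ht)
    have h2 := hat_sum M (N * (t + L)) (by nlinarith) (by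
      rw [hM]; push_cast; nlinarith)
    rw [← h2]
    apply Finset.sum_congr rfl
    intro i _
    simp only [p, a]
    congr 1
    have : (N : ℝ) * (i * w) = i := by rw [mul_left_comm, hNw, mul_one]
    linear_combination -this
  have hcid : ∀ c : ℝ, c • (1 : B) - h = cfc (fun t : ℝ => c - t) h := by
    intro c
    rw [cfc_sub (fun _ : ℝ => c) (fun t : ℝ => t) h (by fun_prop) (by fun_prop), cfc_const c h,
      cfc_id' ℝ h, Algebra.algebraMap_eq_smul_one]
  refine ⟨{ n := M + 1, a := a, P := fun i => cfc (p i) h, S := fun i => cfc (s i) h,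
            Q := fun i => cfc (q i) h, hn := ?_, ha := ?_, sum := ?_, Pnn := ?_, Pn := ?_,
            PQ := ?_, Ssa := ?_, Qsa := ?_, dec := ?_, Sn := ?_, SS := ?_, PP := ?_, Pd := ?_,
            Psa := ?_, apx1 := ?_, apx2 := ?_ }⟩
  · -- hn
    rw [hM]; push_cast
    nlinarith
  · -- ha
    intro i hi
    have h1 : (i : ℝ) ≤ M := by exact_mod_cast Nat.lt_succ_iff.mp hi
    have h2 : (i : ℝ) * w ≤ 2 * L := by
      have : (i : ℝ) * w ≤ M * w := by gcongr
      have h3 : (M : ℝ) * w = 2 * L := by
        rw [hM]; push_cast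
        rw [mul_assoc, hNw, mul_one]
      linarith
    have h3 : 0 ≤ (i : ℝ) * w := by positivity
    simp only [a]
    rw [abs_le]
    constructor <;> linarith
  · -- sum
    rw [← cfc_sum p h (Finset.range (M + 1)) (fun i _ => (hpc i).continuousOn)]
    rw [cfc_congr (g := fun _ => (1 : ℝ)) (fun t ht => by
      simp only [Finset.sum_apply]
      exact hsum t ht)]
    exact cfc_const_one ℝ h
  · -- Pnn
    intro i
    exact cfc_nonneg fun t _ => hat_nonneg _
  · -- Pn
    intro i
    refine norm_cfc_le zero_le_one fun t _ => ?_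
    rw [Real.norm_of_nonneg (hat_nonneg _)]
    exact hat_le_one _
  · -- PQ
    intro i
    rw [← cfc_mul (p i) (q i) h (hpc i).continuousOn (hqc i).continuousOn]
    rw [cfc_congr (g := fun _ => (0 : ℝ)) (fun t _ => ?_)]
    · exact cfc_const_zero ℝ h
    · simp only [q]
      rcases le_total w |a i - t| with h1 | h1
      · rw [hp_supp i t h1, zero_mul]
      · rw [sf_eq h1, sub_self, mul_zero]
  · intro i; exact cfc_predicate _ _
  · intro i; exact cfc_predicate _ _
  · -- dec
    intro i
    rw [hcid, ← cfc_add h (s i) (q i) (hsc i).continuousOn (hqc i).continuousOn]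
    congr 1
    funext t
    simp only [s, q]; ring
  · -- Sn
    intro i
    refine norm_cfc_le hw0.le fun t _ => ?_
    exact sf_abs_le hw0.le _
  · -- SS
    intro i j hij hm
    rw [← cfc_mul (s i) (s j) h (hsc i).continuousOn (hsc j).continuousOn]
    rw [cfc_congr (g := fun _ => (0 : ℝ)) (fun t _ => ?_)]
    · exact cfc_const_zero ℝ h
    · simp only [s]
      rcases le_total (2 * w) |a i - t| with h1 | h1
      · rw [sf_zero h1, zero_mul]
      · rw [sf_zero (w := w) (d := a j - t), mul_zero]
        have h2 := hdist i j hij hm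
        have h3 : |a i - a j| ≤ |a i - t| + |a j - t| := by
          have : a i - a j = (a i - t) - (a j - t) := by ring
          rw [this]; exact abs_sub _ _
        linarith
  · -- PP
    intro i j hij hm
    rw [← cfc_mul (p i) (p j) h (hpc i).continuousOn (hpc j).continuousOn]
    rw [cfc_congr (g := fun _ => (0 : ℝ)) (fun t _ => ?_)]
    · exact cfc_const_zero ℝ h
    · rcases le_total w |a i - t| with h1 | h1
      · rw [hp_supp i t h1, zero_mul]
      · rw [hp_supp j t, mul_zero]
        have h2 := hdist i j hij hm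
        have h3 : |a i - a j| ≤ |a i - t| + |a j - t| := by
          have : a i - a j = (a i - t) - (a j - t) := by ring
          rw [this]; exact abs_sub _ _
        linarith
  · -- Pd
    intro i
    rw [hcid, ← cfc_mul (p i) (fun t => a i - t) h (hpc i).continuousOn (by fun_prop)]
    exact norm_cfc_le hw0.le fun t _ => hpd i t
  · intro i; exact cfc_predicate _ _
  · -- apx1
    have e1 : ∀ i, a i • cfc (p i) h = cfc (fun t => a i * p i t) h := fun i => by
      rw [cfc_const_mul (a i) (p i) h (hpc i).continuousOn]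
    simp only [e1]
    have e2 : ∑ i ∈ Finset.range (M + 1), cfc (fun t => a i * p i t) h - h
        = cfc (fun t => (∑ i ∈ Finset.range (M + 1), (fun t => a i * p i t)) t - t) h := by
      rw [cfc_sub _ (fun t : ℝ => t) h (by
          apply Continuous.continuousOn
          have : (∑ i ∈ Finset.range (M + 1), (fun t => a i * p i t)) =
            fun t => ∑ i ∈ Finset.range (M + 1), a i * p i t := by
              funext t; simp only [Finset.sum_apply]
          rw [this]
          exact continuous_finsetSum _ fun i _ => (continuous_const.mul (hpc i))) (by fun_prop),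
        cfc_id' ℝ h, cfc_sum (fun i t => a i * p i t) h (Finset.range (M + 1))
          (fun i _ => (continuous_const.mul (hpc i)).continuousOn)]
    rw [e2]
    refine norm_cfc_le hw0.le fun t ht => ?_
    simp only [Finset.sum_apply]
    have e3 : ∑ i ∈ Finset.range (M + 1), a i * p i t - t
        = ∑ i ∈ Finset.range (M + 1), (a i - t) * p i t := by
      simp only [sub_mul, Finset.sum_sub_distrib]
      rw [← Finset.mul_sum, hsum t ht, mul_one]
    rw [e3, Real.norm_eq_abs]
    calc |∑ i ∈ Finset.range (M + 1), (a i - t) * p i t|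
        ≤ ∑ i ∈ Finset.range (M + 1), |(a i - t) * p i t| := Finset.abs_sum_le_sum_abs _ _
      _ ≤ ∑ i ∈ Finset.range (M + 1), w * p i t := by
          apply Finset.sum_le_sum
          intro i _
          rw [abs_mul, abs_of_nonneg (hat_nonneg _ : 0 ≤ p i t)]
          rcases le_total w |a i - t| with h1 | h1
          · have hz := hp_supp i t h1
            simp only [p] at hz
            simp [p, hz]
          · exact mul_le_mul_of_nonneg_right h1 (hat_nonneg _)
      _ = w := by rw [← Finset.mul_sum, hsum t ht, mul_one]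
  · -- apx2
    have e1 : ∀ i, (a i) ^ 2 • cfc (p i) h = cfc (fun t => (a i) ^ 2 * p i t) h := fun i => by
      rw [cfc_const_mul ((a i) ^ 2) (p i) h (hpc i).continuousOn]
    simp only [e1]
    have e2 : ∑ i ∈ Finset.range (M + 1), cfc (fun t => (a i) ^ 2 * p i t) h - h * h
        = cfc (fun t => (∑ i ∈ Finset.range (M + 1), (fun t => (a i) ^ 2 * p i t)) t - t * t) h := by
      rw [cfc_sub _ (fun t : ℝ => t * t) h (by
          apply Continuous.continuousOn
          have : (∑ i ∈ Finset.range (M + 1), (fun t => (a i) ^ 2 * p i t)) =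
            fun t => ∑ i ∈ Finset.range (M + 1), (a i) ^ 2 * p i t := by
              funext t; simp only [Finset.sum_apply]
          rw [this]
          exact continuous_finsetSum _ fun i _ => (continuous_const.mul (hpc i))) (by fun_prop),
        cfc_mul (fun t : ℝ => t) (fun t : ℝ => t) h (by fun_prop) (by fun_prop),
        cfc_id' ℝ h, cfc_sum (fun i t => (a i) ^ 2 * p i t) h (Finset.range (M + 1))
          (fun i _ => (continuous_const.mul (hpc i)).continuousOn)]
    rw [e2]
    refine norm_cfc_le (by positivity) fun t ht => ?_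
    simp only [Finset.sum_apply]
    have e3 : ∑ i ∈ Finset.range (M + 1), (a i) ^ 2 * p i t - t * t
        = ∑ i ∈ Finset.range (M + 1), ((a i) ^ 2 - t * t) * p i t := by
      simp only [sub_mul, Finset.sum_sub_distrib]
      rw [← Finset.mul_sum, hsum t ht, mul_one]
    rw [e3, Real.norm_eq_abs]
    calc |∑ i ∈ Finset.range (M + 1), ((a i) ^ 2 - t * t) * p i t|
        ≤ ∑ i ∈ Finset.range (M + 1), |((a i) ^ 2 - t * t) * p i t| :=
          Finset.abs_sum_le_sum_abs _ _
      _ ≤ ∑ i ∈ Finset.range (M + 1), (4 * L / N) * p i t := by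
          apply Finset.sum_le_sum
          intro i _
          rw [abs_mul, abs_of_nonneg (hat_nonneg _ : 0 ≤ p i t)]
          rcases le_total w |a i - t| with h1 | h1
          · have hz := hp_supp i t h1
            simp only [p] at hz
            simp [p, hz]
          · refine mul_le_mul_of_nonneg_right ?_ (hat_nonneg _)
            have h2 : (a i) ^ 2 - t * t = (a i - t) * (a i + t) := by ring
            have h3 : |a i + t| ≤ 4 * L := by
              have h4 : a i + t = (a i - t) + 2 * t := by ring
              rw [h4]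
              have h5 := abs_add_le (a i - t) (2 * t)
              have h6 : |2 * t| ≤ 2 * L := by
                rw [abs_mul, abs_of_pos (by norm_num : (0 : ℝ) < 2)]
                linarith [hspec t ht]
              have h7 : w ≤ 1 := by rw [hw, div_le_one hN0]; exact hN1
              linarith
            rw [h2, abs_mul]
            calc |a i - t| * |a i + t| ≤ w * (4 * L) := by gcongr
              _ = 4 * L / N := by rw [hw]; ring
      _ = 4 * L / N := by rw [← Finset.mul_sum, hsum t ht, mul_one]

end grid

end Pool.Agent.Helper139.SI
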