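import Pool.Agent.Helper139.SI5

open Filter Topology Complex Metric

namespace Pool.Agent.Helper139.SI

section orth

variable {B : Type*} [CStarAlgebra B]

theorem orth_sum_aux (I : Finset ℕ) (X : ℕ → B) {c : ℝ} (hc : 0 ≤ c) (n : ℕ) (hI : I.card ≤ n)
    (hX : ∀ i ∈ I, ∀ j ∈ I, i ≠ j → star (X i) * X j = 0) (hb : ∀ i ∈ I, ‖X i‖ ≤ c) :
    ‖∑ i ∈ I, X i‖ ≤ Real.sqrt n * c := by
  have h1 : ‖∑ i ∈ I, X i‖ ^ 2 ≤ n * c ^ 2 := by
    have e1 : star (∑ i ∈ I, X i) * (∑ i ∈ I, X i) = ∑ i ∈ I, star (X i) * X i := by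
      rw [star_sum, Finset.sum_mul_sum]
      apply Finset.sum_congr rfl
      intro i hi
      rw [Finset.sum_eq_single_of_mem i hi]
      intro j hj hji
      exact hX i hi j hj (Ne.symm hji)
    have e2 : ‖∑ i ∈ I, X i‖ ^ 2 = ‖∑ i ∈ I, star (X i) * X i‖ := by
      rw [← e1, CStarRing.norm_star_mul_self, sq]
    rw [e2]
    calc ‖∑ i ∈ I, star (X i) * X i‖ ≤ ∑ i ∈ I, ‖star (X i) * X i‖ := norm_sum_le _ _
      _ ≤ ∑ i ∈ I, c ^ 2 := by
          apply Finset.sum_le_sum
          intro i hi
          rw [CStarRing.norm_star_mul_self, sq]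
          exact mul_le_mul (hb i hi) (hb i hi) (norm_nonneg _) hc
      _ = I.card * c ^ 2 := by rw [Finset.sum_const, nsmul_eq_mul]
      _ ≤ n * c ^ 2 := by gcongr
  have h2 : 0 ≤ Real.sqrt n * c := by positivity
  have h3 : (Real.sqrt n * c) ^ 2 = n * c ^ 2 := by
    rw [mul_pow, Real.sq_sqrt (Nat.cast_nonneg n)]
  rw [← h3] at h1
  exact le_of_pow_le_pow_left₀ two_ne_zero h2 h1

theorem orth_sum (n : ℕ) (X : ℕ → B) {c : ℝ} (hc : 0 ≤ c)
    (hX : ∀ i j, i ≠ j → i % 4 = j % 4 → star (X i) * X j = 0) (hb : ∀ i, i < n → ‖X i‖ ≤ c) :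
    ‖∑ i ∈ Finset.range n, X i‖ ≤ 4 * (Real.sqrt n * c) := by
  have e1 := Finset.sum_fiberwise_of_maps_to (s := Finset.range n) (t := Finset.range 4)
    (g := fun i => i % 4) (fun i _ => Finset.mem_range.mpr (Nat.mod_lt _ (by norm_num))) X
  rw [← e1]
  calc ‖∑ r ∈ Finset.range 4, ∑ i ∈ Finset.range n with i % 4 = r, X i‖
      ≤ ∑ r ∈ Finset.range 4, ‖∑ i ∈ Finset.range n with i % 4 = r, X i‖ := norm_sum_le _ _
    _ ≤ ∑ r ∈ Finset.range 4, Real.sqrt n * c := by
        apply Finset.sum_le_sum
        intro r _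
        apply orth_sum_aux _ X hc n
        · calc (Finset.filter (fun i => i % 4 = r) (Finset.range n)).card
              ≤ (Finset.range n).card := Finset.card_filter_le _ _
            _ = n := Finset.card_range n
        · intro i hi j hj hij
          rw [Finset.mem_filter] at hi hj
          exact hX i j hij (hi.2.trans hj.2.symm)
        · intro i hi
          rw [Finset.mem_filter, Finset.mem_range] at hi
          exact hb i hi.1
    _ = 4 * (Real.sqrt n * c) := by
        rw [Finset.sum_const, Finset.card_range, nsmul_eq_mul]; norm_num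

theorem eq_zero_of_bound {x : B} {K : ℝ}
    (h : ∀ N : ℕ, 1 ≤ N → ‖x‖ ≤ K / Real.sqrt N) : x = 0 := by
  have ht : Tendsto (fun N : ℕ => K / Real.sqrt N) atTop (𝓝 0) := by
    apply Tendsto.const_div_atTop
    exact Real.tendsto_sqrt_atTop.comp tendsto_natCast_atTop_atTop
  have : ‖x‖ ≤ 0 := ge_of_tendsto ht (by
    filter_upwards [eventually_ge_atTop 1] with N hN using h N hN)
  exact norm_le_zero_iff.mp this

end orth

section jordan

variable {B : Type*} [CStarAlgebra B] [Nontrivial B] [PartialOrder B] [StarOrderedRing B]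

theorem map_real_smul' {E : Type*} [NormedAddCommGroup E] [NormedSpace ℂ E] (D : B →L[ℂ] E)
    (a : ℝ) (x : B) : D (a • x) = a • D x := by
  rw [← Complex.coe_smul, map_smul, Complex.coe_smul]

theorem jordan_sa (D : B →L[ℂ] B) (hD1 : D 1 = 0)
    (hP : ∀ φ g : B, 0 ≤ φ → φ * g = 0 → star g * D φ * g = 0) {h : B} (hh : IsSelfAdjoint h) :
    D (h * h) = D h * h + h * D h := by
  obtain ⟨C, hC1, hhC, hgrid⟩ := exists_grid hh
  have hC0 : 0 ≤ C := by linarith
  set nD : ℝ := ‖D‖ with hnD
  have hD : ∀ b, ‖D b‖ ≤ nD * ‖b‖ := fun b => D.le_opNorm b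
  have hnD0 : 0 ≤ nD := norm_nonneg _
  rw [← sub_eq_zero]
  have hK : ∀ N : ℕ, 1 ≤ N → ‖D (h * h) - (D h * h + h * D h)‖
      ≤ (4 * (Real.sqrt C * (nD * (2 * C))) + 4 * (Real.sqrt C * ((2 * C + 1) * nD))
          + nD * C + 2 * (C * nD)) / Real.sqrt N := by
    intro N hN
    obtain ⟨G⟩ := hgrid N hN
    have hN1 : (1 : ℝ) ≤ N := by exact_mod_cast hN
    have hN0 : (0 : ℝ) < N := by linarith
    have hsN : 0 < Real.sqrt N := Real.sqrt_pos.mpr hN0
    have hsN1 : 1 / (N : ℝ) ≤ 1 / Real.sqrt N := by
      apply one_div_le_one_div_of_le hsN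
      have : Real.sqrt N * Real.sqrt N = N := Real.mul_self_sqrt hN0.le
      have h1 : 1 ≤ Real.sqrt N := by
        rw [Real.one_le_sqrt]; exact hN1
      nlinarith
    set d : ℕ → B := fun i => G.a i • (1 : B) - h with hd
    have hdn : ∀ i, i < G.n → ‖d i‖ ≤ 2 * C := by
      intro i hi
      calc ‖d i‖ ≤ ‖G.a i • (1 : B)‖ + ‖h‖ := norm_sub_le _ _
        _ ≤ C + C := by
            refine add_le_add ?_ hhC
            rw [norm_smul, norm_one, mul_one]
            exact G.ha i hi
        _ = 2 * C := by ring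
    have hQn : ∀ i, i < G.n → ‖G.Q i‖ ≤ 2 * C + 1 := by
      intro i hi
      have h1 : G.Q i = d i - G.S i := by
        rw [hd]; simp only [G.dec i]; abel
      rw [h1]
      refine (norm_sub_le _ _).trans (add_le_add (hdn i hi) ((G.Sn i).trans ?_))
      rw [div_le_one hN0]; exact hN1
    have hsplit : ∀ i, d i * D (G.P i) * d i
        = G.S i * (D (G.P i) * d i) + (G.Q i * D (G.P i)) * G.S i := by
      intro i
      have hQ0 : G.Q i * D (G.P i) * G.Q i = 0 := by
        have := hP (G.P i) (G.Q i) (G.Pnn i) (G.PQ i)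
        rwa [(G.Qsa i).star_eq] at this
      have e : d i = G.S i + G.Q i := G.dec i
      calc d i * D (G.P i) * d i = G.S i * (D (G.P i) * d i) + G.Q i * D (G.P i) * d i := by
            nth_rewrite 1 [e]; rw [add_mul, add_mul, mul_assoc]
        _ = G.S i * (D (G.P i) * d i) + (G.Q i * D (G.P i)) * G.S i := by
            congr 1
            rw [e, mul_add, hQ0, add_zero]
    have hY : ∑ i ∈ Finset.range G.n, d i * D (G.P i) * d i
        = D (∑ i ∈ Finset.range G.n, (G.a i) ^ 2 • G.P i)
          - h * D (∑ i ∈ Finset.range G.n, (G.a i) • G.P i)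
          - D (∑ i ∈ Finset.range G.n, (G.a i) • G.P i) * h := by
      have e0 : h * D (∑ i ∈ Finset.range G.n, G.P i) * h = 0 := by
        rw [G.sum, hD1]; simp
      have e1 : ∀ i, d i * D (G.P i) * d i
          = (G.a i) ^ 2 • D (G.P i) - h * ((G.a i) • D (G.P i)) - ((G.a i) • D (G.P i)) * h
            + h * D (G.P i) * h := by
        intro i
        simp only [hd, sub_mul, mul_sub, smul_mul_assoc, one_mul, mul_smul_comm, mul_one, smul_sub,
          smul_smul, ← sq]
        abel
      calc ∑ i ∈ Finset.range G.n, d i * D (G.P i) * d i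
          = ∑ i ∈ Finset.range G.n, ((G.a i) ^ 2 • D (G.P i) - h * ((G.a i) • D (G.P i))
              - ((G.a i) • D (G.P i)) * h + h * D (G.P i) * h) :=
            Finset.sum_congr rfl fun i _ => e1 i
        _ = D (∑ i ∈ Finset.range G.n, (G.a i) ^ 2 • G.P i)
              - h * D (∑ i ∈ Finset.range G.n, (G.a i) • G.P i)
              - D (∑ i ∈ Finset.range G.n, (G.a i) • G.P i) * h
              + h * D (∑ i ∈ Finset.range G.n, G.P i) * h := by
            simp only [map_sum, map_real_smul', Finset.sum_add_distrib, Finset.sum_sub_distrib,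
              Finset.mul_sum, Finset.sum_mul]
        _ = _ := by rw [e0, add_zero]
    -- estimates
    have hE1 : ‖∑ i ∈ Finset.range G.n, G.S i * (D (G.P i) * d i)‖
        ≤ 4 * (Real.sqrt G.n * (1 / N * (nD * (2 * C)))) := by
      apply orth_sum G.n _ (by positivity)
      · intro i j hij hm
        have : G.S i * G.S j = 0 := G.SS i j hij hm
        rw [star_mul, (G.Ssa i).star_eq]
        calc star (D (G.P i) * d i) * G.S i * (G.S j * (D (G.P j) * d j))
            = star (D (G.P i) * d i) * (G.S i * G.S j) * (D (G.P j) * d j) := by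
              simp only [mul_assoc]
          _ = 0 := by rw [this]; simp
      · intro i hi
        refine (norm_mul_le _ _).trans ?_
        gcongr
        · exact G.Sn i
        · refine (norm_mul_le _ _).trans ?_
          gcongr
          · refine (hD _).trans ?_
            calc nD * ‖G.P i‖ ≤ nD * 1 := by gcongr; exact G.Pn i
              _ = nD := mul_one _
          · exact hdn i hi
    have hE2 : ‖∑ i ∈ Finset.range G.n, (G.Q i * D (G.P i)) * G.S i‖
        ≤ 4 * (Real.sqrt G.n * (1 / N * ((2 * C + 1) * nD))) := by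
      rw [← norm_star, star_sum]
      apply orth_sum G.n _ (by positivity)
      · intro i j hij hm
        have : G.S i * G.S j = 0 := G.SS i j hij hm
        rw [star_star, star_mul, (G.Ssa j).star_eq]
        calc G.Q i * D (G.P i) * G.S i * (G.S j * star (G.Q j * D (G.P j)))
            = G.Q i * D (G.P i) * (G.S i * G.S j) * star (G.Q j * D (G.P j)) := by
              simp only [mul_assoc]
          _ = 0 := by rw [this]; simp
      · intro i hi
        rw [norm_star]
        refine (norm_mul_le _ _).trans ?_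
        rw [mul_comm (1 / (N : ℝ))]
        gcongr
        · refine (norm_mul_le _ _).trans ?_
          gcongr
          · exact hQn i hi
          · refine (hD _).trans ?_
            calc nD * ‖G.P i‖ ≤ nD * 1 := by gcongr; exact G.Pn i
              _ = nD := mul_one _
        · exact G.Sn i
    have hsn : Real.sqrt G.n * (1 / N) ≤ Real.sqrt C / Real.sqrt N := by
      have h1 : Real.sqrt G.n ≤ Real.sqrt C * Real.sqrt N := by
        rw [← Real.sqrt_mul hC0]
        exact Real.sqrt_le_sqrt G.hn
      have h2 : Real.sqrt N * Real.sqrt N = N := Real.mul_self_sqrt hN0.le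
      calc Real.sqrt G.n * (1 / N) ≤ (Real.sqrt C * Real.sqrt N) * (1 / N) := by gcongr
        _ = Real.sqrt C / Real.sqrt N := by
            nth_rewrite 2 [← h2]
            field_simp
    have hdecomp : D (h * h) - (D h * h + h * D h)
        = (∑ i ∈ Finset.range G.n, G.S i * (D (G.P i) * d i))
          + (∑ i ∈ Finset.range G.n, (G.Q i * D (G.P i)) * G.S i)
          - D (∑ i ∈ Finset.range G.n, (G.a i) ^ 2 • G.P i - h * h)
          + (h * D (∑ i ∈ Finset.range G.n, (G.a i) • G.P i - h)
            + D (∑ i ∈ Finset.range G.n, (G.a i) • G.P i - h) * h) := by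
      rw [← Finset.sum_add_distrib, ← Finset.sum_congr rfl (fun i _ => hsplit i), hY]
      rw [map_sub, map_sub, mul_sub, sub_mul]
      abel
    rw [hdecomp]
    have hA1 := G.apx1
    have hA2 := G.apx2
    calc _ ≤ ‖∑ i ∈ Finset.range G.n, G.S i * (D (G.P i) * d i)‖
          + ‖∑ i ∈ Finset.range G.n, (G.Q i * D (G.P i)) * G.S i‖
          + ‖D (∑ i ∈ Finset.range G.n, (G.a i) ^ 2 • G.P i - h * h)‖
          + (‖h * D (∑ i ∈ Finset.range G.n, (G.a i) • G.P i - h)‖
            + ‖D (∑ i ∈ Finset.range G.n, (G.a i) • G.P i - h) * h‖) := by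
          refine (norm_add_le _ _).trans (add_le_add ?_ (norm_add_le _ _))
          refine (norm_sub_le _ _).trans (add_le_add (norm_add_le _ _) le_rfl)
      _ ≤ 4 * (Real.sqrt G.n * (1 / N * (nD * (2 * C))))
          + 4 * (Real.sqrt G.n * (1 / N * ((2 * C + 1) * nD)))
          + nD * (C / N) + (C * (nD * (1 / N)) + (nD * (1 / N)) * C) := by
          gcongr
          · exact (hD _).trans (by gcongr)
          · refine (norm_mul_le _ _).trans ?_
            gcongr
            exact (hD _).trans (by gcongr)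
          · refine (norm_mul_le _ _).trans ?_
            gcongr
            exact (hD _).trans (by gcongr)
      _ = 4 * ((Real.sqrt G.n * (1 / N)) * (nD * (2 * C)))
          + 4 * ((Real.sqrt G.n * (1 / N)) * ((2 * C + 1) * nD))
          + nD * C * (1 / N) + 2 * (C * nD) * (1 / N) := by ring
      _ ≤ 4 * ((Real.sqrt C / Real.sqrt N) * (nD * (2 * C)))
          + 4 * ((Real.sqrt C / Real.sqrt N) * ((2 * C + 1) * nD))
          + nD * C * (1 / Real.sqrt N) + 2 * (C * nD) * (1 / Real.sqrt N) := by
          gcongr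
      _ = _ := by ring
  exact eq_zero_of_bound hK

theorem jordan_all (D : B →L[ℂ] B) (hD1 : D 1 = 0)
    (hP : ∀ φ g : B, 0 ≤ φ → φ * g = 0 → star g * D φ * g = 0) (y : B) :
    D (y * y) = D y * y + y * D y := by
  have hsa : ∀ h : B, IsSelfAdjoint h → D (h * h) = D h * h + h * D h := fun h hh =>
    jordan_sa D hD1 hP hh
  have hpol : ∀ h k : B, IsSelfAdjoint h → IsSelfAdjoint k →
      D (h * k + k * h) = D h * k + k * D h + (D k * h + h * D k) := by
    intro h k hh hk
    have e := hsa (h + k) (hh.add hk)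
    have e1 := hsa h hh
    have e2 := hsa k hk
    have e3 : (h + k) * (h + k) = h * h + k * k + (h * k + k * h) := by noncomm_ring
    have ea : D (h * h + k * k + (h * k + k * h)) = D (h * h) + D (k * k) + D (h * k + k * h) := by
      rw [map_add D (h * h + k * k) (h * k + k * h), map_add D (h * h) (k * k)]
    rw [e3, ea, e1, e2, map_add D h k] at e
    have e4 : D (h * k + k * h) = (D h + D k) * (h + k) + (h + k) * (D h + D k)
        - (D h * h + h * D h + (D k * k + k * D k)) := by
      rw [← e]; abel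
    rw [e4]; noncomm_ring
  obtain ⟨h, k, hh, hk, rfl⟩ : ∃ h k : B, IsSelfAdjoint h ∧ IsSelfAdjoint k ∧ y = h + Complex.I • k :=
    ⟨realPart y, imaginaryPart y, (realPart y).2, (imaginaryPart y).2,
      (realPart_add_I_smul_imaginaryPart y).symm⟩
  have e1 := hsa h hh
  have e2 := hsa k hk
  have e3 := hpol h k hh hk
  have e4 : (h + Complex.I • k) * (h + Complex.I • k)
      = h * h - k * k + Complex.I • (h * k + k * h) := by
    rw [add_mul, mul_add, mul_add, smul_mul_smul_comm, Complex.I_mul_I, smul_mul_assoc,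
      mul_smul_comm, neg_smul, one_smul, smul_add]
    abel
  have e5 : D (h * h - k * k + Complex.I • (h * k + k * h))
      = D (h * h) - D (k * k) + Complex.I • D (h * k + k * h) := by
    rw [map_add D (h * h - k * k) (Complex.I • (h * k + k * h)), map_sub,
      map_smul D Complex.I (h * k + k * h)]
  have e6 : D (h + Complex.I • k) = D h + Complex.I • D k := by
    rw [map_add D h (Complex.I • k), map_smul D Complex.I k]
  rw [e4, e5, e6, e1, e2, e3]
  simp only [add_mul, mul_add, smul_mul_assoc, mul_smul_comm, smul_smul, Complex.I_mul_I,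
    neg_smul, one_smul, smul_add]
  abel

end jordan

end Pool.Agent.Helper139.SI
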