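import Pool.Agent.Helper139.SI6

open Filter Topology Complex Metric

namespace Pool.Agent.Helper139.SI

/-- the spectrum lies in the real interval `[α, β]` -/
def RI {A : Type*} [Ring A] [Algebra ℂ A] (x : A) (α β : ℝ) : Prop :=
  ∀ z ∈ spectrum ℂ x, z.im = 0 ∧ α ≤ z.re ∧ z.re ≤ β

theorem mem_spectrum_sub {A : Type*} [Ring A] [Algebra ℂ A] {x : A} {z ζ : ℂ} :
    z - ζ ∈ spectrum ℂ (x - algebraMap ℂ A ζ) ↔ z ∈ spectrum ℂ x := by
  rw [spectrum.mem_iff, spectrum.mem_iff]
  have : algebraMap ℂ A (z - ζ) - (x - algebraMap ℂ A ζ) = algebraMap ℂ A z - x := by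
    rw [map_sub]; abel
  rw [this]

theorem ri_transfer {A B : Type*} [Ring A] [Algebra ℂ A] [Ring B] [Algebra ℂ B] {x : A} {y : B}
    {α β : ℝ} (hab : α ≤ β)
    (h : ∀ (ζ : ℂ) (c : ℝ), 0 ≤ c → SR (y - algebraMap ℂ B ζ) c → SR (x - algebraMap ℂ A ζ) c)
    (hy : RI y α β) : RI x α β := by
  intro z hz
  set m : ℝ := (α + β) / 2 with hm
  set δ : ℝ := (β - α) / 2 with hδ
  have hδ0 : 0 ≤ δ := by rw [hδ]; linarith
  have key : ∀ s : ℝ, (z.re - m) ^ 2 + (z.im - s) ^ 2 ≤ δ ^ 2 + s ^ 2 := by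
    intro s
    set ζ : ℂ := ⟨m, s⟩ with hζ
    have h1 : SR (y - algebraMap ℂ B ζ) (Real.sqrt (δ ^ 2 + s ^ 2)) := by
      intro v hv
      have hv2 : v + ζ ∈ spectrum ℂ y := by
        rw [← mem_spectrum_sub (ζ := ζ)]
        simpa using hv
      obtain ⟨h2, h3, h4⟩ := hy _ hv2
      simp only [Complex.add_im, Complex.add_re, hζ] at h2 h3 h4
      apply Real.le_sqrt_of_sq_le
      rw [Complex.sq_norm, Complex.normSq_apply]
      have e1 : v.im = -s := by linarith
      have e2 : |v.re| ≤ δ := by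
        rw [abs_le]; constructor <;> (rw [hδ]; rw [hm] at h3 h4; linarith)
      have e3 : v.re ^ 2 ≤ δ ^ 2 := by
        rw [← sq_abs]; exact pow_le_pow_left₀ (abs_nonneg _) e2 2
      rw [e1]; nlinarith
    have h5 := h ζ _ (Real.sqrt_nonneg _) h1 (z - ζ) (mem_spectrum_sub.mpr hz)
    have h6 : ‖z - ζ‖ ^ 2 ≤ δ ^ 2 + s ^ 2 := by
      have := pow_le_pow_left₀ (norm_nonneg _) h5 2
      rwa [Real.sq_sqrt (by positivity)] at this
    rw [Complex.sq_norm, Complex.normSq_apply] at h6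
    simp only [Complex.sub_re, Complex.sub_im, hζ] at h6
    nlinarith
  have him : z.im = 0 := by
    by_contra hne
    have h1 := key (-(δ ^ 2 + 1) / (2 * z.im))
    have h2 : (z.im - -(δ ^ 2 + 1) / (2 * z.im)) ^ 2
        = z.im ^ 2 + (δ ^ 2 + 1) + (-(δ ^ 2 + 1) / (2 * z.im)) ^ 2 := by
      field_simp
      ring
    nlinarith [sq_nonneg (z.re - m), sq_nonneg z.im]
  have h0 := key 0
  rw [him] at h0
  have h1 : |z.re - m| ≤ δ := abs_le_of_sq_le_sq (by nlinarith) hδ0
  rw [abs_le] at h1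
  refine ⟨him, ?_, ?_⟩
  · rw [hm, hδ] at h1; linarith
  · rw [hm, hδ] at h1; linarith

section joint

variable {B : Type*} [NormedRing B] [NormedAlgebra ℂ B] [CompleteSpace B]

/-- a form of the joint spectral mapping theorem for two commuting elements -/
theorem joint {K L : B} (hKL : K * L = L * K) {l : ℂ} (hl : l ∈ spectrum ℂ (K * K - L)) :
    ∃ y w : ℂ, y * y - w = l ∧ ∀ α β γ : ℂ,
      α * y + β * w + γ ∈ spectrum ℂ (α • K + β • L + algebraMap ℂ B γ) := by
  set s : Set B := {K, L} with hs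
  let S : Subalgebra ℂ B := Subalgebra.centralizer ℂ (Set.centralizer s)
  have hmem : ∀ x : B, x ∈ S ↔ ∀ g ∈ Set.centralizer s, g * x = x * g := fun x =>
    Subalgebra.mem_centralizer_iff ℂ
  have hsc : s ⊆ Set.centralizer s := by
    rintro x (rfl | rfl)
    · rw [Set.mem_centralizer_iff]
      rintro m (rfl | rfl)
      · rfl
      · exact hKL.symm
    · rw [Set.mem_centralizer_iff]
      rintro m (rfl | rfl)
      · exact hKL
      · rfl
  have hKS : K ∈ S := by
    rw [hmem]; intro g hg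
    rw [Set.mem_centralizer_iff] at hg
    exact (hg K (by simp [hs])).symm
  have hLS : L ∈ S := by
    rw [hmem]; intro g hg
    rw [Set.mem_centralizer_iff] at hg
    exact (hg L (by simp [hs])).symm
  have hcomm : ∀ x y : S, x * y = y * x := by
    rintro ⟨x, hx⟩ ⟨y, hy⟩
    apply Subtype.ext
    show x * y = y * x
    have hx' : x ∈ Set.centralizer s := by
      rw [Set.mem_centralizer_iff]
      intro m hm
      exact (hmem x).mp hx m (hsc hm)
    exact (hmem y).mp hy x hx'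
  let inst1 : NormedCommRing S := { (inferInstance : NormedRing S) with mul_comm := hcomm }
  have hclosed : IsClosed (S : Set B) := Set.isClosed_centralizer _
  have inst2 : CompleteSpace S := hclosed.completeSpace_coe
  have hunit : ∀ x : S, IsUnit (x : B) → IsUnit x := by
    rintro ⟨x, hx⟩ ⟨u, hu⟩
    have hu' : (u : B) = x := hu
    have hinv : ((u⁻¹ : Bˣ) : B) ∈ S := by
      rw [hmem]
      intro g hg
      have h1 : g * u = u * g := by rw [hu']; exact (hmem x).mp hx g hg
      exact (Commute.units_inv_right (show Commute g (u : B) from h1))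
    refine ⟨⟨⟨x, hx⟩, ⟨_, hinv⟩, ?_, ?_⟩, rfl⟩
    · apply Subtype.ext; show x * ((u⁻¹ : Bˣ) : B) = 1; rw [← hu']; exact u.mul_inv
    · apply Subtype.ext; show ((u⁻¹ : Bˣ) : B) * x = 1; rw [← hu']; exact u.inv_mul
  let k : S := ⟨K, hKS⟩
  let m : S := ⟨L, hLS⟩
  have hl' : l ∈ spectrum ℂ (k * k - m) := by
    intro hc
    apply hl
    rw [spectrum.mem_resolventSet_iff] at hc ⊢
    have := hc.map (S.val)
    simpa using this
  obtain ⟨χ, hχ⟩ := WeakDual.CharacterSpace.mem_spectrum_iff_exists.mp hl'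
  refine ⟨χ k, χ m, ?_, ?_⟩
  · rw [← hχ, map_sub, map_mul]
  · intro α β γ
    have h1 : α * χ k + β * χ m + γ ∈ spectrum ℂ (α • k + β • m + algebraMap ℂ S γ) := by
      rw [WeakDual.CharacterSpace.mem_spectrum_iff_exists]
      refine ⟨χ, ?_⟩
      rw [map_add, map_add, map_smul, map_smul, smul_eq_mul, smul_eq_mul]
      congr 1
      exact AlgHomClass.commutes χ γ
    intro hc
    apply h1
    rw [spectrum.mem_resolventSet_iff] at hc ⊢
    apply hunit
    simpa using hc

end joint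

end Pool.Agent.Helper139.SI
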