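import Pool.Agent.Helper139.SI7

open Filter Topology Complex Metric Polynomial

namespace Pool.Agent.Helper139.SI

section com

variable {A : Type*} [CStarAlgebra A] [Nontrivial A]

/-- `x` commutes with the two-sided annihilator of `k` -/
def Com (k x : A) : Prop := ∀ a : A, a * k = 0 → k * a = 0 → a * x = x * a

theorem Com.mul {k x y : A} (hx : Com k x) (hy : Com k y) : Com k (x * y) := by
  intro a h1 h2
  rw [← mul_assoc, hx a h1 h2, mul_assoc, hy a h1 h2, mul_assoc]

theorem Com.one {k : A} : Com k 1 := fun a _ _ => by simp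

theorem Com.pow {k x : A} (hx : Com k x) (n : ℕ) : Com k (x ^ n) := by
  induction n with
  | zero => simpa using Com.one
  | succ n ih => rw [pow_succ]; exact ih.mul hx

theorem Com.sub {k x y : A} (hx : Com k x) (hy : Com k y) : Com k (x - y) := by
  intro a h1 h2
  rw [mul_sub, sub_mul, hx a h1 h2, hy a h1 h2]

theorem Com.alg {k : A} (c : ℂ) : Com k (algebraMap ℂ A c) := fun a _ _ =>
  (Algebra.commutes c a).symm

theorem Com.sq {k : A} : Com k (k * k) := by
  intro a h1 h2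
  rw [← mul_assoc, h1, zero_mul, mul_assoc, h2, mul_zero]

theorem Com.inv {k : A} {u : Aˣ} (hu : Com k (u : A)) : Com k ((u⁻¹ : Aˣ) : A) := by
  intro a h1 h2
  exact (Commute.units_inv_right (show Commute a (u : A) from hu a h1 h2))

theorem sr_mul_commute {f x : A} (hf : ‖f‖ ≤ 1) (hc : f * x = x * f) {c : ℝ} (hc0 : 0 ≤ c)
    (h : SR x c) : SR (f * x) c := by
  intro z hz
  apply le_of_forall_gt_imp_ge_of_dense
  intro c' hc'
  obtain ⟨n, hn, hlt⟩ := exists_pow_lt hc0 h hc'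
  have h1 : ‖z‖ ^ n ≤ c' ^ n := by
    calc ‖z‖ ^ n ≤ ‖(f * x) ^ n‖ := pow_le_of_mem hz n
      _ = ‖f ^ n * x ^ n‖ := by rw [(show Commute f x from hc).mul_pow]
      _ ≤ ‖f ^ n‖ * ‖x ^ n‖ := norm_mul_le _ _
      _ ≤ 1 * c' ^ n := by
          gcongr
          exact (norm_pow_le f n).trans (pow_le_one₀ (norm_nonneg _) hf)
      _ = c' ^ n := one_mul _
  exact le_of_pow_le_pow_left₀ (by omega) (hc0.trans hc'.le) h1

theorem norm_le_of_com {k x e : A} (hx : Com k x) (hk : IsSelfAdjoint k) (he : IsSelfAdjoint e)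
    (he1 : ‖e‖ ≤ 1) (hek : e * k = 0) {c : ℝ} (hc0 : 0 ≤ c) (h : SR x c) :
    ‖e * e * x‖ ≤ c := by
  have hke : k * e = 0 := by
    have := congrArg star hek
    rwa [star_mul, hk.star_eq, he.star_eq, star_zero] at this
  have hex : e * x = x * e := hx e hek hke
  have hexs : e * star x = star x * e := by
    have := congrArg star hex
    rw [star_mul, star_mul, he.star_eq] at this
    exact this.symm
  set m : A := e * star x * e with hm
  have hmk : m * k = 0 := by rw [hm, mul_assoc, hek, mul_zero]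
  have hkm : k * m = 0 := by rw [hm, ← mul_assoc, ← mul_assoc, hke, zero_mul, zero_mul]
  have hmx : m * x = x * m := hx m hmk hkm
  have hme : m * (e * e) = (e * e) * m := by
    have h1 : m = e * e * star x := by rw [hm, mul_assoc, ← hexs, mul_assoc]
    rw [h1]
    have h2 : star x * (e * e) = e * e * star x := by
      rw [← mul_assoc, ← hexs, mul_assoc, ← hexs, mul_assoc]
    rw [mul_assoc, h2]
  have hstar : star (e * e * x) = m := by
    rw [star_mul, star_mul, he.star_eq, hm, hexs, mul_assoc]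
  have hnormal : IsStarNormal (e * e * x) := by
    constructor
    rw [hstar]
    show m * (e * e * x) = e * e * x * m
    rw [← mul_assoc, hme, mul_assoc, hmx]
    simp only [mul_assoc]
  have hee : ‖e * e‖ ≤ 1 := (norm_mul_le _ _).trans (mul_le_one₀ he1 (norm_nonneg _) he1)
  have heex : (e * e) * x = x * (e * e) := by
    rw [mul_assoc, hex, ← mul_assoc, hex, mul_assoc]
  exact norm_le_of_sr_normal hnormal hc0 (sr_mul_commute hee heex hc0 h)

theorem ri_sa {x : A} (hx : IsSelfAdjoint x) : RI x (-‖x‖) ‖x‖ := by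
  intro z hz
  have h1 := spectrum.norm_le_norm_of_mem hz
  have h2 : z.im = 0 := hx.im_eq_zero_of_mem_spectrum hz
  have h3 : |z.re| ≤ ‖x‖ := (Complex.abs_re_le_norm z).trans h1
  rw [abs_le] at h3
  exact ⟨h2, h3.1, h3.2⟩

theorem ri_sq {x : A} {c : ℝ} (hx : RI x (-c) c) : RI (x * x) 0 (c ^ 2) := by
  intro z hz
  rw [← sq, spectrum.map_pow_of_pos x (by norm_num : 0 < 2)] at hz
  obtain ⟨v, hv, rfl⟩ := hz
  obtain ⟨h1, h2, h3⟩ := hx v hv
  have hv' : v = (v.re : ℂ) := by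
    apply Complex.ext <;> simp [h1]
  have e : (fun x : ℂ => x ^ 2) v = ((v.re ^ 2 : ℝ) : ℂ) := by
    simp only
    rw [hv']; push_cast; simp
  rw [e]
  refine ⟨Complex.ofReal_im _, ?_, ?_⟩
  · rw [Complex.ofReal_re]; positivity
  · rw [Complex.ofReal_re]
    have : |v.re| ≤ c := abs_le.mpr ⟨h2, h3⟩
    rw [← sq_abs]
    exact pow_le_pow_left₀ (abs_nonneg _) this 2

theorem bern {u : ℝ} (h0 : 0 ≤ u) (h1 : u ≤ 1) (m : ℕ) : u * (1 - u) ^ m ≤ 1 / (m + 1) := by
  have hb : 1 + (m : ℝ) * u ≤ (1 + u) ^ m := one_add_mul_le_pow (by linarith) m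
  have h2 : (1 + (m : ℝ) * u) * (1 - u) ^ m ≤ 1 := by
    calc (1 + (m : ℝ) * u) * (1 - u) ^ m ≤ (1 + u) ^ m * (1 - u) ^ m := by
          apply mul_le_mul_of_nonneg_right hb
          exact pow_nonneg (by linarith) m
      _ = (1 - u ^ 2) ^ m := by rw [← mul_pow]; congr 1; ring
      _ ≤ 1 := pow_le_one₀ (by nlinarith) (by nlinarith)
  rw [le_div_iff₀ (by positivity)]
  have h3 : 0 ≤ (1 - u) ^ m := pow_nonneg (by linarith) m
  have hm0 : (0 : ℝ) ≤ m := Nat.cast_nonneg m
  nlinarith [mul_nonneg h3 (by linarith : 0 ≤ 1 - u)]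

theorem sr_poly {y : A} {M c : ℝ} (hM : 0 ≤ M) (hMc : M ≤ c) (hc : 0 < c) (hy : RI y 0 M) (m : ℕ) :
    SR (y * (algebraMap ℂ A c - y) ^ m) (c ^ (m + 1) / (m + 1)) := by
  have e1 : y * (algebraMap ℂ A c - y) ^ m = aeval y (X * (C (c : ℂ) - X) ^ m) := by
    simp
  intro z hz
  rw [e1, spectrum.map_polynomial_aeval_of_nonempty y _ (spectrum.nonempty y)] at hz
  obtain ⟨v, hv, rfl⟩ := hz
  obtain ⟨h1, h2, h3⟩ := hy v hv
  have hv' : v = (v.re : ℂ) := by
    apply Complex.ext <;> simp [h1]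
  simp only [eval_mul, eval_X, eval_pow, eval_sub, eval_C]
  rw [hv']
  have e2 : ((v.re : ℂ)) * ((c : ℂ) - (v.re : ℂ)) ^ m = ((v.re * (c - v.re) ^ m : ℝ) : ℂ) := by
    push_cast; ring
  rw [e2, Complex.norm_real, Real.norm_of_nonneg (mul_nonneg h2 (pow_nonneg (by linarith) m))]
  have hb := bern (u := v.re / c) (by positivity) (by rw [div_le_one hc]; linarith) m
  have e3 : v.re * (c - v.re) ^ m = c ^ (m + 1) * (v.re / c * (1 - v.re / c) ^ m) := by
    have : c - v.re = c * (1 - v.re / c) := by field_simp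
    rw [this, mul_pow, pow_succ]
    field_simp
  rw [e3]
  calc c ^ (m + 1) * (v.re / c * (1 - v.re / c) ^ m) ≤ c ^ (m + 1) * (1 / (m + 1)) :=
        mul_le_mul_of_nonneg_left hb (by positivity)
    _ = c ^ (m + 1) / (m + 1) := by ring

theorem sr_inv_pow {y : A} {M c : ℝ} (hc : 0 < c) (hy : RI y (-M) 0) {V : Aˣ}
    (hV : (V : A) = algebraMap ℂ A c - y) {m : ℕ} (hm : 0 < m) :
    SR (((V⁻¹ : Aˣ) : A) ^ m) ((1 / c) ^ m) := by
  intro z hz
  rw [spectrum.map_pow_of_pos _ hm] at hz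
  obtain ⟨v, hv, rfl⟩ := hz
  rw [← spectrum.map_inv, Set.mem_inv, hV] at hv
  have h1 : (c : ℂ) - v⁻¹ ∈ spectrum ℂ y := by
    rw [spectrum.mem_iff] at hv ⊢
    intro hu
    apply hv
    have : algebraMap ℂ A v⁻¹ - (algebraMap ℂ A c - y)
        = -(algebraMap ℂ A ((c : ℂ) - v⁻¹) - y) := by
      rw [map_sub]; abel
    rw [this]
    exact hu.neg
  obtain ⟨h2, h3, h4⟩ := hy _ h1
  have h5 : c ≤ ‖v⁻¹‖ := by
    have h6 : c ≤ (v⁻¹).re := by
      simp only [Complex.sub_re, Complex.ofReal_re] at h4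
      linarith
    exact h6.trans ((le_abs_self _).trans (Complex.abs_re_le_norm _))
  simp only [norm_pow]
  rw [norm_inv] at h5
  have hv0 : 0 < ‖v‖ := by
    by_contra hcon
    have : ‖v‖ = 0 := le_antisymm (not_lt.mp hcon) (norm_nonneg _)
    rw [this, inv_zero] at h5
    linarith
  gcongr
  rw [le_div_iff₀ hc]
  rw [le_inv_comm₀ hc hv0] at h5
  rw [← one_div] at h5
  rw [le_div_iff₀ hc] at h5
  exact h5

end com

end Pool.Agent.Helper139.SI
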