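import Pool.Agent.Helper139.SI8

open Filter Topology Complex Metric Polynomial

namespace Pool.Agent.Helper139.SI

section main

variable {A B : Type*} [CStarAlgebra A] [CStarAlgebra B] [Nontrivial A] [Nontrivial B]

/-- the transported inner derivations are Jordan derivations -/
theorem Dmap_jordan {T : A ≃L[ℂ] B} (hT : CSI T) (a : A) (y : B) :
    Dmap T a (y * y) = Dmap T a y * y + y * Dmap T a y := by
  letI := CStarAlgebra.spectralOrder B
  letI := CStarAlgebra.spectralOrderedRing B
  exact jordan_all (Dmap T a) (Dmap_one hT a) (fun φ g hφ hg => Dmap_P hT a hφ hg) y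

theorem comm_sq {T : A ≃L[ℂ] B} (hT : CSI T) (k : A) : T k * T (k * k) = T (k * k) * T k := by
  have h1 := Dmap_jordan hT.symm (T k) k
  have h2 : Dmap T.symm (T k) k = 0 := by
    rw [Dmap_apply]; simp
  rw [h2, zero_mul, mul_zero, add_zero, Dmap_apply] at h1
  have h3 : T.symm (T k * T (k * k) - T (k * k) * T k) = 0 := h1
  have h4 := congrArg T h3
  rw [ContinuousLinearEquiv.apply_symm_apply, map_zero] at h4
  exact sub_eq_zero.mp h4

theorem CSI.sub_alg {T : A ≃L[ℂ] B} (hT : CSI T) (x : A) (ζ : ℂ) :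
    T (x - algebraMap ℂ A ζ) = T x - algebraMap ℂ B ζ := by
  rw [map_sub, Algebra.algebraMap_eq_smul_one, Algebra.algebraMap_eq_smul_one, map_smul, hT.one]

theorem ri_T {T : A ≃L[ℂ] B} (hT : CSI T) {x : A} {α β : ℝ} (hab : α ≤ β) (h : RI x α β) :
    RI (T x) α β := by
  refine ri_transfer hab (fun ζ c hc hs => ?_) h
  rw [← hT.sub_alg, hT.sr _ _ hc]
  exact hs

theorem ri_symm {T : A ≃L[ℂ] B} (hT : CSI T) {x : B} {α β : ℝ} (hab : α ≤ β) (h : RI x α β) :
    RI (T.symm x) α β := ri_T hT.symm hab h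

/-- spectrum of `K² - K₂` -/
theorem ri_diff {T : A ≃L[ℂ] B} (hT : CSI T) {k : A} (hk : IsSelfAdjoint k) :
    RI (T k * T k - T (k * k)) (-(‖k‖ ^ 2)) 0 := by
  intro l hl
  obtain ⟨y, w, hyw, hj⟩ := joint (comm_sq hT k) hl
  have hy : y ∈ spectrum ℂ (T k) := by
    have := hj 1 0 0
    simpa using this
  have hw : w ∈ spectrum ℂ (T (k * k)) := by
    have := hj 0 1 0
    simpa using this
  obtain ⟨hy1, hy2, hy3⟩ := ri_T hT (by linarith [norm_nonneg k]) (ri_sa hk) y hy
  obtain ⟨hw1, hw2, hw3⟩ := ri_T hT (by positivity) (ri_sq (ri_sa hk)) w hw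
  have hyr : y = (y.re : ℂ) := by apply Complex.ext <;> simp [hy1]
  -- the square of `k - s`
  set s : ℝ := y.re with hs
  have hks : IsSelfAdjoint (k - algebraMap ℂ A s) := by
    refine hk.sub ?_
    rw [Algebra.algebraMap_eq_smul_one]
    rw [isSelfAdjoint_iff, star_smul, star_one]
    simp
  have h1 := ri_T hT (by positivity) (ri_sq (ri_sa hks))
  have e1 : T ((k - algebraMap ℂ A s) * (k - algebraMap ℂ A s))
      = (-(2 * s) : ℂ) • T k + (1 : ℂ) • T (k * k) + algebraMap ℂ B ((s : ℂ) ^ 2) := by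
    have e2 : (k - algebraMap ℂ A s) * (k - algebraMap ℂ A s)
        = k * k - (2 * s : ℂ) • k + ((s : ℂ) ^ 2) • (1 : A) := by
      rw [Algebra.algebraMap_eq_smul_one, sub_mul, mul_sub, mul_sub, mul_smul_comm, smul_mul_assoc,
        smul_mul_smul_comm, mul_one, one_mul, mul_one, two_mul, add_smul, sq]
      abel
    rw [e2, map_add, map_sub, map_smul, map_smul, hT.one, Algebra.algebraMap_eq_smul_one, neg_smul,
      one_smul]
    abel
  rw [e1] at h1
  obtain ⟨h2, h3, -⟩ := h1 _ (hj (-(2 * s)) 1 ((s : ℂ) ^ 2))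
  have e3 : (-(2 * (s : ℂ))) * y + 1 * w + (s : ℂ) ^ 2 = w - ((s ^ 2 : ℝ) : ℂ) := by
    rw [hyr]; push_cast; ring
  rw [e3] at h3
  simp only [Complex.sub_re, Complex.ofReal_re] at h3
  have e4 : y * y = ((s ^ 2 : ℝ) : ℂ) := by
    rw [hyr]; push_cast; ring
  rw [← hyw, e4]
  refine ⟨?_, ?_, ?_⟩
  · rw [Complex.sub_im, Complex.ofReal_im, hw1, sub_zero]
  · rw [Complex.sub_re, Complex.ofReal_re]
    nlinarith [sq_nonneg s]
  · rw [Complex.sub_re, Complex.ofReal_re]
    linarith

theorem com_y {T : A ≃L[ℂ] B} (hT : CSI T) (k : A) : Com k (T.symm (T k * T k)) := by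
  intro a h1 h2
  have e1 : Dmap T a (T k) = 0 := by
    rw [Dmap_apply', h1, h2, sub_zero, map_zero]
  have e2 := Dmap_jordan hT a (T k)
  rw [e1, zero_mul, mul_zero, add_zero, Dmap_apply] at e2
  have e3 := congrArg T.symm e2
  rw [ContinuousLinearEquiv.symm_apply_apply, map_zero] at e3
  exact sub_eq_zero.mp e3

theorem key_unit {T : A ≃L[ℂ] B} (hT : CSI T) {k e : A} (hk : IsSelfAdjoint k)
    (he : IsSelfAdjoint e) (he1 : ‖e‖ ≤ 1) (hek : e * k = 0) :
    e * T.symm (T k * T k) = 0 := by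
  have hke : k * e = 0 := by
    have := congrArg star hek
    rwa [star_mul, hk.star_eq, he.star_eq, star_zero] at this
  set y : A := T.symm (T k * T k) with hy
  set M : ℝ := ‖k‖ ^ 2 with hM
  have hM0 : 0 ≤ M := by positivity
  have hcy : Com k y := com_y hT k
  have hey : e * y = y * e := hcy e hek hke
  have hry : RI y 0 M := ri_symm hT hM0 (ri_sq (ri_T hT (by linarith [norm_nonneg k]) (ri_sa hk)))
  have hry2 : RI (y - k * k) (-M) 0 := by
    have e1 : y - k * k = T.symm (T k * T k - T (k * k)) := by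
      rw [map_sub, ContinuousLinearEquiv.symm_apply_apply]
    rw [e1]
    exact ri_symm hT (by linarith) (ri_diff hT hk)
  have hcy2 : Com k (y - k * k) := hcy.sub Com.sq
  set c : ℝ := M + 1 with hc
  have hc0 : 0 < c := by linarith
  -- the unit `c - (y - k²)`
  have hVu : IsUnit (algebraMap ℂ A c - (y - k * k)) := by
    by_contra hcon
    obtain ⟨-, -, h3⟩ := hry2 (c : ℂ) hcon
    rw [Complex.ofReal_re] at h3
    linarith
  obtain ⟨V, hV⟩ := hVu
  set R : A := ((V⁻¹ : Aˣ) : A) with hR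
  set W : A := algebraMap ℂ A c - y with hW
  have hcV : Com k (V : A) := by rw [hV]; exact (Com.alg _).sub hcy2
  have hcR : Com k R := hcV.inv
  have hcW : Com k W := (Com.alg _).sub hcy
  have heV : e * (V : A) = e * W := by
    rw [hV, hW, mul_sub, mul_sub, mul_sub, ← mul_assoc e k k, hek, zero_mul, sub_zero]
  have hVe : e * (V : A) = V * e := hcV e hek hke
  have hWe : ∀ m : ℕ, e * W ^ m = W ^ m * e := fun m => (hcW.pow m) e hek hke
  have hVWp : ∀ m : ℕ, e * W ^ m = e * (V : A) ^ m := by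
    intro m
    induction m with
    | zero => simp
    | succ m ih =>
      have hVm : e * (V : A) ^ m = (V : A) ^ m * e := (hcV.pow m) e hek hke
      calc e * W ^ (m + 1) = (e * W ^ m) * W := by rw [pow_succ, mul_assoc]
        _ = (V : A) ^ m * (e * W) := by rw [ih, hVm, mul_assoc]
        _ = (V : A) ^ m * (e * V) := by rw [heV]
        _ = (e * (V : A) ^ m) * V := by rw [← mul_assoc, hVm]
        _ = e * (V : A) ^ (m + 1) := by rw [pow_succ, mul_assoc]
  have hVR : ∀ m : ℕ, (V : A) ^ m * R ^ m = 1 := by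
    intro m
    have h1 : Commute (V : A) R := by
      show (V : A) * R = R * V
      rw [hR, V.mul_inv, V.inv_mul]
    rw [← h1.mul_pow, hR, V.mul_inv, one_pow]
  have hmain : ∀ m : ℕ, 0 < m → ‖e * e * (e * e) * y‖ ≤ c / (m + 1) := by
    intro m hm
    have e1 : e * e * (e * e) * y = (e * e * (y * W ^ m)) * (e * e * R ^ m) := by
      symm
      calc (e * e * (y * W ^ m)) * (e * e * R ^ m)
          = e * e * y * (W ^ m * e) * e * R ^ m := by simp only [mul_assoc]
        _ = e * e * y * (e * W ^ m) * e * R ^ m := by rw [hWe]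
        _ = e * e * y * e * (W ^ m * e) * R ^ m := by simp only [mul_assoc]
        _ = e * e * y * e * (e * W ^ m) * R ^ m := by rw [hWe]
        _ = e * e * y * e * e * ((V : A) ^ m * R ^ m) := by rw [hVWp]; simp only [mul_assoc]
        _ = e * e * (y * e) * e := by rw [hVR, mul_one]; simp only [mul_assoc]
        _ = e * e * (e * y) * e := by rw [hey]
        _ = e * e * e * (y * e) := by simp only [mul_assoc]
        _ = e * e * e * (e * y) := by rw [hey]
        _ = e * e * (e * e) * y := by simp only [mul_assoc]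
    rw [e1]
    have h1 : ‖e * e * (y * W ^ m)‖ ≤ c ^ (m + 1) / (m + 1) :=
      norm_le_of_com (hcy.mul (hcW.pow m)) hk he he1 hek (by positivity)
        (sr_poly hM0 (by linarith) hc0 hry m)
    have h2 : ‖e * e * R ^ m‖ ≤ (1 / c) ^ m :=
      norm_le_of_com (hcR.pow m) hk he he1 hek (by positivity) (sr_inv_pow hc0 hry2 hV hm)
    calc ‖(e * e * (y * W ^ m)) * (e * e * R ^ m)‖
        ≤ ‖e * e * (y * W ^ m)‖ * ‖e * e * R ^ m‖ := norm_mul_le _ _
      _ ≤ (c ^ (m + 1) / (m + 1)) * (1 / c) ^ m := by gcongr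
      _ = c / (m + 1) := by
          rw [one_div, inv_pow, pow_succ]
          field_simp
  have h4 : e * e * (e * e) * y = 0 := by
    have hlim : Tendsto (fun m : ℕ => c / ((m : ℝ) + 1)) atTop (𝓝 0) := by
      apply Tendsto.const_div_atTop
      exact tendsto_atTop_add_const_right _ _ tendsto_natCast_atTop_atTop
    have : ‖e * e * (e * e) * y‖ ≤ 0 := ge_of_tendsto hlim (by
      filter_upwards [eventually_gt_atTop 0] with m hm using hmain m hm)
    exact norm_le_zero_iff.mp this
  have h2 : e * e * y = 0 := by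
    rw [← CStarRing.star_mul_self_eq_zero_iff]
    rw [star_mul, star_mul, he.star_eq]
    calc star y * (e * e) * (e * e * y) = star y * (e * e * (e * e) * y) := by
          simp only [mul_assoc]
      _ = 0 := by rw [h4, mul_zero]
  rw [← CStarRing.star_mul_self_eq_zero_iff, star_mul, he.star_eq]
  calc star y * e * (e * y) = star y * (e * e * y) := by simp only [mul_assoc]
    _ = 0 := by rw [h2, mul_zero]

theorem key {T : A ≃L[ℂ] B} (hT : CSI T) {k e : A} (hk : IsSelfAdjoint k)
    (he : IsSelfAdjoint e) (hek : e * k = 0) : e * T.symm (T k * T k) = 0 := by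
  by_cases h0 : e = 0
  · rw [h0, zero_mul]
  have hn : 0 < ‖e‖ := norm_pos_iff.mpr h0
  have h1 := key_unit hT (k := k) (e := ‖e‖⁻¹ • e) hk
    (by rw [isSelfAdjoint_iff, star_smul, star_trivial, he.star_eq])
    (by rw [norm_smul, norm_inv, norm_norm, inv_mul_cancel₀ hn.ne'])
    (by rw [smul_mul_assoc, hek, smul_zero])
  rw [smul_mul_assoc] at h1
  rcases smul_eq_zero.mp h1 with h | h
  · exact absurd h (inv_ne_zero hn.ne')
  · exact h

end main

end Pool.Agent.Helper139.SI
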