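import Mathlib

set_option autoImplicit false
open Finset

namespace Pool.Agent.Helper139.Tw1

/-- The offsets `o 0 = 0`, `o (k+1) = o k + 6^k`. -/
def o : ℕ → ℤ
  | 0 => 0
  | k + 1 => o k + 6 ^ k

lemma o_succ (k : ℕ) : o (k + 1) = o k + 6 ^ k := rfl

lemma o_zero : o 0 = 0 := rfl

lemma Npos (k : ℕ) : (0 : ℤ) < 6 ^ k := by positivity

lemma Nsucc (k : ℕ) : (6 : ℤ) ^ (k + 1) = 6 * 6 ^ k := by ring

lemma five_o (k : ℕ) : 5 * o k = 6 ^ k - 1 := by
  induction k with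
  | zero => simp [o]
  | succ k ih => rw [o_succ, Nsucc]; linarith

lemma o_nonneg (k : ℕ) : 0 ≤ o k := by
  have := five_o k
  have h := Npos k
  omega

/-- Window sums. -/
noncomputable def S (G : ℕ → ℤ → ℝ) (k : ℕ) (a b : ℤ) : ℝ := ∑ n ∈ Finset.Ico a b, G k n

section
variable {G : ℕ → ℤ → ℝ}

lemma S_nonneg (hG : ∀ k n, 0 ≤ G k n) (k : ℕ) (a b : ℤ) : 0 ≤ S G k a b :=
  Finset.sum_nonneg fun n _ => hG k n

lemma S_mono (hG : ∀ k n, 0 ≤ G k n) (k : ℕ) {a b a' b' : ℤ} (h1 : a' ≤ a) (h2 : b ≤ b') :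
    S G k a b ≤ S G k a' b' :=
  Finset.sum_le_sum_of_subset_of_nonneg (Finset.Ico_subset_Ico h1 h2) fun n _ _ => hG k n

lemma S_add (k : ℕ) {a b c : ℤ} (h1 : a ≤ b) (h2 : b ≤ c) :
    S G k a b + S G k b c = S G k a c := by
  unfold S
  rw [← Finset.Ico_union_Ico_eq_Ico h1 h2,
    Finset.sum_union (Finset.Ico_disjoint_Ico_consecutive a b c)]

lemma S_shift (k : ℕ) (a b s : ℤ) :
    ∑ n ∈ Finset.Ico a b, G k (n + s) = S G k (a + s) (b + s) := by
  unfold S
  rw [← Finset.map_add_right_Ico, Finset.sum_map]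
  rfl

lemma S_up1 (h1 : ∀ k n, G k n ≤ G (k + 1) n + G (k + 1) (n + 6 ^ k)) (k : ℕ) (a b : ℤ) :
    S G k a b ≤ S G (k + 1) a b + S G (k + 1) (a + 6 ^ k) (b + 6 ^ k) := by
  rw [← S_shift]
  unfold S
  rw [← Finset.sum_add_distrib]
  exact Finset.sum_le_sum fun n _ => h1 k n

lemma S_up2 {c : ℝ} (h2 : ∀ k n, G k n ≤ 2 * G (k + 1) n + 2 * c * G (k + 1) (n + 6 ^ k))
    (k : ℕ) (a b : ℤ) :
    S G k a b ≤ 2 * S G (k + 1) a b + 2 * c * S G (k + 1) (a + 6 ^ k) (b + 6 ^ k) := by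
  rw [← S_shift]
  unfold S
  rw [Finset.mul_sum, Finset.mul_sum, ← Finset.sum_add_distrib]
  exact Finset.sum_le_sum fun n _ => h2 k n

lemma S_bessel {B : ℝ} (hG : ∀ k n, 0 ≤ G k n)
    (hB : ∀ k a, S G k a (a + 6 ^ k) ≤ B) (k : ℕ) {a b : ℤ} (h : b ≤ a + 6 ^ k) :
    S G k a b ≤ B :=
  (S_mono hG k le_rfl h).trans (hB k a)

/-- Part 1: all low levels are dominated by one full window. -/
lemma part1 (hG : ∀ k n, 0 ≤ G k n)
    (h1 : ∀ k n, G k n ≤ G (k + 1) n + G (k + 1) (n + 6 ^ k)) (m : ℤ) (K : ℕ) :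
    ∑ k ∈ range K, S G (k + 1) (-o (k + 1) - m) (-o k - m) ≤
      S G K (-o K - m) (6 ^ K - o K - m) := by
  induction K with
  | zero => simp [S_nonneg hG]
  | succ K ih =>
    rw [Finset.sum_range_succ]
    have hN := Npos K
    have ho := o_succ K
    have hNs := Nsucc K
    have h2 := S_up1 h1 K (-o K - m) (6 ^ K - o K - m)
    have e1 : S G (K + 1) (-o (K + 1) - m) (-o K - m) + S G (K + 1) (-o K - m) (6 ^ K - o K - m)
        = S G (K + 1) (-o (K + 1) - m) (6 ^ K - o K - m) :=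
      S_add _ (by omega) (by omega)
    have e2 : S G (K + 1) (-o (K + 1) - m) (6 ^ K - o K - m) +
        S G (K + 1) (-o K - m + 6 ^ K) (6 ^ K - o K - m + 6 ^ K) =
        S G (K + 1) (-o (K + 1) - m) (6 ^ K - o K - m + 6 ^ K) := by
      have : -o K - m + 6 ^ K = 6 ^ K - o K - m := by ring
      rw [this]
      exact S_add _ (by omega) (by omega)
    have e3 : S G (K + 1) (-o (K + 1) - m) (6 ^ K - o K - m + 6 ^ K) ≤
        S G (K + 1) (-o (K + 1) - m) (6 ^ (K + 1) - o (K + 1) - m) :=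
      S_mono hG _ le_rfl (by omega)
    linarith

/-- The tail sums over far away windows are orthogonal pieces. -/
lemma part3t (hG : ∀ k n, 0 ≤ G k n)
    (h1 : ∀ k n, G k n ≤ G (k + 1) n + G (k + 1) (n + 6 ^ k)) (m : ℤ) (hm0 : 0 ≤ m)
    (K : ℕ) (hm : m ≤ 6 ^ (K + 1)) (L : ℕ) :
    ∑ k ∈ range L, S G (K + k + 2) (6 ^ (K + k + 1) - o (K + k + 1) - m)
        (6 ^ (K + k + 1) - o (K + k + 1)) ≤
      S G (K + L + 1) (-o (K + L + 1)) (6 ^ (K + L + 1) - o (K + L + 1) - m) := by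
  induction L with
  | zero =>
    simp only [Finset.range_zero, Finset.sum_empty]
    exact S_nonneg hG _ _ _
  | succ L ih =>
    rw [Finset.sum_range_succ]
    have hmL : m ≤ 6 ^ (K + L + 1) := hm.trans (by
      exact pow_le_pow_right₀ (by norm_num) (by omega))
    have hN := Npos (K + L + 1)
    have ho := o_succ (K + L + 1)
    have hNs := Nsucc (K + L + 1)
    have h2 := S_up1 h1 (K + L + 1) (-o (K + L + 1)) (6 ^ (K + L + 1) - o (K + L + 1) - m)
    have e0 : -o (K + L + 1) + 6 ^ (K + L + 1) = 6 ^ (K + L + 1) - o (K + L + 1) := by ring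
    rw [e0] at h2
    have e1 : S G (K + L + 1 + 1) (-o (K + L + 1)) (6 ^ (K + L + 1) - o (K + L + 1) - m) +
        S G (K + L + 1 + 1) (6 ^ (K + L + 1) - o (K + L + 1) - m)
          (6 ^ (K + L + 1) - o (K + L + 1)) =
        S G (K + L + 1 + 1) (-o (K + L + 1)) (6 ^ (K + L + 1) - o (K + L + 1)) :=
      S_add _ (by omega) (by omega)
    have e2 : S G (K + L + 1 + 1) (-o (K + L + 1)) (6 ^ (K + L + 1) - o (K + L + 1)) +
        S G (K + L + 1 + 1) (6 ^ (K + L + 1) - o (K + L + 1))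
          (6 ^ (K + L + 1) - o (K + L + 1) - m + 6 ^ (K + L + 1)) =
        S G (K + L + 1 + 1) (-o (K + L + 1))
          (6 ^ (K + L + 1) - o (K + L + 1) - m + 6 ^ (K + L + 1)) :=
      S_add _ (by omega) (by omega)
    have e3 : S G (K + L + 1 + 1) (-o (K + L + 1))
          (6 ^ (K + L + 1) - o (K + L + 1) - m + 6 ^ (K + L + 1)) ≤
        S G (K + (L + 1) + 1) (-o (K + (L + 1) + 1))
          (6 ^ (K + (L + 1) + 1) - o (K + (L + 1) + 1) - m) := by
      have : K + (L + 1) + 1 = K + L + 1 + 1 := by ring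
      rw [this]
      exact S_mono hG _ (by omega) (by omega)
    have e4 : K + L + 2 = K + L + 1 + 1 := by ring
    rw [e4]
    linarith

/-- The key inequality. -/
theorem key (hG : ∀ k n, 0 ≤ G k n) {c B Q : ℝ} (hc : 0 ≤ c)
    (h1 : ∀ k n, G k n ≤ G (k + 1) n + G (k + 1) (n + 6 ^ k))
    (h2 : ∀ k n, G k n ≤ 2 * G (k + 1) n + 2 * c * G (k + 1) (n + 6 ^ k))
    (hB : ∀ k a, S G k a (a + 6 ^ k) ≤ B)
    (hQ : ∀ L, ∑ k ∈ range L, S G (k + 1) (-o (k + 1)) (-o k) ≤ Q) (m : ℕ) (L : ℕ) :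
    ∑ k ∈ range L, S G (k + 1) (-o (k + 1) - m) (-o k - m) ≤ 11 * Q + 10 * c * B := by
  have hB0 : 0 ≤ B := le_trans (S_nonneg hG _ _ _) (hB 0 0)
  have hQ0 : 0 ≤ Q := by simpa using hQ 0
  have hcB : 0 ≤ c * B := mul_nonneg hc hB0
  -- single terms
  have hq1 : ∀ k, S G (k + 1) (-o (k + 1)) (-o k) ≤ Q := by
    intro k
    refine le_trans ?_ (hQ (k + 1))
    rw [Finset.sum_range_succ]
    have : 0 ≤ ∑ x ∈ range k, S G (x + 1) (-o (x + 1)) (-o x) :=
      Finset.sum_nonneg fun x _ => S_nonneg hG _ _ _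
    linarith
  rcases Nat.eq_zero_or_pos m with rfl | hm
  · have := hQ L
    simp only [Nat.cast_zero, sub_zero]
    linarith [mul_nonneg hc hB0]
  -- choose the scale
  obtain ⟨K, hK1, hK2⟩ : ∃ K : ℕ, 6 ^ K ≤ m ∧ m < 6 ^ (K + 1) :=
    ⟨Nat.log 6 m, Nat.pow_log_le_self 6 (by omega), Nat.lt_pow_succ_log_self (by norm_num) m⟩
  have hK1' : (6 : ℤ) ^ K ≤ m := by exact_mod_cast hK1
  have hK2' : (m : ℤ) < 6 ^ (K + 1) := by exact_mod_cast hK2
  have hN := Npos K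
  have ho := o_succ K
  have ho1 := o_succ (K + 1)
  have hNs := Nsucc K
  have hNs1 := Nsucc (K + 1)
  have hup2 := fun k a b => S_up2 h2 k a b
  -- enough for large L
  suffices H : ∀ L', ∑ k ∈ range (K + 1 + L'), S G (k + 1) (-o (k + 1) - m) (-o k - m) ≤
      11 * Q + 10 * c * B by
    refine le_trans ?_ (H L)
    apply Finset.sum_le_sum_of_subset_of_nonneg
    · intro x hx
      simp only [Finset.mem_range] at hx ⊢
      omega
    · intro x _ _
      exact S_nonneg hG _ _ _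
  intro L'
  rw [Finset.sum_range_add, Finset.sum_range_succ]
  -- part 1
  have p1 : ∑ k ∈ range K, S G (k + 1) (-o (k + 1) - m) (-o k - m) ≤ 6 * Q + 6 * c * B := by
    refine (part1 hG h1 m K).trans ?_
    have a1 := hup2 K (-o K - m) (6 ^ K - o K - m)
    have a2 : S G (K + 1) (-o K - m + 6 ^ K) (6 ^ K - o K - m + 6 ^ K) ≤ B :=
      S_bessel hG hB _ (by omega)
    have a3 : S G (K + 1) (-o K - m) (6 ^ K - o K - m) ≤ S G (K + 1) (-o K - m) (-o K) :=
      S_mono hG _ le_rfl (by omega)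
    have a4 : S G (K + 1) (-o K - m) (-o (K + 1)) + S G (K + 1) (-o (K + 1)) (-o K) =
        S G (K + 1) (-o K - m) (-o K) := S_add _ (by omega) (by omega)
    have a5 := hup2 (K + 1) (-o K - m) (-o (K + 1))
    have a6 : S G (K + 1 + 1) (-o K - m + 6 ^ (K + 1)) (-o (K + 1) + 6 ^ (K + 1)) ≤ B :=
      S_bessel hG hB _ (by omega)
    have a7 : S G (K + 1 + 1) (-o K - m) (-o (K + 1)) ≤
        S G (K + 1 + 1) (-o (K + 1 + 1)) (-o (K + 1)) := S_mono hG _ (by omega) le_rfl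
    have a8 := hq1 (K + 1)
    have a9 := hq1 K
    have b1 : 2 * c * S G (K + 1) (-o K - m + 6 ^ K) (6 ^ K - o K - m + 6 ^ K) ≤ 2 * c * B :=
      mul_le_mul_of_nonneg_left a2 (by positivity)
    have b2 : 2 * c * S G (K + 1 + 1) (-o K - m + 6 ^ (K + 1)) (-o (K + 1) + 6 ^ (K + 1)) ≤
        2 * c * B := mul_le_mul_of_nonneg_left a6 (by positivity)
    linarith
  -- part 2
  have p2 : S G (K + 1) (-o (K + 1) - m) (-o K - m) ≤ 2 * Q + 2 * c * B := by
    have a1 := hup2 (K + 1) (-o (K + 1) - m) (-o K - m)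
    have a2 : S G (K + 1 + 1) (-o (K + 1) - m + 6 ^ (K + 1)) (-o K - m + 6 ^ (K + 1)) ≤ B :=
      S_bessel hG hB _ (by omega)
    have a3 : S G (K + 1 + 1) (-o (K + 1) - m) (-o K - m) ≤
        S G (K + 1 + 1) (-o (K + 1 + 1)) (-o (K + 1)) := S_mono hG _ (by omega) (by omega)
    have a4 := hq1 (K + 1)
    have b1 : 2 * c * S G (K + 1 + 1) (-o (K + 1) - m + 6 ^ (K + 1)) (-o K - m + 6 ^ (K + 1)) ≤
        2 * c * B := mul_le_mul_of_nonneg_left a2 (by positivity)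
    linarith
  -- part 3
  have p3 : ∑ x ∈ range L', S G (K + 1 + x + 1) (-o (K + 1 + x + 1) - m) (-o (K + 1 + x) - m) ≤
      3 * Q + 2 * c * B := by
    have t0 := part3t hG h1 m (by omega) (K + 1) (by omega) L'
    have t1 : S G (K + 1 + L' + 1) (-o (K + 1 + L' + 1))
        (6 ^ (K + 1 + L' + 1) - o (K + 1 + L' + 1) - m) ≤ B :=
      S_bessel hG hB _ (by omega)
    have t2 := t0.trans t1
    have s1 : ∀ x ∈ range L', S G (K + 1 + x + 1) (-o (K + 1 + x + 1) - m) (-o (K + 1 + x) - m) ≤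
        S G (K + 1 + x + 1) (-o (K + 1 + x + 1)) (-o (K + 1 + x)) +
        2 * S G (K + 1 + x + 1 + 1) (-o (K + 1 + x + 1 + 1)) (-o (K + 1 + x + 1)) +
        2 * c * S G (K + 1 + x + 2) (6 ^ (K + 1 + x + 1) - o (K + 1 + x + 1) - m)
          (6 ^ (K + 1 + x + 1) - o (K + 1 + x + 1)) := by
      intro x _
      have hmx : (m : ℤ) < 6 ^ (K + 1 + x) := hK2'.trans_le
        (pow_le_pow_right₀ (by norm_num) (by omega))
      have hNx := Npos (K + 1 + x)
      have hox := o_succ (K + 1 + x)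
      have hox1 := o_succ (K + 1 + x + 1)
      have hNx1 := Nsucc (K + 1 + x)
      have a1 : S G (K + 1 + x + 1) (-o (K + 1 + x + 1) - m) (-o (K + 1 + x) - m) ≤
          S G (K + 1 + x + 1) (-o (K + 1 + x + 1) - m) (-o (K + 1 + x)) :=
        S_mono hG _ le_rfl (by omega)
      have a2 : S G (K + 1 + x + 1) (-o (K + 1 + x + 1) - m) (-o (K + 1 + x + 1)) +
          S G (K + 1 + x + 1) (-o (K + 1 + x + 1)) (-o (K + 1 + x)) =
          S G (K + 1 + x + 1) (-o (K + 1 + x + 1) - m) (-o (K + 1 + x)) :=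
        S_add _ (by omega) (by omega)
      have a3 := hup2 (K + 1 + x + 1) (-o (K + 1 + x + 1) - m) (-o (K + 1 + x + 1))
      have a4 : S G (K + 1 + x + 1 + 1) (-o (K + 1 + x + 1) - m) (-o (K + 1 + x + 1)) ≤
          S G (K + 1 + x + 1 + 1) (-o (K + 1 + x + 1 + 1)) (-o (K + 1 + x + 1)) :=
        S_mono hG _ (by omega) le_rfl
      have e1 : -o (K + 1 + x + 1) - (m : ℤ) + 6 ^ (K + 1 + x + 1) =
          6 ^ (K + 1 + x + 1) - o (K + 1 + x + 1) - m := by ring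
      have e2 : -o (K + 1 + x + 1) + 6 ^ (K + 1 + x + 1) =
          (6 : ℤ) ^ (K + 1 + x + 1) - o (K + 1 + x + 1) := by ring
      rw [e1, e2] at a3
      have e3 : K + 1 + x + 1 + 1 = K + 1 + x + 2 := by ring
      rw [e3] at a3 a4 ⊢
      linarith
    refine (Finset.sum_le_sum s1).trans ?_
    rw [Finset.sum_add_distrib, Finset.sum_add_distrib, ← Finset.mul_sum, ← Finset.mul_sum]
    have u1 : ∑ x ∈ range L', S G (K + 1 + x + 1) (-o (K + 1 + x + 1)) (-o (K + 1 + x)) ≤ Q := by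
      have := hQ (K + 1 + L')
      rw [Finset.sum_range_add] at this
      have h0 : 0 ≤ ∑ x ∈ range (K + 1), S G (x + 1) (-o (x + 1)) (-o x) :=
        Finset.sum_nonneg fun x _ => S_nonneg hG _ _ _
      linarith
    have u2 : ∑ x ∈ range L', S G (K + 1 + x + 1 + 1) (-o (K + 1 + x + 1 + 1))
        (-o (K + 1 + x + 1)) ≤ Q := by
      have := hQ (K + 2 + L')
      rw [Finset.sum_range_add] at this
      have h0 : 0 ≤ ∑ x ∈ range (K + 2), S G (x + 1) (-o (x + 1)) (-o x) :=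
        Finset.sum_nonneg fun x _ => S_nonneg hG _ _ _
      have h3 : ∀ x, K + 2 + x = K + 1 + x + 1 := fun x => by ring
      simp only [h3] at this
      linarith
    have u3 : 2 * c * ∑ x ∈ range L', S G (K + 1 + x + 2)
        (6 ^ (K + 1 + x + 1) - o (K + 1 + x + 1) - m)
          (6 ^ (K + 1 + x + 1) - o (K + 1 + x + 1)) ≤ 2 * c * B :=
      mul_le_mul_of_nonneg_left t2 (by positivity)
    linarith
  linarith

end

end Pool.Agent.Helper139.Tw1
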