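import Mathlib
import Pool.Agent.Helper139.Tw1

set_option autoImplicit false
open Finset Filter Topology
open scoped InnerProductSpace

namespace Pool.Agent.Helper139.Tw2

open Pool.Agent.Helper139.Tw1

set_option linter.unusedSectionVars false

variable {K : Type*} [NormedAddCommGroup K] [InnerProductSpace ℂ K] [CompleteSpace K]

/-- Tower data for a unitary operator. -/
structure IsTower (c0 c1 : ℝ) (U : K ≃ₗᵢ[ℂ] K) (e : ℕ → ℤ → K) : Prop where
  shift : ∀ k n, U (e k n) = e k (n + 1)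
  up : ∀ k n, e k n = (c0 : ℂ) • e (k + 1) n + (c1 : ℂ) • e (k + 1) (n + 6 ^ k)
  orth : ∀ k m n, |m - n| < 6 ^ k → ⟪e k m, e k n⟫_ℂ = if m = n then 1 else 0
  dense : (Submodule.span ℂ (Set.range (e 0))).topologicalClosure = ⊤

section general

variable {ι : Type*} {g : ι → K}

/-- Parseval for the projection on the closed span of an orthonormal family. -/
lemma hasSum_proj (hg : Orthonormal ℂ g) (v : K) :
    HasSum (fun i => ‖⟪g i, v⟫_ℂ‖ ^ 2)
      (‖(Submodule.span ℂ (Set.range g)).topologicalClosure.starProjection v‖ ^ 2) := by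
  classical
  set M := (Submodule.span ℂ (Set.range g)).topologicalClosure with hM
  have hmem : ∀ i, g i ∈ M := fun i =>
    Submodule.le_topologicalClosure _ (Submodule.subset_span ⟨i, rfl⟩)
  let b : ι → M := fun i => ⟨g i, hmem i⟩
  have hb : Orthonormal ℂ b := by
    rw [orthonormal_iff_ite] at hg ⊢
    intro i j
    have := hg i j
    simpa [b] using this
  have hbot : (Submodule.span ℂ (Set.range b))ᗮ = ⊥ := by
    rw [eq_bot_iff]
    intro x hx
    rw [Submodule.mem_orthogonal] at hx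
    have h1 : (x : K) ∈ (Submodule.span ℂ (Set.range g))ᗮ := by
      rw [Submodule.mem_orthogonal]
      intro u hu
      induction hu using Submodule.span_induction with
      | mem y hy =>
        obtain ⟨i, rfl⟩ := hy
        have := hx (b i) (Submodule.subset_span ⟨i, rfl⟩)
        simpa [b] using this
      | zero => simp
      | add y z _ _ hy hz => rw [inner_add_left, hy, hz, add_zero]
      | smul a y _ hy => rw [inner_smul_left, hy, mul_zero]
    rw [← Submodule.orthogonal_closure] at h1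
    have h2 : ⟪(x : K), (x : K)⟫_ℂ = 0 := Submodule.inner_right_of_mem_orthogonal x.2 h1
    have h3 : (x : K) = 0 := inner_self_eq_zero.1 h2
    rw [Submodule.mem_bot]
    exact Subtype.ext h3
  let B := HilbertBasis.mkOfOrthogonalEqBot hb hbot
  have h1 := B.hasSum_inner_mul_inner (M.orthogonalProjectionOnto v) (M.orthogonalProjectionOnto v)
  have h2 : ∀ i, ⟪M.orthogonalProjectionOnto v, B i⟫_ℂ * ⟪B i, M.orthogonalProjectionOnto v⟫_ℂ =
      ((‖⟪g i, v⟫_ℂ‖ ^ 2 : ℝ) : ℂ) := by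
    intro i
    have e1 : B i = b i := by simp [B]
    rw [e1, ← inner_conj_symm, Submodule.inner_orthogonalProjectionOnto_eq_of_mem_left,
      ← Complex.normSq_eq_conj_mul_self, Complex.normSq_eq_norm_sq]
  simp only [h2] at h1
  rw [inner_self_eq_norm_sq_to_K] at h1
  have h3 : ‖M.starProjection v‖ = ‖M.orthogonalProjectionOnto v‖ := by
    rw [Submodule.starProjection_apply]
    rfl
  rw [h3]
  have h4 : (((‖M.orthogonalProjectionOnto v‖ ^ 2 : ℝ)) : ℂ) =
      ((‖M.orthogonalProjectionOnto v‖ : ℂ)) ^ 2 := by push_cast; rfl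
  have h5 : HasSum (fun i => ((‖⟪g i, v⟫_ℂ‖ ^ 2 : ℝ) : ℂ))
      ((‖M.orthogonalProjectionOnto v‖ ^ 2 : ℝ) : ℂ) := by
    rw [h4]; exact h1
  exact Complex.hasSum_ofReal.1 h5

end general

lemma pow_succ_apply (U : K ≃ₗᵢ[ℂ] K) (n : ℕ) (v : K) : (U ^ (n + 1)) v = U ((U ^ n) v) := by
  rw [pow_succ']; rfl

lemma pow_succ_apply' (U : K ≃ₗᵢ[ℂ] K) (n : ℕ) (v : K) : (U ^ (n + 1)) v = (U ^ n) (U v) := by
  rw [pow_succ]; rfl

lemma pow_zero_apply (U : K ≃ₗᵢ[ℂ] K) (v : K) : (U ^ 0) v = v := by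
  rw [pow_zero]; rfl

variable {c0 c1 : ℝ} {U : K ≃ₗᵢ[ℂ] K} {e : ℕ → ℤ → K}

section tower

variable (h : IsTower c0 c1 U e)
include h

lemma shift_pow (m : ℕ) (k : ℕ) (n : ℤ) : (U ^ m) (e k n) = e k (n + m) := by
  induction m with
  | zero => rw [pow_zero_apply]; simp
  | succ m ih =>
    rw [pow_succ_apply, ih, h.shift]
    congr 1
    push_cast; ring

lemma norm_e (k : ℕ) (n : ℤ) : ‖e k n‖ = 1 := by
  have h1 := h.orth k n n (by simp)
  rw [if_pos rfl, inner_self_eq_norm_sq_to_K] at h1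
  have h3 : ((‖e k n‖ ^ 2 : ℝ) : ℂ) = ((1 : ℝ) : ℂ) := by push_cast; exact h1
  have h2 : ‖e k n‖ ^ 2 = 1 := Complex.ofReal_injective h3
  nlinarith [norm_nonneg (e k n)]

lemma coef_up (v : K) (k : ℕ) (n : ℤ) :
    ⟪e k n, v⟫_ℂ = c0 * ⟪e (k + 1) n, v⟫_ℂ + c1 * ⟪e (k + 1) (n + 6 ^ k), v⟫_ℂ := by
  conv_lhs => rw [h.up k n]
  rw [inner_add_left, inner_smul_left, inner_smul_left, Complex.conj_ofReal, Complex.conj_ofReal]

lemma coef_shift (v : K) (m : ℕ) (k : ℕ) (n : ℤ) :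
    ⟪e k n, (U ^ m) v⟫_ℂ = ⟪e k (n - m), v⟫_ℂ := by
  have h1 : e k n = (U ^ m) (e k (n - m)) := by
    rw [shift_pow h]; congr 1; ring
  rw [h1, LinearIsometryEquiv.inner_map_map]

lemma coef_bessel (v : K) (k : ℕ) (a : ℤ) :
    ∑ n ∈ Finset.Ico a (a + 6 ^ k), ‖⟪e k n, v⟫_ℂ‖ ^ 2 ≤ ‖v‖ ^ 2 := by
  have ho : Orthonormal ℂ (fun i : ↥(Finset.Ico a (a + 6 ^ k)) => e k i) := by
    rw [orthonormal_iff_ite]
    intro i j
    have hi := Finset.mem_Ico.1 i.2
    have hj := Finset.mem_Ico.1 j.2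
    rw [h.orth k i j (by rw [abs_lt]; constructor <;> omega)]
    by_cases hij : i = j
    · rw [if_pos hij, if_pos (congrArg Subtype.val hij)]
    · rw [if_neg hij, if_neg fun hh => hij (Subtype.ext hh)]
  have h1 := ho.sum_inner_products_le v (s := Finset.univ)
  rw [← Finset.sum_coe_sort (Finset.Ico a (a + 6 ^ k)) (fun n => ‖⟪e k n, v⟫_ℂ‖ ^ 2)]
  exact h1

end tower

/-- The finite towers. -/
def V (e : ℕ → ℤ → K) (k : ℕ) : Submodule ℂ K :=
  Submodule.span ℂ (e k '' Set.Ico (-o k) (6 ^ k - o k))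

lemma mem_V {e : ℕ → ℤ → K} {k : ℕ} {n : ℤ} (h1 : -o k ≤ n) (h2 : n < 6 ^ k - o k) :
    e k n ∈ V e k := Submodule.subset_span ⟨n, ⟨h1, h2⟩, rfl⟩

section tower2

variable (h : IsTower c0 c1 U e)
include h

lemma V_succ (k : ℕ) : V e k ≤ V e (k + 1) := by
  unfold V
  rw [Submodule.span_le]
  rintro _ ⟨n, ⟨h1, h2⟩, rfl⟩
  have hN := Npos k
  have ho := o_succ k
  have hNs := Nsucc k
  rw [h.up k n]
  exact Submodule.add_mem _ (Submodule.smul_mem _ _ (mem_V (by omega) (by omega)))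
    (Submodule.smul_mem _ _ (mem_V (by omega) (by omega)))

lemma V_mono {k l : ℕ} (hkl : k ≤ l) : V e k ≤ V e l := by
  induction l, hkl using Nat.le_induction with
  | base => exact le_rfl
  | succ l _ ih => exact ih.trans (V_succ h l)

/-- Spacers of level `k+1` are orthogonal to the tower of level `k`. -/
lemma spacer_orth (k : ℕ) (a : ℤ) (ha1 : -o (k + 1) ≤ a) (ha2 : a < 6 ^ (k + 1) - o (k + 1))
    (ha3 : a < -o k ∨ 2 * 6 ^ k - o k ≤ a) (v : K) (hv : v ∈ V e k) :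
    ⟪e (k + 1) a, v⟫_ℂ = 0 := by
  have hN := Npos k
  have ho := o_succ k
  have hNs := Nsucc k
  unfold V at hv
  induction hv using Submodule.span_induction with
  | mem y hy =>
    obtain ⟨n, ⟨h1, h2⟩, rfl⟩ := hy
    rw [h.up k n, inner_add_right, inner_smul_right, inner_smul_right,
      h.orth (k + 1) a n (by rw [abs_lt]; constructor <;> omega),
      h.orth (k + 1) a (n + 6 ^ k) (by rw [abs_lt]; constructor <;> omega),
      if_neg (by omega), if_neg (by omega)]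
    simp
  | zero => simp
  | add y z _ _ hy hz => rw [inner_add_right, hy, hz, add_zero]
  | smul a y _ hy => rw [inner_smul_right, hy, mul_zero]

/-- After-spacers are orthogonal to all before-spacers. -/
lemma after_orth (k : ℕ) (a : ℤ) (ha1 : 2 * 6 ^ k - o k ≤ a) (ha2 : a < 5 * 6 ^ k - o k)
    (l : ℕ) (n : ℤ) (hn1 : -o (l + 1) ≤ n) (hn2 : n < -o l) :
    ⟪e (l + 1) n, e (k + 1) a⟫_ℂ = 0 := by
  have hN := Npos k
  have ho := o_succ k
  have hNs := Nsucc k
  have hNl := Npos l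
  have hol := o_succ l
  have hNsl := Nsucc l
  rcases lt_trichotomy l k with hlk | rfl | hlk
  · have h1 : e (l + 1) n ∈ V e k := by
      have : e (l + 1) n ∈ V e (l + 1) := mem_V (by omega) (by omega)
      exact V_mono h hlk this
    rw [← inner_conj_symm, spacer_orth h k a (by omega) (by omega) (by omega) _ h1, map_zero]
  · rw [h.orth (l + 1) n a (by rw [abs_lt]; constructor <;> omega), if_neg (by omega)]
  · have h1 : e (k + 1) a ∈ V e l := by
      have : e (k + 1) a ∈ V e (k + 1) := mem_V (by omega) (by omega)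
      exact V_mono h hlk this
    exact spacer_orth h l n (by omega) (by omega) (by omega) _ h1

end tower2

/-- Index set of the before-spacers. -/
abbrev Idx : Type := Σ k : ℕ, ↥(Finset.Ico (-o (k + 1)) (-o k))

/-- The before-spacer vectors. -/
def g (e : ℕ → ℤ → K) (i : Idx) : K := e (i.1 + 1) i.2

section tower3

variable (h : IsTower c0 c1 U e)
include h

lemma g_orthonormal : Orthonormal ℂ (g e) := by
  have key : ∀ i j : Idx, i.1 < j.1 → ⟪g e j, g e i⟫_ℂ = 0 := by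
    rintro ⟨k, n, hn⟩ ⟨l, m, hm⟩ hkl
    simp only at hkl
    rw [Finset.mem_Ico] at hn hm
    have hN := Npos k
    have ho := o_succ k
    have hNs := Nsucc k
    have hNl := Npos l
    have hol := o_succ l
    have hNsl := Nsucc l
    have h1 : e (k + 1) n ∈ V e l := by
      have : e (k + 1) n ∈ V e (k + 1) := mem_V (by omega) (by omega)
      exact V_mono h hkl this
    exact spacer_orth h l m (by omega) (by omega) (by omega) _ h1
  rw [orthonormal_iff_ite]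
  intro i j
  rcases lt_trichotomy i.1 j.1 with hij | hij | hij
  · rw [← inner_conj_symm, key i j hij, map_zero, if_neg]
    rintro rfl
    exact lt_irrefl _ hij
  · obtain ⟨k, n, hn⟩ := i
    obtain ⟨l, m, hm⟩ := j
    simp only at hij
    subst hij
    have hn' := Finset.mem_Ico.1 hn
    have hm' := Finset.mem_Ico.1 hm
    have hN := Npos k
    have ho := o_succ k
    have hNs := Nsucc k
    show ⟪e (k + 1) n, e (k + 1) m⟫_ℂ = _
    rw [h.orth (k + 1) n m (by rw [abs_lt]; constructor <;> omega)]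
    simp
  · rw [key j i hij, if_neg]
    rintro rfl
    exact lt_irrefl _ hij

end tower3

/-- The projection onto the closed span of the before-spacers. -/
noncomputable def P (e : ℕ → ℤ → K) : K →L[ℂ] K :=
  (Submodule.span ℂ (Set.range (g e))).topologicalClosure.starProjection

lemma P_idem (v : K) : P e (P e v) = P e v := by
  unfold P
  rw [Submodule.starProjection_eq_self_iff]
  rw [Submodule.starProjection_apply]
  exact Subtype.mem _

lemma P_symm (u v : K) : ⟪P e u, v⟫_ℂ = ⟪u, P e v⟫_ℂ :=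
  Submodule.inner_starProjection_left_eq_right _ _ _

section tower4

variable (h : IsTower c0 c1 U e)
include h

lemma hasSum_P (v : K) : HasSum (fun i : Idx => ‖⟪g e i, v⟫_ℂ‖ ^ 2) (‖P e v‖ ^ 2) :=
  hasSum_proj (g_orthonormal h) v

lemma sum_level_le (v : K) (L : ℕ) :
    ∑ k ∈ range L, ∑ n ∈ Finset.Ico (-o (k + 1)) (-o k), ‖⟪e (k + 1) n, v⟫_ℂ‖ ^ 2 ≤
      ‖P e v‖ ^ 2 := by
  have h1 := hasSum_P h v
  have h2 : ∑ k ∈ range L, ∑ n ∈ Finset.Ico (-o (k + 1)) (-o k), ‖⟪e (k + 1) n, v⟫_ℂ‖ ^ 2 =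
      ∑ i ∈ (range L).sigma (fun k => (Finset.univ : Finset ↥(Finset.Ico (-o (k + 1)) (-o k)))),
        ‖⟪g e i, v⟫_ℂ‖ ^ 2 := by
    rw [Finset.sum_sigma]
    refine Finset.sum_congr rfl fun k _ => ?_
    rw [← Finset.sum_coe_sort (Finset.Ico (-o (k + 1)) (-o k))
      (fun n => ‖⟪e (k + 1) n, v⟫_ℂ‖ ^ 2)]
    rfl
  rw [h2]
  exact sum_le_hasSum _ (fun i _ => by positivity) h1

lemma P_le_of_levels (v : K) (B : ℝ)
    (hB : ∀ L, ∑ k ∈ range L, ∑ n ∈ Finset.Ico (-o (k + 1)) (-o k),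
      ‖⟪e (k + 1) n, v⟫_ℂ‖ ^ 2 ≤ B) : ‖P e v‖ ^ 2 ≤ B := by
  have h1 := hasSum_P h v
  refine hasSum_le_of_sum_le h1 fun s => ?_
  -- the finite set is contained in finitely many levels
  obtain ⟨L, hL⟩ : ∃ L, ∀ i ∈ s, i.1 < L := by
    refine ⟨s.sup (fun i => i.1) + 1, fun i hi => ?_⟩
    exact Nat.lt_succ_of_le (Finset.le_sup (f := fun i : Idx => i.1) hi)
  refine le_trans ?_ (hB L)
  have h2 : ∑ k ∈ range L, ∑ n ∈ Finset.Ico (-o (k + 1)) (-o k), ‖⟪e (k + 1) n, v⟫_ℂ‖ ^ 2 =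
      ∑ i ∈ (range L).sigma (fun k => (Finset.univ : Finset ↥(Finset.Ico (-o (k + 1)) (-o k)))),
        ‖⟪g e i, v⟫_ℂ‖ ^ 2 := by
    rw [Finset.sum_sigma]
    refine Finset.sum_congr rfl fun k _ => ?_
    rw [← Finset.sum_coe_sort (Finset.Ico (-o (k + 1)) (-o k))
      (fun n => ‖⟪e (k + 1) n, v⟫_ℂ‖ ^ 2)]
    rfl
  rw [h2]
  apply Finset.sum_le_sum_of_subset_of_nonneg
  · intro i hi
    rw [Finset.mem_sigma]
    exact ⟨Finset.mem_range.2 (hL i hi), Finset.mem_univ _⟩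
  · intro i _ _
    positivity

lemma P_eq_zero (v : K)
    (hB : ∀ k n, -o (k + 1) ≤ n → n < -o k → ⟪e (k + 1) n, v⟫_ℂ = 0) : P e v = 0 := by
  have h1 : ‖P e v‖ ^ 2 ≤ 0 := by
    apply P_le_of_levels h
    intro L
    apply le_of_eq
    refine Finset.sum_eq_zero fun k _ => Finset.sum_eq_zero fun n hn => ?_
    rw [Finset.mem_Ico] at hn
    rw [hB k n hn.1 hn.2]
    simp
  have h2 : ‖P e v‖ = 0 := by nlinarith [norm_nonneg (P e v)]
  exact norm_eq_zero.1 h2

/-- Forward powers respect the splitting up to a small error. -/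
theorem P_pow (hs : c0 ^ 2 + c1 ^ 2 = 1) (m : ℕ) (v : K) :
    ‖P e ((U ^ m) v)‖ ^ 2 ≤ 11 * ‖P e v‖ ^ 2 + 10 * c1 ^ 2 * ‖v‖ ^ 2 := by
  apply P_le_of_levels h
  intro L
  let G : ℕ → ℤ → ℝ := fun k n => ‖⟪e k n, v⟫_ℂ‖ ^ 2
  have hG : ∀ k n, 0 ≤ G k n := fun k n => by positivity
  have tri : ∀ k n, ‖⟪e k n, v⟫_ℂ‖ ≤
      |c0| * ‖⟪e (k + 1) n, v⟫_ℂ‖ + |c1| * ‖⟪e (k + 1) (n + 6 ^ k), v⟫_ℂ‖ := by
    intro k n
    rw [coef_up h v k n]
    refine (norm_add_le _ _).trans ?_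
    rw [norm_mul, norm_mul, Complex.norm_real, Complex.norm_real, Real.norm_eq_abs,
      Real.norm_eq_abs]
  have hs' : |c0| ^ 2 + |c1| ^ 2 = 1 := by rw [sq_abs, sq_abs]; exact hs
  have hc0 : |c0| ≤ 1 := by nlinarith [abs_nonneg c0, sq_nonneg |c1|]
  have h1 : ∀ k n, G k n ≤ G (k + 1) n + G (k + 1) (n + 6 ^ k) := by
    intro k n
    have t := tri k n
    simp only [G]
    set x := ‖⟪e (k + 1) n, v⟫_ℂ‖
    set y := ‖⟪e (k + 1) (n + 6 ^ k), v⟫_ℂ‖
    set z := ‖⟪e k n, v⟫_ℂ‖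
    have hx : 0 ≤ x := norm_nonneg _
    have hy : 0 ≤ y := norm_nonneg _
    have hz : 0 ≤ z := norm_nonneg _
    have e1 : z ^ 2 ≤ (|c0| * x + |c1| * y) ^ 2 := pow_le_pow_left₀ hz t 2
    have e2 : (|c0| * x + |c1| * y) ^ 2 + (|c1| * x - |c0| * y) ^ 2 =
        (|c0| ^ 2 + |c1| ^ 2) * (x ^ 2 + y ^ 2) := by ring
    rw [hs', one_mul] at e2
    nlinarith [sq_nonneg (|c1| * x - |c0| * y)]
  have h2 : ∀ k n, G k n ≤ 2 * G (k + 1) n + 2 * c1 ^ 2 * G (k + 1) (n + 6 ^ k) := by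
    intro k n
    have t := tri k n
    simp only [G]
    set x := ‖⟪e (k + 1) n, v⟫_ℂ‖
    set y := ‖⟪e (k + 1) (n + 6 ^ k), v⟫_ℂ‖
    set z := ‖⟪e k n, v⟫_ℂ‖
    have hx : 0 ≤ x := norm_nonneg _
    have hy : 0 ≤ y := norm_nonneg _
    have hz : 0 ≤ z := norm_nonneg _
    have e0 : |c0| * x ≤ x := by nlinarith
    have e1 : z ≤ x + |c1| * y := by linarith
    have e2 : z ^ 2 ≤ (x + |c1| * y) ^ 2 := pow_le_pow_left₀ hz e1 2
    have e3 : (x + |c1| * y) ^ 2 ≤ 2 * x ^ 2 + 2 * (|c1| * y) ^ 2 := by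
      nlinarith [sq_nonneg (x - |c1| * y)]
    have e4 : (|c1| * y) ^ 2 = c1 ^ 2 * y ^ 2 := by rw [mul_pow, sq_abs]
    nlinarith
  have hB : ∀ k a, S G k a (a + 6 ^ k) ≤ ‖v‖ ^ 2 := fun k a => coef_bessel h v k a
  have hQ : ∀ L, ∑ k ∈ range L, S G (k + 1) (-o (k + 1)) (-o k) ≤ ‖P e v‖ ^ 2 :=
    fun L => sum_level_le h v L
  have h3 := key hG (sq_nonneg c1) h1 h2 hB hQ m L
  refine le_trans (le_of_eq ?_) h3
  refine Finset.sum_congr rfl fun k _ => ?_
  have h4 : -o (k + 1) - (m : ℤ) = -o (k + 1) + (-(m : ℤ)) := by ring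
  have h5 : -o k - (m : ℤ) = -o k + (-(m : ℤ)) := by ring
  rw [h4, h5, ← S_shift]
  refine Finset.sum_congr rfl fun n _ => ?_
  rw [coef_shift h]
  rfl

/-- The starting vector is in the kernel of `P`. -/
theorem P_e00 : P e (e 0 0) = 0 := by
  apply P_eq_zero h
  intro k n h1 h2
  have hN := Npos k
  have ho := o_succ k
  have hNs := Nsucc k
  have hk := o_nonneg k
  have h5 := five_o k
  have : e 0 0 ∈ V e k := V_mono h (Nat.zero_le k) (mem_V (by simp [o]) (by simp [o]))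
  exact spacer_orth h k n h1 (by omega) (by omega) _ this

theorem P_em1 : c0 ≤ ‖P e (e 0 (-1))‖ := by
  have h1 := sum_level_le h (e 0 (-1)) 1
  have h2 : Finset.Ico (-o (0 + 1)) (-o 0) = {-1} := by
    rw [o_succ, o_zero]
    rfl
  rw [Finset.sum_range_one, h2, Finset.sum_singleton, h.up 0 (-1), inner_add_right,
    inner_smul_right, inner_smul_right, h.orth (0 + 1) (-1) (-1) (by norm_num),
    h.orth (0 + 1) (-1) (-1 + 6 ^ 0) (by norm_num), if_pos rfl, if_neg (by norm_num)] at h1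
  rw [← h.up 0 (-1)] at h1
  simp only [mul_one, mul_zero, add_zero, Complex.norm_real, Real.norm_eq_abs, sq_abs] at h1
  nlinarith [norm_nonneg (P e (e 0 (-1)))]

/-- The union of the finite towers is dense. -/
lemma e0_mem (n : ℤ) (k : ℕ) :
    e 0 n ∈ Submodule.span ℂ (e k '' Set.Icc n (n + o k)) := by
  induction k with
  | zero => exact Submodule.subset_span ⟨n, by simp [o], rfl⟩
  | succ k ih =>
    have hN := Npos k
    have ho := o_succ k
    have hk := o_nonneg k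
    refine Submodule.span_le.2 ?_ ih
    rintro _ ⟨i, ⟨h1, h2⟩, rfl⟩
    rw [h.up k i]
    refine Submodule.add_mem _ (Submodule.smul_mem _ _ (Submodule.subset_span ⟨i, ?_, rfl⟩))
      (Submodule.smul_mem _ _ (Submodule.subset_span ⟨i + 6 ^ k, ?_, rfl⟩))
    · constructor <;> omega
    · constructor <;> omega

lemma exists_V (n : ℤ) : ∃ k, e 0 n ∈ V e k := by
  obtain ⟨k, hk⟩ : ∃ k : ℕ, 5 * |n| + 5 < (k : ℤ) := by
    refine ⟨(5 * |n| + 6).toNat, ?_⟩
    have := abs_nonneg n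
    omega
  have h6 : (k : ℤ) < 6 ^ k := by
    have : k < 6 ^ k := Nat.lt_pow_self (by norm_num)
    exact_mod_cast this
  refine ⟨k, ?_⟩
  have h5 := five_o k
  have hn1 := le_abs_self n
  have hn2 := neg_abs_le n
  unfold V
  refine Submodule.span_mono ?_ (e0_mem h n k)
  apply Set.image_mono
  rintro x ⟨hx1, hx2⟩
  constructor <;> omega

lemma dense_union (v : K) (ε : ℝ) (hε : 0 < ε) : ∃ k, ∃ w ∈ V e k, ‖v - w‖ < ε := by
  have h1 : v ∈ (Submodule.span ℂ (Set.range (e 0))).topologicalClosure := by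
    rw [h.dense]; trivial
  have h2 : v ∈ closure (Submodule.span ℂ (Set.range (e 0)) : Set K) := h1
  obtain ⟨w, hw, hd⟩ := Metric.mem_closure_iff.1 h2 ε hε
  have h3 : ∃ k, w ∈ V e k := by
    have hw' : w ∈ Submodule.span ℂ (Set.range (e 0)) := hw
    clear hd hw
    induction hw' using Submodule.span_induction with
    | mem y hy =>
      obtain ⟨n, rfl⟩ := hy
      exact exists_V h n
    | zero => exact ⟨0, Submodule.zero_mem _⟩
    | add y z _ _ hy hz =>
      obtain ⟨k, hk⟩ := hy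
      obtain ⟨l, hl⟩ := hz
      exact ⟨max k l, Submodule.add_mem _ (V_mono h (le_max_left _ _) hk)
        (V_mono h (le_max_right _ _) hl)⟩
    | smul a y _ hy =>
      obtain ⟨k, hk⟩ := hy
      exact ⟨k, Submodule.smul_mem _ _ hk⟩
  obtain ⟨k, hk⟩ := h3
  refine ⟨k, w, hk, ?_⟩
  rwa [dist_eq_norm] at hd

lemma P_norm_le (v : K) : ‖P e v‖ ≤ ‖v‖ := Submodule.norm_starProjection_apply_le _ _

lemma P_window (k : ℕ) (v : K) (hv : v ∈ V e k) (n : ℕ) (hn1 : 2 * 6 ^ k ≤ n)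
    (hn2 : n < 3 * 6 ^ k) : P e ((U ^ n) v) = 0 := by
  have hn1' : (2 : ℤ) * 6 ^ k ≤ n := by exact_mod_cast hn1
  have hn2' : (n : ℤ) < 3 * 6 ^ k := by exact_mod_cast hn2
  unfold V at hv
  induction hv using Submodule.span_induction with
  | mem y hy =>
    obtain ⟨i, ⟨h1, h2⟩, rfl⟩ := hy
    rw [shift_pow h, h.up k, map_add, map_smul, map_smul]
    have z1 : P e (e (k + 1) (i + n)) = 0 := P_eq_zero h _ fun l m hm1 hm2 =>
      after_orth h k _ (by omega) (by omega) l m hm1 hm2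
    have z2 : P e (e (k + 1) (i + n + 6 ^ k)) = 0 := P_eq_zero h _ fun l m hm1 hm2 =>
      after_orth h k _ (by omega) (by omega) l m hm1 hm2
    rw [z1, z2, smul_zero, smul_zero, add_zero]
  | zero => simp
  | add y z _ _ hy hz => rw [map_add, map_add, hy, hz, add_zero]
  | smul a y _ hy => rw [map_smul, map_smul, hy, smul_zero]

theorem P_tends (v : K) (ε : ℝ) (hε : 0 < ε) : ∃ k0, ∀ k ≥ k0, ∀ n : ℕ, 2 * 6 ^ k ≤ n →
    n < 3 * 6 ^ k → ‖P e ((U ^ n) v)‖ ≤ ε := by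
  obtain ⟨l, w, hw, hd⟩ := dense_union h v ε hε
  refine ⟨l, fun k hk n hn1 hn2 => ?_⟩
  have h1 := P_window h k w (V_mono h hk hw) n hn1 hn2
  have h2 : P e ((U ^ n) v) = P e ((U ^ n) (v - w)) := by
    rw [map_sub, map_sub, h1, sub_zero]
  rw [h2]
  refine (P_norm_le h _).trans ?_
  rw [LinearIsometryEquiv.norm_map]
  exact hd.le

/-- Rigidity-type relation: compression of `U^{6^k}` to the tower of level `k` is scalar. -/
lemma comp_scalar (k : ℕ) (w v : K) (hw : w ∈ V e k) (hv : v ∈ V e k) :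
    ⟪w, (U ^ (6 ^ k)) v⟫_ℂ = (c0 * c1 : ℂ) * ⟪w, v⟫_ℂ := by
  have hN := Npos k
  have ho := o_succ k
  have hNs := Nsucc k
  unfold V at hw hv
  induction hw using Submodule.span_induction with
  | mem y hy =>
    obtain ⟨i, ⟨h1, h2⟩, rfl⟩ := hy
    induction hv using Submodule.span_induction with
    | mem y hy =>
      obtain ⟨j, ⟨h3, h4⟩, rfl⟩ := hy
      have hc : ((6 ^ k : ℕ) : ℤ) = 6 ^ k := by push_cast; rfl
      rw [shift_pow h, hc, h.orth k i j (by rw [abs_lt]; constructor <;> omega),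
        h.up k i, h.up k (j + 6 ^ k)]
      simp only [inner_add_left, inner_add_right, inner_smul_left, inner_smul_right,
        Complex.conj_ofReal]
      rw [h.orth (k + 1) i (j + 6 ^ k) (by rw [abs_lt]; constructor <;> omega),
        h.orth (k + 1) i (j + 6 ^ k + 6 ^ k) (by rw [abs_lt]; constructor <;> omega),
        h.orth (k + 1) (i + 6 ^ k) (j + 6 ^ k) (by rw [abs_lt]; constructor <;> omega),
        h.orth (k + 1) (i + 6 ^ k) (j + 6 ^ k + 6 ^ k) (by rw [abs_lt]; constructor <;> omega),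
        if_neg (by omega : ¬ (i = j + 6 ^ k)), if_neg (by omega : ¬ (i = j + 6 ^ k + 6 ^ k)),
        if_neg (by omega : ¬ (i + 6 ^ k = j + 6 ^ k + 6 ^ k))]
      by_cases hij : i = j
      · subst hij
        rw [if_pos rfl, if_pos rfl]
        ring
      · rw [if_neg hij, if_neg (by omega : ¬ (i + 6 ^ k = j + 6 ^ k))]
        simp
    | zero => simp
    | add y z _ _ hy hz => rw [map_add, inner_add_right, inner_add_right, hy, hz]; ring
    | smul a y _ hy => rw [map_smul, inner_smul_right, inner_smul_right, hy]; ring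
  | zero => simp
  | add y z _ _ hy hz => rw [inner_add_left, inner_add_left, hy, hz]; ring
  | smul a y _ hy => rw [inner_smul_left, inner_smul_left, hy]; ring

lemma pow_mem_V (k : ℕ) (v : K) (hv : v ∈ V e k) : (U ^ (6 ^ k)) v ∈ V e (k + 1) := by
  have hN := Npos k
  have ho := o_succ k
  have hNs := Nsucc k
  unfold V at hv
  induction hv using Submodule.span_induction with
  | mem y hy =>
    obtain ⟨i, ⟨h1, h2⟩, rfl⟩ := hy
    have hc : ((6 ^ k : ℕ) : ℤ) = 6 ^ k := by push_cast; rfl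
    rw [shift_pow h, hc, h.up k]
    exact Submodule.add_mem _ (Submodule.smul_mem _ _ (mem_V (by omega) (by omega)))
      (Submodule.smul_mem _ _ (mem_V (by omega) (by omega)))
  | zero => rw [map_zero]; exact Submodule.zero_mem _
  | add y z _ _ hy hz => rw [map_add]; exact Submodule.add_mem _ hy hz
  | smul a y _ hy => rw [map_smul]; exact Submodule.smul_mem _ _ hy

end tower4

/-- Averages of the powers `U^{6^k}`. -/
noncomputable def avg (U : K ≃ₗᵢ[ℂ] K) (J : ℕ) (v : K) : K :=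
  (J : ℂ)⁻¹ • ∑ k ∈ range J, (U ^ (6 ^ k)) v

lemma avg_norm_le (U : K ≃ₗᵢ[ℂ] K) (J : ℕ) (v : K) : ‖avg U J v‖ ≤ ‖v‖ := by
  unfold avg
  rcases Nat.eq_zero_or_pos J with rfl | hJ
  · simp
  rw [norm_smul, norm_inv, Complex.norm_natCast]
  have h1 : ‖∑ k ∈ range J, (U ^ (6 ^ k)) v‖ ≤ J * ‖v‖ := by
    refine (norm_sum_le _ _).trans (le_of_eq ?_)
    simp only [LinearIsometryEquiv.norm_map]
    rw [Finset.sum_const, Finset.card_range, nsmul_eq_mul]
  have hJ' : (0 : ℝ) < J := by exact_mod_cast hJ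
  rw [inv_mul_le_iff₀ hJ']
  exact h1

lemma avg_sub (U : K ≃ₗᵢ[ℂ] K) (J : ℕ) (v w : K) : avg U J (v - w) = avg U J v - avg U J w := by
  unfold avg
  simp only [map_sub, Finset.sum_sub_distrib, smul_sub]

section tower5

variable (h : IsTower c0 c1 U e)
include h

lemma norm_sum_sq (l : ℕ) (v : K) (hv : v ∈ V e l) (J : ℕ) :
    (∑ k ∈ range J, ((U ^ (6 ^ (l + k))) v - (c0 * c1 : ℂ) • v)) ∈ V e (l + J) ∧
    ‖∑ k ∈ range J, ((U ^ (6 ^ (l + k))) v - (c0 * c1 : ℂ) • v)‖ ^ 2 ≤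
      J * ((1 + ‖(c0 * c1 : ℂ)‖) * ‖v‖) ^ 2 := by
  induction J with
  | zero => simp
  | succ J ih =>
    obtain ⟨ih1, ih2⟩ := ih
    rw [Finset.sum_range_succ]
    have hvJ : v ∈ V e (l + J) := V_mono h (Nat.le_add_right _ _) hv
    have hx : (U ^ (6 ^ (l + J))) v - (c0 * c1 : ℂ) • v ∈ V e (l + (J + 1)) :=
      Submodule.sub_mem _ (pow_mem_V h _ _ hvJ)
        (Submodule.smul_mem _ _ (V_succ h _ hvJ))
    refine ⟨Submodule.add_mem _ (V_succ h _ ih1) hx, ?_⟩
    set s := ∑ k ∈ range J, ((U ^ (6 ^ (l + k))) v - (c0 * c1 : ℂ) • v) with hs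
    have h0 : ⟪s, (U ^ (6 ^ (l + J))) v - (c0 * c1 : ℂ) • v⟫_ℂ = 0 := by
      rw [inner_sub_right, inner_smul_right, comp_scalar h (l + J) s v ih1 hvJ, sub_self]
    have h1 : ‖s + ((U ^ (6 ^ (l + J))) v - (c0 * c1 : ℂ) • v)‖ ^ 2 =
        ‖s‖ ^ 2 + ‖(U ^ (6 ^ (l + J))) v - (c0 * c1 : ℂ) • v‖ ^ 2 := by
      rw [@norm_add_sq ℂ, h0]
      simp
    rw [h1]
    have h2 : ‖(U ^ (6 ^ (l + J))) v - (c0 * c1 : ℂ) • v‖ ≤ (1 + ‖(c0 * c1 : ℂ)‖) * ‖v‖ := by
      refine (norm_sub_le _ _).trans ?_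
      rw [LinearIsometryEquiv.norm_map, norm_smul]
      linarith
    have h3 := pow_le_pow_left₀ (norm_nonneg _) h2 2
    push_cast
    linarith

theorem avg_tendsto_V (l : ℕ) (v : K) (hv : v ∈ V e l) :
    Tendsto (fun J => avg U J v) atTop (𝓝 ((c0 * c1 : ℂ) • v)) := by
  rw [tendsto_iff_norm_sub_tendsto_zero]
  set C : ℝ := (1 + ‖(c0 * c1 : ℂ)‖) * ‖v‖ with hC
  have hC0 : 0 ≤ C := by positivity
  have hbound : ∀ J : ℕ, l < J →
      ‖avg U J v - (c0 * c1 : ℂ) • v‖ ≤ (l : ℝ) * C * (1 / (J : ℝ)) + C * (1 / Real.sqrt J) := by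
    intro J hJ
    have hJ0 : (0 : ℝ) < J := by exact_mod_cast (by omega : 0 < J)
    have hJc : (J : ℂ) ≠ 0 := by exact_mod_cast hJ0.ne'
    have e1 : avg U J v - (c0 * c1 : ℂ) • v =
        (J : ℂ)⁻¹ • ∑ k ∈ range J, ((U ^ (6 ^ k)) v - (c0 * c1 : ℂ) • v) := by
      unfold avg
      rw [Finset.sum_sub_distrib, smul_sub, Finset.sum_const, Finset.card_range,
        ← Nat.cast_smul_eq_nsmul ℂ, smul_smul, inv_mul_cancel₀ hJc, one_smul]
    rw [e1, norm_smul, norm_inv, Complex.norm_natCast]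
    obtain ⟨J', rfl⟩ : ∃ J', J = l + J' := ⟨J - l, by omega⟩
    rw [Finset.sum_range_add]
    have h1 : ‖∑ k ∈ range l, ((U ^ (6 ^ k)) v - (c0 * c1 : ℂ) • v)‖ ≤ l * C := by
      refine (norm_sum_le _ _).trans ?_
      have : ∀ k ∈ range l, ‖(U ^ (6 ^ k)) v - (c0 * c1 : ℂ) • v‖ ≤ C := by
        intro k _
        refine (norm_sub_le _ _).trans ?_
        rw [LinearIsometryEquiv.norm_map, norm_smul, hC]
        linarith
      refine (Finset.sum_le_sum this).trans (le_of_eq ?_)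
      rw [Finset.sum_const, Finset.card_range, nsmul_eq_mul]
    have h2 : ‖∑ k ∈ range J', ((U ^ (6 ^ (l + k))) v - (c0 * c1 : ℂ) • v)‖ ≤
        Real.sqrt ((l + J' : ℕ)) * C := by
      have h3 := (norm_sum_sq h l v hv J').2
      have h4 : (J' : ℝ) * C ^ 2 ≤ ((l + J' : ℕ) : ℝ) * C ^ 2 := by
        apply mul_le_mul_of_nonneg_right _ (sq_nonneg C)
        exact_mod_cast (Nat.le_add_left _ _)
      have h5 : (Real.sqrt ((l + J' : ℕ)) * C) ^ 2 = ((l + J' : ℕ) : ℝ) * C ^ 2 := by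
        rw [mul_pow, Real.sq_sqrt (Nat.cast_nonneg _)]
      have h8 : 0 ≤ Real.sqrt ((l + J' : ℕ)) * C := by positivity
      refine (sq_le_sq₀ (norm_nonneg _) h8).1 ?_
      rw [h5]
      exact h3.trans h4
    have h6 : ‖∑ k ∈ range l, ((U ^ (6 ^ k)) v - (c0 * c1 : ℂ) • v) +
        ∑ k ∈ range J', ((U ^ (6 ^ (l + k))) v - (c0 * c1 : ℂ) • v)‖ ≤
        l * C + Real.sqrt ((l + J' : ℕ)) * C := (norm_add_le _ _).trans (add_le_add h1 h2)
    have h7 : (((l + J' : ℕ) : ℝ))⁻¹ * (l * C + Real.sqrt ((l + J' : ℕ)) * C) =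
        (l : ℝ) * C * (1 / ((l + J' : ℕ) : ℝ)) + C * (1 / Real.sqrt ((l + J' : ℕ))) := by
      have hs : Real.sqrt ((l + J' : ℕ)) * Real.sqrt ((l + J' : ℕ)) = ((l + J' : ℕ) : ℝ) :=
        Real.mul_self_sqrt (Nat.cast_nonneg _)
      have hs0 : 0 < Real.sqrt ((l + J' : ℕ)) := Real.sqrt_pos.2 hJ0
      field_simp
      linear_combination C * hs
    rw [← h7]
    exact mul_le_mul_of_nonneg_left h6 (by positivity)
  have hlim : Tendsto (fun J : ℕ => (l : ℝ) * C * (1 / (J : ℝ)) + C * (1 / Real.sqrt J)) atTop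
      (𝓝 0) := by
    have a1 : Tendsto (fun J : ℕ => 1 / (J : ℝ)) atTop (𝓝 0) := tendsto_one_div_atTop_nhds_zero_nat
    have a2 : Tendsto (fun J : ℕ => 1 / Real.sqrt J) atTop (𝓝 0) := by
      have : Tendsto (fun J : ℕ => Real.sqrt (1 / (J : ℝ))) atTop (𝓝 (Real.sqrt 0)) :=
        (Real.continuous_sqrt.tendsto 0).comp a1
      rw [Real.sqrt_zero] at this
      refine this.congr fun J => ?_
      rw [Real.sqrt_div zero_le_one, Real.sqrt_one]
    have := (a1.const_mul ((l : ℝ) * C)).add (a2.const_mul C)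
    simpa using this
  refine squeeze_zero' (Eventually.of_forall fun _ => norm_nonneg _) ?_ hlim
  filter_upwards [eventually_gt_atTop l] with J hJ using hbound J hJ

theorem avg_tendsto (v : K) :
    Tendsto (fun J => avg U J v) atTop (𝓝 ((c0 * c1 : ℂ) • v)) := by
  rw [Metric.tendsto_atTop]
  intro ε hε
  set A : ℝ := ‖(c0 * c1 : ℂ)‖ with hA
  have hA0 : 0 ≤ A := norm_nonneg _
  obtain ⟨l, w, hw, hd⟩ := dense_union h v (ε / (2 * (1 + A))) (by positivity)
  obtain ⟨N, hN⟩ := Metric.tendsto_atTop.1 (avg_tendsto_V h l w hw) (ε / 2) (by positivity)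
  refine ⟨N, fun J hJ => ?_⟩
  have h1 := hN J hJ
  rw [dist_eq_norm] at h1 ⊢
  have e1 : avg U J v - (c0 * c1 : ℂ) • v =
      avg U J (v - w) + (avg U J w - (c0 * c1 : ℂ) • w) - (c0 * c1 : ℂ) • (v - w) := by
    rw [avg_sub, smul_sub]; abel
  rw [e1]
  have h2 : ‖avg U J (v - w)‖ ≤ ‖v - w‖ := avg_norm_le U J _
  have h3 : ‖(c0 * c1 : ℂ) • (v - w)‖ = A * ‖v - w‖ := by rw [norm_smul]
  have h4 : (1 + A) * ‖v - w‖ < ε / 2 := by
    rw [lt_div_iff₀ (by positivity)] at hd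
    linarith
  calc ‖avg U J (v - w) + (avg U J w - (c0 * c1 : ℂ) • w) - (c0 * c1 : ℂ) • (v - w)‖
      ≤ ‖avg U J (v - w)‖ + ‖avg U J w - (c0 * c1 : ℂ) • w‖ + ‖(c0 * c1 : ℂ) • (v - w)‖ :=
        (norm_sub_le _ _).trans (add_le_add_left (norm_add_le _ _) _)
    _ < ε := by rw [h3]; linarith

end tower5

end Pool.Agent.Helper139.Tw2
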