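import Mathlib
import Pool.Agent.Helper139.Tw2

set_option autoImplicit false
open MeasureTheory Filter Topology AddCircle
open scoped InnerProductSpace ENNReal ComplexConjugate

namespace Pool.Agent.Helper139.Tw3

open Pool.Agent.Helper139.Tw1 Pool.Agent.Helper139.Tw2

instance factOne : Fact ((0 : ℝ) < 1) := ⟨one_pos⟩

/-- The circle. -/
abbrev C1 : Type := AddCircle (1 : ℝ)

lemma int_cont {f : C1 → ℂ} (hf : Continuous f) (μ : Measure C1) [IsFiniteMeasure μ] :
    Integrable f μ :=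
  hf.integrable_of_hasCompactSupport (HasCompactSupport.of_compactSpace f)

lemma int_contR {f : C1 → ℝ} (hf : Continuous f) (μ : Measure C1) [IsFiniteMeasure μ] :
    Integrable f μ :=
  hf.integrable_of_hasCompactSupport (HasCompactSupport.of_compactSpace f)

lemma int_fourier (n : ℤ) : ∫ x : C1, fourier n x ∂haarAddCircle = if n = 0 then 1 else 0 := by
  have h1 := congrFun (fourierCoeff_fourier (T := 1) n) 0
  unfold fourierCoeff at h1
  simp only [neg_zero, fourier_zero, one_smul] at h1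
  rw [h1]
  by_cases hn : n = 0
  · subst hn; simp
  · rw [if_neg hn, Pi.single_eq_of_ne (Ne.symm hn)]

variable (c0 c1 : ℝ)

/-- The factor of the Riesz product. -/
noncomputable def ψ (j : ℕ) (x : C1) : ℂ := (c0 : ℂ) + (c1 : ℂ) * fourier (6 ^ j : ℤ) x

lemma ψ_cont (j : ℕ) : Continuous (ψ c0 c1 j) := by
  unfold ψ
  fun_prop

lemma norm_fourier (n : ℤ) (x : C1) : ‖fourier n x‖ = 1 := by
  rw [fourier_apply]
  exact Circle.norm_coe _

variable {c0 c1}

lemma ψ_ne (h1 : 0 < c1) (h01 : c1 < c0) (j : ℕ) (x : C1) : ψ c0 c1 j x ≠ 0 := by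
  unfold ψ
  intro h
  have h2 : (c0 : ℂ) = -((c1 : ℂ) * fourier (6 ^ j : ℤ) x) := eq_neg_of_add_eq_zero_left h
  have h3 := congrArg norm h2
  rw [norm_neg, norm_mul, norm_fourier, mul_one, Complex.norm_real, Complex.norm_real,
    Real.norm_eq_abs, Real.norm_eq_abs, abs_of_pos h1, abs_of_pos (h1.trans h01)] at h3
  linarith

lemma fourier_mul_neg (n : ℤ) (x : C1) : fourier n x * fourier (-n) x = 1 := by
  rw [← fourier_add, add_neg_cancel, fourier_zero]

lemma ψ_sq (hs : c0 ^ 2 + c1 ^ 2 = 1) (j : ℕ) (x : C1) :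
    conj (ψ c0 c1 j x) * ψ c0 c1 j x =
      1 + (c0 * c1 : ℂ) * (fourier (6 ^ j : ℤ) x + fourier (-(6 ^ j : ℤ)) x) := by
  unfold ψ
  rw [map_add, map_mul, Complex.conj_ofReal, Complex.conj_ofReal, ← fourier_neg]
  have h := fourier_mul_neg (6 ^ j : ℤ) x
  have hs' : (c0 : ℂ) ^ 2 + (c1 : ℂ) ^ 2 = 1 := by exact_mod_cast hs
  linear_combination hs' + (c1 : ℂ) ^ 2 * h

variable (c0 c1)

/-- Partial Riesz products. -/
noncomputable def R (k L : ℕ) (x : C1) : ℂ :=
  ∏ j ∈ Finset.Ico k L, (conj (ψ c0 c1 j x) * ψ c0 c1 j x)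

lemma R_cont (k L : ℕ) : Continuous (R c0 c1 k L) := by
  unfold R
  refine continuous_finsetProd _ fun j _ => ?_
  exact (Complex.continuous_conj.comp (ψ_cont c0 c1 j)).mul (ψ_cont c0 c1 j)

/-- Fourier coefficients of the Riesz products. -/
noncomputable def I (k L : ℕ) (n : ℤ) : ℂ :=
  ∫ x : C1, fourier n x * R c0 c1 k L x ∂haarAddCircle

variable {c0 c1}

lemma I_self (k : ℕ) (n : ℤ) : I c0 c1 k k n = if n = 0 then 1 else 0 := by
  unfold I R
  simp only [Finset.Ico_self, Finset.prod_empty, mul_one]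
  exact int_fourier n

lemma I_succ (hs : c0 ^ 2 + c1 ^ 2 = 1) (k L : ℕ) (hkL : k ≤ L) (n : ℤ) :
    I c0 c1 k (L + 1) n =
      I c0 c1 k L n + (c0 * c1 : ℂ) * (I c0 c1 k L (n + 6 ^ L) + I c0 c1 k L (n - 6 ^ L)) := by
  unfold I
  have h1 : ∀ x : C1, fourier n x * R c0 c1 k (L + 1) x =
      fourier n x * R c0 c1 k L x + (c0 * c1 : ℂ) *
        (fourier (n + 6 ^ L) x * R c0 c1 k L x + fourier (n - 6 ^ L) x * R c0 c1 k L x) := by
    intro x
    have h2 : R c0 c1 k (L + 1) x = R c0 c1 k L x * (conj (ψ c0 c1 L x) * ψ c0 c1 L x) := by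
      unfold R
      rw [Finset.prod_Ico_succ_top hkL]
    rw [h2, ψ_sq hs, fourier_add, sub_eq_add_neg, fourier_add]
    ring
  simp only [h1]
  have i1 : ∀ m : ℤ, Integrable (fun x : C1 => fourier m x * R c0 c1 k L x) haarAddCircle :=
    fun m => int_cont ((map_continuous _).mul (R_cont c0 c1 k L)) _
  have i2 : Integrable (fun x : C1 => (c0 * c1 : ℂ) * (fourier (n + 6 ^ L) x * R c0 c1 k L x +
      fourier (n - 6 ^ L) x * R c0 c1 k L x)) haarAddCircle :=
    ((i1 _).add (i1 _)).const_mul _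
  rw [integral_add (i1 n) i2]
  have h3 : ∫ a : C1, (c0 * c1 : ℂ) * (fourier (n + 6 ^ L) a * R c0 c1 k L a +
      fourier (n - 6 ^ L) a * R c0 c1 k L a) ∂haarAddCircle = (c0 * c1 : ℂ) *
      ∫ a : C1, (fourier (n + 6 ^ L) a * R c0 c1 k L a +
      fourier (n - 6 ^ L) a * R c0 c1 k L a) ∂haarAddCircle := by
    rw [integral_const_mul]
  rw [h3, integral_add (i1 _) (i1 _)]

lemma I_dvd (hs : c0 ^ 2 + c1 ^ 2 = 1) (k L : ℕ) (hkL : k ≤ L) (n : ℤ) (hn : ¬ (6 ^ k : ℤ) ∣ n) :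
    I c0 c1 k L n = 0 := by
  induction L, hkL using Nat.le_induction generalizing n with
  | base =>
    rw [I_self, if_neg]
    rintro rfl
    exact hn (dvd_zero _)
  | succ L hkL ih =>
    have hd : (6 ^ k : ℤ) ∣ 6 ^ L := pow_dvd_pow _ hkL
    rw [I_succ hs k L hkL, ih n hn, ih, ih]
    · ring
    · intro h
      exact hn ((Int.dvd_iff_dvd_of_dvd_sub (by simpa using hd)).1 h)
    · intro h
      exact hn ((Int.dvd_add_left hd).1 h)

lemma I_far (hs : c0 ^ 2 + c1 ^ 2 = 1) (k L : ℕ) (hkL : k ≤ L) (n : ℤ) (hn : o L < |n|) :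
    I c0 c1 k L n = 0 := by
  induction L, hkL using Nat.le_induction generalizing n with
  | base =>
    rw [I_self, if_neg]
    rintro rfl
    have := o_nonneg k
    simp at hn
    omega
  | succ L hkL ih =>
    have ho := o_succ L
    have hN := Npos L
    have h1 : o L < |n| := by omega
    have h2 : o L < |n + 6 ^ L| := by
      rcases abs_cases n with ⟨h, _⟩ | ⟨h, _⟩ <;> rcases abs_cases (n + 6 ^ L) with ⟨h', _⟩ | ⟨h', _⟩ <;>
        omega
    have h3 : o L < |n - 6 ^ L| := by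
      rcases abs_cases n with ⟨h, _⟩ | ⟨h, _⟩ <;> rcases abs_cases (n - 6 ^ L) with ⟨h', _⟩ | ⟨h', _⟩ <;>
        omega
    rw [I_succ hs k L hkL, ih n h1, ih _ h2, ih _ h3]
    ring

lemma I_zero (hs : c0 ^ 2 + c1 ^ 2 = 1) (k L : ℕ) (hkL : k ≤ L) : I c0 c1 k L 0 = 1 := by
  induction L, hkL using Nat.le_induction with
  | base => rw [I_self, if_pos rfl]
  | succ L hkL ih =>
    have hN := Npos L
    have h5 := five_o L
    rw [I_succ hs k L hkL, ih, I_far hs k L hkL (0 + 6 ^ L), I_far hs k L hkL (0 - 6 ^ L)]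
    · ring
    · rw [zero_sub, abs_neg, abs_of_pos hN]; omega
    · rw [zero_add, abs_of_pos hN]; omega

lemma I_eq (hs : c0 ^ 2 + c1 ^ 2 = 1) (k L : ℕ) (hkL : k ≤ L) (n : ℤ) (hn : |n| < 6 ^ k) :
    I c0 c1 k L n = if n = 0 then 1 else 0 := by
  by_cases h0 : n = 0
  · rw [h0, if_pos rfl, I_zero hs k L hkL]
  · rw [if_neg h0]
    apply I_dvd hs k L hkL
    intro hd
    have := Int.eq_zero_of_abs_lt_dvd hd hn
    exact h0 this

variable (c0 c1)

/-- Real densities. -/
noncomputable def r (L : ℕ) (x : C1) : ℝ := ∏ j ∈ Finset.range L, ‖ψ c0 c1 j x‖ ^ 2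

lemma r_cont (L : ℕ) : Continuous (r c0 c1 L) := by
  unfold r
  exact continuous_finsetProd _ fun j _ => (ψ_cont c0 c1 j).norm.pow 2

lemma r_nonneg (L : ℕ) (x : C1) : 0 ≤ r c0 c1 L x :=
  Finset.prod_nonneg fun _ _ => by positivity

lemma r_coe (L : ℕ) (x : C1) : ((r c0 c1 L x : ℝ) : ℂ) = R c0 c1 0 L x := by
  unfold r R
  rw [Complex.ofReal_prod, Finset.range_eq_Ico]
  refine Finset.prod_congr rfl fun j _ => ?_
  rw [← Complex.normSq_eq_conj_mul_self, Complex.normSq_eq_norm_sq]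

/-- The approximating measures. -/
noncomputable def ν (L : ℕ) : Measure C1 :=
  haarAddCircle.withDensity (fun x => ENNReal.ofReal (r c0 c1 L x))

lemma ν_int (L : ℕ) (f : C1 → ℂ) :
    ∫ x, f x ∂(ν c0 c1 L) = ∫ x, f x * R c0 c1 0 L x ∂haarAddCircle := by
  unfold ν
  rw [integral_withDensity_eq_integral_toReal_smul]
  · refine integral_congr_ae (Eventually.of_forall fun x => ?_)
    simp only
    rw [ENNReal.toReal_ofReal (r_nonneg c0 c1 L x), Complex.real_smul, r_coe, mul_comm]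
  · exact (r_cont c0 c1 L).measurable.ennreal_ofReal
  · exact Eventually.of_forall fun x => ENNReal.ofReal_lt_top

variable {c0 c1}

lemma ν_prob (hs : c0 ^ 2 + c1 ^ 2 = 1) (L : ℕ) : IsProbabilityMeasure (ν c0 c1 L) := by
  constructor
  unfold ν
  rw [withDensity_apply _ MeasurableSet.univ, Measure.restrict_univ,
    ← ofReal_integral_eq_lintegral_ofReal (int_contR (r_cont c0 c1 L) _)
      (Eventually.of_forall fun x => r_nonneg c0 c1 L x)]
  have h1 : ((∫ x, r c0 c1 L x ∂haarAddCircle : ℝ) : ℂ) = 1 := by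
    rw [← integral_complex_ofReal, ← I_zero hs 0 L (Nat.zero_le _)]
    unfold I
    refine integral_congr_ae (Eventually.of_forall fun x => ?_)
    simp only [fourier_zero, one_mul]
    exact r_coe c0 c1 L x
  have h2 : ∫ x, r c0 c1 L x ∂haarAddCircle = 1 := by exact_mod_cast h1
  rw [h2, ENNReal.ofReal_one]

/-- The limiting Riesz product measure. -/
lemma exists_limit (hs : c0 ^ 2 + c1 ^ 2 = 1) : ∃ μ : Measure C1, IsProbabilityMeasure μ ∧
    ∀ (f : C(C1, ℂ)) (c : ℂ) (L0 : ℕ), (∀ L ≥ L0, ∫ x, f x ∂(ν c0 c1 L) = c) →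
      ∫ x, f x ∂μ = c := by
  let p : ℕ → ProbabilityMeasure C1 := fun L => ⟨ν c0 c1 L, ν_prob hs L⟩
  obtain ⟨μ, hμ⟩ := exists_clusterPt_of_compactSpace (map p atTop)
  refine ⟨μ, inferInstance, ?_⟩
  have hreal : ∀ (f : C(C1, ℝ)) (c : ℝ) (L0 : ℕ), (∀ L ≥ L0, ∫ x, f x ∂(ν c0 c1 L) = c) →
      ∫ x, f x ∂(μ : Measure C1) = c := by
    intro f c L0 hL
    have hc : Continuous fun q : ProbabilityMeasure C1 => ∫ x, f x ∂(q : Measure C1) :=
      ProbabilityMeasure.continuous_iff_forall_continuousMap_continuous_integral.1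
        continuous_id f
    have h1 : MapClusterPt (∫ x, f x ∂(μ : Measure C1)) atTop
        (fun L => ∫ x, f x ∂(p L : Measure C1)) :=
      MapClusterPt.continuousAt_comp (f := fun q : ProbabilityMeasure C1 =>
        ∫ x, f x ∂(q : Measure C1)) hc.continuousAt hμ
    have h2 : Tendsto (fun L => ∫ x, f x ∂(p L : Measure C1)) atTop (𝓝 c) := by
      refine tendsto_const_nhds.congr' ?_
      filter_upwards [eventually_ge_atTop L0] with L hL'
      exact (hL L hL').symm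
    exact eq_of_nhds_neBot (ClusterPt.mono h1 h2)
  intro f c L0 hL
  have hre := hreal ⟨fun x => (f x).re, by fun_prop⟩ c.re L0 (fun L hL' => by
    have := ν_prob hs L
    rw [← hL L hL']
    exact integral_re (int_cont f.continuous _))
  have him := hreal ⟨fun x => (f x).im, by fun_prop⟩ c.im L0 (fun L hL' => by
    have := ν_prob hs L
    rw [← hL L hL']
    exact integral_im (int_cont f.continuous _))
  apply Complex.ext
  · rw [← hre]
    exact (integral_re (int_cont f.continuous _)).symm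
  · rw [← him]
    exact (integral_im (int_cont f.continuous _)).symm

section mult

variable {μ : Measure C1}

lemma mul_memLp (n : ℤ) (f : Lp ℂ 2 μ) : MemLp (fun x => fourier n x * f x) 2 μ := by
  refine (Lp.memLp f).of_le_mul (c := 1) ?_ ?_
  · exact (map_continuous (fourier n)).aestronglyMeasurable.mul (Lp.aestronglyMeasurable f)
  · refine Eventually.of_forall fun x => ?_
    rw [norm_mul, norm_fourier, one_mul]

/-- Multiplication by a character. -/
noncomputable def mulF (n : ℤ) (f : Lp ℂ 2 μ) : Lp ℂ 2 μ := (mul_memLp n f).toLp _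

lemma mulF_coe (n : ℤ) (f : Lp ℂ 2 μ) : (mulF n f : C1 → ℂ) =ᵐ[μ] fun x => fourier n x * f x :=
  MemLp.coeFn_toLp _

lemma mulF_norm (n : ℤ) (f : Lp ℂ 2 μ) : ‖mulF n f‖ = ‖f‖ := by
  rw [mulF, Lp.norm_toLp, Lp.norm_def]
  congr 1
  refine eLpNorm_congr_norm_ae (Eventually.of_forall fun x => ?_)
  rw [norm_mul, norm_fourier, one_mul]

lemma mulF_mulF (m n : ℤ) (f : Lp ℂ 2 μ) : mulF m (mulF n f) = mulF (m + n) f := by
  apply Lp.ext
  filter_upwards [mulF_coe m (mulF n f), mulF_coe n f, mulF_coe (m + n) f] with x h1 h2 h3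
  rw [h1, h2, h3, fourier_add, mul_assoc]

lemma mulF_zero (f : Lp ℂ 2 μ) : mulF 0 f = f := by
  apply Lp.ext
  filter_upwards [mulF_coe 0 f] with x h1
  rw [h1, fourier_zero, one_mul]

/-- Multiplication by a character as a unitary operator. -/
noncomputable def Um : Lp ℂ 2 μ ≃ₗᵢ[ℂ] Lp ℂ 2 μ where
  toFun := mulF 1
  invFun := mulF (-1)
  left_inv f := by rw [mulF_mulF, neg_add_cancel, mulF_zero]
  right_inv f := by rw [mulF_mulF, add_neg_cancel, mulF_zero]
  map_add' f g := by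
    apply Lp.ext
    filter_upwards [mulF_coe 1 (f + g), mulF_coe 1 f, mulF_coe 1 g, Lp.coeFn_add f g,
      Lp.coeFn_add (mulF 1 f) (mulF 1 g)] with x h1 h2 h3 h4 h5
    rw [h1, h5, Pi.add_apply, h2, h3, h4, Pi.add_apply, mul_add]
  map_smul' c f := by
    apply Lp.ext
    simp only [RingHom.id_apply]
    filter_upwards [mulF_coe 1 (c • f), mulF_coe 1 f, Lp.coeFn_smul c f,
      Lp.coeFn_smul c (mulF 1 f)] with x h1 h2 h3 h4
    rw [h1, h4, Pi.smul_apply, h2, h3, Pi.smul_apply, smul_eq_mul, smul_eq_mul]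
    ring
  norm_map' f := mulF_norm 1 f

end mult

variable (c0 c1)

/-- The functions `φ_k`. -/
noncomputable def φ (k : ℕ) (x : C1) : ℂ := ∏ j ∈ Finset.range k, (ψ c0 c1 j x)⁻¹

variable {c0 c1}

lemma φ_cont (h1 : 0 < c1) (h01 : c1 < c0) (k : ℕ) : Continuous (φ c0 c1 k) := by
  unfold φ
  refine continuous_finsetProd _ fun j _ => ?_
  exact (ψ_cont c0 c1 j).inv₀ (ψ_ne h1 h01 j)

lemma φ_succ (h1 : 0 < c1) (h01 : c1 < c0) (k : ℕ) (x : C1) :
    φ c0 c1 k x = φ c0 c1 (k + 1) x * ψ c0 c1 k x := by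
  unfold φ
  rw [Finset.prod_range_succ, mul_assoc, inv_mul_cancel₀ (ψ_ne h1 h01 k x), mul_one]

lemma φ_R (h1 : 0 < c1) (h01 : c1 < c0) (k L : ℕ) (hkL : k ≤ L) (x : C1) :
    conj (φ c0 c1 k x) * φ c0 c1 k x * R c0 c1 0 L x = R c0 c1 k L x := by
  unfold R φ
  rw [← Finset.prod_Ico_consecutive _ (Nat.zero_le k) hkL, ← mul_assoc, map_prod,
    ← Finset.prod_mul_distrib, Finset.range_eq_Ico, ← Finset.prod_mul_distrib]
  rw [Finset.prod_eq_one, one_mul]
  intro j _
  have hne := ψ_ne h1 h01 j x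
  have hne' : conj (ψ c0 c1 j x) ≠ 0 := (map_ne_zero _).2 hne
  rw [map_inv₀]
  field_simp

/-- The continuous functions representing the tower vectors. -/
noncomputable def ec (h1 : 0 < c1) (h01 : c1 < c0) (k : ℕ) (n : ℤ) : C(C1, ℂ) :=
  ⟨fun x => fourier n x * φ c0 c1 k x, (map_continuous _).mul (φ_cont h1 h01 k)⟩

lemma ec_apply (h1 : 0 < c1) (h01 : c1 < c0) (k : ℕ) (n : ℤ) (x : C1) :
    ec h1 h01 k n x = fourier n x * φ c0 c1 k x := rfl

/-- Existence of a tower of the required kind on some `L²` space. -/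
theorem exists_tower (h1 : 0 < c1) (h01 : c1 < c0) (hs : c0 ^ 2 + c1 ^ 2 = 1) :
    ∃ μ : Measure C1, IsProbabilityMeasure μ ∧
      ∃ (U : Lp ℂ 2 μ ≃ₗᵢ[ℂ] Lp ℂ 2 μ) (e : ℕ → ℤ → Lp ℂ 2 μ), IsTower c0 c1 U e := by
  obtain ⟨μ, hμ, hlim⟩ := exists_limit (c0 := c0) (c1 := c1) hs
  refine ⟨μ, hμ, Um, fun k n => ContinuousMap.toLp 2 μ ℂ (ec h1 h01 k n), ?_, ?_, ?_, ?_⟩
  · intro k n
    apply Lp.ext
    have a1 : (Um (ContinuousMap.toLp 2 μ ℂ (ec h1 h01 k n)) : C1 → ℂ) =ᵐ[μ]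
        fun x => fourier 1 x * (ContinuousMap.toLp 2 μ ℂ (ec h1 h01 k n) : C1 → ℂ) x :=
      mulF_coe 1 _
    filter_upwards [a1, ContinuousMap.coeFn_toLp (p := 2) (𝕜 := ℂ) μ (ec h1 h01 k n),
      ContinuousMap.coeFn_toLp (p := 2) (𝕜 := ℂ) μ (ec h1 h01 k (n + 1))] with x b1 b2 b3
    rw [b1, b2, b3, ec_apply, ec_apply, fourier_add]
    ring
  · intro k n
    have : ec h1 h01 k n = (c0 : ℂ) • ec h1 h01 (k + 1) n +
        (c1 : ℂ) • ec h1 h01 (k + 1) (n + 6 ^ k) := by
      ext x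
      rw [ContinuousMap.add_apply, ContinuousMap.smul_apply, ContinuousMap.smul_apply, ec_apply,
        ec_apply, ec_apply, fourier_add, φ_succ h1 h01 k x, ψ, smul_eq_mul, smul_eq_mul]
      ring
    rw [this, map_add, map_smul, map_smul]
  · intro k m n hmn
    rw [ContinuousMap.inner_toLp]
    let f : C(C1, ℂ) := ⟨fun x => ec h1 h01 k n x * conj (ec h1 h01 k m x),
      (map_continuous _).mul (Complex.continuous_conj.comp (map_continuous _))⟩
    refine hlim f _ k fun L hL => ?_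
    rw [ν_int]
    have e1 : ∀ x : C1, f x * R c0 c1 0 L x = fourier (n - m) x * R c0 c1 k L x := by
      intro x
      rw [← φ_R h1 h01 k L hL x]
      show ec h1 h01 k n x * conj (ec h1 h01 k m x) * _ = _
      rw [ec_apply, ec_apply, map_mul, ← fourier_neg, sub_eq_add_neg, fourier_add]
      ring
    simp only [e1]
    have e2 := I_eq hs k L hL (n - m) (by rw [abs_sub_comm]; exact hmn)
    unfold I at e2
    rw [e2]
    by_cases hh : m = n
    · rw [if_pos hh, if_pos (by omega)]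
    · rw [if_neg hh, if_neg (by omega)]
  · have h2 := (ContinuousMap.toLp_denseRange ℂ μ ℂ (p := 2) (by norm_num)).topologicalClosure_map_submodule
      span_fourier_closure_eq_top
    rw [Submodule.map_span, ← Set.range_comp] at h2
    rw [← h2]
    congr 3
    ext n
    have : ec h1 h01 0 n = fourier n := by
      ext x
      rw [ec_apply]
      simp [φ]
    simp only [this]
    rfl

end Pool.Agent.Helper139.Tw3
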