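import Mathlib

set_option autoImplicit false
open Filter Topology
open scoped BoundedContinuousFunction

namespace Pool.Agent.Helper139.Tw4

/-- Averages over the windows `[2·6^k, 3·6^k)`. -/
noncomputable def av (k : ℕ) (f : ℕ → ℝ) : ℝ :=
  ((6 : ℝ) ^ k)⁻¹ * ∑ i ∈ Finset.range (6 ^ k), f (2 * 6 ^ k + i)

lemma av_close (k : ℕ) (f : ℕ → ℝ) (l ε : ℝ)
    (h : ∀ n, 2 * 6 ^ k ≤ n → n < 3 * 6 ^ k → |f n - l| ≤ ε) : |av k f - l| ≤ ε := by
  have h6 : (0 : ℝ) < 6 ^ k := by positivity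
  have e1 : av k f - l = ((6 : ℝ) ^ k)⁻¹ * ∑ i ∈ Finset.range (6 ^ k), (f (2 * 6 ^ k + i) - l) := by
    unfold av
    rw [Finset.sum_sub_distrib, Finset.sum_const, Finset.card_range, nsmul_eq_mul]
    push_cast
    field_simp
  rw [e1, abs_mul, abs_of_pos (inv_pos.2 h6), inv_mul_le_iff₀ h6]
  refine (Finset.abs_sum_le_sum_abs _ _).trans ?_
  have h2 : ∀ i ∈ Finset.range (6 ^ k), |f (2 * 6 ^ k + i) - l| ≤ ε := by
    intro i hi
    rw [Finset.mem_range] at hi
    exact h _ (by omega) (by omega)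
  refine (Finset.sum_le_sum h2).trans (le_of_eq ?_)
  rw [Finset.sum_const, Finset.card_range, nsmul_eq_mul]
  push_cast
  rfl

lemma av_bound (k : ℕ) (f : ℕ →ᵇ ℝ) : |av k f| ≤ ‖f‖ := by
  have := av_close k f 0 ‖f‖ (fun n _ _ => by
    rw [sub_zero, ← Real.norm_eq_abs]
    exact f.norm_coe_le_norm n)
  simpa using this

lemma av_add (k : ℕ) (f g : ℕ → ℝ) : av k (fun n => f n + g n) = av k f + av k g := by
  unfold av
  rw [Finset.sum_add_distrib, mul_add]

lemma av_smul (k : ℕ) (c : ℝ) (f : ℕ → ℝ) : av k (fun n => c * f n) = c * av k f := by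
  unfold av
  rw [← Finset.mul_sum]
  ring

/-- A Banach limit which is the common limit along the windows. -/
theorem exists_banach_limit : ∃ L : (ℕ →ᵇ ℝ) →L[ℝ] ℝ,
    (∀ f : ℕ →ᵇ ℝ, (∀ n, 0 ≤ f n) → 0 ≤ L f) ∧
    L (BoundedContinuousFunction.const ℕ (1 : ℝ)) = 1 ∧
    (∀ f g : ℕ →ᵇ ℝ, (∀ n, g n = f (n + 1)) → L g = L f) ∧
    (∀ (f : ℕ →ᵇ ℝ) (l : ℝ), (∀ ε > 0, ∃ k0, ∀ k ≥ k0, ∀ n, 2 * 6 ^ k ≤ n → n < 3 * 6 ^ k →
      |f n - l| ≤ ε) → L f = l) := by
  have hex : ∀ f : ℕ →ᵇ ℝ, ∃ x : ℝ,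
      Tendsto (fun k => av k f) (hyperfilter ℕ : Filter ℕ) (𝓝 x) := by
    intro f
    have hc : IsCompact (Metric.closedBall (0 : ℝ) ‖f‖) := isCompact_closedBall _ _
    obtain ⟨x, _, hx⟩ := hc.ultrafilter_le_nhds ((hyperfilter ℕ).map fun k => av k f) (by
      rw [Ultrafilter.coe_map, le_principal_iff, mem_map]
      refine Eventually.of_forall fun k => ?_
      simp only [Metric.mem_closedBall, dist_zero_right, Real.norm_eq_abs]
      exact av_bound k f)
    exact ⟨x, hx⟩
  choose Lf hL using hex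
  let LL : (ℕ →ᵇ ℝ) →ₗ[ℝ] ℝ :=
    { toFun := Lf
      map_add' := fun f g => by
        refine tendsto_nhds_unique (hL (f + g)) (((hL f).add (hL g)).congr fun k => ?_)
        rw [← av_add]
        rfl
      map_smul' := fun c f => by
        refine tendsto_nhds_unique (hL (c • f)) (((hL f).const_mul c).congr fun k => ?_)
        rw [← av_smul]
        rfl }
  have hbd : ∀ f, ‖LL f‖ ≤ 1 * ‖f‖ := by
    intro f
    rw [one_mul]
    refine le_of_tendsto (hL f).norm (Eventually.of_forall fun k => ?_)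
    rw [Real.norm_eq_abs]
    exact av_bound k f
  refine ⟨LL.mkContinuous 1 hbd, ?_, ?_, ?_, ?_⟩
  · intro f hf
    refine ge_of_tendsto (hL f) (Eventually.of_forall fun k => ?_)
    unfold av
    exact mul_nonneg (by positivity) (Finset.sum_nonneg fun i _ => hf _)
  · refine tendsto_nhds_unique (hL _) ?_
    refine tendsto_const_nhds.congr fun k => ?_
    unfold av
    simp
  · intro f g hg
    have h1 : Tendsto (fun k => av k g - av k f) atTop (𝓝 0) := by
      have hb : ∀ k : ℕ, |av k g - av k f| ≤ 2 * ‖f‖ * ((6 : ℝ) ^ k)⁻¹ := by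
        intro k
        have h6 : (0 : ℝ) < 6 ^ k := by positivity
        have e1 : av k g - av k f = ((6 : ℝ) ^ k)⁻¹ * (f (2 * 6 ^ k + 6 ^ k) - f (2 * 6 ^ k)) := by
          unfold av
          rw [← mul_sub, ← Finset.sum_sub_distrib]
          have t1 := Finset.sum_range_sub (fun j => f (2 * 6 ^ k + j)) (6 ^ k)
          simp only [add_zero] at t1
          rw [← t1]
          congr 1
          refine Finset.sum_congr rfl fun i _ => ?_
          rw [hg]
          rfl
        rw [e1, abs_mul, abs_of_pos (inv_pos.2 h6), mul_comm]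
        apply mul_le_mul_of_nonneg_right _ (inv_pos.2 h6).le
        have a1 := f.norm_coe_le_norm (2 * 6 ^ k + 6 ^ k)
        have a2 := f.norm_coe_le_norm (2 * 6 ^ k)
        rw [Real.norm_eq_abs] at a1 a2
        refine (abs_sub _ _).trans ?_
        linarith
      have h0 : Tendsto (fun k : ℕ => 2 * ‖f‖ * ((6 : ℝ) ^ k)⁻¹) atTop (𝓝 0) := by
        have : Tendsto (fun k : ℕ => ((6 : ℝ) ^ k)⁻¹) atTop (𝓝 0) :=
          (tendsto_pow_atTop_atTop_of_one_lt (by norm_num)).inv_tendsto_atTop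
        simpa using this.const_mul (2 * ‖f‖)
      exact squeeze_zero_norm (fun k => by rw [Real.norm_eq_abs]; exact hb k) h0
    have h2 : Tendsto (fun k => av k g - av k f) (hyperfilter ℕ : Filter ℕ) (𝓝 0) :=
      h1.mono_left Nat.hyperfilter_le_atTop
    have h3 := (hL g).sub (hL f)
    have h4 := tendsto_nhds_unique h2 h3
    show Lf g = Lf f
    linarith
  · intro f l hf
    have h1 : Tendsto (fun k => av k f) atTop (𝓝 l) := by
      rw [Metric.tendsto_atTop]
      intro ε hε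
      obtain ⟨k0, hk0⟩ := hf (ε / 2) (by positivity)
      refine ⟨k0, fun k hk => ?_⟩
      rw [Real.dist_eq]
      have := av_close k f l (ε / 2) (hk0 k hk)
      linarith
    exact tendsto_nhds_unique (hL f) (h1.mono_left Nat.hyperfilter_le_atTop)

end Pool.Agent.Helper139.Tw4
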