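import Mathlib

set_option autoImplicit false
open MeasureTheory Filter Topology Polynomial
open scoped InnerProductSpace ENNReal ComplexConjugate

set_option linter.unusedSectionVars false

namespace Pool.Agent.Helper139.Tw5

/-- Lebesgue measure on the circle. -/
noncomputable def mT : Measure ℂ := Measure.map (fun t : ℝ => Complex.exp ((t : ℂ) * Complex.I))
          (volume.restrict (Set.Ioc 0 (2 * Real.pi)))

lemma exp_meas : Measurable (fun t : ℝ => Complex.exp ((t : ℂ) * Complex.I)) := by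
  fun_prop

instance : IsFiniteMeasure mT := by
  unfold mT
  have : IsFiniteMeasure ((volume : Measure ℝ).restrict (Set.Ioc 0 (2 * Real.pi))) :=
    ⟨by rw [Measure.restrict_apply_univ]; exact measure_Ioc_lt_top⟩
  infer_instance

lemma mT_sphere : mT (Metric.sphere (0 : ℂ) 1)ᶜ = 0 := by
  unfold mT
  rw [Measure.map_apply exp_meas Metric.isClosed_sphere.measurableSet.compl]
  have : (fun t : ℝ => Complex.exp ((t : ℂ) * Complex.I)) ⁻¹' (Metric.sphere (0 : ℂ) 1)ᶜ = ∅ := by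
    ext t
    simp [Complex.norm_exp_ofReal_mul_I]
  rw [this, measure_empty]

lemma mT_int (a b : ℕ) : ∫ z, conj (z ^ b) * z ^ a ∂mT = if a = b then (2 * Real.pi : ℂ) else 0 := by
  unfold mT
  rw [integral_map exp_meas.aemeasurable]
  swap
  · exact (by fun_prop : Continuous fun z : ℂ => conj (z ^ b) * z ^ a).aestronglyMeasurable
  have h1 : ∀ t : ℝ, conj (Complex.exp ((t : ℂ) * Complex.I) ^ b) *
      Complex.exp ((t : ℂ) * Complex.I) ^ a = Complex.exp ((((a : ℂ) - b) * Complex.I) * t) := by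
    intro t
    rw [map_pow, ← Complex.exp_conj, ← Complex.exp_nat_mul, ← Complex.exp_nat_mul,
      ← Complex.exp_add]
    congr 1
    rw [map_mul, Complex.conj_I, Complex.conj_ofReal]
    ring
  simp only [h1]
  rw [← intervalIntegral.integral_of_le (by positivity)]
  by_cases hab : a = b
  · subst hab
    simp
  · rw [if_neg hab, integral_exp_mul_complex]
    · have h2 : Complex.exp (((a : ℂ) - b) * Complex.I * ((2 * Real.pi : ℝ) : ℂ)) = 1 := by
        have := Complex.exp_int_mul_two_pi_mul_I ((a : ℤ) - b)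
        rw [← this]
        congr 1
        push_cast
        ring
      rw [h2]
      simp
    · intro h0
      rw [mul_eq_zero] at h0
      rcases h0 with h0 | h0
      · rw [sub_eq_zero] at h0
        exact hab (by exact_mod_cast h0)
      · exact Complex.I_ne_zero h0

section supp

variable {μ : Measure ℂ} [IsFiniteMeasure μ]

lemma int_supp (hμ : μ (Metric.sphere (0 : ℂ) 1)ᶜ = 0) {E : Type*} [NormedAddCommGroup E]
    [SecondCountableTopology E] {f : ℂ → E} (hf : Continuous f) : Integrable f μ := by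
  obtain ⟨C, hC⟩ := (isCompact_sphere (0 : ℂ) 1).exists_bound_of_continuousOn hf.continuousOn
  refine Integrable.of_bound hf.aestronglyMeasurable C ?_
  have : ∀ᵐ z ∂μ, z ∈ Metric.sphere (0 : ℂ) 1 := by
    rw [ae_iff]
    exact hμ
  filter_upwards [this] with z hz using hC z hz

variable {K : Type*} [NormedAddCommGroup K] [InnerProductSpace ℂ K] [CompleteSpace K]

lemma inner_pow {W : K →L[ℂ] K} (hW : ∀ u v : K, ⟪W u, W v⟫_ℂ = ⟪u, v⟫_ℂ) (n : ℕ) (u v : K) :
    ⟪(W ^ n) u, (W ^ n) v⟫_ℂ = ⟪u, v⟫_ℂ := by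
  induction n generalizing u v with
  | zero => simp
  | succ n ih =>
    rw [pow_succ, mul_apply_eq_comp, mul_apply_eq_comp, ih, hW]

lemma int_mono {W : K →L[ℂ] K} (hW : ∀ u v : K, ⟪W u, W v⟫_ℂ = ⟪u, v⟫_ℂ) {y : K}
    (hμ : μ (Metric.sphere (0 : ℂ) 1)ᶜ = 0)
    (hy : ∀ n : ℕ, ∫ z, z ^ n ∂μ = ⟪y, (W ^ n) y⟫_ℂ) (a b : ℕ) :
    ∫ z, conj (z ^ b) * z ^ a ∂μ = ⟪(W ^ b) y, (W ^ a) y⟫_ℂ := by
  have hs : ∀ᵐ z ∂μ, z ∈ Metric.sphere (0 : ℂ) 1 := by
    rw [ae_iff]
    exact hμ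
  have key : ∀ a b : ℕ, b ≤ a → ∫ z, conj (z ^ b) * z ^ a ∂μ = ⟪(W ^ b) y, (W ^ a) y⟫_ℂ := by
    intro a b hab
    obtain ⟨c, rfl⟩ := Nat.exists_eq_add_of_le hab
    rw [pow_add W, mul_apply_eq_comp, inner_pow hW, ← hy c]
    refine integral_congr_ae ?_
    filter_upwards [hs] with z hz
    rw [mem_sphere_zero_iff_norm] at hz
    rw [pow_add, ← mul_assoc, ← Complex.normSq_eq_conj_mul_self, Complex.normSq_eq_norm_sq,
      norm_pow, hz]
    simp
  rcases le_total b a with h | h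
  · exact key a b h
  · have := congrArg conj (key b a h)
    rw [← integral_conj, inner_conj_symm] at this
    rw [← this]
    refine integral_congr_ae (Eventually.of_forall fun z => ?_)
    simp only [map_mul, Complex.conj_conj]
    ring

lemma int_poly {W : K →L[ℂ] K} (hW : ∀ u v : K, ⟪W u, W v⟫_ℂ = ⟪u, v⟫_ℂ) {y : K}
    (hμ : μ (Metric.sphere (0 : ℂ) 1)ᶜ = 0)
    (hy : ∀ n : ℕ, ∫ z, z ^ n ∂μ = ⟪y, (W ^ n) y⟫_ℂ) (p q : ℂ[X]) :
    ∫ z, conj (q.eval z) * p.eval z ∂μ = ⟪(aeval W q) y, (aeval W p) y⟫_ℂ := by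
  induction p using Polynomial.induction_on' with
  | add p1 p2 h1 h2 =>
    simp only [eval_add, mul_add, map_add, add_apply, inner_add_right]
    rw [integral_add, h1, h2]
    · exact int_supp hμ (by fun_prop)
    · exact int_supp hμ (by fun_prop)
  | monomial a c =>
    induction q using Polynomial.induction_on' with
    | add q1 q2 h1 h2 =>
      simp only [eval_add, map_add, add_mul, add_apply, inner_add_left]
      rw [integral_add, h1, h2]
      · exact int_supp hμ (by fun_prop)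
      · exact int_supp hμ (by fun_prop)
    | monomial b d =>
      simp only [eval_monomial, aeval_monomial]
      have e1 : ∀ z : ℂ, conj (d * z ^ b) * (c * z ^ a) = (conj d * c) * (conj (z ^ b) * z ^ a) := by
        intro z
        rw [map_mul]
        ring
      simp only [e1]
      rw [integral_const_mul, int_mono hW hμ hy]
      simp only [mul_apply_eq_comp, Algebra.algebraMap_eq_smul_one,
        smul_apply, one_apply_eq_self, inner_smul_left,
        inner_smul_right]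
      ring

lemma int_poly_norm {W : K →L[ℂ] K} (hW : ∀ u v : K, ⟪W u, W v⟫_ℂ = ⟪u, v⟫_ℂ) {y : K}
    (hμ : μ (Metric.sphere (0 : ℂ) 1)ᶜ = 0)
    (hy : ∀ n : ℕ, ∫ z, z ^ n ∂μ = ⟪y, (W ^ n) y⟫_ℂ) (p : ℂ[X]) :
    ∫ z, ‖p.eval z‖ ^ 2 ∂μ = ‖(aeval W p) y‖ ^ 2 := by
  have h1 := int_poly hW hμ hy p p
  have h2 : ∀ z : ℂ, conj (p.eval z) * p.eval z = ((‖p.eval z‖ ^ 2 : ℝ) : ℂ) := by
    intro z
    rw [← Complex.normSq_eq_conj_mul_self, Complex.normSq_eq_norm_sq]
  simp only [h2] at h1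
  rw [integral_complex_ofReal, inner_self_eq_norm_sq_to_K] at h1
  have h3 : ((‖(aeval W p) y‖ ^ 2 : ℝ) : ℂ) = ((‖(aeval W p) y‖ : ℂ)) ^ 2 := by push_cast; rfl
  apply Complex.ofReal_injective
  rw [h3]
  exact h1

end supp

/-- The averaging polynomial. -/
noncomputable def q (J : ℕ) : ℂ[X] := C ((J : ℂ)⁻¹) * ∑ k ∈ Finset.range J, X ^ (6 ^ k)

lemma q_eval (J : ℕ) (z : ℂ) : (q J).eval z = (J : ℂ)⁻¹ * ∑ k ∈ Finset.range J, z ^ (6 ^ k) := by
  unfold q
  rw [eval_mul, eval_C, eval_finsetSum]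
  simp

lemma q_norm_le (J : ℕ) (z : ℂ) (hz : ‖z‖ = 1) : ‖(q J).eval z‖ ≤ 1 := by
  rw [q_eval, norm_mul, norm_inv, Complex.norm_natCast]
  rcases Nat.eq_zero_or_pos J with rfl | hJ
  · simp
  have hJ' : (0 : ℝ) < J := by exact_mod_cast hJ
  rw [inv_mul_le_iff₀ hJ', mul_one]
  refine (norm_sum_le _ _).trans ?_
  simp [norm_pow, hz]

lemma q_int (J : ℕ) (hJ : 0 < J) : ∫ z, ‖(q J).eval z‖ ^ 2 ∂mT = 2 * Real.pi / J := by
  have hJ' : (J : ℂ) ≠ 0 := by exact_mod_cast hJ.ne'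
  have h2 : ∀ z : ℂ, ((‖(q J).eval z‖ ^ 2 : ℝ) : ℂ) =
      ((J : ℂ)⁻¹) ^ 2 * ∑ k ∈ Finset.range J, ∑ l ∈ Finset.range J,
        (conj (z ^ (6 ^ l)) * z ^ (6 ^ k)) := by
    intro z
    rw [← Complex.normSq_eq_norm_sq, Complex.normSq_eq_conj_mul_self, q_eval, map_mul, map_inv₀,
      Complex.conj_natCast, map_sum, Finset.sum_comm, ← Finset.sum_mul_sum]
    ring
  apply Complex.ofReal_injective
  rw [← integral_complex_ofReal]
  simp only [h2]
  rw [integral_const_mul, integral_finsetSum]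
  swap
  · intro k _
    exact int_supp mT_sphere (by fun_prop)
  have h3 : ∀ k ∈ Finset.range J, ∫ z, ∑ l ∈ Finset.range J, (conj (z ^ (6 ^ l)) * z ^ (6 ^ k)) ∂mT
      = 2 * Real.pi := by
    intro k hk
    rw [integral_finsetSum]
    swap
    · intro l _
      exact int_supp mT_sphere (by fun_prop)
    simp only [mT_int]
    have h4 : ∀ l, ((6 : ℕ) ^ k = 6 ^ l) = (k = l) := by
      intro l
      exact propext ⟨fun h => Nat.pow_right_injective (by norm_num) h, fun h => by rw [h]⟩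
    simp only [h4]
    rw [Finset.sum_ite_eq, if_pos hk]
  rw [Finset.sum_congr rfl h3, Finset.sum_const, Finset.card_range, nsmul_eq_mul]
  push_cast
  field_simp

/-- Criterion for mutual singularity. -/
lemma sing_of_sets {μ ν : Measure ℂ}
    (h : ∀ ε : ℝ, 0 < ε → ∃ A : Set ℂ, MeasurableSet A ∧ ν A ≤ ENNReal.ofReal ε ∧
      μ Aᶜ ≤ ENNReal.ofReal ε) : μ ⟂ₘ ν := by
  apply Measure.mutuallySingular_of_disjoint
  intro τ h1 h2
  have h3 : τ Set.univ = 0 := by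
    by_contra hne
    have hall : ∀ ε : ℝ, 0 < ε → τ Set.univ ≤ ENNReal.ofReal (2 * ε) := by
      intro ε hε
      obtain ⟨A, hA, a1, a2⟩ := h ε hε
      rw [← measure_add_measure_compl hA, two_mul, ENNReal.ofReal_add hε.le hε.le]
      exact add_le_add ((h2 A).trans a1) ((h1 Aᶜ).trans a2)
    have hfin : τ Set.univ ≠ ⊤ := ne_top_of_le_ne_top ENNReal.ofReal_ne_top (hall 1 one_pos)
    have hpos : 0 < (τ Set.univ).toReal := ENNReal.toReal_pos hne hfin
    have := hall ((τ Set.univ).toReal / 4) (by positivity)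
    rw [← ENNReal.ofReal_toReal hfin, ENNReal.toReal_ofReal hpos.le,
      ENNReal.ofReal_le_ofReal_iff (by positivity)] at this
    linarith
  rw [le_bot_iff]
  exact Measure.measure_univ_eq_zero.1 h3

lemma pow_est (w : ℂ) (hw : ‖w‖ ≤ 1) (M : ℕ) : ‖1 - (1 - w) ^ M‖ ≤ 2 ^ M * ‖w‖ := by
  induction M with
  | zero => simp
  | succ M ih =>
    have e1 : 1 - (1 - w) ^ (M + 1) = (1 - (1 - w) ^ M) + (1 - w) ^ M * w := by ring
    have h2 : ‖1 - w‖ ≤ 2 := (norm_sub_le _ _).trans (by rw [norm_one]; linarith)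
    have h3 : ‖(1 - w) ^ M * w‖ ≤ 2 ^ M * ‖w‖ := by
      rw [norm_mul, norm_pow]
      exact mul_le_mul_of_nonneg_right (pow_le_pow_left₀ (norm_nonneg _) h2 M) (norm_nonneg _)
    rw [e1]
    refine (norm_add_le _ _).trans ?_
    rw [pow_succ]
    linarith

lemma markov {μ : Measure ℂ} [IsFiniteMeasure μ] (hμ : μ (Metric.sphere (0 : ℂ) 1)ᶜ = 0)
    {f : ℂ → ℂ} (hf : Continuous f) {ε : ℝ} (hε : 4 * ∫ z, ‖f z‖ ^ 2 ∂μ ≤ ε) :
    μ {z | (1 / 2 : ℝ) ≤ ‖f z‖} ≤ ENNReal.ofReal ε := by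
  have h1 := mul_meas_ge_le_integral_of_nonneg (μ := μ) (f := fun z => ‖f z‖ ^ 2)
    (Eventually.of_forall fun z => by positivity) (int_supp hμ (by fun_prop)) (1 / 4)
  have h2 : {z | (1 / 2 : ℝ) ≤ ‖f z‖} = {z | (1 / 4 : ℝ) ≤ ‖f z‖ ^ 2} := by
    ext z
    simp only [Set.mem_ofPred_eq]
    constructor
    · intro h
      nlinarith
    · intro h
      nlinarith [norm_nonneg (f z)]
  rw [h2, ← ENNReal.ofReal_toReal (measure_ne_top μ _)]
  apply ENNReal.ofReal_le_ofReal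
  have h3 : μ.real {z | (1 / 4 : ℝ) ≤ ‖f z‖ ^ 2} = (μ {z | (1 / 4 : ℝ) ≤ ‖f z‖ ^ 2}).toReal := rfl
  rw [← h3]
  linarith

section main

variable {K : Type*} [NormedAddCommGroup K] [InnerProductSpace ℂ K] [CompleteSpace K]

lemma aeval_q (W : K →L[ℂ] K) (J : ℕ) (v : K) :
    (aeval W (q J)) v = (J : ℂ)⁻¹ • ∑ k ∈ Finset.range J, (W ^ (6 ^ k)) v := by
  unfold q
  rw [map_mul, aeval_C, map_sum]
  simp only [map_pow, aeval_X]
  rw [mul_apply_eq_comp, Algebra.algebraMap_eq_smul_one, smul_apply, one_apply_eq_self,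
    sum_apply]

lemma aeval_q_norm {W : K →L[ℂ] K} (hW : ∀ u v : K, ⟪W u, W v⟫_ℂ = ⟪u, v⟫_ℂ) (J : ℕ) (v : K) :
    ‖(aeval W (q J)) v‖ ≤ ‖v‖ := by
  rw [aeval_q]
  have hn : ∀ n : ℕ, ‖(W ^ n) v‖ = ‖v‖ := by
    intro n
    have h1 := inner_pow hW n v v
    rw [inner_self_eq_norm_sq_to_K, inner_self_eq_norm_sq_to_K] at h1
    have h2 : ((‖(W ^ n) v‖ ^ 2 : ℝ) : ℂ) = ((‖v‖ ^ 2 : ℝ) : ℂ) := by
      rw [Complex.ofReal_pow, Complex.ofReal_pow]; exact h1
    have h3 := Complex.ofReal_injective h2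
    exact (sq_eq_sq₀ (norm_nonneg _) (norm_nonneg _)).1 h3
  rcases Nat.eq_zero_or_pos J with rfl | hJ
  · simp
  rw [norm_smul, norm_inv, Complex.norm_natCast]
  have h1 : ‖∑ k ∈ Finset.range J, (W ^ (6 ^ k)) v‖ ≤ J * ‖v‖ := by
    refine (norm_sum_le _ _).trans (le_of_eq ?_)
    simp only [hn]
    rw [Finset.sum_const, Finset.card_range, nsmul_eq_mul]
  have hJ' : (0 : ℝ) < J := by exact_mod_cast hJ
  rw [inv_mul_le_iff₀ hJ']
  exact h1

lemma one_sub_pow_norm {W : K →L[ℂ] K} (hW : ∀ u v : K, ⟪W u, W v⟫_ℂ = ⟪u, v⟫_ℂ) (J M : ℕ)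
    (v : K) : ‖((1 - aeval W (q J)) ^ M) v‖ ≤ 2 ^ M * ‖v‖ := by
  induction M generalizing v with
  | zero => simp
  | succ M ih =>
    rw [pow_succ, mul_apply_eq_comp]
    refine (ih _).trans ?_
    have h2 : ‖(1 - aeval W (q J)) v‖ ≤ 2 * ‖v‖ := by
      rw [sub_apply, one_apply_eq_self]
      refine (norm_sub_le _ _).trans ?_
      have := aeval_q_norm hW J v
      linarith
    calc 2 ^ M * ‖(1 - aeval W (q J)) v‖ ≤ 2 ^ M * (2 * ‖v‖) :=
          mul_le_mul_of_nonneg_left h2 (by positivity)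
      _ = 2 ^ (M + 1) * ‖v‖ := by ring

lemma pow_tendsto {W : K →L[ℂ] K} (hW : ∀ u v : K, ⟪W u, W v⟫_ℂ = ⟪u, v⟫_ℂ) {Λ : K →L[ℂ] K}
    (hΛ : ∀ v, Tendsto (fun J : ℕ => (J : ℂ)⁻¹ • ∑ k ∈ Finset.range J, (W ^ (6 ^ k)) v) atTop
      (𝓝 (Λ v))) (M : ℕ) (v : K) :
    Tendsto (fun J : ℕ => ((1 - aeval W (q J)) ^ M) v) atTop (𝓝 (((1 - Λ) ^ M) v)) := by
  induction M generalizing v with
  | zero => simp
  | succ M ih =>
    have h1 := ih ((1 - Λ) v)
    have h2 : Tendsto (fun J : ℕ => (1 - aeval W (q J)) v - (1 - Λ) v) atTop (𝓝 0) := by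
      have h3 := (hΛ v).const_sub v
      have h4 := h3.sub_const (v - Λ v)
      rw [sub_self] at h4
      refine h4.congr fun J => ?_
      rw [sub_apply, sub_apply, one_apply_eq_self, aeval_q]
    have h5 : Tendsto (fun J : ℕ => ((1 - aeval W (q J)) ^ M)
        ((1 - aeval W (q J)) v - (1 - Λ) v)) atTop (𝓝 0) := by
      refine squeeze_zero_norm (fun J => one_sub_pow_norm hW J M _) ?_
      have := h2.norm.const_mul (2 ^ M : ℝ)
      simpa using this
    have h6 := h5.add h1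
    rw [zero_add] at h6
    rw [pow_succ, mul_apply_eq_comp]
    refine h6.congr fun J => ?_
    rw [pow_succ, mul_apply_eq_comp, map_sub]
    abel

/-- Singularity from strong convergence of averages. -/
theorem singular_of_avg {W : K →L[ℂ] K} (hW : ∀ u v : K, ⟪W u, W v⟫_ℂ = ⟪u, v⟫_ℂ) {Λ : K →L[ℂ] K}
    (hΛ : ∀ v, Tendsto (fun J : ℕ => (J : ℂ)⁻¹ • ∑ k ∈ Finset.range J, (W ^ (6 ^ k)) v) atTop
      (𝓝 (Λ v)))
    (hΛ0 : ∀ v, Tendsto (fun M : ℕ => ((1 - Λ) ^ M) v) atTop (𝓝 0))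
    (y : K) (μ : Measure ℂ) [IsFiniteMeasure μ] (hμ : μ (Metric.sphere (0 : ℂ) 1)ᶜ = 0)
    (hy : ∀ n : ℕ, ∫ z, z ^ n ∂μ = ⟪y, (W ^ n) y⟫_ℂ) : μ ⟂ₘ mT := by
  apply sing_of_sets
  intro ε hε
  obtain ⟨M, hM⟩ : ∃ M : ℕ, ‖((1 - Λ) ^ M) y‖ ^ 2 < ε / 4 := by
    have h1 := ((hΛ0 y).norm.pow 2)
    rw [norm_zero] at h1
    have h2 : (0 : ℝ) ^ 2 < ε / 4 := by
      rw [zero_pow two_ne_zero]; positivity
    exact (h1.eventually (gt_mem_nhds h2)).exists
  obtain ⟨J, ⟨hJ1, hJ2⟩, hJ0⟩ : ∃ J : ℕ, (‖((1 - aeval W (q J)) ^ M) y‖ ^ 2 < ε / 4 ∧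
      4 ^ M * (2 * Real.pi / J) < ε / 4) ∧ 0 < J := by
    have h1 := ((pow_tendsto hW hΛ M y).norm.pow 2).eventually (gt_mem_nhds hM)
    have h2 : Tendsto (fun J : ℕ => (4 : ℝ) ^ M * (2 * Real.pi / J)) atTop (𝓝 0) := by
      have := (tendsto_const_div_atTop_nhds_zero_nat (2 * Real.pi)).const_mul ((4 : ℝ) ^ M)
      simpa using this
    have h3 := h2.eventually (gt_mem_nhds (by positivity : (0 : ℝ) < ε / 4))
    exact ((h1.and h3).and (eventually_gt_atTop 0)).exists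
  let p : ℂ[X] := (1 - q J) ^ M
  have hpc : Continuous fun z : ℂ => p.eval z := p.continuous
  refine ⟨{z | (1 / 2 : ℝ) ≤ ‖1 - p.eval z‖}, ?_, ?_, ?_⟩
  · exact (isClosed_le continuous_const (by fun_prop)).measurableSet
  · refine markov mT_sphere (f := fun z => 1 - p.eval z) (by fun_prop) ?_
    have hs : ∀ᵐ z ∂mT, z ∈ Metric.sphere (0 : ℂ) 1 := by
      rw [ae_iff]
      exact mT_sphere
    have h1 : ∫ z, ‖1 - p.eval z‖ ^ 2 ∂mT ≤ ∫ z, 4 ^ M * ‖(q J).eval z‖ ^ 2 ∂mT := by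
      refine integral_mono_ae (int_supp mT_sphere (by fun_prop)) (int_supp mT_sphere (by fun_prop)) ?_
      filter_upwards [hs] with z hz
      rw [mem_sphere_zero_iff_norm] at hz
      have h2 : p.eval z = (1 - (q J).eval z) ^ M := by simp [p]
      have h3 := pow_est ((q J).eval z) (q_norm_le J z hz) M
      have h4 := pow_le_pow_left₀ (norm_nonneg _) h3 2
      rw [h2]
      refine h4.trans (le_of_eq ?_)
      rw [mul_pow, ← pow_mul, mul_comm M 2, pow_mul]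
      norm_num
    rw [integral_const_mul, q_int J hJ0] at h1
    linarith
  · refine le_trans (measure_mono ?_) (markov hμ (f := fun z => p.eval z) hpc (ε := ε) ?_)
    · intro z hz
      simp only [Set.mem_compl_iff, Set.mem_ofPred_eq, not_le] at hz ⊢
      have : ‖(1 : ℂ)‖ ≤ ‖1 - p.eval z‖ + ‖p.eval z‖ := by
        have := norm_add_le (1 - p.eval z) (p.eval z)
        simpa using this
      rw [norm_one] at this
      linarith
    · rw [int_poly_norm hW hμ hy p]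
      have : (aeval W p) = (1 - aeval W (q J)) ^ M := by simp [p]
      rw [this]
      linarith

end main

end Pool.Agent.Helper139.Tw5
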