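import Mathlib
import Pool.Agent.Helper139.Tw4
import Pool.Agent.Helper139.Tw5

set_option autoImplicit false
open MeasureTheory Filter Topology
open scoped InnerProductSpace ENNReal ComplexConjugate

set_option linter.unusedSectionVars false

namespace Pool.Agent.Helper139.Tw6

open Pool.Agent.Helper139

section blocks

variable {K : Type*} [NormedAddCommGroup K] [InnerProductSpace ℂ K] [CompleteSpace K]

/-- The filter of times in the windows. -/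
def Fw : Filter ℕ := atTop ⊓ 𝓟 {n | ∃ k : ℕ, 2 * 6 ^ k ≤ n ∧ n < 3 * 6 ^ k}

lemma tendsto_Fw {E : Type*} [NormedAddCommGroup E] {f : ℕ → E}
    (h : ∀ ε : ℝ, 0 < ε → ∃ k0 : ℕ, ∀ k ≥ k0, ∀ n : ℕ, 2 * 6 ^ k ≤ n → n < 3 * 6 ^ k → ‖f n‖ ≤ ε) :
    Tendsto f Fw (𝓝 0) := by
  rw [Metric.tendsto_nhds]
  intro ε hε
  obtain ⟨k0, hk0⟩ := h (ε / 2) (by positivity)
  unfold Fw
  rw [eventually_inf_principal]
  filter_upwards [eventually_ge_atTop (3 * 6 ^ k0)] with n hn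
  rintro ⟨k, hk1, hk2⟩
  have hk : k0 ≤ k := by
    by_contra hlt
    push Not at hlt
    have : 6 ^ k ≤ 6 ^ k0 := Nat.pow_le_pow_right (by norm_num) hlt.le
    omega
  have := hk0 k hk n hk1 hk2
  rw [dist_zero_right]
  linarith

lemma of_tendsto_Fw {f : ℕ → ℝ} {l : ℝ} (h : Tendsto f Fw (𝓝 l)) (ε : ℝ) (hε : 0 < ε) :
    ∃ k0 : ℕ, ∀ k ≥ k0, ∀ n : ℕ, 2 * 6 ^ k ≤ n → n < 3 * 6 ^ k → |f n - l| ≤ ε := by
  rw [Metric.tendsto_nhds] at h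
  have h1 := h ε hε
  unfold Fw at h1
  rw [eventually_inf_principal, eventually_atTop] at h1
  obtain ⟨N, hN⟩ := h1
  refine ⟨N, fun k hk n hn1 hn2 => ?_⟩
  have h2 : k < 6 ^ k := Nat.lt_pow_self (by norm_num)
  have := hN n (by omega) ⟨k, hn1, hn2⟩
  rw [Real.dist_eq] at this
  exact this.le

/-- Block data. -/
structure Block (U : K ≃ₗᵢ[ℂ] K) (P : K →L[ℂ] K) (κ α : ℝ) : Prop where
  idem : ∀ v, P (P v) = P v
  symm : ∀ u v, ⟪P u, v⟫_ℂ = ⟪u, P v⟫_ℂ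
  one_le : 1 ≤ κ
  pb : ∀ (m : ℕ) (f : K), (κ ^ 2 - 1) * ‖P ((U ^ m) f)‖ ^ 2 ≤
    11 * ((κ ^ 2 - 1) * ‖P f‖ ^ 2) + 10 * ‖f‖ ^ 2
  tends : ∀ v : K, Tendsto (fun n => P ((U ^ n) v)) Fw (𝓝 0)
  avg : ∀ v : K, Tendsto (fun J : ℕ => (J : ℂ)⁻¹ • ∑ k ∈ Finset.range J, (U ^ (6 ^ k)) v) atTop
    (𝓝 ((α : ℂ) • v))
  α_pos : 0 < α
  α_le : α ≤ 1
  bad : ∃ v, ‖v‖ = 1 ∧ P (U v) = 0 ∧ 1 / 2 ≤ ‖P v‖

/-- The operator `1 + (s - 1) P`. -/
noncomputable def D (P : K →L[ℂ] K) (s : ℝ) : K →L[ℂ] K := 1 + ((s : ℂ) - 1) • P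

lemma D_apply (P : K →L[ℂ] K) (s : ℝ) (v : K) : D P s v = v + ((s : ℂ) - 1) • P v := rfl

variable {U : K ≃ₗᵢ[ℂ] K} {P : K →L[ℂ] K} {κ α : ℝ}

lemma D_D (h : Block U P κ α) (s t : ℝ) (hst : s * t = 1) (v : K) : D P s (D P t v) = v := by
  have hst' : (s : ℂ) * t = 1 := by exact_mod_cast hst
  rw [D_apply, D_apply, map_add, map_smul, h.idem, smul_add, smul_smul]
  have e : v + ((t : ℂ) - 1) • P v + (((s : ℂ) - 1) • P v + (((s : ℂ) - 1) * ((t : ℂ) - 1)) • P v) =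
      v + (((t : ℂ) - 1) + ((s : ℂ) - 1) + ((s : ℂ) - 1) * ((t : ℂ) - 1)) • P v := by
    rw [add_smul, add_smul]; abel
  rw [e]
  have : ((t : ℂ) - 1) + ((s : ℂ) - 1) + ((s : ℂ) - 1) * ((t : ℂ) - 1) = 0 := by
    linear_combination hst'
  rw [this, zero_smul, add_zero]

lemma norm_D_sq (h : Block U P κ α) (s : ℝ) (v : K) :
    ‖D P s v‖ ^ 2 = ‖v‖ ^ 2 + (s ^ 2 - 1) * ‖P v‖ ^ 2 := by
  rw [D_apply, @norm_add_sq ℂ]
  have h1 : ⟪v, ((s : ℂ) - 1) • P v⟫_ℂ = (((s - 1) * ‖P v‖ ^ 2 : ℝ) : ℂ) := by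
    rw [inner_smul_right, ← h.idem v, ← h.symm, h.idem, inner_self_eq_norm_sq_to_K]
    push_cast
    rfl
  have h2 : ‖((s : ℂ) - 1)‖ = |s - 1| := by
    rw [← Complex.ofReal_one, ← Complex.ofReal_sub, Complex.norm_real, Real.norm_eq_abs]
  rw [h1, norm_smul, h2, mul_pow, sq_abs]
  have h3 : RCLike.re ((((s - 1) * ‖P v‖ ^ 2 : ℝ)) : ℂ) = (s - 1) * ‖P v‖ ^ 2 :=
    Complex.ofReal_re _
  rw [h3]
  ring

lemma norm_P_le (h : Block U P κ α) (v : K) : ‖P v‖ ≤ ‖v‖ := by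
  have h1 := norm_D_sq h 0 v
  have h2 : 0 ≤ ‖D P 0 v‖ ^ 2 := sq_nonneg _
  nlinarith [norm_nonneg (P v), norm_nonneg v]

/-- The inverse of the deformation. -/
noncomputable def Di (P : K →L[ℂ] K) (κ : ℝ) : K →L[ℂ] K := D P κ⁻¹

lemma D_Di (h : Block U P κ α) (v : K) : D P κ (Di P κ v) = v :=
  D_D h κ κ⁻¹ (mul_inv_cancel₀ (by linarith [h.one_le])) v

lemma Di_D (h : Block U P κ α) (v : K) : Di P κ (D P κ v) = v :=
  D_D h κ⁻¹ κ (inv_mul_cancel₀ (by linarith [h.one_le])) v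

lemma norm_sq_eq (h : Block U P κ α) (v : K) :
    ‖v‖ ^ 2 = ‖Di P κ v‖ ^ 2 + (κ ^ 2 - 1) * ‖P (Di P κ v)‖ ^ 2 := by
  rw [← norm_D_sq h κ, D_Di h]

lemma k2 (h : Block U P κ α) : 0 ≤ κ ^ 2 - 1 := by nlinarith [h.one_le]

lemma norm_Di_le (h : Block U P κ α) (v : K) : ‖Di P κ v‖ ≤ ‖v‖ := by
  have h1 := norm_sq_eq h v
  have h2 : 0 ≤ (κ ^ 2 - 1) * ‖P (Di P κ v)‖ ^ 2 := mul_nonneg (k2 h) (sq_nonneg _)
  exact (sq_le_sq₀ (norm_nonneg _) (norm_nonneg _)).1 (by linarith)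

lemma norm_D_le (h : Block U P κ α) (v : K) : ‖D P κ v‖ ≤ κ * ‖v‖ := by
  have h1 := norm_D_sq h κ v
  have h3 : ‖P v‖ ^ 2 ≤ ‖v‖ ^ 2 := pow_le_pow_left₀ (norm_nonneg _) (norm_P_le h v) 2
  have h2 : (κ ^ 2 - 1) * ‖P v‖ ^ 2 ≤ (κ ^ 2 - 1) * ‖v‖ ^ 2 := mul_le_mul_of_nonneg_left h3 (k2 h)
  have h0 : 0 ≤ κ * ‖v‖ := mul_nonneg (by linarith [h.one_le]) (norm_nonneg _)
  refine (sq_le_sq₀ (norm_nonneg _) h0).1 ?_
  rw [mul_pow]
  linarith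

lemma pow_norm (U : K ≃ₗᵢ[ℂ] K) (n : ℕ) (v : K) : ‖(U ^ n) v‖ = ‖v‖ := LinearIsometryEquiv.norm_map _ _

/-- Norm of the powers of the deformed operator. -/
lemma norm_T_sq (h : Block U P κ α) (n : ℕ) (v : K) :
    ‖D P κ ((U ^ n) (Di P κ v))‖ ^ 2 =
      ‖Di P κ v‖ ^ 2 + (κ ^ 2 - 1) * ‖P ((U ^ n) (Di P κ v))‖ ^ 2 := by
  rw [norm_D_sq h, pow_norm]

lemma norm_T_le (h : Block U P κ α) (n : ℕ) (v : K) :
    ‖D P κ ((U ^ n) (Di P κ v))‖ ^ 2 ≤ 11 * ‖v‖ ^ 2 := by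
  rw [norm_T_sq h, norm_sq_eq h v]
  have := h.pb n (Di P κ v)
  linarith

end blocks

section sums

variable {K : ℕ → Type} [∀ j, NormedAddCommGroup (K j)] [∀ j, InnerProductSpace ℂ (K j)]
  [∀ j, CompleteSpace (K j)]

lemma lp_summable (x : lp K 2) : Summable fun j => ‖x j‖ ^ 2 := by
  have := (lp.memℓp x).summable (by norm_num)
  simpa using this

lemma lp_norm_sq (x : lp K 2) : ‖x‖ ^ 2 = ∑' j, ‖x j‖ ^ 2 := by
  have := lp.norm_rpow_eq_tsum (p := 2) (by norm_num) x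
  simpa using this

lemma mem_of_bound (y : ∀ j, K j) (x : lp K 2) (C : ℝ) (h : ∀ j, ‖y j‖ ≤ C * ‖x j‖) :
    Memℓp y 2 := by
  apply memℓp_gen
  have h1 : Summable fun j => C ^ 2 * ‖x j‖ ^ 2 := (lp_summable x).mul_left _
  have : Summable fun j => ‖y j‖ ^ 2 := by
    refine Summable.of_nonneg_of_le (fun j => sq_nonneg _) (fun j => ?_) h1
    rw [← mul_pow]
    exact pow_le_pow_left₀ (norm_nonneg _) (h j) 2
  simpa using this

/-- Block diagonal operators. -/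
noncomputable def diagOp (A : ∀ j, K j →L[ℂ] K j) (C : ℝ) (hC : ∀ j v, ‖A j v‖ ≤ C * ‖v‖) :
    lp K 2 →L[ℂ] lp K 2 :=
  LinearMap.mkContinuous
    { toFun := fun x => ⟨fun j => A j (x j), mem_of_bound _ x C fun j => hC j (x j)⟩
      map_add' := fun x y => by
        ext j
        exact map_add (A j) (x j) (y j)
      map_smul' := fun c x => by
        ext j
        exact map_smul (A j) c (x j) } |C| (fun x => by
      rw [← sq_le_sq₀ (norm_nonneg _) (by positivity), mul_pow, sq_abs, lp_norm_sq, lp_norm_sq,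
        ← tsum_mul_left]
      refine Summable.tsum_le_tsum (fun j => ?_) (lp_summable _) ((lp_summable x).mul_left _)
      rw [← mul_pow]
      exact pow_le_pow_left₀ (norm_nonneg _) (hC j (x j)) 2)

lemma diagOp_apply (A : ∀ j, K j →L[ℂ] K j) (C : ℝ) (hC : ∀ j v, ‖A j v‖ ≤ C * ‖v‖) (x : lp K 2)
    (j : ℕ) : (diagOp A C hC x) j = A j (x j) := rfl

lemma lp_tendsto {ι : Type*} {l : Filter ι} (F : ι → lp K 2) (x y : lp K 2) (C : ℝ)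
    (hb : ∀ i j, ‖F i j - x j‖ ≤ C * ‖y j‖)
    (hp : ∀ j, Tendsto (fun i => F i j) l (𝓝 (x j))) : Tendsto F l (𝓝 x) := by
  rw [tendsto_iff_norm_sub_tendsto_zero]
  have h1 : Tendsto (fun i => ∑' j, ‖F i j - x j‖ ^ 2) l (𝓝 (∑' j : ℕ, (0 : ℝ))) := by
    refine tendsto_tsum_of_dominated_convergence (bound := fun j => C ^ 2 * ‖y j‖ ^ 2)
      ((lp_summable y).mul_left _) (fun j => ?_) (Eventually.of_forall fun i j => ?_)
    · have := ((hp j).sub_const (x j)).norm.pow 2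
      simpa using this
    · rw [Real.norm_of_nonneg (sq_nonneg _), ← mul_pow]
      exact pow_le_pow_left₀ (norm_nonneg _) (hb i j) 2
  rw [tsum_zero] at h1
  have h2 : Tendsto (fun i => Real.sqrt (∑' j, ‖F i j - x j‖ ^ 2)) l (𝓝 0) := by
    have := (Real.continuous_sqrt.tendsto 0).comp h1
    rwa [Real.sqrt_zero] at this
  refine h2.congr fun i => ?_
  have h3 : ‖F i - x‖ ^ 2 = ∑' j, ‖F i j - x j‖ ^ 2 := lp_norm_sq (F i - x)
  rw [← h3, Real.sqrt_sq (norm_nonneg _)]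

end sums

end Pool.Agent.Helper139.Tw6
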