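import Mathlib
import Pool.Agent.Helper139.Tw6

set_option autoImplicit false
open MeasureTheory Filter Topology
open scoped InnerProductSpace ENNReal ComplexConjugate BoundedContinuousFunction

set_option linter.unusedSectionVars false

namespace Pool.Agent.Helper139.Tw7

open Pool.Agent.Helper139 Pool.Agent.Helper139.Tw6

section sums

variable {K : ℕ → Type} [∀ j, NormedAddCommGroup (K j)] [∀ j, InnerProductSpace ℂ (K j)]
  [∀ j, CompleteSpace (K j)]
variable {U : ∀ j, K j ≃ₗᵢ[ℂ] K j} {P : ∀ j, K j →L[ℂ] K j} {κ α : ℕ → ℝ}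

/-- The unitary direct sum. -/
noncomputable def W (U : ∀ j, K j ≃ₗᵢ[ℂ] K j) : lp K 2 →L[ℂ] lp K 2 :=
  diagOp (fun j => ((U j).toContinuousLinearEquiv : K j →L[ℂ] K j)) 1 (fun j v => by
    rw [one_mul]
    exact (LinearIsometryEquiv.norm_map (U j) v).le)

lemma W_apply (U : ∀ j, K j ≃ₗᵢ[ℂ] K j) (x : lp K 2) (j : ℕ) : (W U x) j = U j (x j) := rfl

lemma W_pow (U : ∀ j, K j ≃ₗᵢ[ℂ] K j) (n : ℕ) (x : lp K 2) (j : ℕ) :
    ((W U ^ n) x) j = ((U j) ^ n) (x j) := by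
  induction n generalizing x with
  | zero => simp
  | succ n ih =>
    rw [pow_succ, mul_apply_eq_comp, ih, W_apply, pow_succ]
    rfl

lemma W_norm (U : ∀ j, K j ≃ₗᵢ[ℂ] K j) (x : lp K 2) : ‖W U x‖ = ‖x‖ := by
  rw [← sq_eq_sq₀ (norm_nonneg _) (norm_nonneg _), lp_norm_sq, lp_norm_sq]
  simp only [W_apply, LinearIsometryEquiv.norm_map]

lemma W_inner (U : ∀ j, K j ≃ₗᵢ[ℂ] K j) (x y : lp K 2) : ⟪W U x, W U y⟫_ℂ = ⟪x, y⟫_ℂ := by
  have h := (LinearMap.norm_map_iff_inner_map_map (W U : lp K 2 →L[ℂ] lp K 2)).1 (W_norm U)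
  exact h x y

lemma W_unitary (U : ∀ j, K j ≃ₗᵢ[ℂ] K j) : W U ∈ unitary (lp K 2 →L[ℂ] lp K 2) := by
  have h1 : star (W U) * W U = 1 := by
    refine ContinuousLinearMap.ext fun x => ?_
    rw [mul_apply_eq_comp, one_apply_eq_self, ContinuousLinearMap.star_eq_adjoint]
    refine ext_inner_right ℂ fun y => ?_
    rw [ContinuousLinearMap.adjoint_inner_left, W_inner]
  have h2 : W U * W (fun j => (U j).symm) = 1 := by
    ext x j
    rw [mul_apply_eq_comp, W_apply, W_apply, LinearIsometryEquiv.apply_symm_apply]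
    rfl
  rw [Unitary.mem_iff]
  refine ⟨h1, ?_⟩
  have h3 : star (W U) = W (fun j => (U j).symm) := by
    calc star (W U) = star (W U) * (W U * W (fun j => (U j).symm)) := by rw [h2, mul_one]
      _ = W (fun j => (U j).symm) := by rw [← mul_assoc, h1, one_mul]
  rw [h3, h2]

/-- The intertwiner. -/
noncomputable def X (hB : ∀ j, Block (U j) (P j) (κ j) (α j)) : lp K 2 →L[ℂ] lp K 2 :=
  diagOp (fun j => Di (P j) (κ j)) 1 (fun j v => by
    rw [one_mul]
    exact norm_Di_le (hB j) v)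

lemma X_apply (hB : ∀ j, Block (U j) (P j) (κ j) (α j)) (x : lp K 2) (j : ℕ) :
    (X hB x) j = Di (P j) (κ j) (x j) := rfl

lemma X_norm_le (hB : ∀ j, Block (U j) (P j) (κ j) (α j)) (x : lp K 2) : ‖X hB x‖ ≤ ‖x‖ := by
  rw [← sq_le_sq₀ (norm_nonneg _) (norm_nonneg _), lp_norm_sq, lp_norm_sq]
  refine Summable.tsum_le_tsum (fun j => ?_) (lp_summable _) (lp_summable x)
  exact pow_le_pow_left₀ (norm_nonneg _) (norm_Di_le (hB j) (x j)) 2

/-- The blocks of the power bounded operator. -/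
noncomputable def Tj (U : ∀ j, K j ≃ₗᵢ[ℂ] K j) (P : ∀ j, K j →L[ℂ] K j) (κ : ℕ → ℝ) (j : ℕ) :
    K j →L[ℂ] K j :=
  (D (P j) (κ j)).comp ((((U j).toContinuousLinearEquiv : K j →L[ℂ] K j)).comp (Di (P j) (κ j)))

lemma Tj_apply (j : ℕ) (v : K j) :
    Tj U P κ j v = D (P j) (κ j) ((U j) (Di (P j) (κ j) v)) := rfl

/-- The power bounded operator. -/
noncomputable def T (hB : ∀ j, Block (U j) (P j) (κ j) (α j)) : lp K 2 →L[ℂ] lp K 2 :=
  diagOp (Tj U P κ) 4 (fun j v => by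
    have h := norm_T_le (hB j) 1 v
    rw [pow_one] at h
    rw [Tj_apply]
    refine (sq_le_sq₀ (norm_nonneg _) (by positivity)).1 (h.trans ?_)
    rw [mul_pow]
    nlinarith [sq_nonneg ‖v‖])

lemma T_apply (hB : ∀ j, Block (U j) (P j) (κ j) (α j)) (x : lp K 2) (j : ℕ) :
    (T hB x) j = D (P j) (κ j) ((U j) (Di (P j) (κ j) (x j))) := rfl

lemma T_pow (hB : ∀ j, Block (U j) (P j) (κ j) (α j)) (n : ℕ) (x : lp K 2) (j : ℕ) :
    ((T hB ^ n) x) j = D (P j) (κ j) (((U j) ^ n) (Di (P j) (κ j) (x j))) := by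
  induction n generalizing x with
  | zero =>
    rw [pow_zero, pow_zero, one_apply_eq_self]
    exact (D_Di (hB j) (x j)).symm
  | succ n ih =>
    rw [pow_succ, mul_apply_eq_comp, ih, T_apply, Di_D (hB j), pow_succ]
    rfl

lemma T_pow_norm (hB : ∀ j, Block (U j) (P j) (κ j) (α j)) (n : ℕ) : ‖T hB ^ n‖ ≤ 4 := by
  refine ContinuousLinearMap.opNorm_le_bound _ (by norm_num) fun x => ?_
  rw [← sq_le_sq₀ (norm_nonneg _) (by positivity), mul_pow, lp_norm_sq, lp_norm_sq,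
    ← tsum_mul_left]
  refine Summable.tsum_le_tsum (fun j => ?_) (lp_summable _) ((lp_summable x).mul_left _)
  rw [T_pow]
  refine (norm_T_le (hB j) n (x j)).trans ?_
  nlinarith [sq_nonneg ‖x j‖]

lemma X_T (hB : ∀ j, Block (U j) (P j) (κ j) (α j)) : (X hB).comp (T hB) = (W U).comp (X hB) := by
  ext x j
  rw [ContinuousLinearMap.comp_apply, ContinuousLinearMap.comp_apply, X_apply, W_apply, X_apply,
    T_apply, Di_D (hB j)]

lemma X_dense (hB : ∀ j, Block (U j) (P j) (κ j) (α j)) : DenseRange (X hB) := by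
  have h1 : (LinearMap.range (X hB : lp K 2 →ₗ[ℂ] lp K 2)).topologicalClosure = ⊤ := by
    rw [Submodule.topologicalClosure_eq_top_iff, eq_bot_iff]
    intro y hy
    rw [Submodule.mem_orthogonal] at hy
    rw [Submodule.mem_bot]
    ext j
    have h2 := hy (lp.single 2 j (y j)) ⟨lp.single 2 j (D (P j) (κ j) (y j)), by
      ext i
      rw [ContinuousLinearMap.coe_coe, X_apply, lp.single_apply, lp.single_apply]
      by_cases hij : i = j
      · subst hij
        rw [Pi.single_eq_same, Pi.single_eq_same, Di_D (hB i)]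
      · rw [Pi.single_eq_of_ne hij, Pi.single_eq_of_ne hij, map_zero]⟩
    rw [lp.inner_single_left] at h2
    simpa using inner_self_eq_zero.1 h2
  have h3 := Submodule.dense_iff_topologicalClosure_eq_top.2 h1
  exact h3

lemma X_inj (hB : ∀ j, Block (U j) (P j) (κ j) (α j)) (x : lp K 2) (hx : X hB x = 0) : x = 0 := by
  ext j
  have h1 : (X hB x) j = 0 := by rw [hx]; rfl
  rw [X_apply] at h1
  have h2 := D_Di (hB j) (x j)
  rw [h1, map_zero] at h2
  exact h2.symm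

lemma W_pow_norm (U : ∀ j, K j ≃ₗᵢ[ℂ] K j) (n : ℕ) (x : lp K 2) : ‖(W U ^ n) x‖ = ‖x‖ := by
  induction n generalizing x with
  | zero => simp
  | succ n ih => rw [pow_succ, mul_apply_eq_comp, ih, W_norm]

lemma X_T_pow (hB : ∀ j, Block (U j) (P j) (κ j) (α j)) (n : ℕ) (x : lp K 2) :
    X hB ((T hB ^ n) x) = (W U ^ n) (X hB x) := by
  ext j
  rw [X_apply, T_pow, Di_D (hB j), W_pow, X_apply]

/-- First half of the class `C₁₁` condition. -/
lemma C1 (hB : ∀ j, Block (U j) (P j) (κ j) (α j)) (x : lp K 2) (hx : x ≠ 0) :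
    ¬ Tendsto (fun n : ℕ => (T hB ^ n) x) atTop (𝓝 0) := by
  intro h
  have h1 : Tendsto (fun n : ℕ => ‖X hB ((T hB ^ n) x)‖) atTop (𝓝 0) := by
    have := (((X hB).continuous.tendsto 0).comp h).norm
    simpa using this
  simp only [X_T_pow, W_pow_norm] at h1
  have h2 := tendsto_nhds_unique h1 tendsto_const_nhds
  exact hx (X_inj hB x (norm_eq_zero.1 h2.symm))

lemma adj_pow {H : Type*} [NormedAddCommGroup H] [InnerProductSpace ℂ H] [CompleteSpace H]
    (A : H →L[ℂ] H) (n : ℕ) (x y : H) :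
    ⟪(ContinuousLinearMap.adjoint A ^ n) y, x⟫_ℂ = ⟪y, (A ^ n) x⟫_ℂ := by
  induction n generalizing x y with
  | zero => simp
  | succ n ih =>
    rw [pow_succ, mul_apply_eq_comp, ih, ContinuousLinearMap.adjoint_inner_left, pow_succ',
      mul_apply_eq_comp]

lemma norm_U_symm_pow {H : Type*} [NormedAddCommGroup H] [InnerProductSpace ℂ H]
    (V : H ≃ₗᵢ[ℂ] H) (n : ℕ) (v : H) : ∃ w : H, (V ^ n) w = v ∧ ‖w‖ = ‖v‖ :=
  ⟨(V ^ n).symm v, LinearIsometryEquiv.apply_symm_apply _ _, LinearIsometryEquiv.norm_map _ _⟩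

/-- Second half of the class `C₁₁` condition. -/
lemma C2 (hB : ∀ j, Block (U j) (P j) (κ j) (α j)) (y : lp K 2) (hy : y ≠ 0) :
    ¬ Tendsto (fun n : ℕ => (ContinuousLinearMap.adjoint (T hB) ^ n) y) atTop (𝓝 0) := by
  intro h
  apply hy
  ext j
  have h1 : Tendsto (fun n : ℕ => ‖(ContinuousLinearMap.adjoint (T hB) ^ n) y‖ *
      (κ j * ‖y j‖)) atTop (𝓝 0) := by
    have := h.norm.mul_const (κ j * ‖y j‖)
    simpa using this
  have h2 : ∀ n : ℕ, ‖y j‖ ^ 2 ≤ ‖(ContinuousLinearMap.adjoint (T hB) ^ n) y‖ *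
      (κ j * ‖y j‖) := by
    intro n
    obtain ⟨w, hw1, hw2⟩ := norm_U_symm_pow (U j) n (Di (P j) (κ j) (y j))
    have h3 : (T hB ^ n) (lp.single 2 j (D (P j) (κ j) w)) = lp.single 2 j (y j) := by
      ext i
      rw [T_pow, lp.single_apply, lp.single_apply]
      by_cases hij : i = j
      · subst hij
        rw [Pi.single_eq_same, Pi.single_eq_same, Di_D (hB i), hw1, D_Di (hB i)]
      · rw [Pi.single_eq_of_ne hij, Pi.single_eq_of_ne hij, map_zero, map_zero, map_zero]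
    have h4 : ⟪y, lp.single 2 j (y j)⟫_ℂ = ((‖y j‖ ^ 2 : ℝ) : ℂ) := by
      rw [← inner_conj_symm, lp.inner_single_left, inner_conj_symm, inner_self_eq_norm_sq_to_K]
      push_cast
      rfl
    have h5 : ‖⟪y, lp.single 2 j (y j)⟫_ℂ‖ = ‖y j‖ ^ 2 := by
      rw [h4, Complex.norm_real, Real.norm_of_nonneg (sq_nonneg _)]
    rw [← h5, ← h3, ← adj_pow]
    refine (norm_inner_le_norm _ _).trans ?_
    apply mul_le_mul_of_nonneg_left _ (norm_nonneg _)
    rw [lp.norm_single (by norm_num)]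
    refine (norm_D_le (hB j) w).trans ?_
    apply mul_le_mul_of_nonneg_left _ (by linarith [(hB j).one_le])
    rw [hw2]
    exact norm_Di_le (hB j) _
  have h3 : ‖y j‖ ^ 2 ≤ 0 := ge_of_tendsto' h1 h2
  have h4 : ‖y j‖ = 0 := by nlinarith [norm_nonneg (y j)]
  simpa using h4

/-- The norms of the orbits converge along the windows. -/
lemma orbit_tendsto (hB : ∀ j, Block (U j) (P j) (κ j) (α j)) (x : lp K 2) :
    Tendsto (fun n => ‖(T hB ^ n) x‖ ^ 2) Fw (𝓝 (‖X hB x‖ ^ 2)) := by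
  simp only [lp_norm_sq, T_pow, X_apply]
  refine tendsto_tsum_of_dominated_convergence (bound := fun j => 11 * ‖x j‖ ^ 2)
    ((lp_summable x).mul_left _) (fun j => ?_) (Eventually.of_forall fun n j => ?_)
  · simp only [norm_T_sq (hB j)]
    have := ((((hB j).tends (Di (P j) (κ j) (x j))).norm.pow 2).const_mul
      (κ j ^ 2 - 1)).const_add (‖Di (P j) (κ j) (x j)‖ ^ 2)
    simpa using this
  · rw [Real.norm_of_nonneg (sq_nonneg _)]
    exact norm_T_le (hB j) n (x j)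

/-- The limit of the averages. -/
noncomputable def Lam (hB : ∀ j, Block (U j) (P j) (κ j) (α j)) : lp K 2 →L[ℂ] lp K 2 :=
  diagOp (fun j => (α j : ℂ) • ContinuousLinearMap.id ℂ (K j)) 1 (fun j v => by
    have h0 := (hB j).α_pos
    have h1 := (hB j).α_le
    rw [smul_apply, ContinuousLinearMap.id_apply, norm_smul, Complex.norm_real,
      Real.norm_of_nonneg h0.le]
    exact mul_le_mul_of_nonneg_right h1 (norm_nonneg _))

lemma Lam_apply (hB : ∀ j, Block (U j) (P j) (κ j) (α j)) (x : lp K 2) (j : ℕ) :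
    (Lam hB x) j = (α j : ℂ) • x j := rfl

lemma avg_apply (J : ℕ) (x : lp K 2) (j : ℕ) :
    ((J : ℂ)⁻¹ • ∑ k ∈ Finset.range J, (W U ^ (6 ^ k)) x : lp K 2) j =
      (J : ℂ)⁻¹ • ∑ k ∈ Finset.range J, ((U j) ^ (6 ^ k)) (x j) := by
  rw [lp.coeFn_smul, Pi.smul_apply, lp.coeFn_sum, Finset.sum_apply]
  simp only [W_pow]

lemma avg_norm_le (J : ℕ) (j : ℕ) (v : K j) :
    ‖(J : ℂ)⁻¹ • ∑ k ∈ Finset.range J, ((U j) ^ (6 ^ k)) v‖ ≤ ‖v‖ := by
  rcases Nat.eq_zero_or_pos J with rfl | hJ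
  · simp
  rw [norm_smul, norm_inv, Complex.norm_natCast]
  have h1 : ‖∑ k ∈ Finset.range J, ((U j) ^ (6 ^ k)) v‖ ≤ J * ‖v‖ := by
    refine (norm_sum_le _ _).trans (le_of_eq ?_)
    simp only [pow_norm]
    rw [Finset.sum_const, Finset.card_range, nsmul_eq_mul]
  have hJ' : (0 : ℝ) < J := by exact_mod_cast hJ
  rw [inv_mul_le_iff₀ hJ']
  exact h1

lemma avg_tendsto (hB : ∀ j, Block (U j) (P j) (κ j) (α j)) (x : lp K 2) :
    Tendsto (fun J : ℕ => (J : ℂ)⁻¹ • ∑ k ∈ Finset.range J, (W U ^ (6 ^ k)) x) atTop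
      (𝓝 (Lam hB x)) := by
  refine lp_tendsto _ _ x 2 (fun J j => ?_) (fun j => ?_)
  · rw [avg_apply, Lam_apply]
    have h0 := (hB j).α_pos
    have h1 := (hB j).α_le
    have h2 : ‖(α j : ℂ) • x j‖ ≤ ‖x j‖ := by
      rw [norm_smul, Complex.norm_real, Real.norm_of_nonneg h0.le]
      nlinarith [norm_nonneg (x j)]
    have h3 := avg_norm_le (U := U) J j (x j)
    refine (norm_sub_le _ _).trans ?_
    linarith
  · simp only [avg_apply, Lam_apply]
    exact (hB j).avg (x j)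

lemma Lam_pow (hB : ∀ j, Block (U j) (P j) (κ j) (α j)) (M : ℕ) (x : lp K 2) (j : ℕ) :
    (((1 - Lam hB) ^ M) x) j = ((1 - (α j : ℂ)) ^ M) • x j := by
  induction M generalizing x with
  | zero => simp
  | succ M ih =>
    rw [pow_succ, mul_apply_eq_comp, ih, sub_apply, one_apply_eq_self, lp.coeFn_sub, Pi.sub_apply,
      Lam_apply, pow_succ, mul_smul, sub_smul, one_smul]

lemma Lam_tendsto (hB : ∀ j, Block (U j) (P j) (κ j) (α j)) (x : lp K 2) :
    Tendsto (fun M : ℕ => ((1 - Lam hB) ^ M) x) atTop (𝓝 0) := by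
  have hn : ∀ j, ‖(1 - (α j : ℂ))‖ = 1 - α j := by
    intro j
    rw [← Complex.ofReal_one, ← Complex.ofReal_sub, Complex.norm_real,
      Real.norm_of_nonneg (by linarith [(hB j).α_le])]
  refine lp_tendsto _ _ x 1 (fun M j => ?_) (fun j => ?_)
  · rw [Lam_pow]
    have : ((0 : lp K 2) : ∀ j, K j) j = 0 := rfl
    rw [this, sub_zero, norm_smul, norm_pow, hn]
    apply mul_le_mul_of_nonneg_right _ (norm_nonneg _)
    exact pow_le_one₀ (by linarith [(hB j).α_le]) (by linarith [(hB j).α_pos])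
  · simp only [Lam_pow]
    have : ((0 : lp K 2) : ∀ j, K j) j = (0 : ℂ) • x j := by rw [zero_smul]; rfl
    rw [this]
    apply Tendsto.smul_const
    apply tendsto_pow_atTop_nhds_zero_of_norm_lt_one
    rw [hn]
    linarith [(hB j).α_pos]

/-- Not similar to the unitary. -/
lemma not_similar (hB : ∀ j, Block (U j) (P j) (κ j) (α j)) (hκ : Tendsto κ atTop atTop)
    (S : lp K 2 ≃L[ℂ] lp K 2) (hS : ∀ v, S (T hB v) = W U (S v)) : False := by
  set A : ℝ := ‖(S.symm : lp K 2 →L[ℂ] lp K 2)‖ * ‖(S : lp K 2 →L[ℂ] lp K 2)‖ with hA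
  obtain ⟨j, hj⟩ := (hκ.eventually_gt_atTop (2 * A)).exists
  obtain ⟨v, hv1, hv2, hv3⟩ := (hB j).bad
  have h1 := norm_D_sq (hB j) (κ j) v
  have h1k := (hB j).one_le
  have h2 : κ j / 2 ≤ ‖D (P j) (κ j) v‖ := by
    refine (sq_le_sq₀ (by linarith) (norm_nonneg _)).1 ?_
    rw [h1, hv1]
    have : (1 / 2 : ℝ) ^ 2 ≤ ‖P j v‖ ^ 2 := pow_le_pow_left₀ (by norm_num) hv3 2
    have h3 := mul_le_mul_of_nonneg_left this (k2 (hB j))
    nlinarith
  let x : lp K 2 := lp.single 2 j (D (P j) (κ j) v)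
  have hx : ‖x‖ = ‖D (P j) (κ j) v‖ := lp.norm_single (by norm_num) _ _
  have hT : ‖T hB x‖ = 1 := by
    have : T hB x = lp.single 2 j (U j v) := by
      ext i
      rw [T_apply]
      show D (P i) (κ i) ((U i) (Di (P i) (κ i) (lp.single 2 j (D (P j) (κ j) v) i))) = _
      rw [lp.single_apply, lp.single_apply]
      by_cases hij : i = j
      · subst hij
        rw [Pi.single_eq_same, Pi.single_eq_same, Di_D (hB i), D_apply, hv2, smul_zero, add_zero]
      · rw [Pi.single_eq_of_ne hij, Pi.single_eq_of_ne hij, map_zero, map_zero, map_zero]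
    rw [this, lp.norm_single (by norm_num), LinearIsometryEquiv.norm_map, hv1]
  have h3 : ‖x‖ ≤ A := by
    calc ‖x‖ = ‖(S.symm : lp K 2 →L[ℂ] lp K 2) (S x)‖ := by simp
      _ ≤ ‖(S.symm : lp K 2 →L[ℂ] lp K 2)‖ * ‖S x‖ := ContinuousLinearMap.le_opNorm _ _
      _ = ‖(S.symm : lp K 2 →L[ℂ] lp K 2)‖ * ‖S (T hB x)‖ := by rw [hS, W_norm]
      _ ≤ ‖(S.symm : lp K 2 →L[ℂ] lp K 2)‖ * (‖(S : lp K 2 →L[ℂ] lp K 2)‖ * ‖T hB x‖) := by
          apply mul_le_mul_of_nonneg_left _ (norm_nonneg _)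
          exact ContinuousLinearMap.le_opNorm (S : lp K 2 →L[ℂ] lp K 2) _
      _ = A := by rw [hT, mul_one]
  rw [hx] at h3
  linarith

end sums

end Pool.Agent.Helper139.Tw7
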